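import Pool.Agent.SVR.Defs

set_option autoImplicit false

/-!
# [SVR-Bal] balls: size, symmetry; number of chains

`ball_card`: induction on `n`: the new columns lie in `⋃_{l ∈ ball n} ⋃_{i : v i l ≠ 0} supp (v i)`, at most
`card (ball n) * D * D`.
`ball_symm`: show `l ∈ ball v j n ↔` there is a list of `n'` `≤ n` steps; e.g. prove
`ball v j (n+1) = ` columns reachable by first one step and then `n` steps (induction), or
`l ∈ ball v j n → l' one step from l ... `: the one step relation
`∃ i, v i l ≠ 0 ∧ v i l' ≠ 0` is symmetric.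
`chain_card`: induction on `k` (or an injection): a chain of `k + 1` rows restricted to the first `k` rows
(`Fin.castSucc`) is a chain; the last row is one of at most `D^4` rows
(`l ∈ supp (c t)`, `i ∋ l`, `l' ∈ supp i`, `c t' ∋ l'`); the first row contains `j`: at most `D`
(`D ≤ D^4` for naturals).
-/

namespace Pool.Agent.SVR

open Finset

open scoped Classical

variable {I J : Type} [Fintype I] [Fintype J]

theorem bal_mem_succ (v : I → J → ℝ) (j l : J) (n : ℕ) : l ∈ ball v j (n + 1) ↔
    l ∈ ball v j n ∨ ∃ i, v i l ≠ 0 ∧ ∃ l' ∈ ball v j n, v i l' ≠ 0 := by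
  show l ∈ ball v j n ∪ univ.filter (fun l' => ∃ i, v i l' ≠ 0 ∧ ∃ l ∈ ball v j n, v i l ≠ 0) ↔ _
  rw [mem_union, mem_filter]
  simp only [mem_univ, true_and]

theorem bal_mem_zero (v : I → J → ℝ) (j l : J) : l ∈ ball v j 0 ↔ l = j := by
  show l ∈ ({j} : Finset J) ↔ _
  rw [mem_singleton]

theorem ball_card (v : I → J → ℝ) (D : ℕ)
    (hD1 : ∀ i, (univ.filter fun j => v i j ≠ 0).card ≤ D)
    (hD2 : ∀ j, (univ.filter fun i => v i j ≠ 0).card ≤ D) (j : J) (n : ℕ) :
    (ball v j n).card ≤ (1 + D ^ 2) ^ n := by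
  induction n with
  | zero =>
    show ({j} : Finset J).card ≤ _
    rw [card_singleton, pow_zero]
  | succ n ih =>
    have h1 : ball v j (n + 1) ⊆ ball v j n ∪ (ball v j n).biUnion fun l =>
        (univ.filter fun i => v i l ≠ 0).biUnion fun i => univ.filter fun l' => v i l' ≠ 0 := by
      intro l hl
      rcases (bal_mem_succ v j l n).1 hl with h | ⟨i, hi, l', hl', hil'⟩
      · exact mem_union_left _ h
      · refine mem_union_right _ (mem_biUnion.2 ⟨l', hl', mem_biUnion.2 ⟨i, ?_, ?_⟩⟩)
        · exact mem_filter.2 ⟨mem_univ _, hil'⟩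
        · exact mem_filter.2 ⟨mem_univ _, hi⟩
    have h2 : ((ball v j n).biUnion fun l =>
        (univ.filter fun i => v i l ≠ 0).biUnion fun i => univ.filter fun l' => v i l' ≠ 0).card ≤
        (ball v j n).card * (D * D) := by
      refine card_biUnion_le_card_mul _ _ _ fun l _ => ?_
      refine (card_biUnion_le_card_mul _ _ D fun i _ => hD1 i).trans ?_
      exact Nat.mul_le_mul_right D (hD2 l)
    calc (ball v j (n + 1)).card ≤ (ball v j n).card + (ball v j n).card * (D * D) :=
          (card_le_card h1).trans ((card_union_le _ _).trans (Nat.add_le_add_left h2 _))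
      _ = (ball v j n).card * (1 + D ^ 2) := by ring
      _ ≤ (1 + D ^ 2) ^ n * (1 + D ^ 2) := Nat.mul_le_mul_right _ ih
      _ = (1 + D ^ 2) ^ (n + 1) := (pow_succ _ _).symm

theorem bal_step (v : I → J → ℝ) {i : I} {j j' : J} (h : v i j ≠ 0) (h' : v i j' ≠ 0) (n : ℕ) :
    ∀ l, l ∈ ball v j' n → l ∈ ball v j (n + 1) := by
  induction n with
  | zero =>
    intro l hl
    rw [bal_mem_zero] at hl
    subst hl
    rw [bal_mem_succ]
    exact Or.inr ⟨i, h', j, (bal_mem_zero v j j).2 rfl, h⟩
  | succ n ih =>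
    intro l hl
    rw [bal_mem_succ] at hl
    rw [bal_mem_succ]
    rcases hl with hl | ⟨i', hi', l', hl', hil'⟩
    · exact Or.inl (ih l hl)
    · exact Or.inr ⟨i', hi', l', ih l' hl', hil'⟩

theorem bal_symm_one (v : I → J → ℝ) (j : J) (n : ℕ) :
    ∀ l, l ∈ ball v j n → j ∈ ball v l n := by
  induction n with
  | zero =>
    intro l hl
    rw [bal_mem_zero] at hl ⊢
    exact hl.symm
  | succ n ih =>
    intro l hl
    rw [bal_mem_succ] at hl
    rcases hl with hl | ⟨i, hi, l', hl', hil'⟩
    · rw [bal_mem_succ]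
      exact Or.inl (ih l hl)
    · exact bal_step v hi hil' n j (ih l' hl')

theorem ball_symm (v : I → J → ℝ) (j l : J) (n : ℕ) : l ∈ ball v j n ↔ j ∈ ball v l n :=
  ⟨bal_symm_one v j n l, bal_symm_one v l n j⟩

theorem ball_self (v : I → J → ℝ) (j : J) (n : ℕ) : j ∈ ball v j n := by
  induction n with
  | zero => exact (bal_mem_zero v j j).2 rfl
  | succ n ih => exact (bal_mem_succ v j j n).2 (Or.inl ih)

theorem bal_adj (v : I → J → ℝ) (D : ℕ)
    (hD1 : ∀ i, (univ.filter fun j => v i j ≠ 0).card ≤ D)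
    (hD2 : ∀ j, (univ.filter fun i => v i j ≠ 0).card ≤ D) (i : I) :
    (univ.filter fun i' => Adj v i i').card ≤ D ^ 2 := by
  have h1 : (univ.filter fun i' => Adj v i i') ⊆ (univ.filter fun l => v i l ≠ 0).biUnion
      fun l => univ.filter fun i' => v i' l ≠ 0 := by
    intro i' hi'
    obtain ⟨l, h, h'⟩ := (mem_filter.1 hi').2
    exact mem_biUnion.2 ⟨l, mem_filter.2 ⟨mem_univ _, h⟩, mem_filter.2 ⟨mem_univ _, h'⟩⟩
  refine (card_le_card h1).trans ((card_biUnion_le_card_mul _ _ D fun l _ => hD2 l).trans ?_)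
  rw [pow_two]
  exact Nat.mul_le_mul_right D (hD1 i)

theorem bal_adj2 (v : I → J → ℝ) (D : ℕ)
    (hD1 : ∀ i, (univ.filter fun j => v i j ≠ 0).card ≤ D)
    (hD2 : ∀ j, (univ.filter fun i => v i j ≠ 0).card ≤ D) (i : I) :
    (univ.filter fun i'' => ∃ i', Adj v i i' ∧ Adj v i' i'').card ≤ D ^ 4 := by
  have h1 : (univ.filter fun i'' => ∃ i', Adj v i i' ∧ Adj v i' i'') ⊆
      (univ.filter fun i' => Adj v i i').biUnion fun i' => univ.filter fun i'' => Adj v i' i'' := by
    intro i'' hi''
    obtain ⟨i', h, h'⟩ := (mem_filter.1 hi'').2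
    exact mem_biUnion.2 ⟨i', mem_filter.2 ⟨mem_univ _, h⟩, mem_filter.2 ⟨mem_univ _, h'⟩⟩
  refine (card_le_card h1).trans
    ((card_biUnion_le_card_mul _ _ (D ^ 2) fun i' _ => bal_adj v D hD1 hD2 i').trans ?_)
  calc (univ.filter fun i' => Adj v i i').card * D ^ 2 ≤ D ^ 2 * D ^ 2 :=
        Nat.mul_le_mul_right _ (bal_adj v D hD1 hD2 i)
    _ = D ^ 4 := by ring

theorem bal_init (v : I → J → ℝ) (j : J) {k : ℕ} {c : Fin (k + 1) → I}
    (h : IsChain v j (k + 1) c) : IsChain v j k (fun t => c t.castSucc) := by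
  refine ⟨fun t ht => h.start _ ht, fun t t' ht => h.step _ _ ht, fun t t' ht => h.disj _ _ ?_⟩
  intro h1
  exact ht (Fin.castSucc_injective k h1)

theorem chain_card (v : I → J → ℝ) (D : ℕ)
    (hD1 : ∀ i, (univ.filter fun j => v i j ≠ 0).card ≤ D)
    (hD2 : ∀ j, (univ.filter fun i => v i j ≠ 0).card ≤ D) (j : J) (k : ℕ) :
    (univ.filter fun c : Fin k → I => IsChain v j k c).card ≤ D ^ (4 * k) := by
  induction k with
  | zero =>
    refine (card_le_card (filter_subset _ _)).trans ?_
    simp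
  | succ k ih =>
    have hfib : ∀ a ∈ (univ.filter fun c : Fin (k + 1) → I => IsChain v j (k + 1) c).image
        (fun c => fun t : Fin k => c t.castSucc),
        ((univ.filter fun c : Fin (k + 1) → I => IsChain v j (k + 1) c).filter
          (fun c => (fun t : Fin k => c t.castSucc) = a)).card ≤ D ^ 4 := by
      intro a _
      obtain ⟨T, hT, hcT⟩ : ∃ T : Finset I, T.card ≤ D ^ 4 ∧ ∀ c : Fin (k + 1) → I,
          IsChain v j (k + 1) c → (fun t : Fin k => c t.castSucc) = a → c (Fin.last k) ∈ T := by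
        rcases Nat.eq_zero_or_pos k with hk | hk
        · subst hk
          refine ⟨univ.filter fun i => v i j ≠ 0, (hD2 j).trans ?_, ?_⟩
          · exact Nat.le_self_pow (by norm_num) D
          · intro c hc _
            exact mem_filter.2 ⟨mem_univ _, hc.start _ rfl⟩
        · refine ⟨univ.filter fun i'' => ∃ i', Adj v (a ⟨k - 1, by omega⟩) i' ∧ Adj v i' i'',
            bal_adj2 v D hD1 hD2 _, ?_⟩
          intro c hc hca
          refine mem_filter.2 ⟨mem_univ _, ?_⟩
          have h1 := hc.step (Fin.castSucc ⟨k - 1, by omega⟩) (Fin.last k) (by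
            simp only [Fin.val_last, Fin.castSucc_mk]
            omega)
          rw [← hca]
          exact h1
      refine (card_le_card_of_injOn (fun c => c (Fin.last k)) ?_ ?_).trans hT
      · intro c hc
        have hc' := mem_filter.1 (mem_coe.1 hc)
        exact mem_coe.2 (hcT c (mem_filter.1 hc'.1).2 hc'.2)
      · intro c hc c' hc' hcc
        have h1 := (mem_filter.1 (mem_coe.1 hc)).2
        have h2 := (mem_filter.1 (mem_coe.1 hc')).2
        funext t
        refine Fin.lastCases ?_ (fun t => ?_) t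
        · exact hcc
        · have h3 := congrFun (h1.trans h2.symm) t
          exact h3
    have h1 := card_le_mul_card_image (univ.filter fun c : Fin (k + 1) → I => IsChain v j (k + 1) c)
      (D ^ 4) hfib
    have h2 : ((univ.filter fun c : Fin (k + 1) → I => IsChain v j (k + 1) c).image
        (fun c => fun t : Fin k => c t.castSucc)).card ≤ D ^ (4 * k) := by
      refine (card_le_card ?_).trans ih
      intro a ha
      obtain ⟨c, hc, rfl⟩ := mem_image.1 ha
      exact mem_filter.2 ⟨mem_univ _, bal_init v j (mem_filter.1 hc).2⟩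
    calc _ ≤ D ^ 4 * _ := h1
      _ ≤ D ^ 4 * D ^ (4 * k) := Nat.mul_le_mul_left _ h2
      _ = D ^ (4 * (k + 1)) := by ring

end Pool.Agent.SVR
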