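import Pool.Agent.SVR.Defs

set_option autoImplicit false

/-!
# [SVR-CmA] walks of rows and extraction of a chain

`Walk v j L l`: `L` is the list of rows of a walk from column `j` to column `l`, the LAST row first.
`extract`: if `l` is not within `2 k` row steps of `j`, every walk from `j` to `l` contains (as a set
of positions) a chain of `k` rows.  Conclusion in a form which is directly usable: an injection is
not needed, only the inequality between the numbers of good rows.

Proof of `extract` (induction on `k` in the following form).  Claim `S(t)`: let `i0` be a row, `l0` a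
column of `i0`, and let `i1, .., iL` be the rows of a walk from `l0` to `l` (consecutive ones share a
column, the first contains `l0`, the last contains `l`); suppose `l` is not reachable from the columns of
`i0` by `2 t` rows (`∀ l1, v i0 l1 ≠ 0 → l ∉ ball v l1 (2 t)`).  Then there are positions
`1 ≤ a_1 < .. < a_t ≤ L` such that the rows `i0, c_1 = i_{a_1}, .., c_t` are pairwise non-adjacent and
consecutive ones are at distance at most two (some row adjacent to both).  Induction on `t`: let `b` be the
last index in `0..L` with `i_b` adjacent (or equal) to `i0`.  If `b = L` then `l ∈ ball v l1 2` for a column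
`l1` of `i0` (one row `i_b`, since it contains `l` and shares a column with `i0`), contradiction for `t ≥ 1`;
so `b < L`, `c_1 = i_{b+1}`; rows `i_{b+1}, .., i_L` are not adjacent to `i0`.  Every column of `c_1` is
within two rows of a column of `i0` (through `i_b`), so the hypothesis of `S(t-1)` holds for `c_1` and the
walk `i_{b+2}, .., i_L`.
For the theorem: the walk is nonempty if `l ∉ ball v j (2k)`, `k ≥ 1`; `i0` = its first row (contains `j`),
`t = k - 1`.  (`ball` is monotone in `n`, `ball v l1 n ⊆ ball v j (n+1)` if `l1`, `j` share a row: prove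
small lemmas as needed.)
-/

namespace Pool.Agent.SVR

open Finset

open scoped Classical

variable {I J : Type} [Fintype I] [Fintype J]

/-- walk from column `j` to column `l`; the last row is the head of the list -/
inductive Walk (v : I → J → ℝ) (j : J) : List I → J → Prop
  | nil : Walk v j [] j
  | cons (L : List I) (i : I) (l l' : J) : Walk v j L l → v i l ≠ 0 → v i l' ≠ 0 →
      Walk v j (i :: L) l'

omit [Fintype I] [Fintype J] in
theorem cma_symm {v : I → J → ℝ} {a b : I} (h : Adj v a b) : Adj v b a := by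
  obtain ⟨l, h1, h2⟩ := h
  exact ⟨l, h2, h1⟩

theorem cma_self (v : I → J → ℝ) (j : J) (n : ℕ) : j ∈ ball v j n := by
  induction n with
  | zero => exact Finset.mem_singleton_self j
  | succ n ih => exact Finset.mem_union_left _ ih

theorem cma_step {v : I → J → ℝ} {j l l' : J} {i : I} {n : ℕ} (hl : l ∈ ball v j n)
    (h : v i l ≠ 0) (h' : v i l' ≠ 0) : l' ∈ ball v j (n + 1) := by
  refine Finset.mem_union_right _ ?_
  rw [Finset.mem_filter]
  exact ⟨Finset.mem_univ _, i, h', l, hl, h⟩

theorem cma_mono {v : I → J → ℝ} {j l : J} {n m : ℕ} (h : n ≤ m) (hl : l ∈ ball v j n) :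
    l ∈ ball v j m := by
  induction m with
  | zero =>
    have : n = 0 := by omega
    subst this
    exact hl
  | succ m ih =>
    rcases Nat.lt_or_ge n (m + 1) with h1 | h1
    · exact Finset.mem_union_left _ (ih (by omega))
    · have : n = m + 1 := by omega
      subst this
      exact hl

theorem cma_trans {v : I → J → ℝ} {j m l : J} {a b : ℕ} (h1 : m ∈ ball v j a)
    (h2 : l ∈ ball v m b) : l ∈ ball v j (a + b) := by
  induction b generalizing l with
  | zero =>
    have : l = m := Finset.mem_singleton.mp h2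
    rw [this]
    exact h1
  | succ b ih =>
    rcases Finset.mem_union.mp h2 with h3 | h3
    · exact Finset.mem_union_left _ (ih h3)
    · rw [Finset.mem_filter] at h3
      obtain ⟨-, i, hi, m', hm', hi'⟩ := h3
      exact cma_step (ih hm') hi' hi

omit [Fintype I] [Fintype J] in
/-- the row after the last one adjacent to `i0` -/
theorem cma_split {v : I → J → ℝ} {i0 : I} {l0 l : J} {L : List I} (h0 : v i0 l0 ≠ 0)
    (hL : Walk v l0 L l) :
    (∃ i, Adj v i0 i ∧ v i l ≠ 0) ∨
      ∃ (c : I) (L1 L2 : List I) (l1 : J), L = L1 ++ c :: L2 ∧ (∀ i ∈ L1, ¬ Adj v i0 i) ∧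
        ¬ Adj v i0 c ∧ (∃ i, Adj v i0 i ∧ Adj v i c) ∧ v c l1 ≠ 0 ∧ Walk v l1 L1 l := by
  induction hL with
  | nil => exact Or.inl ⟨i0, ⟨l0, h0, h0⟩, h0⟩
  | cons L i l l' hL h1 h2 ih =>
    by_cases hadj : Adj v i0 i
    · exact Or.inl ⟨i, hadj, h2⟩
    · right
      rcases ih with ⟨i1, h3, h4⟩ | ⟨c, L1, L2, l1, e, h3, h4, h5, h6, h7⟩
      · refine ⟨i, [], L, l', rfl, fun _ h => absurd h (by simp), hadj, ⟨i1, h3, l, h4, h1⟩, h2,
          Walk.nil⟩
      · refine ⟨c, i :: L1, L2, l1, by rw [e]; rfl, ?_, h4, h5, h6, Walk.cons L1 i l l' h7 h1 h2⟩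
        intro x hx
        rcases List.mem_cons.mp hx with h8 | h8
        · rw [h8]
          exact hadj
        · exact h3 x h8

omit [Fintype I] [Fintype J] in
/-- the first row -/
theorem cma_first {v : I → J → ℝ} {j l : J} {L : List I} (hL : Walk v j L l) :
    l = j ∨ ∃ (L1 : List I) (i0 : I) (l1 : J), (L1 ++ [i0]).Sublist L ∧ v i0 j ≠ 0 ∧
      v i0 l1 ≠ 0 ∧ Walk v l1 L1 l := by
  induction hL with
  | nil => exact Or.inl rfl
  | cons L i l l' hL h1 h2 ih =>
    right
    rcases ih with e | ⟨L1, i0, m, e, h5, h6, h7⟩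
    · rw [e] at h1
      exact ⟨[], i, l', List.Sublist.cons_cons i (List.nil_sublist L), h1, h2, Walk.nil⟩
    · exact ⟨i :: L1, i0, m, List.Sublist.cons_cons i e, h5, h6, Walk.cons L1 i l l' h7 h1 h2⟩

theorem cma_claim (v : I → J → ℝ) (l : J) (t : ℕ) : ∀ (i0 : I) (l0 : J) (L : List I),
    v i0 l0 ≠ 0 → Walk v l0 L l → (∀ l1, v i0 l1 ≠ 0 → l ∉ ball v l1 (2 * t)) →
    ∃ G : List I, G.length = t ∧ G.reverse.Sublist L ∧
      (i0 :: G).Pairwise (fun a b => ¬ Adj v a b) ∧
      (i0 :: G).IsChain (fun a b => ∃ i, Adj v a i ∧ Adj v i b) := by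
  induction t with
  | zero =>
    intro i0 l0 L _ _ _
    exact ⟨[], rfl, List.nil_sublist L, List.pairwise_singleton _ _, List.isChain_singleton _⟩
  | succ t ih =>
    intro i0 l0 L h0 hL hfar
    rcases cma_split h0 hL with ⟨i, ⟨l1, h1, h2⟩, h3⟩ | ⟨c, L1, L2, l1, e, h3, h4, h5, h6, h7⟩
    · exact absurd (cma_mono (by omega) (cma_step (cma_self v l1 0) h2 h3)) (hfar l1 h1)
    · obtain ⟨G, g1, g2, g3, g4⟩ := ih c l1 L1 h6 h7 (by
        intro l2 h8 h9
        obtain ⟨i, ⟨m1, a1, a2⟩, ⟨m2, b1, b2⟩⟩ := h5
        have c1 : l2 ∈ ball v m1 2 :=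
          cma_step (cma_step (cma_self v m1 0) a2 b1) b2 h8
        exact hfar m1 a1 (cma_mono (by omega) (cma_trans c1 h9)))
      refine ⟨c :: G, by rw [List.length_cons, g1], ?_, ?_, ?_⟩
      · rw [List.reverse_cons, e]
        exact List.Sublist.append g2 (List.Sublist.cons_cons c (List.nil_sublist L2))
      · rw [List.pairwise_cons]
        refine ⟨fun a ha => ?_, g3⟩
        rcases List.mem_cons.mp ha with h8 | h8
        · rw [h8]
          exact h4
        · exact h3 a (g2.subset (List.mem_reverse.mpr h8))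
      · exact List.isChain_cons_cons.mpr ⟨h5, g4⟩

theorem cma_final (v : I → J → ℝ) (j l : J) (k : ℕ) (L : List I) (hL : Walk v j L l)
    (hl : l ∉ ball v j (2 * k)) :
    ∃ G : List I, G.length = k ∧ G.reverse.Sublist L ∧
      G.Pairwise (fun a b => ¬ Adj v a b) ∧
      G.IsChain (fun a b => ∃ i, Adj v a i ∧ Adj v i b) ∧
      ∀ a, G.head? = some a → v a j ≠ 0 := by
  rcases Nat.eq_zero_or_pos k with hk | hk
  · subst hk
    exact ⟨[], rfl, List.nil_sublist L, List.Pairwise.nil, List.isChain_nil,
      fun a ha => absurd ha (by simp)⟩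
  obtain ⟨t, rfl⟩ : ∃ t, k = t + 1 := ⟨k - 1, by omega⟩
  rcases cma_first hL with e | ⟨L1, i0, l1, h1, h2, h3, h4⟩
  · rw [e] at hl
    exact absurd (cma_self v j _) hl
  · obtain ⟨G, g1, g2, g3, g4⟩ := cma_claim v l t i0 l1 L1 h3 h4 (by
      intro l2 h5 h6
      exact hl (cma_mono (by omega) (cma_trans (cma_step (cma_self v j 0) h2 h5) h6)))
    refine ⟨i0 :: G, by rw [List.length_cons, g1], ?_, g3, g4, ?_⟩
    · rw [List.reverse_cons]
      exact (List.Sublist.append g2 (List.Sublist.refl [i0])).trans h1
    · intro a ha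
      rw [List.head?_cons] at ha
      rw [← Option.some.inj ha]
      exact h2

omit [Fintype I] in
theorem cma_card (P : I → Prop) (G : List I) :
    (univ.filter fun t : Fin G.length => P (G.get t)).card =
      (G.filter (fun i => decide (P i))).length := by
  rw [Finset.card_filter]
  induction G with
  | nil => simp
  | cons a G ih =>
    have h : ∑ t : Fin (a :: G).length, (if P ((a :: G).get t) then 1 else 0) =
        (if P a then 1 else 0) + ∑ t : Fin G.length, (if P (G.get t) then 1 else 0) :=
      Fin.sum_univ_succ (n := G.length) (fun t => if P ((a :: G).get t) then 1 else 0)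
    rw [h, ih]
    by_cases hP : P a
    · rw [if_pos hP, List.filter_cons_of_pos (by simpa using hP), List.length_cons]
      omega
    · rw [if_neg hP, List.filter_cons_of_neg (by simpa using hP)]
      omega

theorem extract (v : I → J → ℝ) (j l : J) (k : ℕ) (L : List I) (hL : Walk v j L l)
    (hl : l ∉ ball v j (2 * k)) (P : I → Prop) :
    ∃ c : Fin k → I, IsChain v j k c ∧
      (univ.filter fun t => P (c t)).card ≤ (L.filter (fun i => decide (P i))).length := by
  obtain ⟨G, hlen, hsub, hpw, hch, hst⟩ := cma_final v j l k L hL hl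
  subst hlen
  refine ⟨fun t => G.get t, ⟨?_, ?_, ?_⟩, ?_⟩
  · intro t ht
    refine hst (G.get t) ?_
    cases G with
    | nil => exact absurd t.2 (by simp)
    | cons a G =>
      have e : t = ⟨0, by simp⟩ := Fin.ext ht
      rw [e]
      rfl
  · intro t t' htt
    have h1 : (t : ℕ) + 1 < G.length := by
      have := t'.2
      omega
    have h2 := (List.isChain_iff_getElem.mp hch) t h1
    have e : t' = ⟨(t : ℕ) + 1, h1⟩ := Fin.ext htt
    rw [e]
    exact h2
  · intro t t' htt hadj
    have h3 := List.pairwise_iff_get.mp hpw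
    rcases lt_or_gt_of_ne htt with h | h
    · exact h3 t t' h hadj
    · exact h3 t' t h (cma_symm hadj)
  · rw [cma_card]
    have h4 := (hsub.filter (fun i => decide (P i))).length_le
    rw [List.filter_reverse, List.length_reverse] at h4
    exact h4

end Pool.Agent.SVR
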