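import Pool.Agent.SVR.CmA

set_option autoImplicit false

/-!
# [SVR-CmB] the height function `N`

`N l = min k (least number of good rows (rows with `¬ Bad i`) of a walk from `j` to `l`)`, and `N l = k` if
there is no walk (`Walk` of row CmA).
* `N j = 0` (empty walk).
* a bad row `i` with `v i l ≠ 0`, `v i l' ≠ 0`: appending `i` to a walk to `l` gives a walk to `l'` with the
  same number of good rows, so `N l' ≤ N l`; by symmetry equality.
* any row: appending it increases the number of good rows by at most one: `N l' ≤ N l + 1`.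
* `l ∉ ball v j (2 k)`: if `N l = k` then `k ≤ 2 N l`.  Otherwise take a walk `L` with `N l` good rows and
  `extract` with `P i = ¬ Bad i`: a chain `c` of `k` rows with
  `#{t | ¬ Bad (c t)} ≤ N l`; `#{t | Bad (c t)} + #{t | ¬ Bad (c t)} = k` and `2 #{t | Bad (c t)} ≤ k`
  give `k ≤ 2 N l`.
-/

namespace Pool.Agent.SVR

open Finset

open scoped Classical

variable {I J : Type} [Fintype I] [Fintype J]

theorem exists_height (v : I → J → ℝ) (Bad : I → Prop) (j : J) (k : ℕ)
    (hc : ∀ c : Fin k → I, IsChain v j k c → 2 * (univ.filter fun t => Bad (c t)).card ≤ k) :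
    ∃ N : J → ℕ, N j = 0 ∧
      (∀ i, Bad i → ∀ l l', v i l ≠ 0 → v i l' ≠ 0 → N l = N l') ∧
      (∀ i l l', v i l ≠ 0 → v i l' ≠ 0 → N l ≤ N l' + 1) ∧
      (∀ l, l ∉ ball v j (2 * k) → k ≤ 2 * N l) := by
  obtain ⟨P, hP⟩ : ∃ P : I → Prop, ∀ i, P i ↔ ¬ Bad i := ⟨fun i => ¬ Bad i, fun _ => Iff.rfl⟩
  let cnt : List I → ℕ := fun L => (L.filter (fun i => decide (P i))).length
  let T : J → Set ℕ := fun l => {n | n = k ∨ ∃ L, Walk v j L l ∧ cnt L = n}
  have hmem : ∀ l, sInf (T l) ∈ T l := fun l => Nat.sInf_mem ⟨k, Or.inl rfl⟩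
  have hle : ∀ l n, n ∈ T l → sInf (T l) ≤ n := fun l n h => Nat.sInf_le h
  have hk : ∀ l, sInf (T l) ≤ k := fun l => hle l k (Or.inl rfl)
  have hbad : ∀ i, Bad i → ∀ l l', v i l ≠ 0 → v i l' ≠ 0 → sInf (T l') ≤ sInf (T l) := by
    intro i hi l l' h1 h2
    rcases hmem l with h | ⟨L, hL, hc⟩
    · rw [h]
      exact hk l'
    · refine hle l' _ (Or.inr ⟨i :: L, Walk.cons L i l l' hL h1 h2, ?_⟩)
      show ((i :: L).filter (fun i => decide (P i))).length = _
      rw [List.filter_cons_of_neg (by simpa [hP] using hi)]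
      exact hc
  refine ⟨fun l => sInf (T l), ?_, ?_, ?_, ?_⟩
  · exact Nat.le_zero.mp (hle j 0 (Or.inr ⟨[], Walk.nil, rfl⟩))
  · intro i hi l l' h1 h2
    exact le_antisymm (hbad i hi l' l h2 h1) (hbad i hi l l' h1 h2)
  · intro i l l' h1 h2
    show sInf (T l) ≤ sInf (T l') + 1
    rcases hmem l' with h | ⟨L, hL, hc⟩
    · have := hk l
      omega
    · have h3 : sInf (T l) ≤ cnt (i :: L) :=
        hle l _ (Or.inr ⟨i :: L, Walk.cons L i l' l hL h2 h1, rfl⟩)
      have h4 : cnt (i :: L) ≤ cnt L + 1 := by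
        show ((i :: L).filter (fun i => decide (P i))).length ≤
          (L.filter (fun i => decide (P i))).length + 1
        rw [List.filter_cons]
        split_ifs
        · rw [List.length_cons]
        · omega
      omega
  · intro l hl
    show k ≤ 2 * sInf (T l)
    rcases hmem l with h | ⟨L, hL, hc'⟩
    · omega
    · obtain ⟨c, hch, hcard⟩ := extract v j l k L hL hl P
      have h1 := hc c hch
      have h2 : (univ.filter fun t => Bad (c t)).card + (univ.filter fun t => ¬ Bad (c t)).card
          = k := by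
        rw [Finset.card_filter_add_card_filter_not]
        simp
      have h3 : (univ.filter fun t => P (c t)).card ≤ sInf (T l) := by
        rw [← hc']
        exact hcard
      have h4 : (univ.filter fun t => P (c t)) = (univ.filter fun t => ¬ Bad (c t)) :=
        Finset.filter_congr (fun t _ => hP (c t))
      rw [h4] at h3
      omega

end Pool.Agent.SVR
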