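import Pool.Agent.SVR.Two

set_option autoImplicit false

/-!
# [SVR-Crv] lower bound for the response of a coordinate to its own noise

Let `D = g j - g' j`, `δ = z g - z g'`, `a_i = lin v i (z g) - lin v i (z g')`,
`b_i = p (..) - p (..)`, `d = q (z g j) - q (z g' j)`.  Equation at `j`:
`D = δ j + ∑ i, v i j * b_i + d`.  `two_point` (only coordinate `j` of `g - g'` is nonzero) and
monotonicity: `δ j ^2 + ∑ i, a_i b_i + δ j * d ≤ D * δ j`.
With `κ_i = (ψ s_i ^4 + ψ s'_i ^4)/R`, `|b_i| ≤ κ_i |a_i|` (A2) hence `b_i^2 ≤ κ_i a_i b_i`; with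
`κ = 256 (χ(z g j)^4 + χ(z g' j)^4)` (A2 of the unit potential, `/(1/256)`), `d^2 ≤ κ δ_j d`.
Cauchy-Schwarz: `D^2 ≤ (1 + ∑ i, v i j ^2 κ_i + κ) * (δ j^2 + ∑ i, a_i b_i + δ_j d)`
`≤ (1 + ∑ i |v i j| κ_i + κ) * D * δ j`, i.e. with `H = 1 + Hc g j + Hc g' j`: `D^2 ≤ H * |D| * |δ j|`.
Divide by `|D|` (trivial if `D = 0`).
-/

namespace Pool.Agent.SVR

open MeasureTheory Finset

variable {I J : Type} [Fintype I] [Fintype J]
variable {v : I → J → ℝ} {ρ R Y : ℝ} {p ψ q χ : ℝ → ℝ} {z : (J → ℝ) → (J → ℝ)}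

theorem crv_cs (a b c d S P Q : ℝ) (hP : 0 ≤ P) (hQ : 0 ≤ Q) (hS : S ^ 2 ≤ P * Q) :
    (a * b + S + c * d) ^ 2 ≤ (a ^ 2 + P + c ^ 2) * (b ^ 2 + Q + d ^ 2) := by
  obtain ⟨u, hu0, hu⟩ : ∃ u : ℝ, 0 ≤ u ∧ u ^ 2 = P := ⟨√P, Real.sqrt_nonneg P, Real.sq_sqrt hP⟩
  obtain ⟨w, hw0, hw⟩ : ∃ w : ℝ, 0 ≤ w ∧ w ^ 2 = Q := ⟨√Q, Real.sqrt_nonneg Q, Real.sq_sqrt hQ⟩
  have hSa : |S| ≤ u * w := by
    apply abs_le_of_sq_le_sq _ (mul_nonneg hu0 hw0)
    rw [mul_pow, hu, hw]
    exact hS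
  have h1 : |a * b + S + c * d| ≤ |a| * |b| + u * w + |c| * |d| := by
    calc |a * b + S + c * d| ≤ |a * b + S| + |c * d| := abs_add_le _ _
      _ ≤ |a * b| + |S| + |c * d| := by
          have := abs_add_le (a * b) S
          linarith
      _ ≤ _ := by
          rw [abs_mul, abs_mul]
          linarith
  have h2 : (a * b + S + c * d) ^ 2 ≤ (|a| * |b| + u * w + |c| * |d|) ^ 2 := by
    rw [← sq_abs (a * b + S + c * d)]
    exact pow_le_pow_left₀ (abs_nonneg _) h1 2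
  refine h2.trans ?_
  rw [← hu, ← hw, ← sq_abs a, ← sq_abs b, ← sq_abs c, ← sq_abs d]
  nlinarith [sq_nonneg (|a| * w - u * |b|), sq_nonneg (|a| * |d| - |c| * |b|),
    sq_nonneg (u * |d| - |c| * w)]

theorem crv_sq {a b κ : ℝ} (hab : 0 ≤ a * b) (h : |b| ≤ κ * |a|) : b ^ 2 ≤ κ * (a * b) := by
  have h1 : a * b = |a| * |b| := by rw [← abs_mul, abs_of_nonneg hab]
  rw [h1, ← sq_abs b, sq, ← mul_assoc]
  exact mul_le_mul_of_nonneg_right h (abs_nonneg b)

theorem crv_mono {p : ℝ → ℝ} (hp : Monotone p) (s t : ℝ) : 0 ≤ (s - t) * (p s - p t) := by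
  rcases le_total s t with h | h
  · exact mul_nonneg_of_nonpos_of_nonpos (by linarith) (by have := hp h; linarith)
  · exact mul_nonneg (by linarith) (by have := hp h; linarith)

theorem curv (h : Sys v ρ R Y p ψ q χ z) (g g' : J → ℝ) (j : J) (hg : ∀ l, l ≠ j → g l = g' l) :
    |g j - g' j| ≤ (1 + Hc v R ψ χ z g j + Hc v R ψ χ z g' j) * |z g j - z g' j| := by
  classical
  have hR := h.R_pos
  have tp := two_point v p q g g' (z g) (z g') (h.prox g) (h.prox g')
  have e1 : ∑ l, (g l - g' l) * (z g l - z g' l) = (g j - g' j) * (z g j - z g' j) := by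
    rw [Finset.sum_eq_single j]
    · intro l _ hl
      rw [hg l hl]
      ring
    · intro hj
      exact (hj (Finset.mem_univ j)).elim
  have hδ : (z g j - z g' j) ^ 2 ≤ nsq (z g - z g') := by
    unfold nsq
    have := Finset.single_le_sum (f := fun l => (z g - z g') l ^ 2) (fun l _ => sq_nonneg _)
      (Finset.mem_univ j)
    simpa using this
  have hd : (z g j - z g' j) * (q (z g j) - q (z g' j)) ≤
      ∑ l, (z g l - z g' l) * (q (z g l) - q (z g' l)) :=
    Finset.single_le_sum (f := fun l => (z g l - z g' l) * (q (z g l) - q (z g' l)))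
      (fun l _ => crv_mono h.q_mono _ _) (Finset.mem_univ j)
  -- the energy inequality
  have en : (z g j - z g' j) ^ 2 +
      ∑ i, (lin v i (z g) - lin v i (z g')) * (p (lin v i (z g)) - p (lin v i (z g'))) +
      (z g j - z g' j) * (q (z g j) - q (z g' j)) ≤ (g j - g' j) * (z g j - z g' j) := by
    rw [← e1, ← tp]
    linarith
  -- the equation at j
  have eqj : g j - g' j = (z g j - z g' j) +
      ∑ i, v i j * (p (lin v i (z g)) - p (lin v i (z g'))) + (q (z g j) - q (z g' j)) := by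
    have h1 := h.prox g j
    have h2 := h.prox g' j
    have h3 : ∑ i, v i j * (p (lin v i (z g)) - p (lin v i (z g'))) =
        ∑ i, v i j * p (lin v i (z g)) - ∑ i, v i j * p (lin v i (z g')) := by
      rw [← Finset.sum_sub_distrib]
      exact Finset.sum_congr rfl fun i _ => by ring
    rw [h3]
    linarith
  set δ := z g j - z g' j with hδdef
  set D := g j - g' j with hDdef
  set d := q (z g j) - q (z g' j) with hddef
  set κ : I → ℝ := fun i => (ψ (lin v i (z g)) ^ 4 + ψ (lin v i (z g')) ^ 4) / R with hκ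
  set κ0 : ℝ := 256 * (χ (z g j) ^ 4 + χ (z g' j) ^ 4) with hκ0
  have hκnn : ∀ i, 0 ≤ κ i := fun i => by
    rw [hκ]
    have h1 : 0 ≤ ψ (lin v i (z g)) ^ 4 := by positivity
    have h2 : 0 ≤ ψ (lin v i (z g')) ^ 4 := by positivity
    exact div_nonneg (by linarith) hR.le
  have hκ0nn : 0 ≤ κ0 := by
    rw [hκ0]
    positivity
  have hab : ∀ i, 0 ≤ (lin v i (z g) - lin v i (z g')) * (p (lin v i (z g)) - p (lin v i (z g'))) :=
    fun i => crv_mono h.pot.p_mono _ _
  have hb : ∀ i, (p (lin v i (z g)) - p (lin v i (z g'))) ^ 2 ≤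
      κ i * ((lin v i (z g) - lin v i (z g')) * (p (lin v i (z g)) - p (lin v i (z g')))) :=
    fun i => crv_sq (hab i) (h.pot.A2 _ _)
  have hd0 : 0 ≤ δ * d := crv_mono h.q_mono _ _
  have hd2 : d ^ 2 ≤ κ0 * (δ * d) := by
    apply crv_sq hd0
    have := h.unit.A2 (z g j) (z g' j)
    calc |d| ≤ (χ (z g j) ^ 4 + χ (z g' j) ^ 4) / (1 / 256) * |z g j - z g' j| := this
      _ = κ0 * |δ| := by rw [hκ0, hδdef]; ring
  -- Cauchy-Schwarz for the sum
  have hcs : (∑ i, v i j * (p (lin v i (z g)) - p (lin v i (z g')))) ^ 2 ≤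
      (∑ i, v i j ^ 2 * κ i) *
      ∑ i, (lin v i (z g) - lin v i (z g')) * (p (lin v i (z g)) - p (lin v i (z g'))) := by
    have h1 : |∑ i, v i j * (p (lin v i (z g)) - p (lin v i (z g')))| ≤
        ∑ i, (|v i j| * √(κ i)) *
          √((lin v i (z g) - lin v i (z g')) * (p (lin v i (z g)) - p (lin v i (z g')))) := by
      refine (Finset.abs_sum_le_sum_abs _ _).trans (Finset.sum_le_sum fun i _ => ?_)
      rw [abs_mul, mul_assoc]
      refine mul_le_mul_of_nonneg_left ?_ (abs_nonneg _)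
      rw [← Real.sqrt_mul (hκnn i)]
      exact Real.abs_le_sqrt (hb i)
    have h2 := Finset.sum_mul_sq_le_sq_mul_sq Finset.univ (fun i => |v i j| * √(κ i))
      (fun i => √((lin v i (z g) - lin v i (z g')) * (p (lin v i (z g)) - p (lin v i (z g')))))
    have h3 : ∀ i, (|v i j| * √(κ i)) ^ 2 = v i j ^ 2 * κ i := fun i => by
      rw [mul_pow, sq_abs, Real.sq_sqrt (hκnn i)]
    have h4 : ∀ i, √((lin v i (z g) - lin v i (z g')) *
        (p (lin v i (z g)) - p (lin v i (z g')))) ^ 2 =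
        (lin v i (z g) - lin v i (z g')) * (p (lin v i (z g)) - p (lin v i (z g'))) := fun i =>
      Real.sq_sqrt (hab i)
    simp only [h3, h4] at h2
    refine le_trans ?_ h2
    rw [← sq_abs]
    exact pow_le_pow_left₀ (abs_nonneg _) h1 2
  have hP : 0 ≤ ∑ i, v i j ^ 2 * κ i :=
    Finset.sum_nonneg fun i _ => mul_nonneg (sq_nonneg _) (hκnn i)
  have hQ : 0 ≤ ∑ i, (lin v i (z g) - lin v i (z g')) *
      (p (lin v i (z g)) - p (lin v i (z g'))) := Finset.sum_nonneg fun i _ => hab i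
  have hsum : ∑ i, v i j ^ 2 * κ i ≤ ∑ i, |v i j| * κ i := by
    refine Finset.sum_le_sum fun i _ => mul_le_mul_of_nonneg_right ?_ (hκnn i)
    rw [← sq_abs]
    have := h.v_le i j
    nlinarith [abs_nonneg (v i j)]
  have hH : 1 + ∑ i, |v i j| * κ i + κ0 = 1 + Hc v R ψ χ z g j + Hc v R ψ χ z g' j := by
    unfold Hc
    have h1 : ∑ i, |v i j| * κ i = (∑ i, |v i j| * ψ (lin v i (z g)) ^ 4) / R +
        (∑ i, |v i j| * ψ (lin v i (z g')) ^ 4) / R := by
      rw [Finset.sum_div, Finset.sum_div, ← Finset.sum_add_distrib]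
      refine Finset.sum_congr rfl fun i _ => ?_
      rw [hκ]
      ring
    rw [h1, hκ0]
    ring
  have hfin : D ^ 2 ≤ (1 + Hc v R ψ χ z g j + Hc v R ψ χ z g' j) * (D * δ) := by
    set S := ∑ i, v i j * (p (lin v i (z g)) - p (lin v i (z g'))) with hSdef
    set Q := ∑ i, (lin v i (z g) - lin v i (z g')) *
      (p (lin v i (z g)) - p (lin v i (z g'))) with hQdef
    have h1 : |D| ≤ |1 * |δ| + |S| + √κ0 * √(δ * d)| := by
      have h2 : |d| ≤ √κ0 * √(δ * d) := by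
        rw [← Real.sqrt_mul hκ0nn]
        exact Real.abs_le_sqrt hd2
      have h3 : |D| ≤ |δ| + |S| + |d| := by
        rw [eqj]
        have a1 := abs_add_le (δ + S) d
        have a2 := abs_add_le δ S
        linarith
      refine le_trans ?_ (le_abs_self _)
      linarith
    have h2 : D ^ 2 ≤ (1 * |δ| + |S| + √κ0 * √(δ * d)) ^ 2 := sq_le_sq.mpr h1
    have h3 := crv_cs 1 |δ| √κ0 √(δ * d) |S| (∑ i, v i j ^ 2 * κ i) Q hP hQ
      (by rw [sq_abs]; exact hcs)
    rw [sq_abs, Real.sq_sqrt hκ0nn, Real.sq_sqrt hd0] at h3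
    have h4 : (1 ^ 2 + ∑ i, v i j ^ 2 * κ i + κ0) * (δ ^ 2 + Q + δ * d) ≤
        (1 + Hc v R ψ χ z g j + Hc v R ψ χ z g' j) * (D * δ) := by
      have h5 : 0 ≤ δ ^ 2 + Q + δ * d := by
        have := sq_nonneg δ
        linarith
      apply mul_le_mul _ en h5
      · rw [← hH]
        have : 0 ≤ ∑ i, |v i j| * κ i := hP.trans hsum
        linarith
      · rw [← hH]
        linarith
    linarith
  have hHnn : 0 ≤ 1 + Hc v R ψ χ z g j + Hc v R ψ χ z g' j := by
    rw [← hH]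
    linarith [hP.trans hsum]
  rcases eq_or_ne D 0 with hD | hD
  · rw [hD, abs_zero]
    exact mul_nonneg hHnn (abs_nonneg _)
  · have hDp : 0 < |D| := abs_pos.mpr hD
    have h1 : |D| * |D| ≤ |D| * ((1 + Hc v R ψ χ z g j + Hc v R ψ χ z g' j) * |δ|) := by
      have h2 : D * δ ≤ |D| * |δ| := by
        rw [← abs_mul]
        exact le_abs_self _
      have h3 := mul_le_mul_of_nonneg_left h2 hHnn
      have h4 : |D| * |D| = D ^ 2 := by rw [← sq, sq_abs]
      rw [h4]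
      calc D ^ 2 ≤ (1 + Hc v R ψ χ z g j + Hc v R ψ χ z g' j) * (D * δ) := hfin
        _ ≤ (1 + Hc v R ψ χ z g j + Hc v R ψ χ z g' j) * (|D| * |δ|) := h3
        _ = _ := by ring
    exact le_of_mul_le_mul_left h1 hDp

end Pool.Agent.SVR
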