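import Mathlib

set_option autoImplicit false

/-!
# Definitions for the real case of MP_aa9902_co
-/

namespace Pool.Agent.SVR

open MeasureTheory Finset

open scoped Classical

noncomputable section

/-- squared euclidean norm on `J → ℝ` -/
def nsq {J : Type} [Fintype J] (x : J → ℝ) : ℝ := ∑ j, x j ^ 2

/-- standard gaussian measure on `J → ℝ` -/
def gam (J : Type) [Fintype J] : Measure (J → ℝ) :=
  Measure.pi fun _ => ProbabilityTheory.gaussianReal 0 1

instance instProbGam (J : Type) [Fintype J] : IsProbabilityMeasure (gam J) := by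
  unfold gam; infer_instance

/-- the linear form of row `i` -/
def lin {I J : Type} [Fintype J] (v : I → J → ℝ) (i : I) (x : J → ℝ) : ℝ := ∑ j, v i j * x j

/-- `p` is (the derivative of) a convex row potential, `ψ` the associated coordinate;
morally `p' = ψ ^ 4 / R` and `ψ' ^ 2 ≤ 1 / ρ + p'`, with a wall at `T`. -/
structure IsPot (ρ R Y T : ℝ) (p ψ : ℝ → ℝ) : Prop where
  p_cont : Continuous p
  ψ_cont : Continuous ψ
  p_odd : ∀ s, p (-s) = -p s
  ψ_odd : ∀ s, ψ (-s) = -ψ s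
  p_mono : Monotone p
  A1 : ∀ s t, (ψ s - ψ t) ^ 2 ≤ (s - t) ^ 2 / ρ + (s - t) * (p s - p t)
  A2 : ∀ s t, |p s - p t| ≤ (ψ s ^ 4 + ψ t ^ 4) / R * |s - t|
  A2' : ∀ y s t, |ψ s| ≤ y → |ψ t| ≤ y → |p s - p t| ≤ y ^ 4 / R * |s - t|
  A3 : ∀ s, |ψ s| ≤ Y → |s| ≤ T

/-- `x` solves the stationarity equation of the convex functional with noise `g` -/
def Sol {I J : Type} [Fintype I] [Fintype J] (v : I → J → ℝ) (p q : ℝ → ℝ)
    (g x : J → ℝ) : Prop :=
  ∀ j, x j + ∑ i, v i j * p (lin v i x) + q (x j) = g j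

/-- `z g` solves the equation with noise `g` -/
def IsProx {I J : Type} [Fintype I] [Fintype J] (v : I → J → ℝ) (p q : ℝ → ℝ)
    (z : (J → ℝ) → (J → ℝ)) : Prop :=
  ∀ g, Sol v p q g (z g)

/-- all data of one phase: rows `v`, row potential `(p, ψ)`, unit potential `(q, χ)` -/
structure Sys {I J : Type} [Fintype I] [Fintype J] (v : I → J → ℝ) (ρ R Y : ℝ)
    (p ψ q χ : ℝ → ℝ) (z : (J → ℝ) → (J → ℝ)) : Prop where
  ρ_pos : 0 < ρ
  R_pos : 0 < R
  v_le : ∀ i j, |v i j| ≤ 1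
  row : ∀ i, ∑ j, |v i j| ≤ ρ
  col : ∀ j, ∑ i, |v i j| ≤ R
  pot : IsPot ρ R Y (4 * √√(ρ * R)) p ψ
  unit : IsPot 1 (1 / 256) Y 1 q χ
  prox : IsProx v p q z

/-- clip to `[-1, 1]` -/
def clip (x : ℝ) : ℝ := max (-1) (min 1 x)

/-- rows `i`, `i'` share a column -/
def Adj {I J : Type} (v : I → J → ℝ) (i i' : I) : Prop := ∃ l, v i l ≠ 0 ∧ v i' l ≠ 0

/-- columns reachable from `j` by at most `n` rows -/
def ball {I J : Type} [Fintype I] [Fintype J] (v : I → J → ℝ) (j : J) : ℕ → Finset J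
  | 0 => {j}
  | n + 1 => ball v j n ∪ univ.filter fun l' => ∃ i, v i l' ≠ 0 ∧ ∃ l ∈ ball v j n, v i l ≠ 0

/-- a chain of `k` rows with pairwise disjoint supports, the first one containing `j`,
consecutive ones at distance at most two -/
structure IsChain {I J : Type} (v : I → J → ℝ) (j : J) (k : ℕ) (c : Fin k → I) : Prop where
  start : ∀ t : Fin k, (t : ℕ) = 0 → v (c t) j ≠ 0
  step : ∀ t t' : Fin k, (t' : ℕ) = t + 1 → ∃ i, Adj v (c t) i ∧ Adj v i (c t')
  disj : ∀ t t' : Fin k, t ≠ t' → ¬ Adj v (c t) (c t')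

/-- `g` is good near `j`: in every chain less than a quarter of the rows are bad -/
def GoodAt {I J : Type} [Fintype I] [Fintype J] (v : I → J → ℝ) (ψ : ℝ → ℝ)
    (z : (J → ℝ) → (J → ℝ)) (y0 : ℝ) (k : ℕ) (j : J) (g : J → ℝ) : Prop :=
  ∀ c : Fin k → I, IsChain v j k c →
    4 * (univ.filter fun t => y0 < |ψ (lin v (c t) (z g))|).card ≤ k

/-- glue two configurations along `B` -/
def glue {J : Type} (B : Finset J) (g g' : J → ℝ) : J → ℝ := fun l => if l ∈ B then g l else g' l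

/-- bound for the curvature at column `j` in configuration `g` -/
def Hc {I J : Type} [Fintype I] [Fintype J] (v : I → J → ℝ) (R : ℝ) (ψ χ : ℝ → ℝ)
    (z : (J → ℝ) → (J → ℝ)) (g : J → ℝ) (j : J) : ℝ :=
  (∑ i, |v i j| * ψ (lin v i (z g)) ^ 4) / R + 256 * χ (z g j) ^ 4

/-- sign with values `1`, `-1` -/
def sg (x : ℝ) : ℝ := if 0 ≤ x then 1 else -1

/-- local approximant: conditional expectation of the clipped coordinate given the noise in `B` -/
def zloc {J : Type} [Fintype J] (z : (J → ℝ) → (J → ℝ)) (B : Finset J) (g : J → ℝ) (j : J) : ℝ :=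
  ∫ g', clip (z (glue B g g') j) ∂gam J

end

end Pool.Agent.SVR
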