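import Pool.Agent.SVR.Defs

set_option autoImplicit false

/-!
# [SVR-Det] deterministic inequalities for one move

`sqrt_one_sub`: `(1 - u/2 - u^2/12)^2 = 1 - u + u^2 (1+u)/12 + u^4/144 ≥ 1 - u` and
`1 - u/2 - u^2/12 > 0` for `|u| ≤ 1`.
`move_abs`: `|x + (1-|x|) z| ≤ |x| + (1-|x|) = 1`.
`move_sqrt`: `σ = sg x`, `σ x = |x|`: `|x'| ≥ σ x' = |x| + (1-|x|) σ z`, so
`1 - |x'| ≤ (1-|x|)(1 - σ z)`; `√` of a product and `sqrt_one_sub` with `u = σ z`.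
`row_det`: sum of `move_sqrt` with weights `|V j|`, `α j = |V j| √(1-|x j|)`, `∑ α ≤ ρ`:
`∑ |V j| √(1-|x' j|) ≤ ∑ α - ½ ∑ α σ zl - (1/12) ∑ α zl^2`; on the support of `α`
`|zb - zl| ≤ t`, `|zb|, |zl| ≤ 1`, so `∑ α σ zl ≥ -(η ρ) - t ρ`, `zl^2 ≥ zb^2 - 2 t`:
`≤ ∑ α + (η ρ + t ρ)/2 - (1/12) ∑ α zb^2 + t ρ/6`.
With `η = 1/(384 * 10^12)`, `t ≤ 10^{-16}`: if `∑ α ≤ ρ/2` clear; otherwise by hypothesis
`∑ α zb^2 ≥ (∑ α)/(8*10^12) ≥ ρ/(16*10^12)` and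
`1 + 1.3021e-15 + 1e-16 - 5.2083e-15 ≤ 1 - 1e-15`.
-/

namespace Pool.Agent.SVR

open Finset

theorem det_sg_mul (x : ℝ) : sg x * x = |x| := by
  unfold sg
  split_ifs with h
  · rw [one_mul, abs_of_nonneg h]
  · rw [abs_of_neg (not_le.1 h)]
    ring

theorem det_sg_abs (x : ℝ) : |sg x| = 1 := by
  unfold sg
  split_ifs
  · exact abs_one
  · rw [abs_neg, abs_one]

theorem sqrt_one_sub (u : ℝ) (hu : |u| ≤ 1) : √(1 - u) ≤ 1 - u / 2 - u ^ 2 / 12 := by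
  rw [abs_le] at hu
  rw [Real.sqrt_le_iff]
  constructor
  · nlinarith [hu.1, hu.2]
  · have e : (1 - u / 2 - u ^ 2 / 12) ^ 2 = (1 - u) + (u ^ 2 * (1 + u) / 12 + u ^ 4 / 144) := by ring
    rw [e]
    have h1 : 0 ≤ u ^ 2 * (1 + u) := mul_nonneg (sq_nonneg u) (by linarith [hu.1])
    have h2 : 0 ≤ u ^ 4 := by positivity
    linarith

theorem move_abs (x z : ℝ) (hx : |x| ≤ 1) (hz : |z| ≤ 1) : |x + (1 - |x|) * z| ≤ 1 := by
  have h1 : |x + (1 - |x|) * z| ≤ |x| + (1 - |x|) * |z| := by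
    refine (abs_add_le _ _).trans ?_
    rw [abs_mul, abs_of_nonneg (by linarith : 0 ≤ 1 - |x|)]
  have h2 : (1 - |x|) * |z| ≤ (1 - |x|) * 1 := mul_le_mul_of_nonneg_left hz (by linarith)
  linarith

theorem move_sqrt (x z : ℝ) (hx : |x| ≤ 1) (hz : |z| ≤ 1) :
    √(1 - |x + (1 - |x|) * z|) ≤ √(1 - |x|) * (1 - sg x * z / 2 - z ^ 2 / 12) := by
  have hs : sg x * x = |x| := det_sg_mul x
  have hs1 : |sg x| = 1 := det_sg_abs x
  have h1 : |x| + (1 - |x|) * (sg x * z) ≤ |x + (1 - |x|) * z| := by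
    have e : |x| + (1 - |x|) * (sg x * z) = sg x * (x + (1 - |x|) * z) := by
      rw [← hs]
      ring
    rw [e]
    refine (le_abs_self _).trans ?_
    rw [abs_mul, hs1, one_mul]
  have h2 : 1 - |x + (1 - |x|) * z| ≤ (1 - |x|) * (1 - sg x * z) := by
    linarith
  have h0 : 0 ≤ 1 - |x| := by linarith
  have h3 : |sg x * z| ≤ 1 := by
    rw [abs_mul, hs1, one_mul]
    exact hz
  have h4 := sqrt_one_sub (sg x * z) h3
  have e2 : (sg x * z) ^ 2 = z ^ 2 := by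
    rw [mul_pow, ← sq_abs (sg x), hs1]
    ring
  rw [e2] at h4
  calc √(1 - |x + (1 - |x|) * z|) ≤ √((1 - |x|) * (1 - sg x * z)) := Real.sqrt_le_sqrt h2
    _ = √(1 - |x|) * √(1 - sg x * z) := Real.sqrt_mul h0 _
    _ ≤ √(1 - |x|) * (1 - sg x * z / 2 - z ^ 2 / 12) :=
        mul_le_mul_of_nonneg_left h4 (Real.sqrt_nonneg _)

theorem row_det {J : Type} [Fintype J] (V x zl zb : J → ℝ) (ρ t : ℝ) (hρ : 0 ≤ ρ)
    (ht : 0 ≤ t) (ht1 : t ≤ 1 / 10 ^ 16)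
    (hx : ∀ j, |x j| ≤ 1) (hzl : ∀ j, |zl j| ≤ 1) (hzb : ∀ j, |zb j| ≤ 1)
    (hE : ∑ j, |V j| * √(1 - |x j|) ≤ ρ)
    (hclose : ∀ j, |V j| * √(1 - |x j|) ≠ 0 → |zb j - zl j| ≤ t)
    (hlin : |∑ j, |V j| * √(1 - |x j|) * sg (x j) * zb j| ≤ ρ / (384 * 10 ^ 12))
    (hquad : ρ / 2 ≤ ∑ j, |V j| * √(1 - |x j|) →
      (∑ j, |V j| * √(1 - |x j|)) / (8 * 10 ^ 12) ≤ ∑ j, |V j| * √(1 - |x j|) * zb j ^ 2) :
    ∑ j, |V j| * √(1 - |x j + (1 - |x j|) * zl j|) ≤ (1 - 1 / 10 ^ 15) * ρ := by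
  -- termwise bound
  have hterm : ∀ j, |V j| * √(1 - |x j + (1 - |x j|) * zl j|) ≤
      |V j| * √(1 - |x j|) * (1 + 2 * t / 3) - |V j| * √(1 - |x j|) * sg (x j) * zb j / 2 -
        |V j| * √(1 - |x j|) * zb j ^ 2 / 12 := by
    intro j
    have h1 := mul_le_mul_of_nonneg_left (move_sqrt (x j) (zl j) (hx j) (hzl j)) (abs_nonneg (V j))
    rw [← mul_assoc] at h1
    refine h1.trans ?_
    have hα : 0 ≤ |V j| * √(1 - |x j|) := mul_nonneg (abs_nonneg _) (Real.sqrt_nonneg _)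
    have hcl := hclose j
    generalize |V j| * √(1 - |x j|) = α at *
    by_cases h0 : α = 0
    · rw [h0]
      simp
    · have h2 := hcl h0
      rw [abs_le] at h2
      have h3 := hzl j
      have h4 := hzb j
      rw [abs_le] at h3 h4
      have h5 : sg (x j) * zb j - t ≤ sg (x j) * zl j := by
        unfold sg
        split_ifs <;> linarith
      have h6 : zb j ^ 2 - 2 * t ≤ zl j ^ 2 := by
        have h7 : (zb j - zl j) * (zb j + zl j) ≤ 2 * t := by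
          have h8 : |(zb j - zl j) * (zb j + zl j)| ≤ t * 2 := by
            rw [abs_mul]
            exact mul_le_mul (abs_le.2 h2) (abs_le.2 ⟨by linarith, by linarith⟩) (abs_nonneg _) ht
          linarith [le_abs_self ((zb j - zl j) * (zb j + zl j))]
        nlinarith
      have h9 : 1 - sg (x j) * zl j / 2 - zl j ^ 2 / 12 ≤
          1 + 2 * t / 3 - sg (x j) * zb j / 2 - zb j ^ 2 / 12 := by linarith
      have h10 := mul_le_mul_of_nonneg_left h9 hα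
      calc α * (1 - sg (x j) * zl j / 2 - zl j ^ 2 / 12) ≤
          α * (1 + 2 * t / 3 - sg (x j) * zb j / 2 - zb j ^ 2 / 12) := h10
        _ = α * (1 + 2 * t / 3) - α * sg (x j) * zb j / 2 - α * zb j ^ 2 / 12 := by ring
  have hsum : ∑ j, |V j| * √(1 - |x j + (1 - |x j|) * zl j|) ≤
      (∑ j, |V j| * √(1 - |x j|)) * (1 + 2 * t / 3) -
        (∑ j, |V j| * √(1 - |x j|) * sg (x j) * zb j) / 2 -
        (∑ j, |V j| * √(1 - |x j|) * zb j ^ 2) / 12 := by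
    refine (Finset.sum_le_sum fun j _ => hterm j).trans (le_of_eq ?_)
    rw [Finset.sum_sub_distrib, Finset.sum_sub_distrib, Finset.sum_mul, Finset.sum_div, Finset.sum_div]
  have hS0 : 0 ≤ ∑ j, |V j| * √(1 - |x j|) :=
    Finset.sum_nonneg fun j _ => mul_nonneg (abs_nonneg _) (Real.sqrt_nonneg _)
  have hQ0 : 0 ≤ ∑ j, |V j| * √(1 - |x j|) * zb j ^ 2 :=
    Finset.sum_nonneg fun j _ => mul_nonneg (mul_nonneg (abs_nonneg _) (Real.sqrt_nonneg _)) (sq_nonneg _)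
  have hL := (abs_le.1 hlin).1
  generalize ∑ j, |V j| * √(1 - |x j|) = S at *
  generalize ∑ j, |V j| * √(1 - |x j|) * sg (x j) * zb j = L at *
  generalize ∑ j, |V j| * √(1 - |x j|) * zb j ^ 2 = Q at *
  have hSt : S * (2 * t / 3) ≤ ρ * (1 / 10 ^ 16) := by
    apply mul_le_mul hE _ (by positivity) hρ
    linarith
  refine hsum.trans ?_
  rcases le_total (ρ / 2) S with h | h
  · have h1 := hquad h
    have h2 : ρ / (16 * 10 ^ 12) ≤ Q := by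
      refine le_trans ?_ h1
      rw [div_le_div_iff₀ (by norm_num) (by norm_num)]
      linarith
    norm_num at h2 hL hSt ⊢
    linarith
  · norm_num at hL hSt ⊢
    linarith

end Pool.Agent.SVR
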