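import Pool.Agent.SVR.G1

set_option autoImplicit false

/-!
# [SVR-G3] concentration of Lipschitz functions around the mean
-/

namespace Pool.Agent.SVR

open MeasureTheory Finset

theorem mean_tail (J : Type) [Fintype J] (F : (J → ℝ) → ℝ) (L : ℝ) (hL : 0 < L)
    (hF : ∀ x y, |F x - F y| ≤ L * √(nsq (x - y))) (t : ℝ) (ht : 0 ≤ t) :
    Integrable F (gam J) ∧
    (gam J).real {x | t ≤ |F x - ∫ y, F y ∂gam J|} ≤ 2 * Real.exp (-(t ^ 2 / (4 * L ^ 2))) := by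
  have hl := lip2_of J F L hF
  refine ⟨Pool.Agent.SVG.integrable_of_lip hl, ?_⟩
  have h1 := Pool.Agent.SVG.tail_ge hl ht
  have h2 := Pool.Agent.SVG.tail_le hl ht
  have h3 : {x | t ≤ |F x - ∫ y, F y ∂gam J|} ⊆
      {x | (∫ y, F y ∂(Pool.Agent.SVG.gam J)) + t ≤ F x} ∪
        {x | F x ≤ (∫ y, F y ∂(Pool.Agent.SVG.gam J)) - t} := by
    intro x hx
    have hx' : t ≤ |F x - ∫ y, F y ∂(Pool.Agent.SVG.gam J)| := hx
    rcases le_abs.1 hx' with h | h
    · left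
      change (∫ y, F y ∂(Pool.Agent.SVG.gam J)) + t ≤ F x
      linarith
    · right
      change F x ≤ (∫ y, F y ∂(Pool.Agent.SVG.gam J)) - t
      linarith
  have e1 : Real.exp (-t ^ 2 / (4 * L ^ 2)) = Real.exp (-(t ^ 2 / (4 * L ^ 2))) := by
    congr 1
    ring
  rw [e1] at h1 h2
  calc (gam J).real {x | t ≤ |F x - ∫ y, F y ∂gam J|} ≤ (gam J).real
        ({x | (∫ y, F y ∂(Pool.Agent.SVG.gam J)) + t ≤ F x} ∪
        {x | F x ≤ (∫ y, F y ∂(Pool.Agent.SVG.gam J)) - t}) := measureReal_mono h3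
    _ ≤ (gam J).real {x | (∫ y, F y ∂(Pool.Agent.SVG.gam J)) + t ≤ F x} +
        (gam J).real {x | F x ≤ (∫ y, F y ∂(Pool.Agent.SVG.gam J)) - t} := measureReal_union_le _ _
    _ ≤ _ := by
        have h1' : (gam J).real {x | (∫ y, F y ∂(Pool.Agent.SVG.gam J)) + t ≤ F x} ≤
          Real.exp (-(t ^ 2 / (4 * L ^ 2))) := h1
        have h2' : (gam J).real {x | F x ≤ (∫ y, F y ∂(Pool.Agent.SVG.gam J)) - t} ≤
          Real.exp (-(t ^ 2 / (4 * L ^ 2))) := h2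
        linarith

end Pool.Agent.SVR
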