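import Pool.Agent.SVR.Two

set_option autoImplicit false

/-!
# [SVR-Glu] glueing configurations; elementary facts on `zloc`

`glue_mp`: the map `(g, g') ↦ glue B g g'` is measure preserving from `gam × gam` to `gam`:
measurable (coordinates), and the image measure has the right value on boxes `Set.univ.pi s`
(`Measure.pi_eq`): the preimage of a box is the product of the boxes
`{g | ∀ l ∈ B, g l ∈ s l}` and `{g' | ∀ l ∉ B, g' l ∈ s l}`, each of them a box (with `univ` at the other
coordinates), probability measures.
`glue_neg` etc.: `funext`, `split_ifs`.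
`zloc_abs`: `|clip| ≤ 1` and probability measure.  `zloc_meas`: `Measurable.. integral_prod` (Fubini):
`(g, g') ↦ clip (z (glue B g g') j)` is jointly measurable (`Sys.cont`).
`zloc_odd`: `gam` is invariant under negation, `z` odd, `clip` odd.
`zloc_dep`: `glue B g g'' = glue B g' g''`.
`zloc_lip`: for every `g''` `|clip (z (glue B g g'') j) - clip (z (glue B g' g'') j)|
≤ |z .. j - z .. j| ≤ √(nsq (glue B g g'' - glue B g' g'')) = √(∑ l ∈ B, (g l - g' l)^2)`.
`clip_lip`, `clip_odd`, `clip_abs`, `clip_eq`: elementary.
-/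

namespace Pool.Agent.SVR

open MeasureTheory Finset

open scoped Classical

theorem clip_abs (x : ℝ) : |clip x| ≤ 1 := by
  unfold clip
  rw [abs_le]
  refine ⟨le_max_left _ _, max_le (by norm_num) (min_le_left _ _)⟩

theorem clip_lip (x y : ℝ) : |clip x - clip y| ≤ |x - y| := by
  unfold clip
  have h1 : |max (-1) (min 1 x) - max (-1) (min 1 y)| ≤ |min 1 x - min 1 y| := by
    have h := abs_max_sub_max_le_abs (min 1 x) (min 1 y) (-1)
    rwa [max_comm (min 1 x), max_comm (min 1 y)] at h
  have h2 : |min 1 x - min 1 y| ≤ |x - y| := by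
    have h := abs_min_sub_min_le_max 1 x 1 y
    simpa using h
  exact h1.trans h2

theorem clip_odd (x : ℝ) : clip (-x) = -clip x := by
  unfold clip
  rcases le_total x 1 with h1 | h1 <;> rcases le_total x (-1) with h2 | h2 <;>
    rcases le_total (-x) 1 with h3 | h3 <;>
    simp only [max_def, min_def] <;> split_ifs <;> linarith

theorem clip_eq (x : ℝ) (hx : |x| ≤ 1) : clip x = x := by
  unfold clip
  obtain ⟨h1, h2⟩ := abs_le.mp hx
  rw [min_eq_right h2, max_eq_right h1]

theorem gam_neg (J : Type) [Fintype J] : MeasurePreserving (fun g : J → ℝ => -g) (gam J) (gam J) := by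
  have h : ∀ _ : J, MeasurePreserving (fun x : ℝ => -x) (ProbabilityTheory.gaussianReal 0 1)
      (ProbabilityTheory.gaussianReal 0 1) := by
    intro _
    refine ⟨measurable_neg, ?_⟩
    have h := ProbabilityTheory.gaussianReal_map_neg (μ := 0) (v := 1)
    rwa [neg_zero] at h
  exact measurePreserving_pi _ _ h

theorem glue_mp (J : Type) [Fintype J] (B : Finset J) :
    MeasurePreserving (fun x : (J → ℝ) × (J → ℝ) => glue B x.1 x.2) ((gam J).prod (gam J))
      (gam J) := by
  have hm : Measurable (fun x : (J → ℝ) × (J → ℝ) => glue B x.1 x.2) := by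
    rw [measurable_pi_iff]
    intro l
    unfold glue
    by_cases hl : l ∈ B
    · simp only [hl, if_true]
      exact (measurable_pi_apply l).comp measurable_fst
    · simp only [hl, if_false]
      exact (measurable_pi_apply l).comp measurable_snd
  refine ⟨hm, ?_⟩
  unfold gam
  symm
  refine Measure.pi_eq fun s hs => ?_
  rw [Measure.map_apply hm (MeasurableSet.univ_pi hs)]
  have hpre : (fun x : (J → ℝ) × (J → ℝ) => glue B x.1 x.2) ⁻¹' (Set.univ.pi s) =
      (Set.univ.pi fun l => if l ∈ B then s l else Set.univ) ×ˢ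
        (Set.univ.pi fun l => if l ∈ B then Set.univ else s l) := by
    ext x
    simp only [Set.mem_preimage, Set.mem_pi, Set.mem_univ, true_implies, Set.mem_prod, glue]
    constructor
    · intro hx
      refine ⟨fun l => ?_, fun l => ?_⟩
      · have := hx l
        by_cases hl : l ∈ B
        · simpa [hl] using this
        · simp [hl]
      · have := hx l
        by_cases hl : l ∈ B
        · simp [hl]
        · simpa [hl] using this
    · rintro ⟨h1, h2⟩ l
      have h1 := h1 l
      have h2 := h2 l
      by_cases hl : l ∈ B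
      · simpa [hl] using h1
      · simpa [hl] using h2
  rw [hpre, Measure.prod_prod, Measure.pi_pi, Measure.pi_pi, ← Finset.prod_mul_distrib]
  refine Finset.prod_congr rfl fun l _ => ?_
  by_cases hl : l ∈ B
  · simp [hl]
  · simp [hl]

theorem glue_glue {J : Type} (B : Finset J) (g g' g'' : J → ℝ) :
    glue B (glue B g g') g'' = glue B g g'' := by
  funext l
  unfold glue
  by_cases hl : l ∈ B <;> simp [hl]

theorem glu_cont_clip : Continuous clip := by
  unfold clip
  exact continuous_const.max (continuous_const.min continuous_id)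

theorem glu_cont_glue {J : Type} (B : Finset J) :
    Continuous fun x : (J → ℝ) × (J → ℝ) => glue B x.1 x.2 := by
  refine continuous_pi fun l => ?_
  unfold glue
  by_cases hl : l ∈ B
  · simp only [hl, if_true]
    exact (continuous_apply l).comp continuous_fst
  · simp only [hl, if_false]
    exact (continuous_apply l).comp continuous_snd

theorem glu_neg {J : Type} (B : Finset J) (g g' : J → ℝ) :
    glue B (-g) (-g') = -glue B g g' := by
  funext l
  unfold glue
  by_cases hl : l ∈ B <;> simp [hl]

theorem glu_nsq {J : Type} [Fintype J] (B : Finset J) (g g' g'' : J → ℝ) :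
    nsq (glue B g g'' - glue B g' g'') = ∑ l ∈ B, (g l - g' l) ^ 2 := by
  unfold nsq
  rw [← Finset.sum_subset (Finset.subset_univ B)]
  · refine Finset.sum_congr rfl fun l hl => ?_
    simp [glue, hl]
  · intro l _ hl
    simp [glue, hl]

variable {I J : Type} [Fintype I] [Fintype J]
variable {v : I → J → ℝ} {ρ R Y : ℝ} {p ψ q χ : ℝ → ℝ} {z : (J → ℝ) → (J → ℝ)}

theorem zloc_abs (h : Sys v ρ R Y p ψ q χ z) (B : Finset J) (g : J → ℝ) (j : J) :
    |zloc z B g j| ≤ 1 := by
  unfold zloc
  have h1 : ‖∫ g', clip (z (glue B g g') j) ∂gam J‖ ≤ 1 * (gam J).real Set.univ :=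
    norm_integral_le_of_norm_le_const (Filter.Eventually.of_forall fun g' => by
      rw [Real.norm_eq_abs]; exact clip_abs _)
  simpa using h1

theorem zloc_meas (h : Sys v ρ R Y p ψ q χ z) (B : Finset J) (j : J) :
    Measurable fun g => zloc z B g j := by
  unfold zloc
  have hc : Continuous fun x : (J → ℝ) × (J → ℝ) => clip (z (glue B x.1 x.2) j) :=
    glu_cont_clip.comp (((continuous_apply j).comp h.cont).comp (glu_cont_glue B))
  exact (hc.stronglyMeasurable.integral_prod_right' (ν := gam J)).measurable

theorem zloc_odd (h : Sys v ρ R Y p ψ q χ z) (B : Finset J) (g : J → ℝ) (j : J) :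
    zloc z B (-g) j = -zloc z B g j := by
  unfold zloc
  have h1 := (gam_neg J).integral_comp (MeasurableEquiv.neg (J → ℝ)).measurableEmbedding
    (fun g' => clip (z (glue B (-g) g') j))
  rw [← h1, ← integral_neg]
  refine integral_congr_ae (Filter.Eventually.of_forall fun g' => ?_)
  change clip (z (glue B (-g) (-g')) j) = -clip (z (glue B g g') j)
  rw [glu_neg, h.odd, Pi.neg_apply, clip_odd]

theorem zloc_dep (B : Finset J) (g g' : J → ℝ) (hg : ∀ l ∈ B, g l = g' l) (j : J) :
    zloc z B g j = zloc z B g' j := by
  unfold zloc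
  have h1 : ∀ g'', glue B g g'' = glue B g' g'' := by
    intro g''
    funext l
    unfold glue
    by_cases hl : l ∈ B
    · simp [hl, hg l hl]
    · simp [hl]
  simp only [h1]

theorem zloc_lip (h : Sys v ρ R Y p ψ q χ z) (B : Finset J) (g g' : J → ℝ) (j : J) :
    |zloc z B g j - zloc z B g' j| ≤ √(∑ l ∈ B, (g l - g' l) ^ 2) := by
  unfold zloc
  have hi : ∀ g0 : J → ℝ, Integrable (fun g'' => clip (z (glue B g0 g'') j)) (gam J) := by
    intro g0
    have hc : Continuous fun g'' : J → ℝ => clip (z (glue B g0 g'') j) :=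
      glu_cont_clip.comp (((continuous_apply j).comp h.cont).comp
        ((glu_cont_glue B).comp (continuous_const.prodMk continuous_id)))
    exact Integrable.of_bound hc.aestronglyMeasurable 1
      (Filter.Eventually.of_forall fun g'' => by rw [Real.norm_eq_abs]; exact clip_abs _)
  rw [← integral_sub (hi g) (hi g')]
  have hb : ∀ g'' : J → ℝ, ‖clip (z (glue B g g'') j) - clip (z (glue B g' g'') j)‖ ≤
      √(∑ l ∈ B, (g l - g' l) ^ 2) := by
    intro g''
    rw [Real.norm_eq_abs]
    refine (clip_lip _ _).trans ?_
    have h1 : nsq (z (glue B g g'') - z (glue B g' g'')) ≤ ∑ l ∈ B, (g l - g' l) ^ 2 :=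
      (h.lip _ _).trans (le_of_eq (glu_nsq B g g' g''))
    have h2 : (z (glue B g g'') j - z (glue B g' g'') j) ^ 2 ≤
        nsq (z (glue B g g'') - z (glue B g' g'')) := by
      unfold nsq
      exact Finset.single_le_sum (f := fun l => (z (glue B g g'') - z (glue B g' g'')) l ^ 2)
        (fun l _ => sq_nonneg _) (Finset.mem_univ j)
    rw [← Real.sqrt_sq_eq_abs]
    exact Real.sqrt_le_sqrt (h2.trans h1)
  have h3 := norm_integral_le_of_norm_le_const (μ := gam J) (Filter.Eventually.of_forall hb)
  simpa [Real.norm_eq_abs] using h3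

end Pool.Agent.SVR
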