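import Pool.Agent.SVR.SM
import Pool.Agent.SVR.G3
import Pool.Agent.SVR.Glu

set_option autoImplicit false

/-!
# [SVR-En] lower tail of the quadratic energy

`F g = √(∑ j, α j * clip (z g j)^2)` is 1-Lipschitz: it is the euclidean norm of the vector
`(√(α j) clip (z g j))_j`, `α j ≤ 1`, `clip_lip`, `Sys.lip`.  Let `E = ∑ α j`, `c2 = 10^{-12}`.
`F^2 ≤ E`, `∫ F^2 ≥ c2 E` (`second_moment`), so with `a = √(c2 E/2)`:
`c2 E ≤ ∫ F^2 ≤ a^2 + E * P(F ≥ a)`, hence `P(F ≥ a) ≥ c2/2`.  `mean_tail` (`L = 1`, `m = ∫ F`):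
`P(F ≥ m + t0) ≤ 2 exp (-(t0^2/4))`, with `t0 = 11` this is `< c2/2 = 5e-13`
(`2 exp (-30.25) = 1.5e-13`); so `a < m + 11` (otherwise `{F ≥ a} ⊆ {t0 ≤ |F - m|}`).
`a ≥ 44` because `c2 E/2 ≥ 5000 ≥ 44^2 = 1936`.  On the event `F^2 < E c2/8 = (a/2)^2`, so
`F - m < a/2 - m ≤ a/2 - a + 11 ≤ -(a/4)`; `mean_tail` with `t = a/4`:
`≤ 2 exp (-(a^2/64)) = 2 exp (-(c2 E/128))`.
-/

namespace Pool.Agent.SVR

open MeasureTheory Finset

variable {I J : Type} [Fintype I] [Fintype J]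
variable {v : I → J → ℝ} {ρ R Y : ℝ} {p ψ q χ : ℝ → ℝ} {z : (J → ℝ) → (J → ℝ)}

theorem en_exp : 2 * Real.exp (-((11 : ℝ) ^ 2 / (4 * 1 ^ 2))) < 1 / (2 * 10 ^ 12) := by
  have h1 : (4 * 10 ^ 12 : ℝ) < Real.exp ((11 : ℝ) ^ 2 / (4 * 1 ^ 2)) := by
    have e1 : Real.exp 30 ≤ Real.exp ((11 : ℝ) ^ 2 / (4 * 1 ^ 2)) :=
      Real.exp_le_exp.mpr (by norm_num)
    refine lt_of_lt_of_le ?_ e1
    have e2 : Real.exp 30 = Real.exp 1 ^ 30 := by
      rw [← Real.exp_nat_mul]; norm_num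
    rw [e2]
    have e3 : (2.7 : ℝ) ≤ Real.exp 1 := by linarith [Real.exp_one_gt_d9]
    calc (4 * 10 ^ 12 : ℝ) < 2.7 ^ 30 := by norm_num
      _ ≤ Real.exp 1 ^ 30 := pow_le_pow_left₀ (by norm_num) e3 30
  rw [Real.exp_neg]
  have h2 : 0 < Real.exp ((11 : ℝ) ^ 2 / (4 * 1 ^ 2)) := Real.exp_pos _
  rw [← div_eq_mul_inv, div_lt_div_iff₀ h2 (by positivity)]
  linarith

theorem en_lip (h : Sys v ρ R Y p ψ q χ z) (α : J → ℝ) (hα0 : ∀ j, 0 ≤ α j)
    (hα1 : ∀ j, α j ≤ 1) (x y : J → ℝ) :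
    |√(∑ j, α j * clip (z x j) ^ 2) - √(∑ j, α j * clip (z y j) ^ 2)| ≤
      1 * √(nsq (x - y)) := by
  rw [one_mul]
  have hn : 0 ≤ nsq (x - y) := Finset.sum_nonneg fun _ _ => sq_nonneg _
  have hx : 0 ≤ ∑ j, α j * clip (z x j) ^ 2 :=
    Finset.sum_nonneg fun j _ => mul_nonneg (hα0 j) (sq_nonneg _)
  have hy : 0 ≤ ∑ j, α j * clip (z y j) ^ 2 :=
    Finset.sum_nonneg fun j _ => mul_nonneg (hα0 j) (sq_nonneg _)
  refine abs_le_of_sq_le_sq ?_ (Real.sqrt_nonneg _)
  rw [Real.sq_sqrt hn]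
  have hcs := Real.sum_mul_le_sqrt_mul_sqrt univ (fun j => √(α j) * clip (z x j))
    (fun j => √(α j) * clip (z y j))
  have e1 : ∀ j, √(α j) * clip (z x j) * (√(α j) * clip (z y j)) =
      α j * (clip (z x j) * clip (z y j)) := fun j => by
    calc √(α j) * clip (z x j) * (√(α j) * clip (z y j)) =
        (√(α j) * √(α j)) * (clip (z x j) * clip (z y j)) := by ring
      _ = _ := by rw [Real.mul_self_sqrt (hα0 j)]
  have e2 : ∀ (w : J → ℝ) j, (√(α j) * clip (w j)) ^ 2 = α j * clip (w j) ^ 2 := fun w j => by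
    rw [mul_pow, Real.sq_sqrt (hα0 j)]
  simp only [e1, e2 (z x), e2 (z y)] at hcs
  have e3 : (√(∑ j, α j * clip (z x j) ^ 2) - √(∑ j, α j * clip (z y j) ^ 2)) ^ 2 =
      ∑ j, α j * clip (z x j) ^ 2 + ∑ j, α j * clip (z y j) ^ 2 -
        2 * (√(∑ j, α j * clip (z x j) ^ 2) * √(∑ j, α j * clip (z y j) ^ 2)) := by
    have a1 := Real.sq_sqrt hx
    have a2 := Real.sq_sqrt hy
    calc _ = √(∑ j, α j * clip (z x j) ^ 2) ^ 2 + √(∑ j, α j * clip (z y j) ^ 2) ^ 2 -
        2 * (√(∑ j, α j * clip (z x j) ^ 2) * √(∑ j, α j * clip (z y j) ^ 2)) := by ring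
      _ = _ := by rw [a1, a2]
  have e4 : ∑ j, α j * (clip (z x j) - clip (z y j)) ^ 2 =
      ∑ j, α j * clip (z x j) ^ 2 + ∑ j, α j * clip (z y j) ^ 2 -
        2 * ∑ j, α j * (clip (z x j) * clip (z y j)) := by
    rw [Finset.mul_sum, ← Finset.sum_add_distrib, ← Finset.sum_sub_distrib]
    exact Finset.sum_congr rfl fun j _ => by ring
  have e5 : ∑ j, α j * (clip (z x j) - clip (z y j)) ^ 2 ≤ nsq (z x - z y) := by
    unfold nsq
    refine Finset.sum_le_sum fun j _ => ?_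
    rw [Pi.sub_apply]
    have b1 : (clip (z x j) - clip (z y j)) ^ 2 ≤ (z x j - z y j) ^ 2 :=
      sq_le_sq.mpr (clip_lip _ _)
    have b2 := hα0 j
    have b3 := hα1 j
    have b4 := sq_nonneg (clip (z x j) - clip (z y j))
    nlinarith
  have e6 := h.lip x y
  rw [e3]
  linarith

theorem energy_low (h : Sys v ρ R Y p ψ q χ z) (hY : 10 ≤ Y) (α : J → ℝ) (hα0 : ∀ j, 0 ≤ α j)
    (hα1 : ∀ j, α j ≤ 1) (hE : 10 ^ 16 ≤ ∑ j, α j) :
    (gam J).real {g | ∑ j, α j * clip (z g j) ^ 2 < (∑ j, α j) / (8 * 10 ^ 12)} ≤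
      2 * Real.exp (-((∑ j, α j) / (128 * 10 ^ 12))) := by
  set E := ∑ j, α j with hEdef
  set F : (J → ℝ) → ℝ := fun g => √(∑ j, α j * clip (z g j) ^ 2) with hF
  have hE0 : 0 < E := lt_of_lt_of_le (by norm_num) hE
  set a := √(E / (2 * 10 ^ 12)) with ha
  have ha2 : a ^ 2 = E / (2 * 10 ^ 12) := Real.sq_sqrt (by positivity)
  have ha0 : 0 ≤ a := Real.sqrt_nonneg _
  have ha44 : 44 ≤ a := by
    rw [ha]
    apply Real.le_sqrt_of_sq_le
    rw [le_div_iff₀ (by positivity)]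
    nlinarith
  have hlip := en_lip h α hα0 hα1
  obtain ⟨hint, ht1⟩ := mean_tail J F 1 one_pos hlip 11 (by norm_num)
  set m := ∫ y, F y ∂gam J with hm
  have hcont : ∀ j, Continuous fun g => clip (z g j) := by
    intro j
    have c1 : Continuous clip := by unfold clip; fun_prop
    exact c1.comp ((continuous_apply j).comp h.cont)
  have hFsq : ∀ g, F g ^ 2 = ∑ j, α j * clip (z g j) ^ 2 := fun g =>
    Real.sq_sqrt (Finset.sum_nonneg fun j _ => mul_nonneg (hα0 j) (sq_nonneg _))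
  have hclip1 : ∀ x : ℝ, clip x ^ 2 ≤ 1 := fun x => by
    have := clip_abs x
    rw [← sq_abs]
    nlinarith [abs_nonneg (clip x)]
  have hFE : ∀ g, F g ^ 2 ≤ E := by
    intro g
    rw [hFsq, hEdef]
    refine Finset.sum_le_sum fun j _ => ?_
    have := hclip1 (z g j)
    have := hα0 j
    nlinarith
  have hmeasF : Measurable F := by
    have c1 : Continuous F := by
      apply Real.continuous_sqrt.comp
      exact continuous_finset_sum _ fun j _ => continuous_const.mul ((hcont j).pow 2)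
    exact c1.measurable
  have hint2 : ∀ j, Integrable (fun g => clip (z g j) ^ 2) (gam J) := by
    intro j
    refine Integrable.of_bound ((hcont j).pow 2).aestronglyMeasurable 1 ?_
    filter_upwards with g
    rw [Real.norm_eq_abs, abs_of_nonneg (sq_nonneg _)]
    exact hclip1 _
  have hI : E / 10 ^ 12 ≤ ∫ g, F g ^ 2 ∂gam J := by
    simp only [hFsq]
    rw [integral_finset_sum _ fun j _ => (hint2 j).const_mul _]
    rw [hEdef, Finset.sum_div]
    refine Finset.sum_le_sum fun j _ => ?_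
    rw [integral_const_mul]
    have := second_moment h hY j
    calc α j / 10 ^ 12 = α j * (1 / 10 ^ 12) := by ring
      _ ≤ _ := mul_le_mul_of_nonneg_left this (hα0 j)
  have hS : MeasurableSet {g | a ≤ F g} := measurableSet_le measurable_const hmeasF
  have hup : ∫ g, F g ^ 2 ∂gam J ≤ a ^ 2 + E * (gam J).real {g | a ≤ F g} := by
    have i1 : Integrable (fun g => a ^ 2 + E * Set.indicator {g | a ≤ F g} (fun _ => (1 : ℝ)) g)
        (gam J) := by
      refine (integrable_const _).add (Integrable.const_mul ?_ _)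
      exact (integrable_const (1 : ℝ)).indicator hS
    have i2 : Integrable (fun g => F g ^ 2) (gam J) := by
      simp only [hFsq]
      exact integrable_finset_sum _ fun j _ => (hint2 j).const_mul _
    have i3 : ∫ g, F g ^ 2 ∂gam J ≤
        ∫ g, (a ^ 2 + E * Set.indicator {g | a ≤ F g} (fun _ => (1 : ℝ)) g) ∂gam J := by
      refine integral_mono i2 i1 fun g => ?_
      by_cases hg : a ≤ F g
      · have : Set.indicator {g | a ≤ F g} (fun _ => (1 : ℝ)) g = 1 :=
          Set.indicator_of_mem (show g ∈ {g | a ≤ F g} from hg) _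
        simp only [this]
        nlinarith [hFE g, sq_nonneg a]
      · have : Set.indicator {g | a ≤ F g} (fun _ => (1 : ℝ)) g = 0 :=
          Set.indicator_of_notMem (show g ∉ {g | a ≤ F g} from hg) _
        simp only [this]
        have h0 : 0 ≤ F g := Real.sqrt_nonneg _
        push Not at hg
        nlinarith
    refine i3.trans (le_of_eq ?_)
    rw [integral_add (integrable_const _) (Integrable.const_mul
      ((integrable_const (1 : ℝ)).indicator hS) _), integral_const_mul,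
      integral_indicator_const _ hS]
    simp
  have hP : 1 / (2 * 10 ^ 12) ≤ (gam J).real {g | a ≤ F g} := by
    have e1 : E / 10 ^ 12 ≤ E / (2 * 10 ^ 12) + E * (gam J).real {g | a ≤ F g} := by
      rw [← ha2]; exact hI.trans hup
    have e2 : E * (1 / (2 * 10 ^ 12)) ≤ E * (gam J).real {g | a ≤ F g} := by
      have e3 : E / 10 ^ 12 - E / (2 * 10 ^ 12) = E * (1 / (2 * 10 ^ 12)) := by ring
      linarith
    exact le_of_mul_le_mul_left e2 hE0
  have ham : a < m + 11 := by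
    by_contra hcon
    push Not at hcon
    have hsub : (gam J).real {g | a ≤ F g} ≤ (gam J).real {x | 11 ≤ |F x - m|} := by
      refine measureReal_mono ?_
      intro g hg
      have hg' : a ≤ F g := hg
      show (11 : ℝ) ≤ |F g - m|
      exact le_trans (by linarith) (le_abs_self _)
    have := en_exp
    linarith
  have ht2 := (mean_tail J F 1 one_pos hlip (a / 4) (by positivity)).2
  have hsub2 : (gam J).real {g | ∑ j, α j * clip (z g j) ^ 2 < E / (8 * 10 ^ 12)} ≤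
      (gam J).real {x | a / 4 ≤ |F x - m|} := by
    refine measureReal_mono ?_
    intro g hg
    have hg' : ∑ j, α j * clip (z g j) ^ 2 < E / (8 * 10 ^ 12) := hg
    show a / 4 ≤ |F g - m|
    rw [← hFsq] at hg'
    have e1 : F g ^ 2 < (a / 2) ^ 2 := by
      rw [div_pow, ha2]
      have : E / (2 * 10 ^ 12) / 2 ^ 2 = E / (8 * 10 ^ 12) := by ring
      rw [this]; exact hg'
    have e2 : F g < a / 2 := lt_of_pow_lt_pow_left₀ 2 (by positivity) e1
    have e3 : a / 4 ≤ -(F g - m) := by linarith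
    exact e3.trans (neg_le_abs _)
  refine hsub2.trans (ht2.trans (le_of_eq ?_))
  congr 2
  rw [div_pow, ha2]
  ring

end Pool.Agent.SVR
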