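import Pool.Agent.SVR.Defs

set_option autoImplicit false

/-!
# [SVR-Ex] existence of the stationary point

For fixed `g` minimise `Φ x = ∑ j, (x j - g j)^2/2 + ∑ i, P (lin v i x) + ∑ j, Q (x j)` with
`P s = ∫_0^s p ≥ 0`, `Q s = ∫_0^s q ≥ 0` (as `p 0 = 0` and `p` is monotone).  `Φ` is continuous and
`Φ x ≥ ∑ j, (x j - g j)^2/2` tends to infinity (or: minimise over the compact set
`{x | ∀ j, |x j - g j| ≤ K}` with `K^2/2 > Φ g`; the minimiser is interior), so a global minimiser
`x` exists.  Along `t ↦ Φ (x + t e_j)` the derivative at `0` is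
`(x j - g j) + ∑ i, p (lin v i x) * v i j + q (x j)` (`P' = p` since `p` is continuous:
`intervalIntegral.integral_hasDerivAt_right`), and it vanishes (`IsLocalMin.hasDerivAt_eq_zero`).
Then `choose`.
-/

namespace Pool.Agent.SVR

open MeasureTheory Finset

/-- the primitive -/
noncomputable def Ex_Pr (p : ℝ → ℝ) (s : ℝ) : ℝ := ∫ t in (0:ℝ)..s, p t

theorem Ex_Pr_deriv {p : ℝ → ℝ} (hp : Continuous p) (s : ℝ) : HasDerivAt (Ex_Pr p) (p s) s :=
  (hp.integral_hasStrictDerivAt 0 s).hasDerivAt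

theorem Ex_Pr_cont {p : ℝ → ℝ} (hp : Continuous p) : Continuous (Ex_Pr p) :=
  continuous_iff_continuousAt.2 fun s => (Ex_Pr_deriv hp s).continuousAt

theorem Ex_Pr_nonneg {p : ℝ → ℝ} (hpm : Monotone p) (hp0 : p 0 = 0) (s : ℝ) : 0 ≤ Ex_Pr p s := by
  unfold Ex_Pr
  rcases le_total 0 s with hs | hs
  · refine intervalIntegral.integral_nonneg hs fun t ht => ?_
    rw [← hp0]
    exact hpm ht.1
  · rw [intervalIntegral.integral_symm, ← intervalIntegral.integral_neg]
    refine intervalIntegral.integral_nonneg hs fun t ht => ?_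
    have h1 : p t ≤ p 0 := hpm ht.2
    linarith

/-- the functional -/
noncomputable def Ex_Phi {I J : Type} [Fintype I] [Fintype J] (v : I → J → ℝ) (p q : ℝ → ℝ)
    (g x : J → ℝ) : ℝ :=
  ∑ j, (x j - g j) ^ 2 / 2 + ∑ i, Ex_Pr p (lin v i x) + ∑ j, Ex_Pr q (x j)

theorem Ex_Phi_cont {I J : Type} [Fintype I] [Fintype J] (v : I → J → ℝ) {p q : ℝ → ℝ}
    (hp : Continuous p) (hq : Continuous q) (g : J → ℝ) : Continuous (Ex_Phi v p q g) := by
  unfold Ex_Phi
  have h1 : Continuous fun x : J → ℝ => ∑ j, (x j - g j) ^ 2 / 2 := by fun_prop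
  have h2 : Continuous fun x : J → ℝ => ∑ i, Ex_Pr p (lin v i x) := by
    refine continuous_finsetSum _ fun i _ => (Ex_Pr_cont hp).comp ?_
    unfold lin
    fun_prop
  have h3 : Continuous fun x : J → ℝ => ∑ j, Ex_Pr q (x j) :=
    continuous_finsetSum _ fun j _ => (Ex_Pr_cont hq).comp (continuous_apply j)
  exact (h1.add h2).add h3

theorem Ex_Phi_ge {I J : Type} [Fintype I] [Fintype J] (v : I → J → ℝ) {p q : ℝ → ℝ}
    (hpm : Monotone p) (hqm : Monotone q) (hp0 : p 0 = 0) (hq0 : q 0 = 0) (g x : J → ℝ) (j : J) :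
    (x j - g j) ^ 2 / 2 ≤ Ex_Phi v p q g x := by
  unfold Ex_Phi
  have h1 : (x j - g j) ^ 2 / 2 ≤ ∑ j, (x j - g j) ^ 2 / 2 :=
    Finset.single_le_sum (f := fun j => (x j - g j) ^ 2 / 2) (fun k _ => by positivity)
      (Finset.mem_univ j)
  have h2 : 0 ≤ ∑ i, Ex_Pr p (lin v i x) :=
    Finset.sum_nonneg fun i _ => Ex_Pr_nonneg hpm hp0 _
  have h3 : 0 ≤ ∑ j, Ex_Pr q (x j) := Finset.sum_nonneg fun j _ => Ex_Pr_nonneg hqm hq0 _
  linarith

theorem Ex_Phi_min {I J : Type} [Fintype I] [Fintype J] (v : I → J → ℝ) {p q : ℝ → ℝ}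
    (hp : Continuous p) (hq : Continuous q) (hpm : Monotone p) (hqm : Monotone q)
    (hp0 : p 0 = 0) (hq0 : q 0 = 0) (g : J → ℝ) :
    ∃ x, ∀ y, Ex_Phi v p q g x ≤ Ex_Phi v p q g y := by
  refine (Ex_Phi_cont v hp hq g).exists_forall_le' g ?_
  set r : ℝ := |Ex_Phi v p q g g| + 1 with hr
  have hr0 : 0 ≤ r := by positivity
  have hK := (isCompact_closedBall g r).compl_mem_cocompact
  filter_upwards [hK] with x hx
  by_contra hcon
  push Not at hcon
  refine hx ?_
  rw [Metric.mem_closedBall, dist_pi_le_iff hr0]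
  intro j
  rw [Real.dist_eq]
  by_contra hj
  push Not at hj
  have h1 := Ex_Phi_ge v hpm hqm hp0 hq0 g x j
  have h2 : r ^ 2 ≤ (x j - g j) ^ 2 := by
    rw [← sq_abs (x j - g j)]
    exact pow_le_pow_left₀ hr0 hj.le 2
  have h3 : Ex_Phi v p q g g ≤ |Ex_Phi v p q g g| := le_abs_self _
  have h4 : |Ex_Phi v p q g g| ≤ r ^ 2 / 2 := by
    rw [hr]
    nlinarith [sq_nonneg (|Ex_Phi v p q g g|)]
  linarith

theorem Ex_stat {I J : Type} [Fintype I] [Fintype J] (v : I → J → ℝ) {p q : ℝ → ℝ}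
    (hp : Continuous p) (hq : Continuous q) (g x : J → ℝ)
    (hx : ∀ y, Ex_Phi v p q g x ≤ Ex_Phi v p q g y) : Sol v p q g x := by
  classical
  intro j
  set e : J → ℝ := fun k => if k = j then 1 else 0 with he
  have hlin : ∀ (i : I) (t : ℝ), lin v i (fun k => x k + t * e k) = lin v i x + t * v i j := by
    intro i t
    unfold lin
    have h1 : ∀ k, v i k * (x k + t * e k) = v i k * x k + (if k = j then t * v i k else 0) := by
      intro k
      rw [he]
      by_cases hk : k = j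
      · simp only [hk, if_true]
        ring
      · simp only [hk, if_false]
        ring
    rw [Finset.sum_congr rfl fun k _ => h1 k, Finset.sum_add_distrib, Finset.sum_ite_eq']
    simp
  have hd : HasDerivAt (fun t : ℝ => Ex_Phi v p q g (fun k => x k + t * e k))
      (∑ k, (x k - g k) * e k + ∑ i, p (lin v i x) * v i j + ∑ k, q (x k) * e k) 0 := by
    have hline : ∀ a b : ℝ, HasDerivAt (fun t : ℝ => a + t * b) b 0 := by
      intro a b
      have h1 : HasDerivAt (fun t : ℝ => t * b) b 0 := by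
        simpa using (hasDerivAt_id (0:ℝ)).mul_const b
      exact h1.const_add a
    unfold Ex_Phi
    refine (HasDerivAt.add (HasDerivAt.add ?_ ?_) ?_)
    · have h1 : ∀ k ∈ (Finset.univ : Finset J), HasDerivAt
          (fun t : ℝ => (x k + t * e k - g k) ^ 2 / 2) ((x k - g k) * e k) 0 := by
        intro k _
        have h2 := (((hline (x k) (e k)).sub_const (g k)).pow 2).div_const 2
        refine h2.congr_deriv ?_
        simp
        ring
      exact HasDerivAt.fun_sum h1
    · have h1 : ∀ i ∈ (Finset.univ : Finset I), HasDerivAt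
          (fun t : ℝ => Ex_Pr p (lin v i (fun k => x k + t * e k))) (p (lin v i x) * v i j) 0 := by
        intro i _
        simp only [hlin]
        have h2 : HasDerivAt (Ex_Pr p) (p (lin v i x)) (lin v i x + 0 * v i j) := by
          have h3 := Ex_Pr_deriv hp (lin v i x)
          simpa using h3
        exact h2.comp (0:ℝ) (hline (lin v i x) (v i j))
      exact HasDerivAt.fun_sum h1
    · have h1 : ∀ k ∈ (Finset.univ : Finset J), HasDerivAt
          (fun t : ℝ => Ex_Pr q (x k + t * e k)) (q (x k) * e k) 0 := by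
        intro k _
        have h2 : HasDerivAt (Ex_Pr q) (q (x k)) (x k + 0 * e k) := by
          have h3 := Ex_Pr_deriv hq (x k)
          simpa using h3
        exact h2.comp (0:ℝ) (hline (x k) (e k))
      exact HasDerivAt.fun_sum h1
  have hmin : IsLocalMin (fun t : ℝ => Ex_Phi v p q g (fun k => x k + t * e k)) 0 := by
    refine Filter.Eventually.of_forall fun t => ?_
    have h0 : (fun k => x k + (0:ℝ) * e k) = x := by
      funext k
      rw [zero_mul, add_zero]
    show Ex_Phi v p q g (fun k => x k + (0:ℝ) * e k) ≤ Ex_Phi v p q g (fun k => x k + t * e k)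
    rw [h0]
    exact hx _
  have h0 := hmin.hasDerivAt_eq_zero hd
  have h1 : ∑ k, (x k - g k) * e k = x j - g j := by
    simp [he]
  have h2 : ∑ k, q (x k) * e k = q (x j) := by
    simp [he]
  have h3 : ∑ i, p (lin v i x) * v i j = ∑ i, v i j * p (lin v i x) :=
    Finset.sum_congr rfl fun i _ => mul_comm _ _
  rw [h1, h2, h3] at h0
  linarith

theorem exists_prox {I J : Type} [Fintype I] [Fintype J] (v : I → J → ℝ) (p q : ℝ → ℝ)
    (hp : Continuous p) (hq : Continuous q) (hpm : Monotone p) (hqm : Monotone q)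
    (hp0 : p 0 = 0) (hq0 : q 0 = 0) :
    ∃ z : (J → ℝ) → (J → ℝ), IsProx v p q z := by
  have h : ∀ g : J → ℝ, ∃ x : J → ℝ, Sol v p q g x := by
    intro g
    obtain ⟨x, hx⟩ := Ex_Phi_min v hp hq hpm hqm hp0 hq0 g
    exact ⟨x, Ex_stat v hp hq g x hx⟩
  choose z hz using h
  exact ⟨z, hz⟩

end Pool.Agent.SVR
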