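import Pool.Agent.SVR.Defs

set_option autoImplicit false

/-!
# [SVR-G0] density of the standard gaussian measure on `J → ℝ`

`gam J = Measure.pi (gaussianReal 0 1)` has density
`(√(2π))⁻¹ ^ card J * exp (-(nsq x)/2)`: compare the measures of boxes.
-/

namespace Pool.Agent.SVR

open MeasureTheory Finset ProbabilityTheory

theorem gam_eq (J : Type) [Fintype J] : gam J = volume.withDensity (fun x : J → ℝ =>
      ENNReal.ofReal (∏ j, gaussianPDFReal 0 1 (x j))) := by
  classical
  rw [gam]
  refine Measure.pi_eq fun s hs => ?_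
  have hms : MeasurableSet (Set.univ.pi s) := MeasurableSet.univ_pi hs
  rw [withDensity_apply _ hms]
  have hind : ∀ x : J → ℝ, (Set.univ.pi s).indicator
      (fun x : J → ℝ => ENNReal.ofReal (∏ j, gaussianPDFReal 0 1 (x j))) x =
      ENNReal.ofReal (∏ j, (s j).indicator (gaussianPDFReal 0 1) (x j)) := by
    intro x
    by_cases hx : x ∈ Set.univ.pi s
    · rw [Set.indicator_of_mem hx]
      congr 1
      refine Finset.prod_congr rfl fun j _ => ?_
      rw [Set.indicator_of_mem (hx j (Set.mem_univ j))]
    · rw [Set.indicator_of_notMem hx]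
      rw [Set.mem_univ_pi, not_forall] at hx
      obtain ⟨j, hj⟩ := hx
      rw [Finset.prod_eq_zero (Finset.mem_univ j) (Set.indicator_of_notMem hj _), ENNReal.ofReal_zero]
  have hint : ∀ j, Integrable ((s j).indicator (gaussianPDFReal 0 1)) := fun j =>
    (integrable_gaussianPDFReal 0 1).indicator (hs j)
  have hnn : ∀ j x, 0 ≤ (s j).indicator (gaussianPDFReal 0 1) x := fun j x =>
    Set.indicator_nonneg (fun y _ => gaussianPDFReal_nonneg 0 1 y) x
  rw [← lintegral_indicator hms, lintegral_congr hind, ← ofReal_integral_eq_lintegral_ofReal,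
    integral_fintype_prod_volume_eq_prod (fun j => (s j).indicator (gaussianPDFReal 0 1)),
    ENNReal.ofReal_prod_of_nonneg]
  · refine Finset.prod_congr rfl fun j _ => ?_
    rw [gaussianReal_apply_eq_integral _ one_ne_zero, integral_indicator (hs j)]
  · intro j _
    exact integral_nonneg (hnn j)
  · exact Integrable.fintype_prod hint
  · exact Filter.Eventually.of_forall fun x => Finset.prod_nonneg fun j _ => hnn j _

theorem prod_pdf (J : Type) [Fintype J] (x : J → ℝ) : ∏ j, gaussianPDFReal 0 1 (x j) =
    (√(2 * Real.pi))⁻¹ ^ Fintype.card J * Real.exp (-(nsq x) / 2) := by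
  simp only [gaussianPDFReal, NNReal.coe_one, mul_one, sub_zero]
  rw [Finset.prod_mul_distrib, Finset.prod_const, Finset.card_univ, ← Real.exp_sum]
  congr 2
  rw [nsq, ← Finset.sum_neg_distrib, Finset.sum_div]

theorem lintegral_gam (J : Type) [Fintype J] (f : (J → ℝ) → ENNReal) (hf : Measurable f) :
    ∫⁻ x, f x ∂gam J = ∫⁻ x, f x *
      ENNReal.ofReal ((√(2 * Real.pi))⁻¹ ^ Fintype.card J * Real.exp (-(nsq x) / 2)) := by
  rw [gam_eq]
  have hm : Measurable (fun x : J → ℝ => ENNReal.ofReal (∏ j, gaussianPDFReal 0 1 (x j))) := by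
    refine ENNReal.measurable_ofReal.comp (Finset.measurable_prod _ fun j _ => ?_)
    exact (measurable_gaussianPDFReal 0 1).comp (measurable_pi_apply j)
  rw [lintegral_withDensity_eq_lintegral_mul _ hm hf]
  refine lintegral_congr fun x => ?_
  rw [Pi.mul_apply, prod_pdf, mul_comm]

end Pool.Agent.SVR
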