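import Pool.Agent.SVR.G0
import Pool.Agent.SVG.Conc

set_option autoImplicit false

/-!
# [SVR-G1] Maurey's inequality for Lipschitz functions (from `SVG.tau_exp`)
-/

namespace Pool.Agent.SVR

open MeasureTheory Finset

theorem gam_svg (J : Type) [Fintype J] : gam J = Pool.Agent.SVG.gam J := rfl

theorem lip2_of (J : Type) [Fintype J] (F : (J → ℝ) → ℝ) (L : ℝ)
    (hF : ∀ x y, |F x - F y| ≤ L * √(nsq (x - y))) : Pool.Agent.SVG.Lip2 L F := by
  intro x y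
  have h1 := hF x y
  have h2 : 0 ≤ nsq (x - y) := Finset.sum_nonneg fun j _ => sq_nonneg _
  have h3 : (F x - F y) ^ 2 ≤ (L * √(nsq (x - y))) ^ 2 := by
    rw [← sq_abs]
    exact pow_le_pow_left₀ (abs_nonneg _) h1 2
  rw [mul_pow, Real.sq_sqrt h2] at h3
  exact h3

theorem gauss_pl (J : Type) [Fintype J] (F : (J → ℝ) → ℝ) (L : ℝ) (hL : 0 ≤ L)
    (hF : ∀ x y, |F x - F y| ≤ L * √(nsq (x - y))) :
    (∫⁻ x, ENNReal.ofReal (Real.exp (F x)) ∂gam J) *
      (∫⁻ x, ENNReal.ofReal (Real.exp (-F x)) ∂gam J) ≤ ENNReal.ofReal (Real.exp (L ^ 2)) := by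
  have h1 := Pool.Agent.SVG.tau_exp (lip2_of J F L hF) 1
  simp only [one_mul, neg_mul, one_pow] at h1
  exact h1

end Pool.Agent.SVR
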