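import Pool.Agent.SVR.G1

set_option autoImplicit false

/-!
# [SVR-G2] odd Lipschitz functions are subgaussian
-/

namespace Pool.Agent.SVR

open MeasureTheory Finset ProbabilityTheory

theorem gam_neg0 (J : Type) [Fintype J] : MeasurePreserving (fun x : J → ℝ => -x) (gam J) (gam J) := by
  have h1 : ∀ _j : J, MeasurePreserving (fun x : ℝ => -x) (gaussianReal 0 1) (gaussianReal 0 1) :=
    fun _ => ⟨measurable_neg, by rw [gaussianReal_map_neg, neg_zero]⟩
  have h2 := measurePreserving_pi (fun _ : J => gaussianReal 0 1) (fun _ : J => gaussianReal 0 1) h1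
  exact h2

theorem odd_mgf (J : Type) [Fintype J] (F : (J → ℝ) → ℝ) (L : ℝ) (hL : 0 ≤ L)
    (hF : ∀ x y, |F x - F y| ≤ L * √(nsq (x - y))) (hodd : ∀ x, F (-x) = -F x) :
    ∫⁻ x, ENNReal.ofReal (Real.exp (F x)) ∂gam J ≤ ENNReal.ofReal (Real.exp (L ^ 2 / 2)) := by
  have h1 := gauss_pl J F L hL hF
  have hm : Measurable F := (lip2_of J F L hF).measurable
  have h2 : ∫⁻ x, ENNReal.ofReal (Real.exp (-F x)) ∂gam J =
      ∫⁻ x, ENNReal.ofReal (Real.exp (F x)) ∂gam J := by
    have h3 := (gam_neg0 J).lintegral_comp (f := fun x => ENNReal.ofReal (Real.exp (F x)))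
      (by fun_prop)
    rw [← h3]
    refine lintegral_congr fun x => ?_
    rw [hodd]
  rw [h2] at h1
  set a := ∫⁻ x, ENNReal.ofReal (Real.exp (F x)) ∂gam J with ha
  have h4 : ENNReal.ofReal (Real.exp (L ^ 2)) = ENNReal.ofReal (Real.exp (L ^ 2 / 2)) *
      ENNReal.ofReal (Real.exp (L ^ 2 / 2)) := by
    rw [← ENNReal.ofReal_mul (by positivity), ← Real.exp_add]
    congr 2
    ring
  rw [h4] at h1
  by_contra hcon
  rw [not_le] at hcon
  exact absurd (ENNReal.mul_lt_mul hcon hcon) (not_lt.2 h1)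

theorem odd_tail_one (J : Type) [Fintype J] (F : (J → ℝ) → ℝ) (L : ℝ) (hL : 0 < L)
    (hF : ∀ x y, |F x - F y| ≤ L * √(nsq (x - y))) (hodd : ∀ x, F (-x) = -F x)
    (t : ℝ) (ht : 0 ≤ t) :
    (gam J).real {x | t ≤ F x} ≤ Real.exp (-(t ^ 2 / (2 * L ^ 2))) := by
  have hl := lip2_of J F L hF
  have hm : Measurable F := hl.measurable
  set s : ℝ := t / L ^ 2 with hs
  have hs0 : 0 ≤ s := by positivity
  have h1 := odd_mgf J (fun x => s * F x) (s * L) (by positivity) (fun x y => by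
    rw [← mul_sub, abs_mul, abs_of_nonneg hs0, mul_assoc]
    exact mul_le_mul_of_nonneg_left (hF x y) hs0) (fun x => by rw [hodd]; ring)
  have hint : Integrable (fun x => Real.exp (s * F x)) (gam J) := Pool.Agent.SVG.exp_int hl s
  have h2 := measure_ge_le_exp_mul_mgf (μ := gam J) (X := F) t hs0 hint
  have h3 : mgf F (gam J) s ≤ Real.exp ((s * L) ^ 2 / 2) := by
    have h4 : ENNReal.ofReal (∫ x, Real.exp (s * F x) ∂gam J) ≤
        ENNReal.ofReal (Real.exp ((s * L) ^ 2 / 2)) := by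
      rw [ofReal_integral_eq_lintegral_ofReal hint
        (Filter.Eventually.of_forall fun x => (Real.exp_pos _).le)]
      exact h1
    rw [ENNReal.ofReal_le_ofReal_iff (Real.exp_pos _).le] at h4
    exact h4
  refine h2.trans ?_
  calc Real.exp (-s * t) * mgf F (gam J) s ≤ Real.exp (-s * t) * Real.exp ((s * L) ^ 2 / 2) :=
        mul_le_mul_of_nonneg_left h3 (Real.exp_pos _).le
    _ = Real.exp (-(t ^ 2 / (2 * L ^ 2))) := by
        rw [← Real.exp_add]
        congr 1
        rw [hs]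
        field_simp
        ring

theorem odd_tail (J : Type) [Fintype J] (F : (J → ℝ) → ℝ) (L : ℝ) (hL : 0 < L)
    (hF : ∀ x y, |F x - F y| ≤ L * √(nsq (x - y))) (hodd : ∀ x, F (-x) = -F x)
    (t : ℝ) (ht : 0 ≤ t) :
    (gam J).real {x | t ≤ |F x|} ≤ 2 * Real.exp (-(t ^ 2 / (2 * L ^ 2))) := by
  have h1 := odd_tail_one J F L hL hF hodd t ht
  have h2 := odd_tail_one J (fun x => -F x) L hL (fun x y => by
    rw [show -F x - -F y = -(F x - F y) by ring, abs_neg]; exact hF x y)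
    (fun x => by rw [hodd]) t ht
  have h3 : {x | t ≤ |F x|} ⊆ {x | t ≤ F x} ∪ {x | t ≤ -F x} := by
    intro x hx
    have hx' : t ≤ |F x| := hx
    rcases le_abs.1 hx' with h | h
    · exact Or.inl h
    · exact Or.inr h
  calc (gam J).real {x | t ≤ |F x|} ≤ (gam J).real ({x | t ≤ F x} ∪ {x | t ≤ -F x}) :=
        measureReal_mono h3
    _ ≤ (gam J).real {x | t ≤ F x} + (gam J).real {x | t ≤ -F x} := measureReal_union_le _ _
    _ ≤ _ := by linarith

end Pool.Agent.SVR
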