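import Pool.Agent.SVR.G2

set_option autoImplicit false

/-!
# [SVR-G4] odd 1-Lipschitz vector valued functions
-/

namespace Pool.Agent.SVR

open MeasureTheory Finset ProbabilityTheory

/-- product functions -/
theorem lintegral_gam_prod (K : Type) [Fintype K] (f : K → ℝ → ENNReal)
    (hf : ∀ k, Measurable (f k)) :
    ∫⁻ ξ, ∏ k, f k (ξ k) ∂gam K = ∏ k, ∫⁻ t, f k t ∂(gaussianReal 0 1) := by
  have h1 : iIndepFun (fun (k : K) (ω : K → ℝ) => f k (ω k))
      (Measure.pi (fun _ : K => gaussianReal 0 1)) :=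
    iIndepFun_pi (fun k => (hf k).aemeasurable)
  have h2 := lintegral_prod_eq_prod_lintegral_of_indepFun Finset.univ
    (fun (k : K) (ω : K → ℝ) => f k (ω k)) h1 (fun k => (hf k).comp (measurable_pi_apply k))
  rw [gam, h2]
  refine Finset.prod_congr rfl fun k _ => ?_
  exact (measurePreserving_eval (fun _ : K => gaussianReal 0 1) k).lintegral_comp (hf k)

theorem lin_mgf (K : Type) [Fintype K] (a : K → ℝ) :
    ∫⁻ ξ, ENNReal.ofReal (Real.exp (∑ k, a k * ξ k / √2)) ∂gam K =
      ENNReal.ofReal (Real.exp (nsq a / 4)) := by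
  have h1 : ∀ ξ : K → ℝ, ENNReal.ofReal (Real.exp (∑ k, a k * ξ k / √2)) =
      ∏ k, ENNReal.ofReal (Real.exp (a k / √2 * ξ k)) := by
    intro ξ
    rw [Real.exp_sum, ENNReal.ofReal_prod_of_nonneg (fun k _ => (Real.exp_pos _).le)]
    refine Finset.prod_congr rfl fun k _ => ?_
    congr 2
    ring
  rw [lintegral_congr h1, lintegral_gam_prod K (fun k t => ENNReal.ofReal (Real.exp (a k / √2 * t)))
    (fun k => by fun_prop)]
  have h2 : ∀ k, ∫⁻ t, ENNReal.ofReal (Real.exp (a k / √2 * t)) ∂(gaussianReal 0 1) =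
      ENNReal.ofReal (Real.exp (a k ^ 2 / 4)) := by
    intro k
    rw [← ofReal_integral_eq_lintegral_ofReal (integrable_exp_mul_gaussianReal _)
      (Filter.Eventually.of_forall fun x => (Real.exp_pos _).le)]
    have h3 := congrFun (mgf_id_gaussianReal (μ := 0) (v := 1)) (a k / √2)
    rw [mgf] at h3
    simp only [id_eq] at h3
    rw [h3]
    congr 2
    rw [div_pow, Real.sq_sqrt (by norm_num)]
    simp only [NNReal.coe_one, zero_mul, zero_add, one_mul]
    ring
  rw [Finset.prod_congr rfl (fun k _ => h2 k), ← ENNReal.ofReal_prod_of_nonneg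
    (fun k _ => (Real.exp_pos _).le), ← Real.exp_sum]
  congr 2
  rw [nsq, Finset.sum_div]

theorem one_quarter : ∫⁻ t, ENNReal.ofReal (Real.exp (t ^ 2 / 4)) ∂(gaussianReal 0 1) =
    ENNReal.ofReal √2 := by
  rw [gaussianReal_of_var_ne_zero _ one_ne_zero,
    lintegral_withDensity_eq_lintegral_mul _ (measurable_gaussianPDF _ _) (by fun_prop)]
  have h1 : ∀ t : ℝ, (gaussianPDF 0 1 * fun t => ENNReal.ofReal (Real.exp (t ^ 2 / 4))) t =
      ENNReal.ofReal ((√(2 * Real.pi))⁻¹ * Real.exp (-(1 / 4) * t ^ 2)) := by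
    intro t
    rw [Pi.mul_apply, gaussianPDF, gaussianPDFReal, ← ENNReal.ofReal_mul (by positivity)]
    congr 1
    simp only [NNReal.coe_one, mul_one, sub_zero]
    rw [mul_assoc, ← Real.exp_add]
    congr 2
    ring
  rw [lintegral_congr h1, ← ofReal_integral_eq_lintegral_ofReal
    ((integrable_exp_neg_mul_sq (by norm_num)).const_mul _)
    (Filter.Eventually.of_forall fun x => by positivity), integral_const_mul, integral_gaussian]
  congr 1
  rw [show Real.pi / (1 / 4) = 2 * (2 * Real.pi) by ring, Real.sqrt_mul (by norm_num) (2 * Real.pi)]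
  have hp : √(2 * Real.pi) ≠ 0 := by positivity
  rw [mul_comm √2, ← mul_assoc, inv_mul_cancel₀ hp, one_mul]

theorem nsq_quarter (K : Type) [Fintype K] :
    ∫⁻ ξ, ENNReal.ofReal (Real.exp (nsq ξ / 4)) ∂gam K = ENNReal.ofReal (√2 ^ Fintype.card K) := by
  have h1 : ∀ ξ : K → ℝ, ENNReal.ofReal (Real.exp (nsq ξ / 4)) =
      ∏ k, ENNReal.ofReal (Real.exp (ξ k ^ 2 / 4)) := by
    intro ξ
    rw [nsq, Finset.sum_div, Real.exp_sum,
      ENNReal.ofReal_prod_of_nonneg (fun k _ => (Real.exp_pos _).le)]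
  rw [lintegral_congr h1, lintegral_gam_prod K (fun _ t => ENNReal.ofReal (Real.exp (t ^ 2 / 4)))
    (fun k => by fun_prop), Finset.prod_congr rfl (fun k _ => one_quarter), Finset.prod_const,
    Finset.card_univ, ENNReal.ofReal_pow (by positivity)]

theorem vec_mgf (J K : Type) [Fintype J] [Fintype K] (w : (J → ℝ) → K → ℝ)
    (hw : ∀ x y, nsq (w x - w y) ≤ nsq (x - y)) (hodd : ∀ x, w (-x) = -w x) :
    ∫⁻ x, ENNReal.ofReal (Real.exp (nsq (w x) / 4)) ∂gam J ≤
      ENNReal.ofReal (√2 ^ Fintype.card K) := by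
  have hwk : ∀ k, Measurable (fun x => w x k) := by
    intro k
    have h1 : Pool.Agent.SVG.Lip2 1 (fun x => w x k) := by
      intro x y
      rw [one_pow, one_mul]
      have h2 : (w x k - w y k) ^ 2 ≤ nsq (w x - w y) :=
        Finset.single_le_sum (f := fun k => (w x - w y) k ^ 2) (fun i _ => sq_nonneg _)
          (Finset.mem_univ k)
      exact h2.trans (hw x y)
    exact h1.measurable
  have hwm : Measurable w := measurable_pi_iff.2 hwk
  have e1 : ∀ x, ENNReal.ofReal (Real.exp (nsq (w x) / 4)) =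
      ∫⁻ ξ, ENNReal.ofReal (Real.exp (∑ k, w x k * ξ k / √2)) ∂gam K := fun x =>
    (lin_mgf K (w x)).symm
  rw [lintegral_congr e1, lintegral_lintegral_swap (by
    refine Measurable.aemeasurable ?_
    refine ENNReal.measurable_ofReal.comp (Real.measurable_exp.comp ?_)
    refine Finset.measurable_sum _ fun k _ => ?_
    exact (((hwk k).comp measurable_fst).mul ((measurable_pi_apply k).comp measurable_snd)).div_const _)]
  rw [← nsq_quarter K]
  refine lintegral_mono fun ξ => ?_
  have hn : 0 ≤ nsq ξ := Finset.sum_nonneg fun k _ => sq_nonneg _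
  have h2 := odd_mgf J (fun x => ∑ k, w x k * ξ k / √2) (√(nsq ξ) / √2) (by positivity)
    (fun x y => ?_) (fun x => ?_)
  · refine h2.trans (le_of_eq ?_)
    congr 2
    rw [div_pow, Real.sq_sqrt hn, Real.sq_sqrt (by norm_num)]
    ring
  · rw [← Finset.sum_sub_distrib]
    have e2 : ∑ k, (w x k * ξ k / √2 - w y k * ξ k / √2) = (∑ k, (w x - w y) k * ξ k) / √2 := by
      rw [Finset.sum_div]
      refine Finset.sum_congr rfl fun k _ => ?_
      rw [Pi.sub_apply]
      ring
    rw [e2, abs_div, abs_of_nonneg (Real.sqrt_nonneg 2)]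
    have hcs := Finset.sum_mul_sq_le_sq_mul_sq Finset.univ (fun k => (w x - w y) k) ξ
    have h3 : |∑ k, (w x - w y) k * ξ k| ≤ √(nsq (x - y)) * √(nsq ξ) := by
      have hxy : 0 ≤ nsq (x - y) := Finset.sum_nonneg fun k _ => sq_nonneg _
      rw [← Real.sqrt_mul hxy]
      refine Real.abs_le_sqrt ?_
      refine hcs.trans ?_
      exact mul_le_mul_of_nonneg_right (hw x y) hn
    calc |∑ k, (w x - w y) k * ξ k| / √2 ≤ √(nsq (x - y)) * √(nsq ξ) / √2 :=
          div_le_div_of_nonneg_right h3 (Real.sqrt_nonneg 2)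
      _ = √(nsq ξ) / √2 * √(nsq (x - y)) := by ring
  · rw [hodd, ← Finset.sum_neg_distrib]
    refine Finset.sum_congr rfl fun k _ => ?_
    rw [Pi.neg_apply]
    ring

end Pool.Agent.SVR
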