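import Pool.Agent.SVR.Prb
import Pool.Agent.SVR.Bal

set_option autoImplicit false

/-!
# [SVR-GdP] probability of `¬ GoodAt`

`¬ GoodAt` with `k = 4 k'`: some chain `c` has `4 * #bad > 4 k'`, so `#bad ≥ k' + 1`; the set `T` of its bad
positions satisfies `T.card > k'` and all positions in `T` are bad.  Union bound over chains `c`
(`chain_card`: at most `D^(16 k')`) and subsets `T` of `Fin (4 k')` (at most `2^(4k') = 16^k'`):
`psi_joint` gives `β^T.card ≤ β^k'` with `β = √2 exp (-(y0^2/4)) ≤ 1` (as `y0 ≥ 2`: `√2 e^{-1} < 1`).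
`good_meas`: finite intersection over chains of sets defined by a finite count of open conditions
(`z` continuous, `ψ` continuous).
-/

namespace Pool.Agent.SVR

open MeasureTheory Finset

open scoped Classical

variable {I J : Type} [Fintype I] [Fintype J]
variable {v : I → J → ℝ} {ρ R Y : ℝ} {p ψ q χ : ℝ → ℝ} {z : (J → ℝ) → (J → ℝ)}

theorem good_meas (h : Sys v ρ R Y p ψ q χ z) (y0 : ℝ) (k : ℕ) (j : J) :
    MeasurableSet {g | GoodAt v ψ z y0 k j g} := by
  have hcoord : ∀ i : I, Measurable fun g : J → ℝ => |ψ (lin v i (z g))| := by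
    intro i
    have hz := h.cont
    have hl : Continuous fun g : J → ℝ => lin v i (z g) := by
      unfold lin
      exact continuous_finsetSum _ fun j _ =>
        continuous_const.mul ((continuous_apply j).comp hz)
    exact (continuous_abs.comp (h.pot.ψ_cont.comp hl)).measurable
  have hset : {g : J → ℝ | GoodAt v ψ z y0 k j g} =
      ⋂ c : Fin k → I, {g : J → ℝ | IsChain v j k c →
        4 * (univ.filter fun t => y0 < |ψ (lin v (c t) (z g))|).card ≤ k} := by
    ext g
    simp only [Set.mem_ofPred_eq, Set.mem_iInter, GoodAt]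
  rw [hset]
  refine MeasurableSet.iInter fun c => ?_
  by_cases hc : IsChain v j k c
  · have hcard : Measurable fun g : J → ℝ =>
        (univ.filter fun t : Fin k => y0 < |ψ (lin v (c t) (z g))|).card := by
      have he : (fun g : J → ℝ =>
          (univ.filter fun t : Fin k => y0 < |ψ (lin v (c t) (z g))|).card) =
          fun g : J → ℝ => ∑ t : Fin k, if y0 < |ψ (lin v (c t) (z g))| then 1 else 0 := by
        funext g
        rw [Finset.card_filter]
      rw [he]
      refine Finset.measurable_sum _ fun t _ => ?_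
      exact Measurable.ite (measurableSet_lt measurable_const (hcoord (c t)))
        measurable_const measurable_const
    have hh : MeasurableSet {n : ℕ | 4 * n ≤ k} := MeasurableSet.of_discrete
    have h2 := hcard hh
    have he2 : {g : J → ℝ | IsChain v j k c →
        4 * (univ.filter fun t => y0 < |ψ (lin v (c t) (z g))|).card ≤ k} =
        (fun g : J → ℝ =>
          (univ.filter fun t : Fin k => y0 < |ψ (lin v (c t) (z g))|).card) ⁻¹'
          {n : ℕ | 4 * n ≤ k} := by
      ext g
      simp only [Set.mem_ofPred_eq, Set.mem_preimage]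
      exact ⟨fun h1 => h1 hc, fun h1 _ => h1⟩
    rw [he2]
    exact h2
  · have he3 : {g : J → ℝ | IsChain v j k c →
        4 * (univ.filter fun t => y0 < |ψ (lin v (c t) (z g))|).card ≤ k} = Set.univ := by
      ext g
      simp only [Set.mem_ofPred_eq, Set.mem_univ, iff_true]
      exact fun h1 => absurd h1 hc
    rw [he3]
    exact MeasurableSet.univ

theorem good_prob (h : Sys v ρ R Y p ψ q χ z) (D : ℕ)
    (hD1 : ∀ i, (univ.filter fun j => v i j ≠ 0).card ≤ D)
    (hD2 : ∀ j, (univ.filter fun i => v i j ≠ 0).card ≤ D) (y0 : ℝ) (hy : 2 ≤ y0) (k' : ℕ)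
    (j : J) :
    (gam J).real {g | ¬ GoodAt v ψ z y0 (4 * k') j g} ≤
      (16 * (D : ℝ) ^ 16 * (√2 * Real.exp (-(y0 ^ 2 / 4)))) ^ k' := by
  set β : ℝ := √2 * Real.exp (-(y0 ^ 2 / 4)) with hβ
  have hβ0 : 0 ≤ β := by positivity
  have hβ1 : β ≤ 1 := by
    have h1 : √2 ≤ 2 := by
      rw [Real.sqrt_le_left (by norm_num)]
      norm_num
    have h2 : Real.exp (-(y0 ^ 2 / 4)) ≤ Real.exp (-1) := by
      apply Real.exp_le_exp.mpr
      nlinarith
    have h3 : Real.exp (-1) ≤ 1 / 2 := by
      rw [Real.exp_neg, inv_eq_one_div]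
      apply one_div_le_one_div_of_le (by norm_num)
      have := Real.add_one_le_exp (1 : ℝ)
      linarith
    have h4 : 0 ≤ Real.exp (-(y0 ^ 2 / 4)) := (Real.exp_pos _).le
    calc β ≤ 2 * (1 / 2) := by
          rw [hβ]
          exact mul_le_mul h1 (h2.trans h3) h4 (by norm_num)
      _ = 1 := by norm_num
  let chains : Finset (Fin (4 * k') → I) := univ.filter fun c => IsChain v j (4 * k') c
  let subs : Finset (Finset (Fin (4 * k'))) := univ.filter fun S => k' ≤ S.card
  have hsub : {g : J → ℝ | ¬ GoodAt v ψ z y0 (4 * k') j g} ⊆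
      ⋃ c ∈ chains, ⋃ S ∈ subs, {g : J → ℝ | ∀ t ∈ S, y0 < |ψ (lin v (c t) (z g))|} := by
    intro g hg
    simp only [Set.mem_ofPred_eq, GoodAt, not_forall, not_le] at hg
    obtain ⟨c, hc, hlt⟩ := hg
    simp only [Set.mem_iUnion]
    refine ⟨c, ?_, univ.filter fun t => y0 < |ψ (lin v (c t) (z g))|, ?_, ?_⟩
    · simp only [chains, Finset.mem_filter, Finset.mem_univ, true_and]
      exact hc
    · simp only [subs, Finset.mem_filter, Finset.mem_univ, true_and]
      omega
    · intro t ht
      simpa only [Finset.mem_filter, Finset.mem_univ, true_and] using ht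
  have hmono : (gam J).real {g | ¬ GoodAt v ψ z y0 (4 * k') j g} ≤
      (gam J).real (⋃ c ∈ chains, ⋃ S ∈ subs,
        {g : J → ℝ | ∀ t ∈ S, y0 < |ψ (lin v (c t) (z g))|}) :=
    measureReal_mono hsub (measure_ne_top _ _)
  refine hmono.trans ?_
  refine (measureReal_biUnion_finset_le _ _).trans ?_
  have hone : ∀ c ∈ chains, (gam J).real (⋃ S ∈ subs,
      {g : J → ℝ | ∀ t ∈ S, y0 < |ψ (lin v (c t) (z g))|}) ≤ 16 ^ k' * β ^ k' := by
    intro c hc
    have hc' : IsChain v j (4 * k') c := by
      simpa only [chains, Finset.mem_filter, Finset.mem_univ, true_and] using hc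
    refine (measureReal_biUnion_finset_le _ _).trans ?_
    have hS : ∀ S ∈ subs, (gam J).real
        {g : J → ℝ | ∀ t ∈ S, y0 < |ψ (lin v (c t) (z g))|} ≤ β ^ k' := by
      intro S hS
      have hS' : k' ≤ S.card := by
        simpa only [subs, Finset.mem_filter, Finset.mem_univ, true_and] using hS
      exact (psi_joint h (4 * k') c hc'.disj S y0 (by linarith)).trans
        (pow_le_pow_of_le_one hβ0 hβ1 hS')
    refine (Finset.sum_le_sum hS).trans ?_
    rw [Finset.sum_const, nsmul_eq_mul]
    have hcs : (subs.card : ℝ) ≤ 16 ^ k' := by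
      have h1 : subs.card ≤ Fintype.card (Finset (Fin (4 * k'))) := Finset.card_le_univ _
      rw [Fintype.card_finset, Fintype.card_fin, pow_mul] at h1
      norm_num at h1
      exact_mod_cast h1
    exact mul_le_mul_of_nonneg_right hcs (pow_nonneg hβ0 _)
  refine (Finset.sum_le_sum hone).trans ?_
  rw [Finset.sum_const, nsmul_eq_mul]
  have hcc : (chains.card : ℝ) ≤ (D : ℝ) ^ (16 * k') := by
    have h1 := chain_card v D hD1 hD2 j (4 * k')
    have h2 : chains.card ≤ D ^ (16 * k') := by
      refine h1.trans (le_of_eq ?_)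
      congr 1
      ring
    exact_mod_cast h2
  calc (chains.card : ℝ) * (16 ^ k' * β ^ k') ≤ (D : ℝ) ^ (16 * k') * (16 ^ k' * β ^ k') :=
        mul_le_mul_of_nonneg_right hcc (by positivity)
    _ = (16 * (D : ℝ) ^ 16 * β) ^ k' := by
        rw [mul_pow _ β, mul_pow 16, ← pow_mul]
        ring

end Pool.Agent.SVR
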