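import Pool.Agent.SVR.Loc
import Pool.Agent.SVR.CmB

set_option autoImplicit false

/-!
# [SVR-La1] locality on good configurations (deterministic)

`exists_height` with `k = 4 k'` and `Bad i := y0 < |ψ (lin v i (z g))| ∨ y0 < |ψ (lin v i (z g'))|`: in a
chain `4 #bad(g) ≤ 4 k'`, `4 #bad(g') ≤ 4 k'`, so `2 #(bad for one of them) ≤ 4 k'`.  We get `N` with
`N j = 0` and `2 k' ≤ N l` for `l ∉ ball v j (8 k')`.  `loc_est` (bad rows: `N` constant; the other rows
have both `|ψ| ≤ y0`): `(z g j - z g' j)^2 ≤ ∑ W δ^2 ≤ 4 ∑ W_l (g l - g' l)^2` and the terms with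
`l ∈ ball` vanish, `W_l ≤ exp (-(2 ε k'))` for the others:
`≤ 4 exp (-(2 ε k')) nsq (g - g')`.
-/

namespace Pool.Agent.SVR

open MeasureTheory Finset

open scoped Classical

variable {I J : Type} [Fintype I] [Fintype J]
variable {v : I → J → ℝ} {ρ R Y : ℝ} {p ψ q χ : ℝ → ℝ} {z : (J → ℝ) → (J → ℝ)}

theorem la_lip (h : Sys v ρ R Y p ψ q χ z) (y0 ε : ℝ) (hy0 : 0 ≤ y0) (hε : 0 ≤ ε)
    (hε2 : (Real.exp ε - 1) ^ 2 * ρ * y0 ^ 4 ≤ 1) (k' : ℕ) (j : J) (g g' : J → ℝ)
    (h1 : GoodAt v ψ z y0 (4 * k') j g) (h2 : GoodAt v ψ z y0 (4 * k') j g')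
    (hB : ∀ l ∈ ball v j (8 * k'), g l = g' l) :
    |z g j - z g' j| ≤ 2 * Real.exp (-(ε * k')) * √(nsq (g - g')) := by
  obtain ⟨N, hN0, hNbad, hNstep, hNfar⟩ := exists_height v
    (fun i => y0 < |ψ (lin v i (z g))| ∨ y0 < |ψ (lin v i (z g'))|) j (4 * k') (by
      intro c hc
      have e1 := h1 c hc
      have e2 := h2 c hc
      have e3 : ∀ (K : Type) [Fintype K] (P Q : K → Prop) (i1 : DecidablePred fun t => P t ∨ Q t)
          (i2 : DecidablePred P) (i3 : DecidablePred Q),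
          (@Finset.filter K (fun t => P t ∨ Q t) i1 univ).card ≤
          (@Finset.filter K P i2 univ).card + (@Finset.filter K Q i3 univ).card := by
        intro K _ P Q i1 i2 i3
        refine le_trans (Finset.card_le_card ?_) (Finset.card_union_le _ _)
        intro t ht
        simpa using ht
      have e5 := e3 (Fin (4 * k')) (fun t => y0 < |ψ (lin v (c t) (z g))|)
        (fun t => y0 < |ψ (lin v (c t) (z g'))|) (fun _ => Classical.propDecidable _)
        (fun _ => Classical.propDecidable _) (fun _ => Classical.propDecidable _)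
      refine le_trans (Nat.mul_le_mul_left 2 e5) ?_
      omega)
  have hloc := loc_est h y0 ε hy0 hε hε2 N g g' (fun i => by
    by_cases hb : y0 < |ψ (lin v i (z g))| ∨ y0 < |ψ (lin v i (z g'))|
    · exact Or.inl (hNbad i hb)
    · push Not at hb
      exact Or.inr ⟨hb.1, hb.2, hNstep i⟩)
  have hfar : ∀ l, l ∉ ball v j (8 * k') → 2 * k' ≤ N l := by
    intro l hl
    have e1 : 2 * (4 * k') = 8 * k' := by ring
    have := hNfar l (by rw [e1]; exact hl)
    omega
  have hL : (z g j - z g' j) ^ 2 ≤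
      ∑ l, Real.exp (-(ε * N l)) * (z g l - z g' l) ^ 2 := by
    have e1 : (z g j - z g' j) ^ 2 = Real.exp (-(ε * N j)) * (z g j - z g' j) ^ 2 := by
      rw [hN0]; simp
    rw [e1]
    exact Finset.single_le_sum (f := fun l => Real.exp (-(ε * N l)) * (z g l - z g' l) ^ 2)
      (fun l _ => by positivity) (Finset.mem_univ j)
  have hR : ∑ l, Real.exp (-(ε * N l)) * (g l - g' l) ^ 2 ≤
      Real.exp (-(2 * (ε * k'))) * nsq (g - g') := by
    unfold nsq
    rw [Finset.mul_sum]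
    refine Finset.sum_le_sum fun l _ => ?_
    by_cases hl : l ∈ ball v j (8 * k')
    · rw [hB l hl]
      have e2 : (g' l - g' l) ^ 2 = 0 := by ring
      rw [e2, mul_zero]
      positivity
    · refine mul_le_mul_of_nonneg_right ?_ (sq_nonneg _)
      apply Real.exp_le_exp.mpr
      have e3 : (2 * (k' : ℝ)) ≤ N l := by exact_mod_cast hfar l hl
      nlinarith
  refine abs_le_of_sq_le_sq ?_ (by positivity)
  have hn : 0 ≤ nsq (g - g') := Finset.sum_nonneg fun l _ => sq_nonneg _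
  rw [mul_pow, mul_pow, Real.sq_sqrt hn, ← Real.exp_nat_mul]
  have e4 : ((2 : ℕ) : ℝ) * -(ε * k') = -(2 * (ε * k')) := by push_cast; ring
  rw [e4]
  calc (z g j - z g' j) ^ 2 ≤ 4 * ∑ l, Real.exp (-(ε * N l)) * (g l - g' l) ^ 2 := hL.trans hloc
    _ ≤ 4 * (Real.exp (-(2 * (ε * k'))) * nsq (g - g')) := by gcongr
    _ = _ := by ring

end Pool.Agent.SVR
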