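import Pool.Agent.SVR.G3

set_option autoImplicit false

/-!
# [SVR-La2] concentration of a function which is Lipschitz on a large set

If `S = ∅` the left side is `0`.  Otherwise McShane (explicitly
`F x = ⨅ y : S, f y + L √(nsq (x - y))`, or `LipschitzOnWith.extend_real` for
`EuclideanSpace`/`WithLp`) clipped to `[-1, 1]`: `F` is `L`-Lipschitz on the whole space, `|F| ≤ 1`,
`F = f` on `S`.  `|∫ f - ∫ F| ≤ 2 μ(Sᶜ) ≤ t/2`.  On `S`: `t < |f - ∫ f|` implies
`t/2 ≤ |F - ∫ F|`; `mean_tail` with `t/2`: `2 exp (-((t/2)^2/(4L^2))) = 2 exp (-(t^2/(16 L^2)))`.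
-/

namespace Pool.Agent.SVR

open MeasureTheory Finset

theorem la2_clip_lip (a b : ℝ) : |clip a - clip b| ≤ |a - b| := by
  unfold clip
  rcases le_total a b with h | h
  · rw [abs_sub_comm, abs_sub_comm a b, abs_of_nonneg, abs_of_nonneg (by linarith)]
    · simp only [max_def, min_def]
      split_ifs <;> linarith
    · exact sub_nonneg.mpr (max_le_max le_rfl (min_le_min le_rfl h))
  · rw [abs_of_nonneg, abs_of_nonneg (by linarith)]
    · simp only [max_def, min_def]
      split_ifs <;> linarith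
    · exact sub_nonneg.mpr (max_le_max le_rfl (min_le_min le_rfl h))

theorem la2_clip_abs (a : ℝ) : |clip a| ≤ 1 := by
  unfold clip
  rw [abs_le]
  exact ⟨le_max_left _ _, max_le (by norm_num) (min_le_left _ _)⟩

theorem la2_clip_eq (a : ℝ) (h : |a| ≤ 1) : clip a = a := by
  unfold clip
  rw [abs_le] at h
  rw [min_eq_right h.2, max_eq_right h.1]

/-- McShane extension for the euclidean norm on `J → ℝ`, clipped -/
theorem la2_ext (J : Type) [Fintype J] (f : (J → ℝ) → ℝ) (hf1 : ∀ x, |f x| ≤ 1) (S : Set (J → ℝ))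
    (L : ℝ) (hL : 0 < L) (hlip : ∀ x ∈ S, ∀ y ∈ S, |f x - f y| ≤ L * √(nsq (x - y))) :
    ∃ F : (J → ℝ) → ℝ, (∀ x y, |F x - F y| ≤ L * √(nsq (x - y))) ∧ (∀ x, |F x| ≤ 1) ∧
      ∀ x ∈ S, F x = f x := by
  have hdist : ∀ x y : J → ℝ, dist (WithLp.toLp 2 x : EuclideanSpace ℝ J) (WithLp.toLp 2 y) =
      √(nsq (x - y)) := by
    intro x y
    rw [EuclideanSpace.dist_eq]
    congr 1
    unfold nsq
    refine Finset.sum_congr rfl fun j _ => ?_
    simp [Real.dist_eq, sq_abs]
  have h1 : LipschitzOnWith (Real.toNNReal L) (fun x : EuclideanSpace ℝ J => f (WithLp.ofLp x))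
      {x | WithLp.ofLp x ∈ S} := by
    apply LipschitzOnWith.of_dist_le_mul
    intro x hx y hy
    rw [Real.dist_eq, Real.coe_toNNReal _ hL.le]
    have := hlip _ hx _ hy
    rw [← hdist] at this
    exact this
  obtain ⟨g, hg, hgS⟩ := h1.extend_real
  refine ⟨fun x => clip (g (WithLp.toLp 2 x)), fun x y => ?_, fun x => la2_clip_abs _, fun x hx => ?_⟩
  · refine (la2_clip_lip _ _).trans ?_
    have := hg.dist_le_mul (WithLp.toLp 2 x) (WithLp.toLp 2 y)
    rw [Real.dist_eq, Real.coe_toNNReal _ hL.le, hdist] at this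
    exact this
  · have h2 : f x = g (WithLp.toLp 2 x) := hgS (x := WithLp.toLp 2 x) hx
    change clip (g (WithLp.toLp 2 x)) = f x
    rw [← h2]
    exact la2_clip_eq _ (hf1 x)

theorem lip_set_conc (J : Type) [Fintype J] (f : (J → ℝ) → ℝ) (hf : Measurable f)
    (hf1 : ∀ x, |f x| ≤ 1) (S : Set (J → ℝ)) (hS : MeasurableSet S) (L : ℝ) (hL : 0 < L)
    (hlip : ∀ x ∈ S, ∀ y ∈ S, |f x - f y| ≤ L * √(nsq (x - y))) (t : ℝ) (ht : 0 < t)
    (hSt : (gam J).real Sᶜ ≤ t / 4) :
    (gam J).real {x | x ∈ S ∧ t < |f x - ∫ y, f y ∂gam J|} ≤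
      2 * Real.exp (-(t ^ 2 / (16 * L ^ 2))) := by
  obtain ⟨F, hFlip, hF1, hFS⟩ := la2_ext J f hf1 S L hL hlip
  obtain ⟨hFint, hFtail⟩ := mean_tail J F L hL hFlip (t / 2) (by positivity)
  have hfint : Integrable f (gam J) :=
    Integrable.of_bound hf.aestronglyMeasurable 1 (Filter.Eventually.of_forall fun x => by
      rw [Real.norm_eq_abs]; exact hf1 x)
  have hdiff : |∫ y, f y ∂gam J - ∫ y, F y ∂gam J| ≤ t / 2 := by
    rw [← integral_sub hfint hFint]
    refine (abs_integral_le_integral_abs).trans ?_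
    have h1 : ∫ y, |f y - F y| ∂gam J ≤ ∫ y, Sᶜ.indicator (fun _ => (2 : ℝ)) y ∂gam J := by
      refine integral_mono (hfint.sub hFint).abs ((integrable_const _).indicator hS.compl) ?_
      intro y
      by_cases hy : y ∈ S
      · simp [hFS y hy, hy]
      · have h2 : |f y - F y| ≤ 2 := by
          refine (abs_sub _ _).trans ?_
          linarith [hf1 y, hF1 y]
        simpa [hy] using h2
    refine h1.trans ?_
    rw [integral_indicator hS.compl, setIntegral_const, smul_eq_mul]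
    linarith
  refine (measureReal_mono ?_ (measure_ne_top _ _)).trans (hFtail.trans (le_of_eq ?_))
  · intro x hx
    obtain ⟨hxS, hxt⟩ := hx
    have h1 : F x = f x := hFS x hxS
    have h2 : |f x - ∫ y, f y ∂gam J| ≤ |F x - ∫ y, F y ∂gam J| + |∫ y, f y ∂gam J - ∫ y, F y ∂gam J| := by
      rw [h1]
      have : f x - ∫ y, f y ∂gam J = (f x - ∫ y, F y ∂gam J) - (∫ y, f y ∂gam J - ∫ y, F y ∂gam J) := by
        ring
      rw [this]
      exact abs_sub _ _
    show t / 2 ≤ |F x - ∫ y, F y ∂gam J|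
    linarith
  · congr 2
    field_simp
    ring

end Pool.Agent.SVR
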