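import Pool.Agent.SVR.La1
import Pool.Agent.SVR.La2
import Pool.Agent.SVR.Glu
import Pool.Agent.SVR.GdP

set_option autoImplicit false

/-!
# [SVR-La3] the local approximation

Let `B = ball v j (8 k')`, `G = {g | GoodAt v ψ z y0 (4k') j g}` (measurable: `good_meas`),
`f_g g' = clip (z (glue B g g') j)`, `S_g = {g' | glue B g g' ∈ G}`, `zloc z B g j = ∫ f_g`.
For `g', g'' ∈ S_g`: `|f_g g' - f_g g''| ≤ 2 exp (-(ε k')) √(nsq (glue B g g' - glue B g g''))
≤ 2 exp (-(ε k')) √(nsq (g' - g''))` (`la_lip`, `clip_lip`).  By `lip_set_conc` with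
`L = 2 exp (-(ε k'))` (`16 L^2 = 64 exp (-(2 ε k'))`): if `μ(S_gᶜ) ≤ t/4` then
`μ {g' | glue B g g' ∈ G ∧ t < |f_g g' - zloc z B g j|} ≤ 2 exp (-(t^2 exp (2 ε k')/64))`.
Let `A = {g | g ∈ G ∧ t < |clip (z g j) - zloc z B g j|}`.  By `glue_mp` and
`zloc z B (glue B g g') j = zloc z B g j` (`zloc_dep`),
`μ A = (μ×μ) {(g,g') | glue B g g' ∈ A} = ∫ μ {g' | glue B g g' ∈ G ∧ t < |f_g g' - zloc z B g j|} dμ(g)
 ≤ 2 exp(..) + μ {g | t/4 < μ(S_gᶜ)}` and by Markov and `glue_mp`
`μ {g | t/4 < μ(S_gᶜ)} ≤ (4/t) ∫ μ(S_gᶜ) dμ(g) = (4/t) μ(Gᶜ)`.  Add `μ(Gᶜ)`.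
-/

namespace Pool.Agent.SVR

open MeasureTheory Finset

open scoped Classical

variable {I J : Type} [Fintype I] [Fintype J]
variable {v : I → J → ℝ} {ρ R Y : ℝ} {p ψ q χ : ℝ → ℝ} {z : (J → ℝ) → (J → ℝ)}

theorem la3_nsq (B : Finset J) (g g' g'' : J → ℝ) :
    nsq (glue B g g' - glue B g g'') ≤ nsq (g' - g'') := by
  unfold nsq
  refine Finset.sum_le_sum fun l _ => ?_
  simp only [Pi.sub_apply, glue]
  by_cases hl : l ∈ B
  · simp only [hl, if_true, sub_self]
    nlinarith [sq_nonneg (g' l - g'' l)]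
  · simp only [hl, if_false]
    exact le_refl _

theorem local_approx (h : Sys v ρ R Y p ψ q χ z) (y0 ε : ℝ) (hy0 : 0 ≤ y0) (hε : 0 ≤ ε)
    (hε2 : (Real.exp ε - 1) ^ 2 * ρ * y0 ^ 4 ≤ 1) (k' : ℕ) (j : J) (t : ℝ) (ht : 0 < t) :
    (gam J).real {g | t < |clip (z g j) - zloc z (ball v j (8 * k')) g j|} ≤
      (1 + 4 / t) * (gam J).real {g | ¬ GoodAt v ψ z y0 (4 * k') j g} +
        2 * Real.exp (-(t ^ 2 * Real.exp (2 * ε * k') / 64)) := by
  set B := ball v j (8 * k') with hBdef
  set G : Set (J → ℝ) := {g | GoodAt v ψ z y0 (4 * k') j g} with hGdef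
  have hG : MeasurableSet G := good_meas h y0 (4 * k') j
  have hclipc : Continuous clip := by unfold clip; fun_prop
  have hzc : Measurable (fun g : J → ℝ => clip (z g j)) :=
    (hclipc.comp ((continuous_apply j).comp h.cont)).measurable
  have hzl : Measurable fun g => zloc z B g j := zloc_meas h B j
  have hgl : Measurable (fun x : (J → ℝ) × (J → ℝ) => glue B x.1 x.2) := (glue_mp J B).measurable
  have hgl2 : ∀ g, Measurable (fun g' : J → ℝ => glue B g g') := fun g =>
    hgl.comp measurable_prodMk_left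
  set c := 2 * Real.exp (-(t ^ 2 * Real.exp (2 * ε * k') / 64)) with hc
  have hc0 : 0 ≤ c := by positivity
  have key : ∀ g : J → ℝ, (gam J) {g' | glue B g g' ∈ G ∧
      t < |clip (z (glue B g g') j) - zloc z B g j|} ≤
      ENNReal.ofReal c + ENNReal.ofReal (4 / t) * (gam J) {g' | glue B g g' ∉ G} := by
    intro g
    by_cases hs : (gam J).real {g' | glue B g g' ∉ G} ≤ t / 4
    · have e1 := lip_set_conc J (fun g' => clip (z (glue B g g') j)) (hzc.comp (hgl2 g))
        (fun x => clip_abs _) {g' | glue B g g' ∈ G} ((hgl2 g) hG) (2 * Real.exp (-(ε * k')))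
        (by positivity) (by
          intro x hx y hy
          refine (clip_lip _ _).trans ?_
          refine (la_lip h y0 ε hy0 hε hε2 k' j (glue B g x) (glue B g y) hx hy ?_).trans ?_
          · intro l hl
            simp only [glue, show l ∈ B from hl, if_true]
          · refine mul_le_mul_of_nonneg_left ?_ (by positivity)
            exact Real.sqrt_le_sqrt (la3_nsq B g x y)) t ht (by
          have : ({g' | glue B g g' ∈ G} : Set (J → ℝ))ᶜ = {g' | glue B g g' ∉ G} := by
            ext x; simp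
          rw [this]; exact hs)
      have e2 : 2 * Real.exp (-(t ^ 2 / (16 * (2 * Real.exp (-(ε * k'))) ^ 2))) = c := by
        rw [hc]
        congr 2
        rw [mul_pow, ← Real.exp_nat_mul]
        have e3 : ((2 : ℕ) : ℝ) * -(ε * k') = -(2 * ε * k') := by push_cast; ring
        rw [e3, Real.exp_neg]
        have e4 : Real.exp (2 * ε * k') ≠ 0 := (Real.exp_pos _).ne'
        field_simp
        norm_num
      rw [e2] at e1
      refine le_trans ?_ le_self_add
      rw [← ofReal_measureReal (μ := gam J)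
        (s := {g' | glue B g g' ∈ G ∧ t < |clip (z (glue B g g') j) - zloc z B g j|})]
      exact ENNReal.ofReal_le_ofReal e1
    · push Not at hs
      have e1 : (1 : ENNReal) ≤ ENNReal.ofReal (4 / t) * (gam J) {g' | glue B g g' ∉ G} := by
        rw [← ofReal_measureReal (μ := gam J) (s := {g' | glue B g g' ∉ G}),
          ← ENNReal.ofReal_mul (by positivity), ← ENNReal.ofReal_one]
        apply ENNReal.ofReal_le_ofReal
        have e5 : 4 / t * (t / 4) = 1 := by field_simp
        calc (1 : ℝ) = 4 / t * (t / 4) := e5.symm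
          _ ≤ _ := mul_le_mul_of_nonneg_left hs.le (by positivity)
      exact prob_le_one.trans (e1.trans le_add_self)
  set A : Set (J → ℝ) := {g | g ∈ G ∧ t < |clip (z g j) - zloc z B g j|} with hAdef
  have hA : MeasurableSet A := by
    refine MeasurableSet.inter hG ?_
    exact measurableSet_lt measurable_const ((hzc.sub hzl).abs)
  have hAle : (gam J) A ≤ ENNReal.ofReal c + ENNReal.ofReal (4 / t) * (gam J) Gᶜ := by
    calc (gam J) A = ((gam J).prod (gam J)) ((fun x => glue B x.1 x.2) ⁻¹' A) :=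
          ((glue_mp J B).measure_preimage hA.nullMeasurableSet).symm
      _ = ∫⁻ g, (gam J) (Prod.mk g ⁻¹' ((fun x => glue B x.1 x.2) ⁻¹' A)) ∂(gam J) :=
          Measure.prod_apply (hgl hA)
      _ ≤ ∫⁻ g, (ENNReal.ofReal c + ENNReal.ofReal (4 / t) *
            (gam J) {g' | glue B g g' ∉ G}) ∂(gam J) := by
          refine lintegral_mono fun g => ?_
          refine le_trans (measure_mono ?_) (key g)
          intro g' hg'
          have h1 : glue B g g' ∈ G ∧
            t < |clip (z (glue B g g') j) - zloc z B (glue B g g') j| := hg'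
          refine ⟨h1.1, ?_⟩
          have h2 : zloc z B (glue B g g') j = zloc z B g j := by
            refine zloc_dep B _ _ (fun l hl => ?_) j
            simp only [glue, hl, if_true]
          rw [← h2]
          exact h1.2
      _ = ENNReal.ofReal c + ENNReal.ofReal (4 / t) *
            ∫⁻ g, (gam J) {g' | glue B g g' ∉ G} ∂(gam J) := by
          rw [lintegral_add_left measurable_const, lintegral_const, measure_univ, mul_one,
            lintegral_const_mul' _ _ ENNReal.ofReal_ne_top]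
      _ = ENNReal.ofReal c + ENNReal.ofReal (4 / t) * (gam J) Gᶜ := by
          congr 2
          calc ∫⁻ g, (gam J) {g' | glue B g g' ∉ G} ∂(gam J)
              = ((gam J).prod (gam J)) ((fun x => glue B x.1 x.2) ⁻¹' Gᶜ) :=
                (Measure.prod_apply (hgl hG.compl)).symm
            _ = (gam J) Gᶜ := (glue_mp J B).measure_preimage hG.compl.nullMeasurableSet
  have hAreal : (gam J).real A ≤ c + 4 / t * (gam J).real Gᶜ := by
    have e1 : ENNReal.ofReal ((gam J).real A) ≤
        ENNReal.ofReal (c + 4 / t * (gam J).real Gᶜ) := by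
      have e0 : 0 ≤ 4 / t := by positivity
      have e2 : ENNReal.ofReal (4 / t * (gam J).real Gᶜ) =
          ENNReal.ofReal (4 / t) * (gam J) Gᶜ := by
        rw [ENNReal.ofReal_mul e0, ofReal_measureReal]
      rw [ENNReal.ofReal_add hc0 (by positivity), ofReal_measureReal, e2]
      exact hAle
    exact (ENNReal.ofReal_le_ofReal_iff (by positivity)).mp e1
  have hcomp : {g | ¬ GoodAt v ψ z y0 (4 * k') j g} = Gᶜ := by
    ext g; simp [hGdef]
  rw [hcomp]
  have hsub : {g | t < |clip (z g j) - zloc z B g j|} ⊆ A ∪ Gᶜ := by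
    intro g hg
    by_cases hgG : g ∈ G
    · exact Or.inl ⟨hgG, hg⟩
    · exact Or.inr hgG
  calc (gam J).real {g | t < |clip (z g j) - zloc z B g j|} ≤ (gam J).real (A ∪ Gᶜ) :=
        measureReal_mono hsub
    _ ≤ (gam J).real A + (gam J).real Gᶜ := measureReal_union_le _ _
    _ ≤ c + 4 / t * (gam J).real Gᶜ + (gam J).real Gᶜ := by linarith
    _ = _ := by ring

end Pool.Agent.SVR
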