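import Pool.Agent.SVR.Defs

set_option autoImplicit false

/-!
# [SVR-Lll] asymmetric local lemma for the gaussian product measure

General measurable version on finite products of probability spaces (`Lll.lll_cost'`), then the
gaussian form and the neighbour sum.
-/

namespace Pool.Agent.SVR

namespace Lll

open MeasureTheory ProbabilityTheory Finset

variable {κ : Type*} [Fintype κ] {X : κ → Type*} [∀ k, MeasurableSpace (X k)]

/-- a set of configurations depends only on the coordinates in `I` -/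
def Dep (I : Finset κ) (A : Set (∀ k, X k)) : Prop :=
  ∀ x y : ∀ k, X k, (∀ k ∈ I, x k = y k) → x ∈ A → y ∈ A

theorem Dep.iff {I : Finset κ} {A : Set (∀ k, X k)} (h : Dep I A) {x y : ∀ k, X k}
    (hxy : ∀ k ∈ I, x k = y k) : x ∈ A ↔ y ∈ A :=
  ⟨h x y hxy, h y x fun k hk => (hxy k hk).symm⟩

theorem Dep.mono {I J : Finset κ} (hIJ : I ⊆ J) {A : Set (∀ k, X k)} (h : Dep I A) : Dep J A :=
  fun x y hxy => h x y fun k hk => hxy k (hIJ hk)

/-- independence of events depending on disjoint sets of coordinates -/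
theorem dep_inter [DecidableEq κ] (μ : ∀ k, Measure (X k)) [∀ k, IsProbabilityMeasure (μ k)]
    {I J : Finset κ} (hIJ : Disjoint I J) {A B : Set (∀ k, X k)} (hA : MeasurableSet A)
    (hB : MeasurableSet B) (hdA : Dep I A) (hdB : Dep J B) :
    (Measure.pi μ).real (A ∩ B) = (Measure.pi μ).real A * (Measure.pi μ).real B := by
  have hne : Nonempty (∀ k, X k) := by
    haveI : ∀ k, Nonempty (X k) := fun k => nonempty_of_isProbabilityMeasure (μ k)
    infer_instance
  obtain ⟨x0⟩ := hne
  have hind : iIndepFun (fun (k : κ) (x : ∀ k, X k) => x k) (Measure.pi μ) := by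
    have := iIndepFun_pi (μ := μ) (X := fun k (x : X k) => x) (fun k => aemeasurable_id)
    exact this
  have h2 := hind.indepFun_finset I J hIJ (fun k => measurable_pi_apply k)
  set eI : (∀ k : I, X k) → ∀ k, X k := fun y k => if h : k ∈ I then y ⟨k, h⟩ else x0 k with heI
  set eJ : (∀ k : J, X k) → ∀ k, X k := fun y k => if h : k ∈ J then y ⟨k, h⟩ else x0 k with heJ
  have meI : Measurable eI := by
    refine measurable_pi_iff.2 fun k => ?_
    by_cases h : k ∈ I
    · simp only [heI, h, dif_pos]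
      exact measurable_pi_apply _
    · simp only [heI, h, dif_neg, not_false_eq_true]
      exact measurable_const
  have meJ : Measurable eJ := by
    refine measurable_pi_iff.2 fun k => ?_
    by_cases h : k ∈ J
    · simp only [heJ, h, dif_pos]
      exact measurable_pi_apply _
    · simp only [heJ, h, dif_neg, not_false_eq_true]
      exact measurable_const
  have hAe : A = (fun (x : ∀ k, X k) (k : I) => x k) ⁻¹' (eI ⁻¹' A) := by
    ext x
    refine hdA.iff fun k hk => ?_
    simp [heI, hk]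
  have hBe : B = (fun (x : ∀ k, X k) (k : J) => x k) ⁻¹' (eJ ⁻¹' B) := by
    ext x
    refine hdB.iff fun k hk => ?_
    simp [heJ, hk]
  have h3 := h2.measure_inter_preimage_eq_mul (eI ⁻¹' A) (eJ ⁻¹' B) (meI hA) (meJ hB)
  rw [← hAe, ← hBe] at h3
  simp only [Measure.real, h3, ENNReal.toReal_mul]

variable {β : Type*}

/-- configurations avoiding all events of `S` -/
def lllA (E : β → Set (∀ k, X k)) (S : Finset β) : Set (∀ k, X k) := {ω | ∀ b ∈ S, ω ∉ E b}

theorem lllA_meas {E : β → Set (∀ k, X k)} (hE : ∀ b, MeasurableSet (E b)) (S : Finset β) :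
    MeasurableSet (lllA E S) := by
  have : lllA E S = ⋂ b ∈ S, (E b)ᶜ := by
    ext ω
    simp [lllA]
  rw [this]
  exact Finset.measurableSet_biInter _ fun b _ => (hE b).compl

theorem lllA_insert [DecidableEq β] (μ : Measure (∀ k, X k)) [IsProbabilityMeasure μ]
    {E : β → Set (∀ k, X k)} (hE : ∀ b, MeasurableSet (E b)) (S : Finset β) (b : β) :
    μ.real (lllA E (insert b S)) = μ.real (lllA E S) - μ.real (E b ∩ lllA E S) := by
  have h1 : lllA E (insert b S) = lllA E S \ (E b ∩ lllA E S) := by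
    ext ω
    simp only [lllA, Set.mem_setOf_eq, mem_insert, forall_eq_or_imp, Set.mem_diff, Set.mem_inter_iff,
      not_and]
    tauto
  rw [h1, measureReal_diff Set.inter_subset_right ((hE b).inter (lllA_meas hE S))]

theorem lll_step [DecidableEq κ] [Fintype β] [DecidableEq β] (μ : ∀ k, Measure (X k))
    [∀ k, IsProbabilityMeasure (μ k)] (I : β → Finset κ) (E : β → Set (∀ k, X k))
    (hm : ∀ b, MeasurableSet (E b)) (hdep : ∀ b, Dep (I b) (E b))
    (x : β → ℝ) (hx0 : ∀ a, 0 ≤ x a) (hx1 : ∀ a, x a < 1)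
    (hE : ∀ a, (Measure.pi μ).real (E a) ≤
      x a * ∏ a' ∈ univ.filter (fun a' => a' ≠ a ∧ ¬ Disjoint (I a) (I a')), (1 - x a')) :
    ∀ (n : ℕ) (S : Finset β), S.card = n → ∀ a, a ∉ S →
      (Measure.pi μ).real (E a ∩ lllA E S) ≤ x a * (Measure.pi μ).real (lllA E S) := by
  intro n
  induction n using Nat.strong_induction_on with
  | _ n ih =>
    intro S hS a ha
    set S₁ := S.filter (fun b => ¬ Disjoint (I a) (I b)) with hS₁
    set S₂ := S.filter (fun b => Disjoint (I a) (I b)) with hS₂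
    have hunion : S₂ ∪ S₁ = S := by
      rw [hS₁, hS₂, Finset.filter_union_filter_not_eq]
    -- independence
    have hind : (Measure.pi μ).real (E a ∩ lllA E S₂) =
        (Measure.pi μ).real (E a) * (Measure.pi μ).real (lllA E S₂) := by
      refine dep_inter μ (I := I a) (J := univ \ I a) disjoint_sdiff (hm a) (lllA_meas hm S₂)
        (hdep a) ?_
      intro ω ω' h hω b hb hb'
      have hdis : Disjoint (I a) (I b) := (Finset.mem_filter.mp hb).2
      refine hω b hb (hdep b ω' ω (fun i hi => ?_) hb')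
      exact (h i (Finset.mem_sdiff.2 ⟨Finset.mem_univ _,
        fun hia => Finset.disjoint_left.mp hdis hia hi⟩)).symm
    have hsub : lllA E S ⊆ lllA E S₂ := fun ω hω b hb => hω b (Finset.mem_filter.mp hb).1
    -- lower bound by adding the events of S₁
    have hchain : ∀ R : Finset β, R ⊆ S₁ →
        (∏ b ∈ R, (1 - x b)) * (Measure.pi μ).real (lllA E S₂) ≤
          (Measure.pi μ).real (lllA E (S₂ ∪ R)) := by
      intro R
      induction R using Finset.induction_on with
      | empty => intro _; simp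
      | insert b R hb ihR =>
        intro hR
        have hbS₁ : b ∈ S₁ := hR (Finset.mem_insert_self b R)
        have hRS : R ⊆ S₁ := fun c hc => hR (Finset.mem_insert_of_mem hc)
        have h1 := ihR hRS
        have hbn : b ∉ S₂ ∪ R := by
          rw [Finset.mem_union, not_or]
          refine ⟨?_, hb⟩
          intro hb2
          exact (Finset.mem_filter.mp hbS₁).2 (Finset.mem_filter.mp hb2).2
        have hbS : b ∈ S := (Finset.mem_filter.mp hbS₁).1
        have hss : S₂ ∪ R ⊂ S := by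
          refine (Finset.ssubset_iff_of_subset ?_).mpr ⟨b, hbS, hbn⟩
          rw [← hunion]
          exact Finset.union_subset_union_right hRS
        have hcard : (S₂ ∪ R).card < n := hS ▸ Finset.card_lt_card hss
        have h2 := ih _ hcard (S₂ ∪ R) rfl b hbn
        rw [Finset.prod_insert hb, Finset.union_insert, lllA_insert _ hm]
        have h3 : (1 - x b) * ((∏ b ∈ R, (1 - x b)) * (Measure.pi μ).real (lllA E S₂)) ≤
            (1 - x b) * (Measure.pi μ).real (lllA E (S₂ ∪ R)) :=
          mul_le_mul_of_nonneg_left h1 (by linarith [hx1 b])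
        linarith
    have hlow := hchain S₁ (Finset.Subset.refl _)
    rw [hunion] at hlow
    have hN : ∏ a' ∈ univ.filter (fun a' => a' ≠ a ∧ ¬ Disjoint (I a) (I a')), (1 - x a') ≤
        ∏ b ∈ S₁, (1 - x b) := by
      have hsub1 : S₁ ⊆ univ.filter (fun a' => a' ≠ a ∧ ¬ Disjoint (I a) (I a')) := by
        intro b hb
        rw [Finset.mem_filter] at hb ⊢
        refine ⟨Finset.mem_univ _, ?_, hb.2⟩
        rintro rfl
        exact ha hb.1
      rw [← Finset.prod_sdiff hsub1]
      have h1 : ∏ b ∈ univ.filter (fun a' => a' ≠ a ∧ ¬ Disjoint (I a) (I a')) \ S₁, (1 - x b) ≤ 1 :=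
        Finset.prod_le_one (fun b _ => by linarith [hx1 b]) (fun b _ => by linarith [hx0 b])
      have h2 : 0 ≤ ∏ b ∈ S₁, (1 - x b) :=
        Finset.prod_nonneg (fun b _ => by linarith [hx1 b])
      calc _ ≤ 1 * ∏ b ∈ S₁, (1 - x b) := mul_le_mul_of_nonneg_right h1 h2
        _ = _ := one_mul _
    have hW2 : 0 ≤ (Measure.pi μ).real (lllA E S₂) := measureReal_nonneg
    calc (Measure.pi μ).real (E a ∩ lllA E S) ≤ (Measure.pi μ).real (E a ∩ lllA E S₂) :=
          measureReal_mono (Set.inter_subset_inter_right _ hsub)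
      _ = (Measure.pi μ).real (E a) * (Measure.pi μ).real (lllA E S₂) := hind
      _ ≤ (x a * ∏ b ∈ S₁, (1 - x b)) * (Measure.pi μ).real (lllA E S₂) := by
          apply mul_le_mul_of_nonneg_right _ hW2
          exact (hE a).trans (mul_le_mul_of_nonneg_left hN (hx0 a))
      _ = x a * ((∏ b ∈ S₁, (1 - x b)) * (Measure.pi μ).real (lllA E S₂)) := by ring
      _ ≤ x a * (Measure.pi μ).real (lllA E S) := mul_le_mul_of_nonneg_left hlow (hx0 a)

/-- **Asymmetric Lovász local lemma** for measurable events in a finite product of probability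
spaces; the event `E b` depends only on the coordinates in `I b`. -/
theorem lll [DecidableEq κ] [Fintype β] [DecidableEq β] (μ : ∀ k, Measure (X k))
    [∀ k, IsProbabilityMeasure (μ k)] (I : β → Finset κ) (E : β → Set (∀ k, X k))
    (hm : ∀ b, MeasurableSet (E b)) (hdep : ∀ b, Dep (I b) (E b))
    (x : β → ℝ) (hx0 : ∀ a, 0 ≤ x a) (hx1 : ∀ a, x a < 1)
    (hE : ∀ a, (Measure.pi μ).real (E a) ≤
      x a * ∏ a' ∈ univ.filter (fun a' => a' ≠ a ∧ ¬ Disjoint (I a) (I a')), (1 - x a')) :
    ∃ ω : ∀ k, X k, ∀ a, ω ∉ E a := by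
  have hstep := lll_step μ I E hm hdep x hx0 hx1 hE
  have hchain : ∀ S : Finset β, ∏ b ∈ S, (1 - x b) ≤ (Measure.pi μ).real (lllA E S) := by
    intro S
    induction S using Finset.induction_on with
    | empty =>
      have : lllA E (∅ : Finset β) = Set.univ := by
        ext ω
        simp [lllA]
      rw [this]
      simp
    | insert b S hb ih =>
      rw [Finset.prod_insert hb, lllA_insert _ hm]
      have h2 := hstep _ S rfl b hb
      have h3 : (1 - x b) * ∏ b ∈ S, (1 - x b) ≤ (1 - x b) * (Measure.pi μ).real (lllA E S) :=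
        mul_le_mul_of_nonneg_left ih (by linarith [hx1 b])
      linarith
  have hpos : 0 < (Measure.pi μ).real (lllA E univ) :=
    lt_of_lt_of_le (Finset.prod_pos fun b _ => by linarith [hx1 b]) (hchain univ)
  have hne : (lllA E (univ : Finset β)).Nonempty := by
    by_contra h
    rw [Set.not_nonempty_iff_eq_empty] at h
    rw [h] at hpos
    simp at hpos
  obtain ⟨ω, hω⟩ := hne
  exact ⟨ω, fun a => hω a (Finset.mem_univ a)⟩


/-- The local lemma with the neighbour sum in the exponent. -/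
theorem lll_exp [DecidableEq κ] [Fintype β] [DecidableEq β] (μ : ∀ k, Measure (X k))
    [∀ k, IsProbabilityMeasure (μ k)] (I : β → Finset κ) (E : β → Set (∀ k, X k))
    (hm : ∀ b, MeasurableSet (E b)) (hdep : ∀ b, Dep (I b) (E b))
    (x : β → ℝ) (hx0 : ∀ a, 0 ≤ x a) (hx1 : ∀ a, x a ≤ 1 / 2)
    (hE : ∀ a, (Measure.pi μ).real (E a) ≤ x a * Real.exp (-(2 *
      ∑ a' ∈ univ.filter (fun a' => a' ≠ a ∧ ¬ Disjoint (I a) (I a')), x a'))) :
    ∃ ω : ∀ k, X k, ∀ a, ω ∉ E a := by
  refine lll μ I E hm hdep x hx0 (fun a => by linarith [hx1 a]) fun a => (hE a).trans ?_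
  refine mul_le_mul_of_nonneg_left ?_ (hx0 a)
  set N := univ.filter (fun a' => a' ≠ a ∧ ¬ Disjoint (I a) (I a')) with hN
  have h1 : ∀ b ∈ N, Real.exp (-(2 * x b)) ≤ 1 - x b := by
    intro b _
    have h0 := hx0 b
    have h2 := hx1 b
    have h3 : Real.exp (-(2 * x b)) ≤ 1 / (1 + 2 * x b) := by
      rw [Real.exp_neg, ← one_div]
      exact one_div_le_one_div_of_le (by linarith) (by linarith [Real.add_one_le_exp (2 * x b)])
    refine h3.trans ?_
    rw [div_le_iff₀ (by linarith)]
    nlinarith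
  have h2 : ∏ b ∈ N, Real.exp (-(2 * x b)) ≤ ∏ b ∈ N, (1 - x b) :=
    Finset.prod_le_prod (fun b _ => (Real.exp_pos _).le) h1
  refine le_trans (le_of_eq ?_) h2
  rw [← Real.exp_sum, Finset.sum_neg_distrib, ← Finset.mul_sum]

end Lll

open MeasureTheory Finset

open scoped Classical

theorem lll_gam (J E : Type) [Fintype J] [Fintype E] (A : E → Set (J → ℝ))
    (hA : ∀ e, MeasurableSet (A e)) (S : E → Finset J)
    (hS : ∀ e g g', (∀ j ∈ S e, g j = g' j) → g ∈ A e → g' ∈ A e) (x : E → ℝ)
    (hx0 : ∀ e, 0 ≤ x e) (hx1 : ∀ e, x e ≤ 1 / 2)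
    (hp : ∀ e, (gam J).real (A e) ≤ x e * Real.exp (-(2 *
      ∑ e' ∈ univ.filter (fun e' => e' ≠ e ∧ ¬ Disjoint (S e) (S e')), x e'))) :
    ∃ g, ∀ e, g ∉ A e := by
  refine Lll.lll_exp (fun _ : J => ProbabilityTheory.gaussianReal 0 1) S A hA
    (fun e g g' h hg => hS e g g' h hg) x hx0 hx1 fun e => ?_
  have := hp e
  unfold gam at this
  exact this

/-- the neighbour sum: `e'` meets `e` only if some `j ∈ cols e`, `l ∈ B j`, `l ∈ B j'`, `j' ∈ cols e'` -/
theorem nb_sum (J E : Type) [Fintype J] [Fintype E] (cols : E → Finset J) (B : J → Finset J)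
    (M : ℝ) (hM1 : ∀ j, ((B j).card : ℝ) ≤ M)
    (hM2 : ∀ l, ((univ.filter (fun j => l ∈ B j)).card : ℝ) ≤ M) (x : E → ℝ)
    (hx : ∀ e, 0 ≤ x e) (X : ℝ) (hX : ∀ j, ∑ e ∈ univ.filter (fun e => j ∈ cols e), x e ≤ X)
    (e : E) :
    ∑ e' ∈ univ.filter (fun e' => e' ≠ e ∧ ¬ Disjoint ((cols e).biUnion B)
      ((cols e').biUnion B)), x e' ≤ (cols e).card * M ^ 2 * X := by
  by_cases hJ : (cols e).Nonempty
  swap
  · rw [Finset.not_nonempty_iff_eq_empty] at hJ
    simp [hJ]
  obtain ⟨j0, -⟩ := hJ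
  have hM0 : 0 ≤ M := le_trans (Nat.cast_nonneg _) (hM1 j0)
  have hX0 : 0 ≤ X := le_trans (Finset.sum_nonneg fun b _ => hx b) (hX j0)
  -- the weight of all events whose columns contain j' with l in B j'
  set f : J → ℝ := fun j' => ∑ e' ∈ univ.filter (fun e' => j' ∈ cols e'), x e' with hf
  have hf0 : ∀ j', 0 ≤ f j' := fun j' => Finset.sum_nonneg fun b _ => hx b
  have h1 : ∑ e' ∈ univ.filter (fun e' => e' ≠ e ∧ ¬ Disjoint ((cols e).biUnion B)
      ((cols e').biUnion B)), x e' ≤
      ∑ j ∈ cols e, ∑ l ∈ B j, ∑ j' ∈ univ.filter (fun j' => l ∈ B j'), f j' := by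
    have e1 : ∀ (j l j' : J), f j' = ∑ e', if j' ∈ cols e' then x e' else 0 := fun j l j' => by
      rw [hf]
      exact Finset.sum_filter _ _
    have e2 : ∑ j ∈ cols e, ∑ l ∈ B j, ∑ j' ∈ univ.filter (fun j' => l ∈ B j'), f j' =
        ∑ e', ∑ j ∈ cols e, ∑ l ∈ B j, ∑ j' ∈ univ.filter (fun j' => l ∈ B j'),
          if j' ∈ cols e' then x e' else 0 := by
      rw [Finset.sum_comm]
      refine Finset.sum_congr rfl fun j _ => ?_
      rw [Finset.sum_comm]
      refine Finset.sum_congr rfl fun l _ => ?_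
      rw [Finset.sum_comm]
      exact Finset.sum_congr rfl fun j' _ => e1 j l j'
    rw [e2]
    have hnn : ∀ e' (j' : J), (0 : ℝ) ≤ if j' ∈ cols e' then x e' else 0 := fun e' j' => by
      split_ifs
      · exact hx e'
      · exact le_rfl
    refine le_trans (Finset.sum_le_sum fun e' he' => ?_)
      (Finset.sum_le_sum_of_subset_of_nonneg (Finset.subset_univ _) fun b _ _ =>
        Finset.sum_nonneg fun j _ => Finset.sum_nonneg fun l _ => Finset.sum_nonneg fun j' _ =>
          hnn b j')
    rw [Finset.mem_filter] at he'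
    obtain ⟨l, hl, hl'⟩ := Finset.not_disjoint_iff.1 he'.2.2
    rw [Finset.mem_biUnion] at hl hl'
    obtain ⟨j, hj, hlj⟩ := hl
    obtain ⟨j', hj', hlj'⟩ := hl'
    have s1 : x e' ≤ ∑ j' ∈ univ.filter (fun j' => l ∈ B j'), if j' ∈ cols e' then x e' else 0 := by
      have := Finset.single_le_sum (f := fun j' => if j' ∈ cols e' then x e' else 0)
        (s := univ.filter (fun j' => l ∈ B j')) (fun k _ => hnn e' k)
        (Finset.mem_filter.2 ⟨Finset.mem_univ j', hlj'⟩)
      simpa [hj'] using this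
    have s2 := Finset.single_le_sum (f := fun l => ∑ j' ∈ univ.filter (fun j' => l ∈ B j'),
        if j' ∈ cols e' then x e' else 0) (s := B j)
      (fun k _ => Finset.sum_nonneg fun j' _ => hnn e' j') hlj
    have s3 := Finset.single_le_sum (f := fun j => ∑ l ∈ B j,
        ∑ j' ∈ univ.filter (fun j' => l ∈ B j'), if j' ∈ cols e' then x e' else 0) (s := cols e)
      (fun k _ => Finset.sum_nonneg fun l _ => Finset.sum_nonneg fun j' _ => hnn e' j') hj
    exact s1.trans (s2.trans s3)
  refine h1.trans ?_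
  calc ∑ j ∈ cols e, ∑ l ∈ B j, ∑ j' ∈ univ.filter (fun j' => l ∈ B j'), f j'
      ≤ ∑ j ∈ cols e, ∑ l ∈ B j, M * X := by
        refine Finset.sum_le_sum fun j _ => Finset.sum_le_sum fun l _ => ?_
        calc ∑ j' ∈ univ.filter (fun j' => l ∈ B j'), f j'
            ≤ ∑ _j' ∈ univ.filter (fun j' => l ∈ B j'), X :=
              Finset.sum_le_sum fun j' _ => hX j'
          _ = (univ.filter (fun j' => l ∈ B j')).card * X := by
              rw [Finset.sum_const, nsmul_eq_mul]
          _ ≤ M * X := mul_le_mul_of_nonneg_right (hM2 l) hX0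
    _ ≤ ∑ _j ∈ cols e, M * (M * X) := by
        refine Finset.sum_le_sum fun j _ => ?_
        rw [Finset.sum_const, nsmul_eq_mul]
        exact mul_le_mul_of_nonneg_right (hM1 j) (mul_nonneg hM0 hX0)
    _ = (cols e).card * M ^ 2 * X := by
        rw [Finset.sum_const, nsmul_eq_mul]
        ring

end Pool.Agent.SVR
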