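import Pool.Agent.SVR.Two

set_option autoImplicit false

/-!
# [SVR-Loc] weighted energy estimate (locality), deterministic

Let `W_j = exp (-(ε N_j))`, `δ = z g - z g'`, `a_i = lin v i (z g) - lin v i (z g')`,
`b_i = p (..) - p (..)` (same sign as `a_i`), `d_j = q (z g j) - q (z g' j)` (same sign as `δ_j`).
Multiply the difference of the equations at `j` by `W_j δ_j` and sum:
`∑ W_j δ_j^2 + ∑_i b_i * (∑_j v i j W_j δ_j) + ∑ W_j δ_j d_j = ∑ W_j δ_j (g_j - g'_j)`.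
Row `i` of the first kind (`N` constant on the support of `v i`): `∑_j v i j W_j δ_j = W a_i`, term `≥ 0`.
Row `i` of the second kind: let `W* = min` of `W_j` over the support (if the support is empty the
term is `0`), so `W_j ∈ {W*, e^ε W*}`-range: `0 ≤ W_j - W* ≤ (e^ε - 1) W*` and `W* ≤ W_j`
(from `N l ≤ N l' + 1`).  `∑_j v i j W_j δ_j = W* a_i + e_i`,
`|e_i| ≤ (e^ε-1) W* ∑_j |v i j| |δ_j|`, `e_i^2 ≤ (e^ε-1)^2 W*^2 ρ ∑_j |v i j| δ_j^2`
`≤ (e^ε-1)^2 ρ W* ∑_j |v i j| W_j δ_j^2`.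
A2' with `y = y0`: `|b_i| ≤ κ |a_i|`, `κ = y0^4/R`, so `κ a_i b_i ≥ b_i^2`.  If `κ = 0` then `b_i = 0` and
the term is `0`; otherwise
`b_i (W* a_i + e_i) ≥ W* b_i^2/κ - |b_i||e_i| ≥ -κ e_i^2/(4 W*)
 ≥ -(y0^4/(4R)) (e^ε-1)^2 ρ ∑_j |v i j| W_j δ_j^2`.
Sum over `i` with the column sums `≤ R`: total `≥ -(1/4) ∑ W_j δ_j^2` (by `hε2`).  Hence
`(3/4) ∑ W δ^2 ≤ ∑ W δ (g-g') ≤ (1/4) ∑ W δ^2 + ∑ W (g-g')^2`, so `∑ W δ^2 ≤ 2 ∑ W (g-g')^2 ≤ 4 ..`.
-/

namespace Pool.Agent.SVR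

open MeasureTheory Finset

variable {I J : Type} [Fintype I] [Fintype J]
variable {v : I → J → ℝ} {ρ R Y : ℝ} {p ψ q χ : ℝ → ℝ} {z : (J → ℝ) → (J → ℝ)}

/-- the inequality for one row of the second kind -/
theorem loc_row_alg (κ W a b e : ℝ) (hκ : 0 ≤ κ) (hW : 0 < W) (hb : |b| ≤ κ * |a|) (hab : 0 ≤ a * b) :
    -(κ * e ^ 2 / (4 * W)) ≤ b * (W * a + e) := by
  have hbb : b ^ 2 ≤ κ * (a * b) := by
    have h1 : |b| * |b| ≤ κ * |a| * |b| := mul_le_mul_of_nonneg_right hb (abs_nonneg _)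
    have h2 : |a| * |b| = a * b := by rw [← abs_mul, abs_of_nonneg hab]
    calc b ^ 2 = |b| * |b| := by rw [abs_mul_abs_self]; ring
      _ ≤ κ * |a| * |b| := h1
      _ = κ * (a * b) := by rw [mul_assoc, h2]
  rcases hκ.eq_or_lt with h0 | h0
  · have : b = 0 := by
      rw [← h0, zero_mul] at hbb
      nlinarith [sq_nonneg b]
    rw [← h0, this]; simp
  · rw [neg_le_iff_add_nonneg, ← mul_nonneg_iff_of_pos_left (show 0 < 4 * W * κ by positivity)]
    have h1 : 4 * W * κ * (b * (W * a + e) + κ * e ^ 2 / (4 * W)) =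
        4 * W ^ 2 * (κ * (a * b)) + 4 * κ * W * b * e + κ ^ 2 * e ^ 2 := by
      field_simp
    rw [h1]
    nlinarith [sq_nonneg (2 * W * b + κ * e), mul_le_mul_of_nonneg_left hbb (show 0 ≤ 4 * W ^ 2 by positivity)]

theorem loc_row (vi : J → ℝ) (ρ ε κ : ℝ) (hε : 0 ≤ ε) (hκ : 0 ≤ κ) (hrow : ∑ j, |vi j| ≤ ρ)
    (hρ : 0 ≤ ρ) (N : J → ℕ) (δ : J → ℝ) (a b : ℝ) (ha : a = ∑ j, vi j * δ j) (hab : 0 ≤ a * b)
    (hN : (∀ l l', vi l ≠ 0 → vi l' ≠ 0 → N l = N l') ∨
      (|b| ≤ κ * |a| ∧ ∀ l l', vi l ≠ 0 → vi l' ≠ 0 → N l ≤ N l' + 1)) :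
    -(κ / 4 * (Real.exp ε - 1) ^ 2 * ρ * ∑ j, |vi j| * (Real.exp (-(ε * N j)) * δ j ^ 2)) ≤
      b * ∑ j, vi j * (Real.exp (-(ε * N j)) * δ j) := by
  have hexp : 0 ≤ Real.exp ε - 1 := by linarith [Real.add_one_le_exp ε]
  have hS0 : 0 ≤ ∑ j, |vi j| * (Real.exp (-(ε * N j)) * δ j ^ 2) :=
    Finset.sum_nonneg fun j _ => by positivity
  have hneg : -(κ / 4 * (Real.exp ε - 1) ^ 2 * ρ *
      ∑ j, |vi j| * (Real.exp (-(ε * N j)) * δ j ^ 2)) ≤ 0 := by
    rw [neg_nonpos]; positivity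
  by_cases hsupp : ∃ l, vi l ≠ 0
  · rcases hN with hN | ⟨hb, hN⟩
    · obtain ⟨l0, hl0⟩ := hsupp
      have h1 : ∑ j, vi j * (Real.exp (-(ε * N j)) * δ j) = Real.exp (-(ε * N l0)) * a := by
        rw [ha, Finset.mul_sum]
        refine Finset.sum_congr rfl fun j _ => ?_
        by_cases hj : vi j = 0
        · simp [hj]
        · rw [hN j l0 hj hl0]; ring
      rw [h1]
      refine hneg.trans ?_
      have : b * (Real.exp (-(ε * N l0)) * a) = Real.exp (-(ε * N l0)) * (a * b) := by ring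
      rw [this]; positivity
    · -- `l0` maximises `N` on the support
      have hne : (univ.filter fun l => vi l ≠ 0).Nonempty := by
        obtain ⟨l, hl⟩ := hsupp
        exact ⟨l, by simp [hl]⟩
      obtain ⟨l0, hl0, hmax⟩ := Finset.exists_max_image _ N hne
      have hl0' : vi l0 ≠ 0 := by simpa using hl0
      set W := Real.exp (-(ε * N l0)) with hW
      have hWpos : 0 < W := Real.exp_pos _
      have hle : ∀ j, vi j ≠ 0 → W ≤ Real.exp (-(ε * N j)) := by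
        intro j hj
        have := hmax j (by simp [hj])
        rw [hW]
        apply Real.exp_le_exp.mpr
        have h2 : (N j : ℝ) ≤ N l0 := by exact_mod_cast this
        nlinarith
      have hge : ∀ j, vi j ≠ 0 → Real.exp (-(ε * N j)) ≤ Real.exp ε * W := by
        intro j hj
        have := hN l0 j hl0' hj
        rw [hW, ← Real.exp_add]
        apply Real.exp_le_exp.mpr
        have h2 : (N l0 : ℝ) ≤ N j + 1 := by exact_mod_cast this
        nlinarith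
      set e := ∑ j, vi j * ((Real.exp (-(ε * N j)) - W) * δ j) with he
      have h1 : ∑ j, vi j * (Real.exp (-(ε * N j)) * δ j) = W * a + e := by
        rw [ha, he, Finset.mul_sum, ← Finset.sum_add_distrib]
        refine Finset.sum_congr rfl fun j _ => by ring
      have he1 : |e| ≤ (Real.exp ε - 1) * W * ∑ j, |vi j| * |δ j| := by
        rw [he, Finset.mul_sum]
        refine (Finset.abs_sum_le_sum_abs _ _).trans (Finset.sum_le_sum fun j _ => ?_)
        by_cases hj : vi j = 0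
        · simp [hj]
        · rw [abs_mul, abs_mul, abs_of_nonneg (sub_nonneg.mpr (hle j hj))]
          have h3 : Real.exp (-(ε * N j)) - W ≤ (Real.exp ε - 1) * W := by
            have := hge j hj; linarith
          calc |vi j| * ((Real.exp (-(ε * N j)) - W) * |δ j|)
              ≤ |vi j| * ((Real.exp ε - 1) * W * |δ j|) := by gcongr
            _ = (Real.exp ε - 1) * W * (|vi j| * |δ j|) := by ring
      have hcs : (∑ j, |vi j| * |δ j|) ^ 2 ≤ ρ * ∑ j, |vi j| * δ j ^ 2 := by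
        have := Finset.sum_mul_sq_le_sq_mul_sq univ (fun j => √|vi j|) (fun j => √|vi j| * |δ j|)
        have h4 : ∀ j, √|vi j| * (√|vi j| * |δ j|) = |vi j| * |δ j| := fun j => by
          rw [← mul_assoc, Real.mul_self_sqrt (abs_nonneg _)]
        have h5 : ∀ j, √|vi j| ^ 2 = |vi j| := fun j => Real.sq_sqrt (abs_nonneg _)
        have h6 : ∀ j, (√|vi j| * |δ j|) ^ 2 = |vi j| * δ j ^ 2 := fun j => by
          rw [mul_pow, h5, sq_abs]
        simp only [h4, h5, h6] at this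
        refine this.trans (mul_le_mul_of_nonneg_right hrow ?_)
        exact Finset.sum_nonneg fun j _ => by positivity
      have he2 : e ^ 2 ≤ (Real.exp ε - 1) ^ 2 * ρ * W *
          ∑ j, |vi j| * (Real.exp (-(ε * N j)) * δ j ^ 2) := by
        have h7 : e ^ 2 ≤ ((Real.exp ε - 1) * W * ∑ j, |vi j| * |δ j|) ^ 2 := by
          rw [← sq_abs e]
          exact pow_le_pow_left₀ (abs_nonneg _) he1 2
        have h8 : W * ∑ j, |vi j| * δ j ^ 2 ≤ ∑ j, |vi j| * (Real.exp (-(ε * N j)) * δ j ^ 2) := by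
          rw [Finset.mul_sum]
          refine Finset.sum_le_sum fun j _ => ?_
          by_cases hj : vi j = 0
          · simp [hj]
          · calc W * (|vi j| * δ j ^ 2) = |vi j| * (W * δ j ^ 2) := by ring
              _ ≤ |vi j| * (Real.exp (-(ε * N j)) * δ j ^ 2) := by
                  gcongr; exact hle j hj
        calc e ^ 2 ≤ ((Real.exp ε - 1) * W * ∑ j, |vi j| * |δ j|) ^ 2 := h7
          _ = (Real.exp ε - 1) ^ 2 * W ^ 2 * (∑ j, |vi j| * |δ j|) ^ 2 := by ring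
          _ ≤ (Real.exp ε - 1) ^ 2 * W ^ 2 * (ρ * ∑ j, |vi j| * δ j ^ 2) := by gcongr
          _ = (Real.exp ε - 1) ^ 2 * ρ * W * (W * ∑ j, |vi j| * δ j ^ 2) := by ring
          _ ≤ _ := by gcongr
      rw [h1]
      refine le_trans ?_ (loc_row_alg κ W a b e hκ hWpos hb hab)
      rw [neg_le_neg_iff, div_le_iff₀ (by positivity)]
      calc κ * e ^ 2 ≤ κ * ((Real.exp ε - 1) ^ 2 * ρ * W *
          ∑ j, |vi j| * (Real.exp (-(ε * N j)) * δ j ^ 2)) := by gcongr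
        _ = _ := by ring
  · push Not at hsupp
    simp [hsupp]

theorem loc_est (h : Sys v ρ R Y p ψ q χ z) (y0 ε : ℝ) (hy0 : 0 ≤ y0) (hε : 0 ≤ ε)
    (hε2 : (Real.exp ε - 1) ^ 2 * ρ * y0 ^ 4 ≤ 1) (N : J → ℕ) (g g' : J → ℝ)
    (hN : ∀ i, (∀ l l', v i l ≠ 0 → v i l' ≠ 0 → N l = N l') ∨
      (|ψ (lin v i (z g))| ≤ y0 ∧ |ψ (lin v i (z g'))| ≤ y0 ∧
        ∀ l l', v i l ≠ 0 → v i l' ≠ 0 → N l ≤ N l' + 1)) :
    ∑ j, Real.exp (-(ε * N j)) * (z g j - z g' j) ^ 2 ≤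
      4 * ∑ j, Real.exp (-(ε * N j)) * (g j - g' j) ^ 2 := by
  have hρ := h.ρ_pos
  have hR := h.R_pos
  set W : J → ℝ := fun j => Real.exp (-(ε * N j)) with hW
  set δ : J → ℝ := fun j => z g j - z g' j with hδ
  set a : I → ℝ := fun i => lin v i (z g) - lin v i (z g') with ha
  set b : I → ℝ := fun i => p (lin v i (z g)) - p (lin v i (z g')) with hb
  set d : J → ℝ := fun j => q (z g j) - q (z g' j) with hd
  have hWpos : ∀ j, 0 < W j := fun j => Real.exp_pos _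
  have heq : ∀ j, δ j + ∑ i, v i j * b i + d j = g j - g' j := by
    intro j
    have h1 := h.prox g j
    have h2 := h.prox g' j
    have h3 : ∑ i, v i j * b i = ∑ i, v i j * p (lin v i (z g)) - ∑ i, v i j * p (lin v i (z g')) := by
      rw [← Finset.sum_sub_distrib]
      exact Finset.sum_congr rfl fun i _ => by simp only [hb]; ring
    rw [h3]; simp only [hδ, hd]; linarith
  have hai : ∀ i, a i = ∑ j, v i j * δ j := by
    intro i
    simp only [ha, hδ, lin, ← Finset.sum_sub_distrib]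
    exact Finset.sum_congr rfl fun j _ => by ring
  have hab : ∀ i, 0 ≤ a i * b i := by
    intro i
    simp only [ha, hb]
    rcases le_total (lin v i (z g)) (lin v i (z g')) with h1 | h1
    · exact mul_nonneg_of_nonpos_of_nonpos (sub_nonpos.mpr h1) (sub_nonpos.mpr (h.pot.p_mono h1))
    · exact mul_nonneg (sub_nonneg.mpr h1) (sub_nonneg.mpr (h.pot.p_mono h1))
  have hdd : ∀ j, 0 ≤ δ j * d j := by
    intro j
    simp only [hδ, hd]
    rcases le_total (z g j) (z g' j) with h1 | h1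
    · exact mul_nonneg_of_nonpos_of_nonpos (sub_nonpos.mpr h1) (sub_nonpos.mpr (h.unit.p_mono h1))
    · exact mul_nonneg (sub_nonneg.mpr h1) (sub_nonneg.mpr (h.unit.p_mono h1))
  -- the weighted identity
  have hid : ∑ j, W j * δ j ^ 2 + ∑ i, b i * ∑ j, v i j * (W j * δ j) + ∑ j, W j * (δ j * d j) =
      ∑ j, W j * (δ j * (g j - g' j)) := by
    have h1 : ∑ i, b i * ∑ j, v i j * (W j * δ j) = ∑ j, W j * (δ j * ∑ i, v i j * b i) := by
      simp_rw [Finset.mul_sum]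
      rw [Finset.sum_comm]
      exact Finset.sum_congr rfl fun j _ => Finset.sum_congr rfl fun i _ => by ring
    rw [h1, ← Finset.sum_add_distrib, ← Finset.sum_add_distrib]
    refine Finset.sum_congr rfl fun j _ => ?_
    rw [← heq j]; ring
  have hrow : ∀ i, -(y0 ^ 4 / R / 4 * (Real.exp ε - 1) ^ 2 * ρ * ∑ j, |v i j| * (W j * δ j ^ 2)) ≤
      b i * ∑ j, v i j * (W j * δ j) := by
    intro i
    refine loc_row (v i) ρ ε (y0 ^ 4 / R) hε (by positivity) (h.row i) hρ.le N δ (a i) (b i) (hai i)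
      (hab i) ?_
    rcases hN i with h1 | ⟨h1, h2, h3⟩
    · exact Or.inl h1
    · exact Or.inr ⟨h.pot.A2' y0 _ _ h1 h2, h3⟩
  have hsum : -(1 / 4 * ∑ j, W j * δ j ^ 2) ≤ ∑ i, b i * ∑ j, v i j * (W j * δ j) := by
    refine le_trans ?_ (Finset.sum_le_sum fun i _ => hrow i)
    rw [Finset.sum_neg_distrib, neg_le_neg_iff, ← Finset.mul_sum]
    have h1 : ∑ i, ∑ j, |v i j| * (W j * δ j ^ 2) ≤ R * ∑ j, W j * δ j ^ 2 := by
      rw [Finset.sum_comm, Finset.mul_sum]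
      refine Finset.sum_le_sum fun j _ => ?_
      rw [← Finset.sum_mul]
      exact mul_le_mul_of_nonneg_right (h.col j) (by have := hWpos j; positivity)
    have h2 : 0 ≤ ∑ j, W j * δ j ^ 2 := Finset.sum_nonneg fun j _ => by have := hWpos j; positivity
    calc y0 ^ 4 / R / 4 * (Real.exp ε - 1) ^ 2 * ρ * ∑ i, ∑ j, |v i j| * (W j * δ j ^ 2)
        ≤ y0 ^ 4 / R / 4 * (Real.exp ε - 1) ^ 2 * ρ * (R * ∑ j, W j * δ j ^ 2) := by gcongr
      _ = (Real.exp ε - 1) ^ 2 * ρ * y0 ^ 4 * (1 / 4 * ∑ j, W j * δ j ^ 2) := by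
          field_simp
      _ ≤ 1 * (1 / 4 * ∑ j, W j * δ j ^ 2) := by gcongr
      _ = _ := one_mul _
  have hd0 : 0 ≤ ∑ j, W j * (δ j * d j) :=
    Finset.sum_nonneg fun j _ => mul_nonneg (hWpos j).le (hdd j)
  have hG : ∑ j, W j * (δ j * (g j - g' j)) ≤
      1 / 4 * ∑ j, W j * δ j ^ 2 + ∑ j, W j * (g j - g' j) ^ 2 := by
    rw [Finset.mul_sum, ← Finset.sum_add_distrib]
    refine Finset.sum_le_sum fun j _ => ?_
    nlinarith [mul_nonneg (hWpos j).le (sq_nonneg (δ j / 2 - (g j - g' j)))]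
  have hG0 : 0 ≤ ∑ j, W j * (g j - g' j) ^ 2 :=
    Finset.sum_nonneg fun j _ => by have := hWpos j; positivity
  linarith

end Pool.Agent.SVR
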