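import Pool.Agent.SVR.RndB

set_option autoImplicit false

/-!
# [SVR-Rnd] final rounding

Independent signs with means `x j`; Bernstein and the asymmetric local lemma.
-/

namespace Pool.Agent.SVR

open MeasureTheory Finset

open scoped Classical

namespace Rnd

variable {n m : ℕ}

/-- mass of a piece -/
noncomputable def mass (V : Fin n → Fin m → ℝ) (R : ℝ) (i : Fin n) (κ : ℕ) : ℝ :=
  ∑ j ∈ Sc V R i κ, |V i j|

/-- a piece is active if its mass is large -/
def act (V : Fin n → Fin m → ℝ) (R : ℝ) (i : Fin n) (κ : ℕ) : Prop :=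
  R⁻¹ * (3 / 4) ^ κ < mass V R i κ

/-- columns of an event -/
noncomputable def cols (V : Fin n → Fin m → ℝ) (R : ℝ) {K : ℕ} (e : Fin n × Option (Fin K)) :
    Finset (Fin m) :=
  match e.2 with
  | none => big V R e.1
  | some κ => if act V R e.1 κ then Sc V R e.1 κ else ∅

/-- bad events -/
def bad (V : Fin n → Fin m → ℝ) (R : ℝ) (x : Fin m → ℝ) {K : ℕ} (e : Fin n × Option (Fin K))
    (ω : Fin m → Bool) : Prop :=
  match e.2 with
  | none => 3 * √R < |∑ j ∈ big V R e.1, V e.1 j * (yy (ω j) - x j)|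
  | some κ => act V R e.1 κ ∧
      (R ^ 2)⁻¹ * mass V R e.1 κ < |∑ j ∈ Sc V R e.1 κ, V e.1 j * (yy (ω j) - x j)|

/-- weights -/
noncomputable def wgt (R : ℝ) {K : ℕ} (e : Fin n × Option (Fin K)) : ℝ :=
  match e.2 with
  | none => (R ^ 40)⁻¹
  | some κ => (R ^ 40)⁻¹ * (1 / 4) ^ (κ : ℕ)

theorem wgt_nonneg {R : ℝ} (hR : 0 < R) {K : ℕ} (e : Fin n × Option (Fin K)) : 0 ≤ wgt R e := by
  unfold wgt
  rcases e with ⟨i, _ | κ⟩ <;> simp only <;> positivity

theorem wgt_le {R : ℝ} (hR : 2 ≤ R) {K : ℕ} (e : Fin n × Option (Fin K)) : wgt R e ≤ 1 / 2 := by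
  have h0 : (R ^ 40)⁻¹ ≤ 1 / 2 := by
    rw [one_div]
    refine inv_anti₀ (by norm_num) ?_
    calc (2 : ℝ) ≤ R := hR
      _ = R ^ 1 := (pow_one R).symm
      _ ≤ R ^ 40 := pow_le_pow_right₀ (by linarith) (by norm_num)
  have h1 : 0 ≤ (R ^ 40)⁻¹ := by positivity
  unfold wgt
  rcases e with ⟨i, _ | κ⟩
  · exact h0
  · simp only
    have : ((1 : ℝ) / 4) ^ (κ : ℕ) ≤ 1 := pow_le_one₀ (by norm_num) (by norm_num)
    nlinarith

theorem col_weight (V : Fin n → Fin m → ℝ) {R : ℝ} (hR : 0 < R) (hcol : ∀ j, ∑ i, |V i j| ≤ R)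
    {K : ℕ} (j : Fin m) (T : Finset (Fin n × Option (Fin K))) (hT : ∀ e ∈ T, j ∈ cols V R e) :
    ∑ e ∈ T, wgt R e ≤ 5 * R ^ 11 * (R ^ 40)⁻¹ := by
  have h0 : ∑ e ∈ T, wgt R e ≤
      ∑ e : Fin n × Option (Fin K), (if j ∈ cols V R e then wgt R e else 0) := by
    calc ∑ e ∈ T, wgt R e = ∑ e ∈ T, (if j ∈ cols V R e then wgt R e else 0) :=
          sum_congr rfl fun e he => by rw [if_pos (hT e he)]
      _ ≤ _ := sum_le_sum_of_subset_of_nonneg (subset_univ _) fun e _ _ => by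
          split_ifs
          · exact wgt_nonneg hR e
          · exact le_rfl
  refine h0.trans ?_
  rw [Fintype.sum_prod_type]
  have h : ∀ i : Fin n, ∑ o : Option (Fin K), (if j ∈ cols V R (i, o) then wgt R (i, o) else 0) ≤
      (R ^ 40)⁻¹ * (5 * R ^ 10 * |V i j|) := by
    intro i
    rw [Fintype.sum_option]
    have h1 := sum_scales V hR K i j
    have h2 : (R ^ 40)⁻¹ * ((if j ∈ big V R i then (1 : ℝ) else 0) +
      ∑ κ : Fin K, (if j ∈ Sc V R i κ then (1 / 4 : ℝ) ^ (κ : ℕ) else 0)) ≤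
        (R ^ 40)⁻¹ * (5 * R ^ 10 * |V i j|) := mul_le_mul_of_nonneg_left h1 (by positivity)
    refine le_trans ?_ h2
    rw [mul_add, mul_sum]
    refine add_le_add (le_of_eq ?_) (sum_le_sum fun κ _ => ?_)
    · simp only [cols, wgt]
      split_ifs <;> simp
    · simp only [cols, wgt]
      by_cases ha : act V R i κ
      · rw [if_pos ha]
        split_ifs
        · exact le_rfl
        · simp
      · rw [if_neg ha]
        have : (0 : ℝ) ≤ (R ^ 40)⁻¹ *
            (if j ∈ Sc V R i κ then (1 / 4 : ℝ) ^ (κ : ℕ) else 0) := by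
          split_ifs <;> positivity
        simpa using this
  calc _ ≤ ∑ i : Fin n, (R ^ 40)⁻¹ * (5 * R ^ 10 * |V i j|) := sum_le_sum fun i _ => h i
    _ = (R ^ 40)⁻¹ * (5 * R ^ 10) * ∑ i, |V i j| := by
        rw [mul_sum]
        exact sum_congr rfl fun i _ => by ring
    _ ≤ (R ^ 40)⁻¹ * (5 * R ^ 10) * R := mul_le_mul_of_nonneg_left (hcol j) (by positivity)
    _ = _ := by ring

theorem bad_dep (V : Fin n → Fin m → ℝ) (R : ℝ) (x : Fin m → ℝ) {K : ℕ}
    (e : Fin n × Option (Fin K)) (ω ω' : Fin m → Bool) (h : ∀ j ∈ cols V R e, ω j = ω' j)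
    (hb : bad V R x e ω) : bad V R x e ω' := by
  unfold bad cols at *
  rcases e with ⟨i, _ | κ⟩
  · simp only at *
    have : ∑ j ∈ big V R i, V i j * (yy (ω' j) - x j) = ∑ j ∈ big V R i, V i j * (yy (ω j) - x j) :=
      sum_congr rfl fun j hj => by rw [h j hj]
    rw [this]
    exact hb
  · simp only at *
    obtain ⟨h1, h2⟩ := hb
    rw [if_pos h1] at h
    refine ⟨h1, ?_⟩
    have : ∑ j ∈ Sc V R i κ, V i j * (yy (ω' j) - x j) =
        ∑ j ∈ Sc V R i κ, V i j * (yy (ω j) - x j) := sum_congr rfl fun j hj => by rw [h j hj]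
    rw [this]
    exact h2

theorem one_sub_sq_le {x : ℝ} (hx : |x| ≤ 1) : 1 - x ^ 2 ≤ 2 * √(1 - |x|) := by
  have h0 : 0 ≤ 1 - |x| := by linarith
  have h1 : 1 - |x| ≤ √(1 - |x|) := by
    exact Real.le_sqrt_of_sq_le (by nlinarith [abs_nonneg x])
  have h2 : x ^ 2 = |x| ^ 2 := (sq_abs x).symm
  nlinarith [abs_nonneg x]

theorem prob_row (V : Fin n → Fin m → ℝ) {R : ℝ} (hR : Real.exp 100 ≤ R) {x : Fin m → ℝ}
    (hx : ∀ j, |x j| ≤ 1) (hV : ∀ i j, |V i j| ≤ 1) (i : Fin n)
    (hE : ∑ j ∈ big V R i, |V i j| * √(1 - |x j|) ≤ R / Real.log R ^ 2) :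
    ∑ ω ∈ univ.filter (fun ω : Fin m → Bool =>
      3 * √R < |∑ j ∈ big V R i, V i j * (yy (ω j) - x j)|), ∏ j, pw x j (ω j) ≤
      2 * Real.exp (-(Real.log R ^ 2)) := by
  obtain ⟨hL, h1, h2, h3, h4⟩ := nums hR
  set L := Real.log R with hLd
  have hR0 : 0 < R := by linarith
  have hs0 : 0 < √R := Real.sqrt_pos.2 hR0
  have hs2 : √R * √R = R := Real.mul_self_sqrt hR0.le
  refine (tail2 hx (V i) (big V R i) (L ^ 2 / √R) (by positivity) (fun j _ => ?_) _).trans ?_
  · calc L ^ 2 / √R * |V i j| ≤ L ^ 2 / √R * 1 :=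
        mul_le_mul_of_nonneg_left (hV i j) (by positivity)
      _ ≤ 1 / 2 := by linarith
  · refine mul_le_mul_of_nonneg_left (Real.exp_le_exp.2 ?_) (by norm_num)
    have h5 : ∑ j ∈ big V R i, V i j ^ 2 * (1 - x j ^ 2) ≤ 2 * (R / L ^ 2) := by
      calc ∑ j ∈ big V R i, V i j ^ 2 * (1 - x j ^ 2)
          ≤ ∑ j ∈ big V R i, 2 * (|V i j| * √(1 - |x j|)) := by
            refine sum_le_sum fun j _ => ?_
            have e1 := one_sub_sq_le (hx j)
            have e2 : V i j ^ 2 ≤ |V i j| := by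
              rw [← sq_abs]
              nlinarith [abs_nonneg (V i j), hV i j]
            have e3 : 0 ≤ √(1 - |x j|) := Real.sqrt_nonneg _
            calc V i j ^ 2 * (1 - x j ^ 2) ≤ V i j ^ 2 * (2 * √(1 - |x j|)) :=
                  mul_le_mul_of_nonneg_left e1 (sq_nonneg _)
              _ ≤ |V i j| * (2 * √(1 - |x j|)) := mul_le_mul_of_nonneg_right e2 (by positivity)
              _ = _ := by ring
        _ = 2 * ∑ j ∈ big V R i, |V i j| * √(1 - |x j|) := by rw [mul_sum]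
        _ ≤ _ := by linarith
    have h6 : (L ^ 2 / √R) ^ 2 * ∑ j ∈ big V R i, V i j ^ 2 * (1 - x j ^ 2) ≤
        (L ^ 2 / √R) ^ 2 * (2 * (R / L ^ 2)) := mul_le_mul_of_nonneg_left h5 (by positivity)
    have h7 : (L ^ 2 / √R) ^ 2 * (2 * (R / L ^ 2)) = 2 * L ^ 2 := by
      have hL0 : L ≠ 0 := by linarith
      rw [div_pow, show √R ^ 2 = R by rw [sq]; exact hs2]
      field_simp
    have h8 : L ^ 2 / √R * (3 * √R) = 3 * L ^ 2 := by
      field_simp
    linarith

theorem prob_piece (V : Fin n → Fin m → ℝ) {R : ℝ} (hR : Real.exp 100 ≤ R) {x : Fin m → ℝ}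
    (hx : ∀ j, |x j| ≤ 1) (i : Fin n) (κ : ℕ) :
    ∑ ω ∈ univ.filter (fun ω : Fin m → Bool =>
      (R ^ 2)⁻¹ * mass V R i κ < |∑ j ∈ Sc V R i κ, V i j * (yy (ω j) - x j)|),
        ∏ j, pw x j (ω j) ≤
      2 * Real.exp (-((R ^ 4)⁻¹ * mass V R i κ / (4 * sc R κ))) := by
  obtain ⟨hL, h1, h2, h3, h4⟩ := nums hR
  have hR0 : 0 < R := by linarith
  have hs := sc_pos hR0 κ
  set s := sc R κ with hsd
  have hM : 0 ≤ mass V R i κ := sum_nonneg fun _ _ => abs_nonneg _
  set M := mass V R i κ with hMd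
  have hRi : (R ^ 2)⁻¹ ≤ 1 := inv_le_one_of_one_le₀ (one_le_pow₀ h1)
  have hRi0 : 0 < (R ^ 2)⁻¹ := by positivity
  refine (tail2 hx (V i) (Sc V R i κ) ((R ^ 2)⁻¹ / (2 * s)) (by positivity) (fun j hj => ?_)
    _).trans ?_
  · have h5 : |V i j| ≤ s := (mem_filter.1 hj).2.2
    calc (R ^ 2)⁻¹ / (2 * s) * |V i j| ≤ (R ^ 2)⁻¹ / (2 * s) * s :=
          mul_le_mul_of_nonneg_left h5 (by positivity)
      _ = (R ^ 2)⁻¹ / 2 := by field_simp
      _ ≤ 1 / 2 := by linarith
  · refine mul_le_mul_of_nonneg_left (Real.exp_le_exp.2 ?_) (by norm_num)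
    have h5 : ∑ j ∈ Sc V R i κ, V i j ^ 2 * (1 - x j ^ 2) ≤ s * M := by
      calc ∑ j ∈ Sc V R i κ, V i j ^ 2 * (1 - x j ^ 2) ≤ ∑ j ∈ Sc V R i κ, s * |V i j| := by
            refine sum_le_sum fun j hj => ?_
            have e1 : |V i j| ≤ s := (mem_filter.1 hj).2.2
            have e2 : V i j ^ 2 ≤ s * |V i j| := by
              rw [← sq_abs, sq]
              exact mul_le_mul_of_nonneg_right e1 (abs_nonneg _)
            have e3 : 1 - x j ^ 2 ≤ 1 := by nlinarith [sq_nonneg (x j)]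
            have e4 : 0 ≤ V i j ^ 2 := sq_nonneg _
            nlinarith
        _ = s * M := by rw [← mul_sum]; rfl
    have h6 := mul_le_mul_of_nonneg_left h5 (show 0 ≤ ((R ^ 2)⁻¹ / (2 * s)) ^ 2 by positivity)
    have h7 : ((R ^ 2)⁻¹ / (2 * s)) ^ 2 * (s * M) = (R ^ 4)⁻¹ * M / (4 * s) := by
      field_simp
      ring
    have h8 : (R ^ 2)⁻¹ / (2 * s) * ((R ^ 2)⁻¹ * M) = 2 * ((R ^ 4)⁻¹ * M / (4 * s)) := by
      field_simp
      ring
    linarith

end Rnd

open Rnd

theorem rounding : ∃ R0 : ℝ, 1 ≤ R0 ∧ ∀ (R : ℝ), R0 ≤ R → ∀ (n m : ℕ) (V : Fin n → Fin m → ℝ)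
    (x : Fin m → ℝ), (∀ i j, |V i j| ≤ 1) → (∀ i, ∑ j, |V i j| ≤ R) → (∀ j, ∑ i, |V i j| ≤ R) →
    (∀ j, |x j| ≤ 1) →
    (∀ i, ∑ j ∈ univ.filter (fun j => (R ^ 10)⁻¹ < |V i j|), |V i j| * √(1 - |x j|) ≤
      R / Real.log R ^ 2) →
    ∃ y : Fin m → ℝ, (∀ j, y j = 1 ∨ y j = -1) ∧
      ∀ i, |∑ j, V i j * (y j - x j)| ≤ 4 * √R := by
  refine ⟨Real.exp 100, Real.one_le_exp (by norm_num), ?_⟩
  intro R hR n m V x hV hrow hcol hx hE
  obtain ⟨hL, h1, h2, h3, h4⟩ := nums hR
  have hR0 : 0 < R := by linarith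
  obtain ⟨K, hK⟩ := exists_K V hR0
  set X : ℝ := 5 * R ^ 11 * (R ^ 40)⁻¹ with hX
  have hX0 : 0 ≤ X := by positivity
  have hXe : X = 5 * (R ^ 29)⁻¹ := by
    rw [hX]
    field_simp
  have hlog : Real.exp (-(40 * Real.log R)) = (R ^ 40)⁻¹ := by
    rw [Real.exp_neg]
    congr 1
    rw [mul_comm, Real.exp_mul, Real.exp_log hR0]
    exact_mod_cast Real.rpow_natCast R 40
  obtain ⟨ω, hω⟩ := lll_fin (pw x) (pw_nonneg hx) (pw_sum x) (cols V R)
    (bad V R x (K := K)) (bad_dep V R x) (wgt R) (wgt_nonneg hR0)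
    (wgt_le (by linarith)) X (col_weight V hR0 hcol) (by
      intro e
      rcases e with ⟨i, _ | κ⟩
      · -- row event
        have hp := prob_row V hR hx hV i (hE i)
        have hc : ((cols V R ((i, none) : Fin n × Option (Fin K))).card : ℝ) ≤ R ^ 11 :=
          card_big V hR0 hrow i
        have hS1 : 2 * (((cols V R ((i, none) : Fin n × Option (Fin K))).card : ℝ) * X) ≤ 1 := by
          have e1 : ((cols V R ((i, none) : Fin n × Option (Fin K))).card : ℝ) * X ≤ R ^ 11 * X :=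
            mul_le_mul_of_nonneg_right hc hX0
          have e2 : R ^ 11 * X = 5 * (R ^ 18)⁻¹ := by
            rw [hXe]
            field_simp
          have e3 : (R ^ 18)⁻¹ ≤ R⁻¹ := by
            refine inv_anti₀ hR0 ?_
            calc R = R ^ 1 := (pow_one R).symm
              _ ≤ R ^ 18 := pow_le_pow_right₀ h1 (by norm_num)
          have e4 : R⁻¹ ≤ 1 / 10 := by
            rw [one_div]
            exact inv_anti₀ (by norm_num) (by linarith)
          linarith
        have hbad : univ.filter (bad V R x ((i, none) : Fin n × Option (Fin K))) ⊆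
            univ.filter (fun ω : Fin m → Bool =>
              3 * √R < |∑ j ∈ big V R i, V i j * (yy (ω j) - x j)|) := by
          intro ω hω
          rw [mem_filter] at hω ⊢
          exact ⟨mem_univ _, hω.2⟩
        have hp' : ∑ ω ∈ univ.filter (bad V R x ((i, none) : Fin n × Option (Fin K))),
            ∏ j, pw x j (ω j) ≤ 2 * Real.exp (-(Real.log R ^ 2)) :=
          le_trans (sum_le_sum_of_subset_of_nonneg hbad fun ω _ _ =>
            prod_nonneg fun j _ => pw_nonneg hx j _) hp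
        refine hp'.trans ?_
        have hw : wgt R ((i, none) : Fin n × Option (Fin K)) = Real.exp (-(40 * Real.log R)) := by
          rw [hlog]
          rfl
        rw [hw, ← Real.exp_add]
        have e5 : (2 : ℝ) ≤ Real.exp 1 := by linarith [Real.add_one_le_exp (1 : ℝ)]
        calc 2 * Real.exp (-(Real.log R ^ 2)) ≤ Real.exp 1 * Real.exp (-(Real.log R ^ 2)) :=
              mul_le_mul_of_nonneg_right e5 (Real.exp_pos _).le
          _ = Real.exp (1 - Real.log R ^ 2) := by rw [← Real.exp_add]; ring_nf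
          _ ≤ _ := Real.exp_le_exp.2 (by nlinarith)
      · -- piece event
        by_cases ha : act V R i κ
        swap
        · have : univ.filter (bad V R x ((i, some κ) : Fin n × Option (Fin K))) = ∅ := by
            rw [Finset.filter_eq_empty_iff]
            intro ω _ hb
            exact ha hb.1
          rw [this, Finset.sum_empty]
          exact mul_nonneg (wgt_nonneg hR0 _) (Real.exp_pos _).le
        have hp := prob_piece V hR hx i κ
        have hs := sc_pos hR0 (κ : ℕ)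
        have hM0 : 0 ≤ mass V R i κ := sum_nonneg fun _ _ => abs_nonneg _
        have hcc : (cols V R ((i, some κ) : Fin n × Option (Fin K))).card = (Sc V R i κ).card := by
          simp only [cols, if_pos ha]
        have hN := card_Sc V R i κ
        have hbad : univ.filter (bad V R x ((i, some κ) : Fin n × Option (Fin K))) ⊆
            univ.filter (fun ω : Fin m → Bool =>
      (R ^ 2)⁻¹ * mass V R i κ < |∑ j ∈ Sc V R i κ, V i j * (yy (ω j) - x j)|) := by
          intro ω hω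
          rw [mem_filter] at hω ⊢
          exact ⟨mem_univ _, hω.2.2⟩
        have hp' : ∑ ω ∈ univ.filter (bad V R x ((i, some κ) : Fin n × Option (Fin K))),
            ∏ j, pw x j (ω j) ≤ 2 * Real.exp (-((R ^ 4)⁻¹ * mass V R i κ / (4 * sc R κ))) :=
          le_trans (sum_le_sum_of_subset_of_nonneg hbad fun ω _ _ =>
            prod_nonneg fun j _ => pw_nonneg hx j _) hp
        refine hp'.trans ?_
        set M := mass V R i κ with hMd
        set s := sc R κ with hsd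
        set N : ℝ := ((Sc V R i κ).card : ℝ) with hNd
        have hN0 : 0 ≤ N := Nat.cast_nonneg _
        rw [hcc]
        -- first half
        have e1 : (R ^ 4)⁻¹ * M / (8 * s) ≥ 2 * (N * X) := by
          have f1 : N / 16 ≤ M / (8 * s) := by
            rw [div_le_div_iff₀ (by norm_num) (by positivity)]
            have : N * (s / 2) ≤ M := hN
            nlinarith
          have f2 : 2 * (N * X) ≤ (R ^ 4)⁻¹ * (N / 16) := by
            rw [hXe]
            have g1 : (R ^ 29)⁻¹ = (R ^ 4)⁻¹ * (R ^ 25)⁻¹ := by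
              rw [← mul_inv, ← pow_add]
            have g2 : (R ^ 25)⁻¹ ≤ 1 / 160 := by
              rw [one_div]
              refine inv_anti₀ (by norm_num) ?_
              calc (160 : ℝ) ≤ R := by linarith
                _ = R ^ 1 := (pow_one R).symm
                _ ≤ R ^ 25 := pow_le_pow_right₀ h1 (by norm_num)
            rw [g1]
            have g3 : 0 ≤ (R ^ 4)⁻¹ * N := by positivity
            nlinarith
          have f3 : (R ^ 4)⁻¹ * (N / 16) ≤ (R ^ 4)⁻¹ * (M / (8 * s)) :=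
            mul_le_mul_of_nonneg_left f1 (by positivity)
          have f4 : (R ^ 4)⁻¹ * (M / (8 * s)) = (R ^ 4)⁻¹ * M / (8 * s) := by ring
          linarith
        -- second half
        have e2 : (R ^ 4)⁻¹ * M / (8 * s) ≥ 1 + 40 * Real.log R + (κ : ℕ) * Real.log 4 := by
          have f1 : R ^ 9 * (3 / 2) ^ (κ : ℕ) ≤ M / s := by
            rw [le_div_iff₀ hs]
            have g1 : R⁻¹ * (3 / 4) ^ (κ : ℕ) < M := ha
            refine le_trans (le_of_eq ?_) g1.le
            rw [hsd]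
            unfold sc
            have : ((3 : ℝ) / 2) ^ (κ : ℕ) * (1 / 2) ^ (κ : ℕ) = (3 / 4) ^ (κ : ℕ) := by
              rw [← mul_pow]; norm_num
            calc R ^ 9 * (3 / 2) ^ (κ : ℕ) * ((R ^ 10)⁻¹ * (1 / 2) ^ (κ : ℕ)) =
                (R ^ 9 * (R ^ 10)⁻¹) * ((3 / 2) ^ (κ : ℕ) * (1 / 2) ^ (κ : ℕ)) := by ring
              _ = R⁻¹ * (3 / 4) ^ (κ : ℕ) := by
                  rw [this]
                  congr 1
                  field_simp
          have f2 : 1 + (κ : ℕ) * (1 / 2 : ℝ) ≤ (3 / 2) ^ (κ : ℕ) := by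
            have := one_add_mul_le_pow (a := (1 / 2 : ℝ)) (by norm_num) (κ : ℕ)
            norm_num at this ⊢
            linarith
          have f3 : Real.log 4 ≤ 2 := by
            have h5 : Real.log 4 = 2 * Real.log 2 := by
              rw [show (4 : ℝ) = 2 ^ 2 by norm_num, Real.log_pow]
              norm_num
            have h6 := Real.log_two_lt_d9
            linarith
          have f4 : (R ^ 4)⁻¹ * M / (8 * s) = (R ^ 4)⁻¹ * (M / s) / 8 := by
            field_simp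
          rw [f4]
          have f5 : (R ^ 4)⁻¹ * (R ^ 9 * (3 / 2) ^ (κ : ℕ)) ≤ (R ^ 4)⁻¹ * (M / s) :=
            mul_le_mul_of_nonneg_left f1 (by positivity)
          have f6 : (R ^ 4)⁻¹ * (R ^ 9 * (3 / 2) ^ (κ : ℕ)) = R ^ 5 * (3 / 2) ^ (κ : ℕ) := by
            field_simp
          have f7 : 400 * R ≤ R ^ 5 := by
            have : R ^ 5 = R * R ^ 4 := by ring
            have h8 : (400 : ℝ) ≤ R ^ 4 := by
              calc (400 : ℝ) ≤ R := by linarith
                _ = R ^ 1 := (pow_one R).symm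
                _ ≤ R ^ 4 := pow_le_pow_right₀ h1 (by norm_num)
            nlinarith
          have f8 : 400 * R * (1 + (κ : ℕ) * (1 / 2 : ℝ)) ≤ R ^ 5 * (3 / 2) ^ (κ : ℕ) :=
            mul_le_mul f7 f2 (by positivity) (by positivity)
          have hk : (0 : ℝ) ≤ (κ : ℕ) := Nat.cast_nonneg _
          have f9 : (κ : ℕ) * Real.log 4 ≤ (κ : ℕ) * 2 := mul_le_mul_of_nonneg_left f3 hk
          nlinarith
        have hw : wgt R ((i, some κ) : Fin n × Option (Fin K)) =
            Real.exp (-(40 * Real.log R) - (κ : ℕ) * Real.log 4) := by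
          show (R ^ 40)⁻¹ * (1 / 4) ^ (κ : ℕ) = _
          rw [sub_eq_add_neg, Real.exp_add, hlog]
          congr 1
          rw [Real.exp_neg, mul_comm, Real.exp_mul, Real.exp_log (by norm_num), Real.rpow_natCast,
            one_div, inv_pow]
        rw [hw, ← Real.exp_add]
        have e5 : (2 : ℝ) ≤ Real.exp 1 := by linarith [Real.add_one_le_exp (1 : ℝ)]
        have e6 : (R ^ 4)⁻¹ * M / (4 * s) = (R ^ 4)⁻¹ * M / (8 * s) + (R ^ 4)⁻¹ * M / (8 * s) := by
          field_simp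
          ring
        calc 2 * Real.exp (-((R ^ 4)⁻¹ * M / (4 * s))) ≤
              Real.exp 1 * Real.exp (-((R ^ 4)⁻¹ * M / (4 * s))) :=
              mul_le_mul_of_nonneg_right e5 (Real.exp_pos _).le
          _ = Real.exp (1 - (R ^ 4)⁻¹ * M / (4 * s)) := by rw [← Real.exp_add]; ring_nf
          _ ≤ _ := Real.exp_le_exp.2 (by linarith))
  refine ⟨fun j => yy (ω j), fun j => ?_, fun i => ?_⟩
  · show yy (ω j) = 1 ∨ yy (ω j) = -1
    unfold yy
    split_ifs
    · exact Or.inl rfl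
    · exact Or.inr rfl
  · have hd := decomp V hR0 hK i (fun j => V i j * (yy (ω j) - x j))
      (fun j hj => by rw [hj, zero_mul])
    rw [hd]
    have hrowi : |∑ j ∈ big V R i, V i j * (yy (ω j) - x j)| ≤ 3 * √R :=
      not_lt.1 (hω (i, none))
    have hy2 : ∀ j, |yy (ω j) - x j| ≤ 2 := by
      intro j
      have := abs_le.1 (hx j)
      unfold yy
      split_ifs <;> rw [abs_le] <;> constructor <;> linarith
    have hpiece : ∀ κ : Fin K, |∑ j ∈ Sc V R i κ, V i j * (yy (ω j) - x j)| ≤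
        2 * (R⁻¹ * (3 / 4) ^ (κ : ℕ)) + (R ^ 2)⁻¹ * ∑ j ∈ Sc V R i κ, |V i j| := by
      intro κ
      have hM0 : 0 ≤ ∑ j ∈ Sc V R i κ, |V i j| := sum_nonneg fun _ _ => abs_nonneg _
      by_cases ha : act V R i κ
      · have := hω (i, some κ)
        have h5 : |∑ j ∈ Sc V R i κ, V i j * (yy (ω j) - x j)| ≤ (R ^ 2)⁻¹ * mass V R i κ := by
          by_contra h
          exact this ⟨ha, not_le.1 h⟩
        have h6 : 0 ≤ 2 * (R⁻¹ * (3 / 4 : ℝ) ^ (κ : ℕ)) := by positivity
        have h7 : mass V R i κ = ∑ j ∈ Sc V R i κ, |V i j| := rfl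
        rw [h7] at h5
        linarith
      · have h5 : ∑ j ∈ Sc V R i κ, |V i j| ≤ R⁻¹ * (3 / 4) ^ (κ : ℕ) := not_lt.1 ha
        have h6 : |∑ j ∈ Sc V R i κ, V i j * (yy (ω j) - x j)| ≤
            2 * ∑ j ∈ Sc V R i κ, |V i j| := by
          calc _ ≤ ∑ j ∈ Sc V R i κ, |V i j * (yy (ω j) - x j)| := abs_sum_le_sum_abs _ _
            _ ≤ ∑ j ∈ Sc V R i κ, 2 * |V i j| := by
                refine sum_le_sum fun j _ => ?_
                rw [abs_mul]
                nlinarith [abs_nonneg (V i j), hy2 j]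
            _ = _ := by rw [mul_sum]
        have h7 : 0 ≤ (R ^ 2)⁻¹ * ∑ j ∈ Sc V R i κ, |V i j| := by positivity
        linarith
    have hsum : |∑ κ : Fin K, ∑ j ∈ Sc V R i κ, V i j * (yy (ω j) - x j)| ≤
        8 * R⁻¹ + R⁻¹ := by
      have g1 : ∑ κ : Fin K, ((3 : ℝ) / 4) ^ (κ : ℕ) ≤ 4 := by
        rw [Fin.sum_univ_eq_sum_range (fun k => (3 / 4 : ℝ) ^ k) K, geom_sum_eq (by norm_num)]
        have : (0 : ℝ) ≤ (3 / 4) ^ K := by positivity
        rw [div_le_iff_of_neg (by norm_num)]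
        linarith
      have g2 := mass_le V hR0 hK hrow i
      calc _ ≤ ∑ κ : Fin K, |∑ j ∈ Sc V R i κ, V i j * (yy (ω j) - x j)| :=
            abs_sum_le_sum_abs _ _
        _ ≤ ∑ κ : Fin K, (2 * (R⁻¹ * (3 / 4) ^ (κ : ℕ)) + (R ^ 2)⁻¹ * ∑ j ∈ Sc V R i κ, |V i j|) :=
            sum_le_sum fun κ _ => hpiece κ
        _ = 2 * R⁻¹ * (∑ κ : Fin K, ((3 : ℝ) / 4) ^ (κ : ℕ)) +
            (R ^ 2)⁻¹ * ∑ κ : Fin K, ∑ j ∈ Sc V R i κ, |V i j| := by
            rw [sum_add_distrib, mul_sum, mul_sum]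
            congr 1
            exact sum_congr rfl fun κ _ => by ring
        _ ≤ 2 * R⁻¹ * 4 + (R ^ 2)⁻¹ * R :=
            add_le_add (mul_le_mul_of_nonneg_left g1 (by positivity))
              (mul_le_mul_of_nonneg_left g2 (by positivity))
        _ = 8 * R⁻¹ + R⁻¹ := by
            field_simp
            ring
    have hRs : 9 * R⁻¹ ≤ √R := by
      have e1 : 1 ≤ √R := Real.one_le_sqrt.2 h1
      have e2 : R⁻¹ ≤ 1 / 9 := by
        rw [one_div]
        exact inv_anti₀ (by norm_num) (by linarith)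
      linarith
    calc _ ≤ |∑ j ∈ big V R i, V i j * (yy (ω j) - x j)| +
          |∑ κ : Fin K, ∑ j ∈ Sc V R i κ, V i j * (yy (ω j) - x j)| := abs_add_le _ _
      _ ≤ _ := by linarith

end Pool.Agent.SVR
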