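import Pool.Agent.SVR.Ph
import Pool.Agent.SVR.Rnd

set_option autoImplicit false

/-!
# [SVR-Main] iteration of the phases, final rounding, small `R`

Let `R0` be the maximum of the two `R0`.  If `R < R0`: `y = 1`, `|∑ V y| ≤ R ≤ √R0 √R`.  If `R ≥ R0`:
`q = 1 - 10^{-15}`, `r = q^(1/4)`; by induction on `s`: if `q^l R ≥ R/(log R)^2` for `l < s` there is
`x_s` with all energies `≤ q^s R` and `|∑ V x_s| ≤ ∑_{l<s} (4 r^l √R + 3)`.  Stop at the first `s` with
`q^s R < R/(log R)^2`; then `s ≤ √(log R) ∑_{l<s} r^l ≤ √R / (1 - r)`.  Then `rounding`.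
-/

namespace Pool.Agent.SVR

open Finset

namespace Mn

/-- the factor by which a phase shrinks the energy -/
noncomputable def q : ℝ := 1 - 1 / 10 ^ 15

/-- its fourth root -/
noncomputable def r : ℝ := √√q

theorem q_pos : 0 < q := by unfold q; norm_num

theorem q_lt : q < 1 := by unfold q; norm_num

theorem r_pos : 0 < r := Real.sqrt_pos.2 (Real.sqrt_pos.2 q_pos)

theorem r_lt : r < 1 := by
  unfold r
  rw [Real.sqrt_lt' one_pos, Real.sqrt_lt' (by norm_num)]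
  norm_num
  exact q_lt

theorem r_four : r ^ 4 = q := by
  unfold r
  calc (√√q) ^ 4 = ((√√q) ^ 2) ^ 2 := by ring
    _ = (√q) ^ 2 := by rw [Real.sq_sqrt (Real.sqrt_nonneg _)]
    _ = q := Real.sq_sqrt q_pos.le

theorem sqrt_sqrt_four {x : ℝ} (hx : 0 ≤ x) : √√(x ^ 4) = x := by
  have h : x ^ 4 = (x ^ 2) ^ 2 := by ring
  rw [h, Real.sqrt_sq (by positivity), Real.sqrt_sq hx]

theorem sqrt_sqrt_q {R : ℝ} (hR : 0 ≤ R) (l : ℕ) : √√(q ^ l * R * R) = r ^ l * √R := by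
  have h : q ^ l * R * R = (r ^ l * √R) ^ 4 := by
    calc q ^ l * R * R = (r ^ 4) ^ l * (√R ^ 2) * (√R ^ 2) := by
          rw [Real.sq_sqrt hR, r_four]
      _ = (r ^ l * √R) ^ 4 := by ring
  rw [h, sqrt_sqrt_four (by have := r_pos; positivity)]

theorem sum_r_le (s : ℕ) : ∑ l ∈ range s, r ^ l ≤ 1 / (1 - r) := by
  have h1 : 0 < 1 - r := by linarith [r_lt]
  have h2 : (∑ l ∈ range s, r ^ l) * (1 - r) = 1 - r ^ s := by
    have := geom_sum_mul r s
    linarith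
  rw [le_div_iff₀ h1, h2]
  have := pow_pos r_pos s
  linarith

theorem iter {n m : ℕ} {V : Fin n → Fin m → ℝ} {R : ℝ} (hR : 0 ≤ R)
    (hP : ∀ (ρ : ℝ), R / Real.log R ^ 2 ≤ ρ → ρ ≤ R → ∀ (x : Fin m → ℝ), (∀ j, |x j| ≤ 1) →
      (∀ i, ∑ j ∈ univ.filter (fun j => (R ^ 10)⁻¹ < |V i j|), |V i j| * √(1 - |x j|) ≤ ρ) →
      ∃ x' : Fin m → ℝ, (∀ j, |x' j| ≤ 1) ∧
      (∀ i, ∑ j ∈ univ.filter (fun j => (R ^ 10)⁻¹ < |V i j|), |V i j| * √(1 - |x' j|) ≤
        (1 - 1 / 10 ^ 15) * ρ) ∧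
      ∀ i, |∑ j, V i j * (x' j - x j)| ≤ 4 * √√(ρ * R) + 3)
    (hrow : ∀ i, ∑ j, |V i j| ≤ R) (s : ℕ) :
    (∀ l, l < s → R / Real.log R ^ 2 ≤ q ^ l * R) →
    ∃ x : Fin m → ℝ, (∀ j, |x j| ≤ 1) ∧
      (∀ i, ∑ j ∈ univ.filter (fun j => (R ^ 10)⁻¹ < |V i j|), |V i j| * √(1 - |x j|) ≤
        q ^ s * R) ∧
      ∀ i, |∑ j, V i j * x j| ≤ ∑ l ∈ range s, (4 * √√(q ^ l * R * R) + 3) := by
  induction s with
  | zero =>
    intro _
    refine ⟨fun _ => 0, fun j => by simp, fun i => ?_, fun i => by simp⟩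
    have h1 : ∑ j ∈ univ.filter (fun j => (R ^ 10)⁻¹ < |V i j|), |V i j| * √(1 - |(0 : ℝ)|) ≤
        ∑ j, |V i j| := by
      simp only [abs_zero, sub_zero, Real.sqrt_one, mul_one]
      exact Finset.sum_le_sum_of_subset_of_nonneg (Finset.filter_subset _ _)
        (fun _ _ _ => abs_nonneg _)
    rw [pow_zero, one_mul]
    exact h1.trans (hrow i)
  | succ s ih =>
    intro h
    obtain ⟨x, hx1, hx2, hx3⟩ := ih (fun l hl => h l (Nat.lt_succ_of_lt hl))
    have hρR : q ^ s * R ≤ R := by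
      have : q ^ s ≤ 1 := pow_le_one₀ q_pos.le q_lt.le
      nlinarith
    obtain ⟨x', h1, h2, h3⟩ := hP (q ^ s * R) (h s (Nat.lt_succ_self s)) hρR x hx1 hx2
    refine ⟨x', h1, fun i => (h2 i).trans (le_of_eq ?_), fun i => ?_⟩
    · have : (1 - 1 / 10 ^ 15 : ℝ) = q := rfl
      rw [this]
      ring
    · rw [Finset.sum_range_succ]
      have e : ∑ j, V i j * x' j = ∑ j, V i j * x j + ∑ j, V i j * (x' j - x j) := by
        rw [← Finset.sum_add_distrib]
        exact Finset.sum_congr rfl fun j _ => by ring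
      rw [e]
      exact (abs_add_le _ _).trans (add_le_add (hx3 i) (h3 i))

theorem exists_stop {R : ℝ} (hR : 1 < R) :
    ∃ s : ℕ, (∀ l, l < s → R / Real.log R ^ 2 ≤ q ^ l * R) ∧ q ^ s * R ≤ R / Real.log R ^ 2 := by
  classical
  have hR0 : 0 < R := by linarith
  have hl : 0 < Real.log R := Real.log_pos hR
  have hex : ∃ s : ℕ, q ^ s * R < R / Real.log R ^ 2 := by
    obtain ⟨s, hs⟩ := exists_pow_lt_of_lt_one (show (0 : ℝ) < 1 / Real.log R ^ 2 by positivity) q_lt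
    refine ⟨s, ?_⟩
    have h1 : q ^ s * R < 1 / Real.log R ^ 2 * R := mul_lt_mul_of_pos_right hs hR0
    have h2 : 1 / Real.log R ^ 2 * R = R / Real.log R ^ 2 := by ring
    rwa [h2] at h1
  refine ⟨Nat.find hex, fun l hl' => ?_, (Nat.find_spec hex).le⟩
  exact not_lt.1 (Nat.find_min hex hl')

theorem stop_le {R : ℝ} (hR : 1 < R) {s : ℕ}
    (h : ∀ l, l < s → R / Real.log R ^ 2 ≤ q ^ l * R) : (s : ℝ) ≤ √R / (1 - r) := by
  have hR0 : 0 < R := by linarith
  have hl : 0 < Real.log R := Real.log_pos hR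
  have hlR : Real.log R ≤ R := (Real.log_le_sub_one_of_pos hR0).trans (by linarith)
  have hsl : 0 < √(Real.log R) := Real.sqrt_pos.2 hl
  have h1 : ∀ l ∈ range s, 1 / √(Real.log R) ≤ r ^ l := by
    intro l hl'
    have h2 := h l (Finset.mem_range.1 hl')
    have h3 : 1 / Real.log R ^ 2 ≤ q ^ l := by
      have h4 : 1 / Real.log R ^ 2 * R ≤ q ^ l * R := by
        have h5 : 1 / Real.log R ^ 2 * R = R / Real.log R ^ 2 := by ring
        rwa [h5]
      exact le_of_mul_le_mul_right h4 hR0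
    have h6 : (1 / √(Real.log R)) ^ 4 ≤ (r ^ l) ^ 4 := by
      have e1 : (1 / √(Real.log R)) ^ 4 = 1 / Real.log R ^ 2 := by
        rw [div_pow, one_pow]
        congr 1
        calc √(Real.log R) ^ 4 = (√(Real.log R) ^ 2) ^ 2 := by ring
          _ = Real.log R ^ 2 := by rw [Real.sq_sqrt hl.le]
      have e2 : (r ^ l) ^ 4 = q ^ l := by
        rw [← r_four]
        ring
      rw [e1, e2]
      exact h3
    exact le_of_pow_le_pow_left₀ (by norm_num) (pow_pos r_pos l).le h6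
  have h2 : (s : ℝ) * (1 / √(Real.log R)) ≤ ∑ l ∈ range s, r ^ l := by
    have := Finset.card_nsmul_le_sum (range s) (fun l => r ^ l) (1 / √(Real.log R)) h1
    simpa using this
  have h3 := h2.trans (sum_r_le s)
  have h4 : 0 < 1 - r := by linarith [r_lt]
  have h5 : (s : ℝ) = (s : ℝ) * (1 / √(Real.log R)) * √(Real.log R) := by
    field_simp
  calc (s : ℝ) = (s : ℝ) * (1 / √(Real.log R)) * √(Real.log R) := h5
    _ ≤ 1 / (1 - r) * √(Real.log R) := mul_le_mul_of_nonneg_right h3 hsl.le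
    _ ≤ 1 / (1 - r) * √R := mul_le_mul_of_nonneg_left (Real.sqrt_le_sqrt hlR) (by positivity)
    _ = √R / (1 - r) := by ring

end Mn

open Mn in
theorem main : ∃ C : ℝ, 0 < C ∧ ∀ (n m : ℕ) (V : Fin n → Fin m → ℝ) (R Δ : ℝ), Δ ≤ R →
    (∀ i j, |V i j| ≤ 1) → (∀ i, ∑ j, |V i j| ≤ R) → (∀ j, ∑ i, |V i j| ≤ Δ) →
    ∃ y : Fin m → ℝ, (∀ j, y j = 1 ∨ y j = -1) ∧ ∀ i, |∑ j, V i j * y j| ≤ C * √R := by
  obtain ⟨R1, hR1, hP⟩ := phase
  obtain ⟨R2, hR2, hRd⟩ := rounding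
  have hr : 0 < 1 - r := by linarith [r_lt]
  refine ⟨√(max 2 (max R1 R2)) + (4 + 7 / (1 - r)), by positivity,
    fun n m V R Δ hΔ hV hrow hcol => ?_⟩
  rcases le_or_gt (max 2 (max R1 R2)) R with hR | hR
  · have hR2' : (2 : ℝ) ≤ R := (le_max_left _ _).trans hR
    have hRa : R1 ≤ R := ((le_max_left _ _).trans (le_max_right _ _)).trans hR
    have hRb : R2 ≤ R := ((le_max_right _ _).trans (le_max_right _ _)).trans hR
    have hR0 : 0 ≤ R := by linarith
    have hcol' : ∀ j, ∑ i, |V i j| ≤ R := fun j => (hcol j).trans hΔ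
    obtain ⟨s, hs1, hs2⟩ := exists_stop (show 1 < R by linarith)
    obtain ⟨x, hx1, hx2, hx3⟩ := iter (V := V) hR0
      (fun ρ h1 h2 x hx hE => hP R hRa ρ h1 h2 n m V x hV hrow hcol' hx hE) hrow s hs1
    obtain ⟨y, hy, hyx⟩ := hRd R hRb n m V x hV hrow hcol' hx1 (fun i => (hx2 i).trans hs2)
    refine ⟨y, hy, fun i => ?_⟩
    have e : ∑ j, V i j * y j = ∑ j, V i j * x j + ∑ j, V i j * (y j - x j) := by
      rw [← Finset.sum_add_distrib]
      exact Finset.sum_congr rfl fun j _ => by ring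
    have h1 : |∑ j, V i j * y j| ≤ ∑ l ∈ range s, (4 * √√(q ^ l * R * R) + 3) + 4 * √R := by
      rw [e]
      exact (abs_add_le _ _).trans (add_le_add (hx3 i) (hyx i))
    have h2 : ∑ l ∈ range s, (4 * √√(q ^ l * R * R) + 3) =
        4 * √R * ∑ l ∈ range s, r ^ l + 3 * s := by
      rw [Finset.sum_add_distrib, Finset.mul_sum]
      congr 1
      · exact Finset.sum_congr rfl fun l _ => by rw [sqrt_sqrt_q hR0]; ring
      · simp
        ring
    have h3 : 4 * √R * ∑ l ∈ range s, r ^ l ≤ 4 * √R * (1 / (1 - r)) :=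
      mul_le_mul_of_nonneg_left (sum_r_le s) (by positivity)
    have h4 := stop_le (show 1 < R by linarith) hs1
    have h5 : 4 * √R * (1 / (1 - r)) + 3 * (√R / (1 - r)) + 4 * √R =
        (4 + 7 / (1 - r)) * √R := by
      field_simp
      ring
    have h6 : 0 ≤ √(max 2 (max R1 R2)) * √R := by positivity
    rw [h2] at h1
    rw [add_mul]
    linarith
  · refine ⟨fun _ => 1, fun _ => Or.inl rfl, fun i => ?_⟩
    have h1 : |∑ j, V i j * (1 : ℝ)| ≤ ∑ j, |V i j| := by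
      simp only [mul_one]
      exact Finset.abs_sum_le_sum_abs _ _
    have h2 : 0 ≤ R := (Finset.sum_nonneg fun j _ => abs_nonneg (V i j)).trans (hrow i)
    have h3 : R ≤ √(max 2 (max R1 R2)) * √R := by
      calc R = √R * √R := (Real.mul_self_sqrt h2).symm
        _ ≤ √(max 2 (max R1 R2)) * √R :=
          mul_le_mul_of_nonneg_right (Real.sqrt_le_sqrt hR.le) (Real.sqrt_nonneg _)
    have h4 : 0 ≤ (4 + 7 / (1 - r)) * √R := by positivity
    calc |∑ j, V i j * (1 : ℝ)| ≤ ∑ j, |V i j| := h1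
      _ ≤ R := hrow i
      _ ≤ (√(max 2 (max R1 R2)) + (4 + 7 / (1 - r))) * √R := by
        rw [add_mul]
        linarith

end Pool.Agent.SVR
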