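import Pool.Agent.SVR.ParD

set_option autoImplicit false

/-!
# [SVR-ParA] numeric fact for large `R`; the proof is in the header of `ParD.lean`
-/

namespace Pool.Agent.SVR

open Filter in
theorem parA_ev : ∃ R0 : ℝ, 1 ≤ R0 ∧ ∀ R, R0 ≤ R → 1 ≤ Real.log R ∧ 10 ^ 6 ≤ R ∧
    10 ^ 17 * Real.log R ^ 2 ≤ R := by
  have h1 : ∀ᶠ R in atTop, (1 : ℝ) ≤ Real.log R := Real.tendsto_log_atTop.eventually_ge_atTop 1
  have h2 : ∀ᶠ R : ℝ in atTop, (10 : ℝ) ^ 6 ≤ R := eventually_ge_atTop _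
  have h3 : ∀ᶠ R : ℝ in atTop, ‖Real.log R ^ 2‖ ≤ (1 / 10 ^ 17) * ‖id R‖ :=
    (Real.isLittleO_pow_log_id_atTop (n := 2)).bound (by norm_num)
  obtain ⟨R1, hR1⟩ := eventually_atTop.1 (h1.and (h2.and h3))
  refine ⟨max 1 R1, le_max_left _ _, ?_⟩
  intro R hR
  obtain ⟨a, b, c⟩ := hR1 R ((le_max_right _ _).trans hR)
  refine ⟨a, b, ?_⟩
  rw [id, Real.norm_of_nonneg (by positivity), Real.norm_of_nonneg (by linarith)] at c
  linarith

theorem par_eps : ∃ R0 : ℝ, 1 ≤ R0 ∧ ∀ R, R0 ≤ R → 2 ≤ py R ∧ 0 < pe R ∧ 1 ≤ pk R ∧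
    (R ^ 3)⁻¹ ≤ 1 / 10 ^ 16 ∧ 10 ^ 17 ≤ R / Real.log R ^ 2 ∧
    ∀ ρ, 0 ≤ ρ → ρ ≤ R → (Real.exp (pe R) - 1) ^ 2 * ρ * py R ^ 4 ≤ 1 := by
  obtain ⟨R0, hR0, h⟩ := parA_ev
  refine ⟨R0, hR0, ?_⟩
  intro R hR
  obtain ⟨h1, h2, h3⟩ := h R hR
  have hRpos : 0 < R := by linarith
  have hs1 : 1 ≤ √R := by
    rw [Real.one_le_sqrt]; linarith
  have hspos : 0 < √R := by linarith
  have hl : 0 < Real.log R := by linarith
  have hA : 1 ≤ 2 * √R * (40000 * Real.log R) := by nlinarith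
  have hepos : 0 < pe R := by unfold pe; positivity
  have hele : pe R ≤ 1 := by
    unfold pe
    rw [div_le_one (by positivity)]
    exact hA
  have hpy2 : py R ^ 2 = 40000 * Real.log R := by
    unfold py
    exact Real.sq_sqrt (by positivity)
  refine ⟨?_, hepos, ?_, ?_, ?_, ?_⟩
  · unfold py
    apply Real.le_sqrt_of_sq_le
    linarith
  · unfold pk
    rw [Nat.one_le_ceil_iff]
    positivity
  · rw [one_div]
    apply inv_anti₀ (by norm_num)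
    calc (10 : ℝ) ^ 16 ≤ (10 ^ 6) ^ 3 := by norm_num
      _ ≤ R ^ 3 := pow_le_pow_left₀ (by norm_num) h2 3
  · rw [le_div_iff₀ (by positivity)]
    exact h3
  · intro ρ hρ0 hρ
    have e1 : (Real.exp (pe R) - 1) ^ 2 ≤ 4 * pe R ^ 2 := by
      have e2 := Real.abs_exp_sub_one_le (x := pe R) (by rw [abs_of_pos hepos]; exact hele)
      rw [abs_of_pos hepos] at e2
      have e3 : (Real.exp (pe R) - 1) ^ 2 = |Real.exp (pe R) - 1| ^ 2 := (sq_abs _).symm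
      rw [e3]
      calc |Real.exp (pe R) - 1| ^ 2 ≤ (2 * pe R) ^ 2 := pow_le_pow_left₀ (abs_nonneg _) e2 2
        _ = 4 * pe R ^ 2 := by ring
    have e4 : py R ^ 4 = (40000 * Real.log R) ^ 2 := by
      rw [← hpy2]; ring
    have hss : √R ^ 2 = R := Real.sq_sqrt hRpos.le
    have e5 : 4 * pe R ^ 2 * R * (40000 * Real.log R) ^ 2 = 1 := by
      unfold pe
      rw [div_pow, mul_pow, mul_pow, hss]
      field_simp
      norm_num
    rw [e4]
    calc (Real.exp (pe R) - 1) ^ 2 * ρ * (40000 * Real.log R) ^ 2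
        ≤ 4 * pe R ^ 2 * R * (40000 * Real.log R) ^ 2 := by
          apply mul_le_mul_of_nonneg_right _ (by positivity)
          exact mul_le_mul e1 hρ hρ0 (by positivity)
      _ = 1 := e5

end Pool.Agent.SVR
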