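import Pool.Agent.SVR.ParD

set_option autoImplicit false

/-!
# [SVR-ParB] numeric fact for large `R`; the proof is in the header of `ParD.lean`
-/

namespace Pool.Agent.SVR

theorem par_P0 : ∃ R0 : ℝ, 1 ≤ R0 ∧ ∀ R, R0 ≤ R → pP R ≤ (pM R ^ 28)⁻¹ := by
  refine ⟨10000000, by norm_num, fun R hR => ?_⟩
  have hR0 : (0 : ℝ) < R := lt_of_lt_of_le (by norm_num) hR
  have hR1 : (1 : ℝ) ≤ R := le_trans (by norm_num) hR
  have hl0 : 0 < Real.log R := Real.log_pos (lt_of_lt_of_le (by norm_num) hR)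
  have hs0 : 0 < √R := Real.sqrt_pos.2 hR0
  have hss : √R ^ 2 = R := Real.sq_sqrt hR0.le
  have hs1 : 1 ≤ √R := by
    rw [← Real.sqrt_one]
    exact Real.sqrt_le_sqrt hR1
  have hls : Real.log R ≤ 2 * √R := by
    have h1 : Real.log √R = Real.log R / 2 := Real.log_sqrt hR0.le
    have h2 : Real.log √R ≤ √R - 1 := Real.log_le_sub_one_of_pos hs0
    linarith
  have hpe : 0 < pe R := by unfold pe; positivity
  have hq0 : 0 < 5 * Real.log R / pe R := by positivity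
  have hk1 : 1 ≤ pk R := by
    unfold pk
    exact Nat.one_le_ceil_iff.2 hq0
  have hkl : 5 * Real.log R / pe R ≤ pk R := Nat.le_ceil _
  have hku : (pk R : ℝ) ≤ 400000 * √R * Real.log R ^ 2 + 1 := by
    have h1 : (pk R : ℝ) ≤ 5 * Real.log R / pe R + 1 := (Nat.ceil_lt_add_one hq0.le).le
    have h2 : 5 * Real.log R / pe R = 400000 * √R * Real.log R ^ 2 := by
      unfold pe
      field_simp
      ring
    linarith
  have hD0 : (0 : ℝ) ≤ (pD R : ℝ) := Nat.cast_nonneg _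
  have hD : (pD R : ℝ) ≤ R ^ 11 := Nat.floor_le (by positivity)
  have hpow1 : ∀ n : ℕ, 1 ≤ R ^ n := fun n => one_le_pow₀ hR1
  -- the size of a ball
  have hM : pM R ^ 28 ≤ R ^ (5152 * pk R) := by
    unfold pM
    rw [← pow_mul]
    have hb : 1 + (pD R : ℝ) ^ 2 ≤ R ^ 23 := by
      have h1 : (pD R : ℝ) ^ 2 ≤ (R ^ 11) ^ 2 := pow_le_pow_left₀ hD0 hD 2
      have h2 : (R ^ 11) ^ 2 = R ^ 22 := by rw [← pow_mul]
      have h3 : R ^ 23 = R ^ 22 * R := pow_succ R 22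
      have h4 : 1 ≤ R ^ 22 := hpow1 22
      rw [h3]
      nlinarith
    calc (1 + (pD R : ℝ) ^ 2) ^ (8 * pk R * 28) ≤ (R ^ 23) ^ (8 * pk R * 28) :=
          pow_le_pow_left₀ (by positivity) hb _
      _ = R ^ (5152 * pk R) := by
          rw [← pow_mul]
          congr 1
          ring
  have hM0 : 0 < pM R ^ 28 := by unfold pM; positivity
  have hgoal : (R ^ (5152 * pk R))⁻¹ ≤ (pM R ^ 28)⁻¹ := inv_anti₀ hM0 hM
  refine le_trans ?_ hgoal
  -- the first term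
  have hy : Real.exp (-(py R ^ 2 / 4)) = (R ^ 10000)⁻¹ := by
    have h1 : py R ^ 2 = 40000 * Real.log R := by
      unfold py
      exact Real.sq_sqrt (by positivity)
    have h2 : -(py R ^ 2 / 4) = -(((10000 : ℕ) : ℝ) * Real.log R) := by
      rw [h1]
      push_cast
      ring
    rw [h2, Real.exp_neg, Real.exp_nat_mul, Real.exp_log hR0]
  have hB : 16 * (pD R : ℝ) ^ 16 * (√2 * Real.exp (-(py R ^ 2 / 4))) ≤ (R ^ 9800)⁻¹ := by
    rw [hy]
    have h1 : (pD R : ℝ) ^ 16 ≤ R ^ 176 := by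
      calc (pD R : ℝ) ^ 16 ≤ (R ^ 11) ^ 16 := pow_le_pow_left₀ hD0 hD 16
        _ = R ^ 176 := by rw [← pow_mul]
    have h2 : √2 ≤ 2 := by
      rw [Real.sqrt_le_left (by norm_num)]
      norm_num
    have h3 : 0 < (R ^ 10000)⁻¹ := by positivity
    have h4 : 16 * (pD R : ℝ) ^ 16 * (√2 * (R ^ 10000)⁻¹) ≤ 16 * R ^ 176 * (2 * (R ^ 10000)⁻¹) := by
      have h5 : 0 ≤ √2 := Real.sqrt_nonneg 2
      have h6 : √2 * (R ^ 10000)⁻¹ ≤ 2 * (R ^ 10000)⁻¹ :=
        mul_le_mul_of_nonneg_right h2 h3.le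
      exact mul_le_mul (by linarith) h6 (by positivity) (by positivity)
    refine le_trans h4 ?_
    have h7 : R ^ 10000 = R ^ 9976 * R ^ 24 := by rw [← pow_add]
    have h8 : (32 : ℝ) ≤ R ^ 24 := by
      have : R ≤ R ^ 24 := le_self_pow₀ hR1 (by norm_num)
      linarith
    have h9 : R ^ 9976 = R ^ 176 * R ^ 9800 := by rw [← pow_add]
    rw [h7, h9]
    have hp1 : 0 < R ^ 176 := by positivity
    have hp2 : 0 < R ^ 9800 := by positivity
    have hp3 : 0 < R ^ 24 := by positivity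
    have h10 : 16 * R ^ 176 * (2 * (R ^ 176 * R ^ 9800 * R ^ 24)⁻¹) =
        (32 * (R ^ 24)⁻¹) * (R ^ 9800)⁻¹ := by
      field_simp
      ring
    rw [h10]
    have h11 : 32 * (R ^ 24)⁻¹ ≤ 1 := by
      rw [← div_eq_mul_inv, div_le_one hp3]
      exact h8
    have h12 : 0 ≤ (R ^ 9800)⁻¹ := by positivity
    calc (32 * (R ^ 24)⁻¹) * (R ^ 9800)⁻¹ ≤ 1 * (R ^ 9800)⁻¹ :=
          mul_le_mul_of_nonneg_right h11 h12
      _ = (R ^ 9800)⁻¹ := one_mul _
  have hB0 : 0 ≤ 16 * (pD R : ℝ) ^ 16 * (√2 * Real.exp (-(py R ^ 2 / 4))) := by positivity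
  have hA : 1 + 4 / (R ^ 3)⁻¹ ≤ R ^ 4 := by
    have h1 : 4 / (R ^ 3)⁻¹ = 4 * R ^ 3 := by
      field_simp
    rw [h1]
    have h2 : R ^ 4 = R ^ 3 * R := pow_succ R 3
    have h3 : 1 ≤ R ^ 3 := hpow1 3
    rw [h2]
    nlinarith
  have hA0 : 0 ≤ 1 + 4 / (R ^ 3)⁻¹ := by positivity
  have hT1 : (1 + 4 / (R ^ 3)⁻¹) *
      (16 * (pD R : ℝ) ^ 16 * (√2 * Real.exp (-(py R ^ 2 / 4)))) ^ pk R ≤
      1 / 2 * (R ^ (5152 * pk R))⁻¹ := by
    have h1 : (16 * (pD R : ℝ) ^ 16 * (√2 * Real.exp (-(py R ^ 2 / 4)))) ^ pk R ≤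
        (R ^ (9800 * pk R))⁻¹ := by
      calc _ ≤ ((R ^ 9800)⁻¹) ^ pk R := pow_le_pow_left₀ hB0 hB _
        _ = (R ^ (9800 * pk R))⁻¹ := by rw [inv_pow, ← pow_mul]
    have h2 : (1 + 4 / (R ^ 3)⁻¹) *
      (16 * (pD R : ℝ) ^ 16 * (√2 * Real.exp (-(py R ^ 2 / 4)))) ^ pk R ≤
        R ^ 4 * (R ^ (9800 * pk R))⁻¹ :=
      mul_le_mul hA h1 (by positivity) (by positivity)
    refine le_trans h2 ?_
    have hp1 : 0 < R ^ (9800 * pk R) := by positivity
    have hp2 : 0 < R ^ (5152 * pk R) := by positivity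
    have h3 : 2 * R ^ 4 * R ^ (5152 * pk R) ≤ R ^ (9800 * pk R) := by
      have h4 : 2 * R ^ 4 ≤ R ^ 5 := by
        have h5 : R ^ 5 = R ^ 4 * R := pow_succ R 4
        have h6 : 1 ≤ R ^ 4 := hpow1 4
        rw [h5]
        nlinarith
      calc 2 * R ^ 4 * R ^ (5152 * pk R) ≤ R ^ 5 * R ^ (5152 * pk R) :=
            mul_le_mul_of_nonneg_right h4 hp2.le
        _ = R ^ (5 + 5152 * pk R) := by rw [pow_add]
        _ ≤ R ^ (9800 * pk R) := pow_le_pow_right₀ hR1 (by omega)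
    rw [← div_eq_mul_inv, ← div_eq_mul_inv, div_le_div_iff₀ hp1 hp2]
    linarith
  -- the second term
  have hE : R ^ 10 ≤ Real.exp (2 * pe R * pk R) := by
    have h1 : R ^ 10 = Real.exp (((10 : ℕ) : ℝ) * Real.log R) := by
      rw [Real.exp_nat_mul, Real.exp_log hR0]
    rw [h1]
    apply Real.exp_le_exp.2
    have h2 : 5 * Real.log R ≤ pe R * pk R := by
      have h3 := mul_le_mul_of_nonneg_left hkl hpe.le
      have h4 : pe R * (5 * Real.log R / pe R) = 5 * Real.log R := by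
        field_simp
      linarith
    push_cast
    linarith
  have hX : R ^ 4 / 64 ≤ ((R ^ 3)⁻¹) ^ 2 * Real.exp (2 * pe R * pk R) / 64 := by
    have h1 : ((R ^ 3)⁻¹) ^ 2 * R ^ 10 = R ^ 4 := by
      field_simp
    have h2 : ((R ^ 3)⁻¹) ^ 2 * R ^ 10 ≤ ((R ^ 3)⁻¹) ^ 2 * Real.exp (2 * pe R * pk R) :=
      mul_le_mul_of_nonneg_left hE (by positivity)
    linarith
  have hKl : 2 + 5152 * (pk R : ℝ) * Real.log R ≤ R ^ 4 / 64 := by
    have h1 : (pk R : ℝ) * Real.log R ≤ (400000 * √R * Real.log R ^ 2 + 1) * Real.log R :=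
      mul_le_mul_of_nonneg_right hku hl0.le
    have h2 : Real.log R ^ 3 ≤ (2 * √R) ^ 3 := pow_le_pow_left₀ hl0.le hls 3
    have h3 : √R * Real.log R ^ 3 ≤ √R * (2 * √R) ^ 3 :=
      mul_le_mul_of_nonneg_left h2 hs0.le
    have h4 : √R * (2 * √R) ^ 3 = 8 * R ^ 2 := by
      have : √R * (2 * √R) ^ 3 = 8 * (√R ^ 2) ^ 2 := by ring
      rw [this, hss]
    have h5 : √R ≤ R := by
      calc √R = √R * 1 := (mul_one _).symm
        _ ≤ √R * √R := mul_le_mul_of_nonneg_left hs1 hs0.le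
        _ = R := by rw [← pow_two, hss]
    have h6 : (pk R : ℝ) * Real.log R ≤ 3200000 * R ^ 2 + 2 * R := by
      have h7 : (400000 * √R * Real.log R ^ 2 + 1) * Real.log R =
          400000 * (√R * Real.log R ^ 3) + Real.log R := by ring
      rw [h7] at h1
      linarith
    have h8 : R ^ 4 = R ^ 2 * R ^ 2 := by ring
    have h9 : (100000000000000 : ℝ) ≤ R ^ 2 := by
      have := mul_le_mul hR hR (by norm_num) hR0.le
      nlinarith
    have h10 : R ≤ R ^ 2 := le_self_pow₀ hR1 (by norm_num)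
    have h11 : 100000000000000 * R ^ 2 ≤ R ^ 4 := by
      rw [h8]
      exact mul_le_mul_of_nonneg_right h9 (by positivity)
    linarith
  have hT2 : 2 * Real.exp (-(((R ^ 3)⁻¹) ^ 2 * Real.exp (2 * pe R * pk R) / 64)) ≤
      1 / 2 * (R ^ (5152 * pk R))⁻¹ := by
    have h1 : R ^ (5152 * pk R) = Real.exp (5152 * (pk R : ℝ) * Real.log R) := by
      have h2 : 5152 * (pk R : ℝ) * Real.log R = ((5152 * pk R : ℕ) : ℝ) * Real.log R := by
        push_cast
        ring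
      rw [h2, Real.exp_nat_mul, Real.exp_log hR0]
    have h3 : (4 : ℝ) ≤ Real.exp 2 := by
      have h4 : (2 : ℝ) ≤ Real.exp 1 := by
        have := Real.add_one_le_exp (1 : ℝ)
        linarith
      have h5 : Real.exp 2 = Real.exp 1 * Real.exp 1 := by
        rw [← Real.exp_add]
        norm_num
      rw [h5]
      nlinarith
    have h6 : Real.exp (-(((R ^ 3)⁻¹) ^ 2 * Real.exp (2 * pe R * pk R) / 64)) ≤
        Real.exp (-(2 + 5152 * (pk R : ℝ) * Real.log R)) := by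
      apply Real.exp_le_exp.2
      linarith
    have h7 : Real.exp (-(2 + 5152 * (pk R : ℝ) * Real.log R)) =
        (Real.exp 2)⁻¹ * (Real.exp (5152 * (pk R : ℝ) * Real.log R))⁻¹ := by
      rw [Real.exp_neg, Real.exp_add, mul_inv]
    have h8 : (Real.exp 2)⁻¹ ≤ 1 / 4 := by
      rw [one_div]
      exact inv_anti₀ (by norm_num) h3
    rw [h1]
    have h9 : 0 ≤ (Real.exp (5152 * (pk R : ℝ) * Real.log R))⁻¹ := by positivity
    have h10 := mul_le_mul_of_nonneg_right h8 h9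
    linarith
  unfold pP
  linarith

end Pool.Agent.SVR
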