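import Pool.Agent.SVR.ParD

set_option autoImplicit false

/-!
# [SVR-ParC] numeric fact for large `R`; the proof is in the header of `ParD.lean`
-/

namespace Pool.Agent.SVR

theorem par_M : ∃ R0 : ℝ, 1 ≤ R0 ∧ ∀ R, R0 ≤ R → R ^ 100 ≤ pM R ∧ 5 * R ^ 11 ≤ pM R ∧ 2 ≤ R := by
  refine ⟨3, by norm_num, fun R hR => ?_⟩
  have hR2 : (2 : ℝ) ≤ R := by linarith
  have hR1 : (1 : ℝ) ≤ R := by linarith
  have hR0 : (0 : ℝ) < R := by linarith
  have hD : R ^ 11 / 2 ≤ (pD R : ℝ) := by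
    have h1 : R ^ 11 < (⌊R ^ 11⌋₊ : ℝ) + 1 := Nat.lt_floor_add_one _
    have h2 : (2 : ℝ) ≤ R ^ 11 :=
      hR2.trans (le_self_pow₀ hR1 (by norm_num))
    unfold pD
    linarith
  have hlog : 0 < Real.log R := Real.log_pos (by linarith)
  have hk : 1 ≤ pk R := by
    unfold pk
    rw [Nat.one_le_ceil_iff]
    have : 0 < pe R := by
      unfold pe
      have : 0 < √R := Real.sqrt_pos.2 hR0
      positivity
    positivity
  have hbase : R ^ 22 / 4 ≤ 1 + (pD R : ℝ) ^ 2 := by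
    have h1 : (R ^ 11 / 2) ^ 2 ≤ (pD R : ℝ) ^ 2 := pow_le_pow_left₀ (by positivity) hD 2
    have h2 : (R ^ 11 / 2) ^ 2 = R ^ 22 / 4 := by ring
    linarith
  have hone : (1 : ℝ) ≤ 1 + (pD R : ℝ) ^ 2 := by
    have : 0 ≤ (pD R : ℝ) ^ 2 := by positivity
    linarith
  have hpM : (1 + (pD R : ℝ) ^ 2) ^ 8 ≤ pM R := by
    unfold pM
    exact pow_le_pow_right₀ hone (by omega)
  have h8 : (R ^ 22 / 4) ^ 8 ≤ pM R := (pow_le_pow_left₀ (by positivity) hbase 8).trans hpM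
  have h9 : R ^ 100 ≤ (R ^ 22 / 4) ^ 8 := by
    have h1 : (R ^ 22 / 4) ^ 8 = R ^ 100 * (R ^ 76 / 65536) := by ring
    rw [h1]
    have h2 : (65536 : ℝ) ≤ R ^ 76 := by
      calc (65536 : ℝ) = 2 ^ 16 := by norm_num
        _ ≤ 2 ^ 76 := pow_le_pow_right₀ (by norm_num) (by norm_num)
        _ ≤ R ^ 76 := pow_le_pow_left₀ (by norm_num) hR2 76
    have h3 : (1 : ℝ) ≤ R ^ 76 / 65536 := by
      rw [le_div_iff₀ (by norm_num)]
      linarith
    exact le_mul_of_one_le_right (by positivity) h3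
  refine ⟨h9.trans h8, ?_, hR2⟩
  refine le_trans ?_ (h9.trans h8)
  have h1 : R ^ 100 = R ^ 11 * R ^ 89 := by ring
  rw [h1, mul_comm (5 : ℝ)]
  have h2 : (5 : ℝ) ≤ R ^ 89 := by
    calc (5 : ℝ) ≤ 2 ^ 3 := by norm_num
      _ ≤ 2 ^ 89 := pow_le_pow_right₀ (by norm_num) (by norm_num)
      _ ≤ R ^ 89 := pow_le_pow_left₀ (by norm_num) hR2 89
  exact mul_le_mul_of_nonneg_left h2 (by positivity)

end Pool.Agent.SVR
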