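import Pool.Agent.SVR.Defs

set_option autoImplicit false

/-!
# [SVR-Par] parameters of a phase as functions of `R`, and the numeric facts for large `R`

`ℓ = log R`, `D = ⌊R^11⌋` (bound for the number of big columns of a row and big rows of a column),
`y0^2 = 40000 ℓ`, `ε = 1/(2 √R y0^2)`, `k' = ⌈5 ℓ/ε⌉` (about `4*10^5 √R ℓ^2`),
`M = (1 + D^2)^(8 k')` (bound for the size of a ball of radius `8 k'`; `log M ≤ 8 k' (22 ℓ + 1)`),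
`t = R^{-3}`, `θ = R^{-2}`, `P0` = bound for the failure probability of the local approximation.

Proofs (all for `R ≥ R0`, `R0` huge; use `Real.add_one_le_exp`, `exp ℓ = R`, growth `ℓ^n ≤ R^{1/10}` for
large `R`, e.g. via `Real.isLittleO_pow_log_id_atTop` or `Filter.Eventually`):
* `par_eps`: `ε ≤ 1` and `exp ε - 1 ≤ 2 ε` (for `0 ≤ ε ≤ 1`), so
  `(exp ε - 1)^2 ρ y0^4 ≤ 4 ε^2 R y0^4 = 1` for `ρ ≤ R`.
* `par_P0`: first term: log is `≤ 4ℓ + log 5 + k' (log 16 + 176 ℓ + ½ log 2 - 10000 ℓ) ≤ -9800 k' ℓ + ..`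
  while `28 log M ≤ 28*8*k'*(22ℓ+1) ≤ 5000 k' ℓ`; second term: `exp (2 ε k') ≥ exp (10 ℓ) = R^10`, so
  `2 exp (-R^4/64)`, and `R^4/64 ≥ 5000 k' ℓ + log 4`.
* `par_row`: `ρ/10^31 ≥ R/(10^31 ℓ^2) ≥ 10 log M + log 100`, `R^2/2 ≥ ..`, `D P0 ≤ D M^{-28}`.
* `par_M`: `M ≥ (1+D^2)^8 ≥ R^100` and so on (`k' ≥ 1`).
* `par_small`: a piece of scale `κ` with at most `M^6` columns, `4^κ ≤ M^16`:
  `R^4 2^{κ/2}/2 ≥ κ log 4 + 10 log M + log 32` (note `2^{κ/2} ≥ 1 + κ/3`, `R^4` huge) and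
  `4 R^2 P0 ≤ 4 R^2 M^{-28} ≤ M^{-26}/16 ≤ 4^{-κ} M^{-10}/16`.
* `par_large`: `N ≥ M^6`, `4^κ ≤ N^3`: `N/(4 R^4 M) - 2 N M^{-7} ≥ 3 log N + 10 log M + log 2`: the left side
  is `≥ N/(8 R^4 M) ≥ √N * M^2/(8R^4) ≥ √N * M`, and `log N ≤ 2 √N`, `10 log M ≤ 10 √N`...
-/

namespace Pool.Agent.SVR

open Finset

noncomputable section

def pD (R : ℝ) : ℕ := ⌊R ^ 11⌋₊
def py (R : ℝ) : ℝ := √(40000 * Real.log R)
def pe (R : ℝ) : ℝ := 1 / (2 * √R * (40000 * Real.log R))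
def pk (R : ℝ) : ℕ := ⌈5 * Real.log R / pe R⌉₊
def pM (R : ℝ) : ℝ := (1 + (pD R : ℝ) ^ 2) ^ (8 * pk R)
def pP (R : ℝ) : ℝ :=
  (1 + 4 / (R ^ 3)⁻¹) * (16 * (pD R : ℝ) ^ 16 * (√2 * Real.exp (-(py R ^ 2 / 4)))) ^ pk R +
    2 * Real.exp (-(((R ^ 3)⁻¹) ^ 2 * Real.exp (2 * pe R * pk R) / 64))

end

end Pool.Agent.SVR
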