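import Pool.Agent.SVR.ParB
import Pool.Agent.SVR.ParC

set_option autoImplicit false

/-!
# [SVR-ParE] numeric fact for large `R`; the proof is in the header of `ParD.lean`
-/

namespace Pool.Agent.SVR

open Filter in
theorem parE_ev : ∃ R0 : ℝ, 1 ≤ R0 ∧ ∀ R, R0 ≤ R → 1 ≤ Real.log R ∧
    10 ^ 100 * Real.log R ^ 12 ≤ R := by
  have h1 : ∀ᶠ R in atTop, (1 : ℝ) ≤ Real.log R := Real.tendsto_log_atTop.eventually_ge_atTop 1
  have h2 : ∀ᶠ R : ℝ in atTop, (1 : ℝ) ≤ R := eventually_ge_atTop _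
  have h3 : ∀ᶠ R : ℝ in atTop, ‖Real.log R ^ 12‖ ≤ (1 / 10 ^ 100) * ‖id R‖ :=
    (Real.isLittleO_pow_log_id_atTop (n := 12)).bound (by norm_num)
  obtain ⟨R1, hR1⟩ := eventually_atTop.1 (h1.and (h2.and h3))
  refine ⟨max 1 R1, le_max_left _ _, ?_⟩
  intro R hR
  obtain ⟨a, b, c⟩ := hR1 R ((le_max_right _ _).trans hR)
  refine ⟨a, ?_⟩
  rw [id, Real.norm_of_nonneg (by positivity), Real.norm_of_nonneg (by linarith)] at c
  linarith

theorem parE_sqrt {R : ℝ} (h1 : 1 ≤ Real.log R) (h2 : 10 ^ 100 * Real.log R ^ 12 ≤ R) :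
    10 ^ 50 * Real.log R ^ 6 ≤ √R := by
  apply Real.le_sqrt_of_sq_le
  calc (10 ^ 50 * Real.log R ^ 6) ^ 2 = 10 ^ 100 * Real.log R ^ 12 := by ring
    _ ≤ R := h2

theorem parE_logM {R : ℝ} (hR : 1 ≤ R) (h1 : 1 ≤ Real.log R) :
    0 < pM R ∧ Real.log (pM R) ≤ 10 ^ 8 * (√R * Real.log R ^ 3) := by
  have hRpos : 0 < R := by linarith
  have hl : 0 < Real.log R := by linarith
  have hs1 : 1 ≤ √R := by
    rw [Real.one_le_sqrt]; linarith
  have hMpos : 0 < pM R := by unfold pM; positivity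
  refine ⟨hMpos, ?_⟩
  have hD : (pD R : ℝ) ≤ R ^ 11 := by
    unfold pD; exact Nat.floor_le (by positivity)
  have hD2 : 1 + (pD R : ℝ) ^ 2 ≤ 2 * R ^ 22 := by
    have e1 : (pD R : ℝ) ^ 2 ≤ (R ^ 11) ^ 2 := pow_le_pow_left₀ (Nat.cast_nonneg _) hD 2
    have e2 : (1 : ℝ) ≤ R ^ 22 := one_le_pow₀ hR
    have e3 : (R ^ 11) ^ 2 = R ^ 22 := by ring
    linarith
  have hlog : Real.log (1 + (pD R : ℝ) ^ 2) ≤ 23 * Real.log R := by
    have e1 := Real.log_le_log (by positivity) hD2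
    rw [Real.log_mul (by norm_num) (by positivity), Real.log_pow] at e1
    have e2 := Real.log_two_lt_d9
    push_cast at e1
    linarith
  have hlog0 : 0 ≤ Real.log (1 + (pD R : ℝ) ^ 2) := Real.log_nonneg (by nlinarith [sq_nonneg (pD R : ℝ)])
  have hk : (pk R : ℝ) ≤ 400001 * (√R * Real.log R ^ 2) := by
    have e1 : (pk R : ℝ) < 5 * Real.log R / pe R + 1 := by
      unfold pk
      apply Nat.ceil_lt_add_one
      unfold pe
      positivity
    have e2 : 5 * Real.log R / pe R = 400000 * (√R * Real.log R ^ 2) := by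
      unfold pe
      field_simp
      norm_num
    have e3 : 1 ≤ √R * Real.log R ^ 2 := by
      have : (1 : ℝ) ≤ Real.log R ^ 2 := one_le_pow₀ h1
      nlinarith
    rw [e2] at e1
    linarith
  unfold pM
  rw [Real.log_pow]
  push_cast
  calc 8 * (pk R : ℝ) * Real.log (1 + (pD R : ℝ) ^ 2)
      ≤ 8 * (400001 * (√R * Real.log R ^ 2)) * (23 * Real.log R) := by
        apply mul_le_mul _ hlog hlog0 (by positivity)
        linarith
    _ = 73600184 * (√R * Real.log R ^ 3) := by ring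
    _ ≤ 10 ^ 8 * (√R * Real.log R ^ 3) := by
        apply mul_le_mul_of_nonneg_right (by norm_num) (by positivity)

theorem parE_exp {M x : ℝ} (hM : 0 < M) {c : ℝ} (hc : 0 < c)
    (h : 10 * Real.log M + Real.log c ≤ x) : Real.exp (-x) ≤ (M ^ 10)⁻¹ / c := by
  have h1 : (M ^ 10)⁻¹ / c = Real.exp (-(10 * Real.log M + Real.log c)) := by
    rw [neg_add, Real.exp_add, Real.exp_neg, Real.exp_neg, Real.exp_log hc]
    have : Real.exp (10 * Real.log M) = M ^ 10 := by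
      have h2 : (10 : ℝ) * Real.log M = ((10 : ℕ) : ℝ) * Real.log M := by norm_num
      rw [h2, Real.exp_nat_mul, Real.exp_log hM]
    rw [this]
    rfl
  rw [h1]
  apply Real.exp_le_exp.2
  linarith

theorem par_row : ∃ R0 : ℝ, 1 ≤ R0 ∧ ∀ R, R0 ≤ R → ∀ ρ, R / Real.log R ^ 2 ≤ ρ →
    4 * Real.exp (-(ρ / 10 ^ 31)) + 2 * (pD R + 1) * Real.exp (-(R ^ 2 / 2)) + pD R * pP R ≤
      (pM R ^ 10)⁻¹ / 2 := by
  obtain ⟨R1, hR1, hP⟩ := par_P0
  obtain ⟨R2, hR2, hM⟩ := par_M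
  obtain ⟨R3, hR3, hE⟩ := parE_ev
  refine ⟨max R1 (max R2 R3), hR1.trans (le_max_left _ _), ?_⟩
  intro R hR ρ hρ
  have hRR1 : R1 ≤ R := (le_max_left _ _).trans hR
  have hRR2 : R2 ≤ R := (le_max_left _ _).trans ((le_max_right _ _).trans hR)
  have hRR3 : R3 ≤ R := (le_max_right _ _).trans ((le_max_right _ _).trans hR)
  obtain ⟨hM1, hM2, hR2'⟩ := hM R hRR2
  obtain ⟨h1, h2⟩ := hE R hRR3
  have hP1 := hP R hRR1
  have hR1' : 1 ≤ R := by linarith
  have hRpos : 0 < R := by linarith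
  have hl : 0 < Real.log R := by linarith
  have hs1 : 1 ≤ √R := by
    rw [Real.one_le_sqrt]; linarith
  have hspos : 0 < √R := by linarith
  have hsq := parE_sqrt h1 h2
  obtain ⟨hMpos, hlogM⟩ := parE_logM hR1' h1
  have hss : √R * √R = R := Real.mul_self_sqrt hRpos.le
  have hl3 : 1 ≤ Real.log R ^ 3 := one_le_pow₀ h1
  have hl4 : Real.log R ^ 3 ≤ Real.log R ^ 4 := pow_le_pow_right₀ h1 (by norm_num)
  have hX1 : 1 ≤ √R * Real.log R ^ 3 := by nlinarith
  have hX2 : √R * Real.log R ^ 3 ≤ √R * Real.log R ^ 4 := mul_le_mul_of_nonneg_left hl4 hspos.le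
  have hlog32 : Real.log 32 ≤ 31 := by
    have := Real.log_le_sub_one_of_pos (show (0 : ℝ) < 32 by norm_num)
    linarith
  -- first term
  have hρ2 : 10 ^ 19 * (√R * Real.log R ^ 4) ≤ ρ / 10 ^ 31 := by
    rw [le_div_iff₀ (by norm_num)]
    refine le_trans ?_ hρ
    rw [le_div_iff₀ (by positivity)]
    calc 10 ^ 19 * (√R * Real.log R ^ 4) * 10 ^ 31 * Real.log R ^ 2
        = √R * (10 ^ 50 * Real.log R ^ 6) := by ring
      _ ≤ √R * √R := mul_le_mul_of_nonneg_left hsq hspos.le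
      _ = R := hss
  have t1 : 4 * Real.exp (-(ρ / 10 ^ 31)) ≤ (pM R ^ 10)⁻¹ / 8 := by
    have e1 := parE_exp (x := ρ / 10 ^ 31) hMpos (c := 32) (by norm_num) (by
      refine le_trans ?_ hρ2
      nlinarith)
    linarith
  -- second term
  have hDle : (pD R : ℝ) ≤ R ^ 11 := by
    unfold pD; exact Nat.floor_le (by positivity)
  have hR11 : (1 : ℝ) ≤ R ^ 11 := one_le_pow₀ hR1'
  have t2 : 2 * ((pD R : ℝ) + 1) * Real.exp (-(R ^ 2 / 2)) ≤ (pM R ^ 10)⁻¹ / 8 := by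
    have e0 : 10 * Real.log (pM R) + Real.log (32 * R ^ 11) ≤ R ^ 2 / 2 := by
      rw [Real.log_mul (by norm_num) (by positivity), Real.log_pow]
      push_cast
      have e1 : 10 ^ 50 * (√R * Real.log R ^ 6) ≤ R := by
        calc 10 ^ 50 * (√R * Real.log R ^ 6) = √R * (10 ^ 50 * Real.log R ^ 6) := by ring
          _ ≤ √R * √R := mul_le_mul_of_nonneg_left hsq hspos.le
          _ = R := hss
      have e2 : R ≤ R ^ 2 / 2 := by nlinarith
      have e3 : Real.log R ^ 3 ≤ Real.log R ^ 6 := pow_le_pow_right₀ h1 (by norm_num)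
      have e4 : √R * Real.log R ^ 3 ≤ √R * Real.log R ^ 6 := mul_le_mul_of_nonneg_left e3 hspos.le
      have e5 : Real.log R ≤ √R * Real.log R ^ 3 := by
        have e6 : Real.log R ≤ Real.log R ^ 3 := by
          calc Real.log R = Real.log R ^ 1 := (pow_one _).symm
            _ ≤ Real.log R ^ 3 := pow_le_pow_right₀ h1 (by norm_num)
        nlinarith
      nlinarith
    have e1 := parE_exp (x := R ^ 2 / 2) hMpos (c := 32 * R ^ 11) (by positivity) e0
    have e2 : 2 * ((pD R : ℝ) + 1) ≤ 4 * R ^ 11 := by linarith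
    calc 2 * ((pD R : ℝ) + 1) * Real.exp (-(R ^ 2 / 2))
        ≤ 4 * R ^ 11 * ((pM R ^ 10)⁻¹ / (32 * R ^ 11)) :=
          mul_le_mul e2 e1 (Real.exp_pos _).le (by positivity)
      _ = (pM R ^ 10)⁻¹ / 8 := by field_simp; norm_num
  -- third term
  have hM2' : 2 ≤ pM R := by
    have : (5 : ℝ) * 1 ≤ 5 * R ^ 11 := by linarith
    linarith
  have hM17 : 2 ≤ pM R ^ 17 := by
    calc (2 : ℝ) ≤ pM R := hM2'
      _ = pM R ^ 1 := (pow_one _).symm
      _ ≤ pM R ^ 17 := pow_le_pow_right₀ (by linarith) (by norm_num)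
  have t3 : (pD R : ℝ) * pP R ≤ (pM R ^ 10)⁻¹ / 4 := by
    have e1 : (pD R : ℝ) ≤ pM R := by linarith
    calc (pD R : ℝ) * pP R ≤ pD R * (pM R ^ 28)⁻¹ :=
          mul_le_mul_of_nonneg_left hP1 (Nat.cast_nonneg _)
      _ ≤ (pM R / 5) * (pM R ^ 28)⁻¹ :=
          mul_le_mul_of_nonneg_right (by linarith) (by positivity)
      _ = (pM R ^ 10)⁻¹ / 5 * (pM R ^ 17)⁻¹ := by
          rw [show pM R ^ 28 = pM R ^ 10 * pM R ^ 17 * pM R by ring]
          field_simp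
      _ ≤ (pM R ^ 10)⁻¹ / 5 * 1 := by
          apply mul_le_mul_of_nonneg_left _ (by positivity)
          exact inv_le_one_of_one_le₀ (by linarith)
      _ ≤ (pM R ^ 10)⁻¹ / 4 := by
          have : 0 < (pM R ^ 10)⁻¹ := by positivity
          linarith
  have : 0 < (pM R ^ 10)⁻¹ := by positivity
  linarith

end Pool.Agent.SVR
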