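import Pool.Agent.SVR.ParB
import Pool.Agent.SVR.ParC

set_option autoImplicit false

/-!
# [SVR-ParF] numeric fact for large `R`; the proof is in the header of `ParD.lean`
-/

namespace Pool.Agent.SVR

theorem parF_log_le {R : ℝ} (hR : 0 < R) : Real.log R ≤ 2 * √R := by
  have h1 : Real.log (√R) ≤ √R - 1 := Real.log_le_sub_one_of_pos (Real.sqrt_pos.2 hR)
  rw [Real.log_sqrt hR.le] at h1
  linarith

theorem parF_M_le {R : ℝ} (hR : 10 ^ 9 ≤ R) : pM R ≤ Real.exp (R ^ 3) := by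
  have hR0 : (0 : ℝ) < R := lt_of_lt_of_le (by norm_num) hR
  have hR1 : (1 : ℝ) ≤ R := le_trans (by norm_num) hR
  have hs : (1 : ℝ) ≤ √R := by rw [Real.one_le_sqrt]; exact hR1
  have hs0 : (0 : ℝ) < √R := by linarith
  have hsR : √R ≤ R := by
    rw [Real.sqrt_le_left hR0.le]
    nlinarith
  have hsq : √R * √R = R := Real.mul_self_sqrt hR0.le
  have hl : Real.log R ≤ 2 * √R := parF_log_le hR0
  have hl0 : 0 < Real.log R := Real.log_pos (by linarith)
  have hD : (pD R : ℝ) ≤ R ^ 11 := Nat.floor_le (by positivity)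
  have hb : 1 + (pD R : ℝ) ^ 2 ≤ Real.exp (45 * √R) := by
    have h1 : (pD R : ℝ) ^ 2 ≤ (R ^ 11) ^ 2 := pow_le_pow_left₀ (by positivity) hD 2
    have h2 : (R ^ 11) ^ 2 = R ^ 22 := by ring
    have h3 : (1 : ℝ) ≤ R ^ 22 := one_le_pow₀ hR1
    have h4 : R ^ 22 = Real.exp (22 * Real.log R) := by
      rw [show (22 : ℝ) * Real.log R = ((22 : ℕ) : ℝ) * Real.log R by norm_num, Real.exp_nat_mul,
        Real.exp_log hR0]
    have h5 : (2 : ℝ) ≤ Real.exp 1 := by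
      have := Real.add_one_le_exp (1 : ℝ)
      linarith
    calc 1 + (pD R : ℝ) ^ 2 ≤ 2 * R ^ 22 := by linarith
      _ ≤ Real.exp 1 * Real.exp (22 * Real.log R) := by
        rw [← h4]
        exact mul_le_mul_of_nonneg_right h5 (by positivity)
      _ = Real.exp (1 + 22 * Real.log R) := by rw [Real.exp_add]
      _ ≤ Real.exp (45 * √R) := by
        apply Real.exp_le_exp.2
        linarith
  have hk : (pk R : ℝ) ≤ 1600000 * (R * √R) + 1 := by
    have h1 : (pk R : ℝ) < 5 * Real.log R / pe R + 1 := by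
      unfold pk
      apply Nat.ceil_lt_add_one
      unfold pe
      positivity
    have h2 : 5 * Real.log R / pe R = 400000 * √R * (Real.log R * Real.log R) := by
      unfold pe
      rw [one_div, div_inv_eq_mul]
      ring
    have h3 : Real.log R * Real.log R ≤ 4 * R := by
      calc Real.log R * Real.log R ≤ (2 * √R) * (2 * √R) :=
            mul_le_mul hl hl hl0.le (by positivity)
        _ = 4 * (√R * √R) := by ring
        _ = 4 * R := by rw [hsq]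
    have h4 : 400000 * √R * (Real.log R * Real.log R) ≤ 400000 * √R * (4 * R) :=
      mul_le_mul_of_nonneg_left h3 (by positivity)
    nlinarith
  unfold pM
  calc (1 + (pD R : ℝ) ^ 2) ^ (8 * pk R) ≤ Real.exp (45 * √R) ^ (8 * pk R) :=
        pow_le_pow_left₀ (by positivity) hb _
    _ = Real.exp (((8 * pk R : ℕ) : ℝ) * (45 * √R)) := by rw [Real.exp_nat_mul]
    _ ≤ Real.exp (R ^ 3) := by
      apply Real.exp_le_exp.2
      push_cast
      have h1 : 8 * (pk R : ℝ) * (45 * √R) ≤ 8 * (1600000 * (R * √R) + 1) * (45 * √R) :=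
        mul_le_mul_of_nonneg_right (by linarith) (by positivity)
      have h2 : 8 * (1600000 * (R * √R) + 1) * (45 * √R) = 576000000 * (R * R) + 360 * √R := by
        calc 8 * (1600000 * (R * √R) + 1) * (45 * √R)
            = 576000000 * (R * (√R * √R)) + 360 * √R := by ring
          _ = _ := by rw [hsq]
      have h3 : (10 : ℝ) ^ 9 * (R * R) ≤ R * (R * R) :=
        mul_le_mul_of_nonneg_right hR (by positivity)
      have h4 : R ≤ R * R := by nlinarith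
      have h5 : R ^ 3 = R * (R * R) := by ring
      rw [h5]
      nlinarith

theorem par_small : ∃ R0 : ℝ, 1 ≤ R0 ∧ ∀ R, R0 ≤ R → ∀ κ : ℕ, (4 : ℝ) ^ κ ≤ pM R ^ 16 →
    2 * Real.exp (-(R ^ 4 * √2 ^ κ / 2)) + 4 * pP R / (R ^ 2)⁻¹ ≤
      (4 ^ κ)⁻¹ * (pM R ^ 10)⁻¹ / 8 := by
  obtain ⟨R1, hR11, h1⟩ := par_P0
  obtain ⟨R2, hR21, h2⟩ := par_M
  refine ⟨max (10 ^ 9) (max R1 R2), le_max_of_le_left (by norm_num), fun R hR κ hκ => ?_⟩
  have hR9 : (10 : ℝ) ^ 9 ≤ R := (le_max_left _ _).trans hR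
  have hRa : R1 ≤ R := ((le_max_left _ _).trans (le_max_right _ _)).trans hR
  have hRb : R2 ≤ R := ((le_max_right _ _).trans (le_max_right _ _)).trans hR
  have hR0 : (0 : ℝ) < R := lt_of_lt_of_le (by norm_num) hR9
  have hR1 : (1 : ℝ) ≤ R := le_trans (by norm_num) hR9
  have hP := h1 R hRa
  obtain ⟨hM, -, hR2⟩ := h2 R hRb
  have hME := parF_M_le hR9
  have hM0 : 0 < pM R := lt_of_lt_of_le (by positivity) hM
  have hM1 : 1 ≤ pM R := (one_le_pow₀ hR1).trans hM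
  have h4κ : (0 : ℝ) < 4 ^ κ := by positivity
  -- second term
  have hb : 4 * pP R / (R ^ 2)⁻¹ ≤ (4 ^ κ)⁻¹ * (pM R ^ 10)⁻¹ / 16 := by
    rw [div_inv_eq_mul]
    have h3 : (pM R ^ 16)⁻¹ ≤ ((4 : ℝ) ^ κ)⁻¹ := inv_anti₀ h4κ hκ
    have h4 : 4 * pP R * R ^ 2 ≤ 4 * (pM R ^ 28)⁻¹ * R ^ 2 := by
      apply mul_le_mul_of_nonneg_right _ (by positivity)
      linarith
    have h5 : 64 * R ^ 2 ≤ pM R ^ 2 := by
      have h6 : 64 * R ^ 2 ≤ R ^ 100 := by
        have h7 : R ^ 100 = R ^ 2 * R ^ 98 := by ring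
        rw [h7, mul_comm (64 : ℝ)]
        apply mul_le_mul_of_nonneg_left _ (by positivity)
        calc (64 : ℝ) ≤ 2 ^ 6 := by norm_num
          _ ≤ 2 ^ 98 := pow_le_pow_right₀ (by norm_num) (by norm_num)
          _ ≤ R ^ 98 := pow_le_pow_left₀ (by norm_num) hR2 98
      exact (h6.trans hM).trans (le_self_pow₀ hM1 (by norm_num))
    have h6 : 4 * (pM R ^ 28)⁻¹ * R ^ 2 ≤ (pM R ^ 16)⁻¹ * (pM R ^ 10)⁻¹ / 16 := by
      have h7 : (pM R ^ 28)⁻¹ = (pM R ^ 16)⁻¹ * (pM R ^ 10)⁻¹ * (pM R ^ 2)⁻¹ := by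
        rw [← mul_inv, ← mul_inv, ← pow_add, ← pow_add]
      rw [h7]
      have h8 : (pM R ^ 2)⁻¹ * (64 * R ^ 2) ≤ 1 := by
        rw [inv_mul_le_iff₀ (by positivity)]
        linarith
      have h9 : 0 < (pM R ^ 16)⁻¹ * (pM R ^ 10)⁻¹ := by positivity
      have h10 : (pM R ^ 16)⁻¹ * (pM R ^ 10)⁻¹ * ((pM R ^ 2)⁻¹ * (64 * R ^ 2)) ≤
          (pM R ^ 16)⁻¹ * (pM R ^ 10)⁻¹ * 1 := mul_le_mul_of_nonneg_left h8 h9.le
      linarith
    have h7 : (pM R ^ 16)⁻¹ * (pM R ^ 10)⁻¹ ≤ (4 ^ κ)⁻¹ * (pM R ^ 10)⁻¹ :=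
      mul_le_mul_of_nonneg_right h3 (by positivity)
    linarith
  -- first term
  have ha : 2 * Real.exp (-(R ^ 4 * √2 ^ κ / 2)) ≤ (4 ^ κ)⁻¹ * (pM R ^ 10)⁻¹ / 16 := by
    have h3 : 1 + (κ : ℝ) * (2 / 5) ≤ √2 ^ κ := by
      have h4 : (7 / 5 : ℝ) ≤ √2 := by
        apply Real.le_sqrt_of_sq_le
        norm_num
      have h5 : 1 + (κ : ℝ) * (√2 - 1) ≤ (1 + (√2 - 1)) ^ κ :=
        one_add_mul_le_pow (by linarith) κ
      have h6 : (1 : ℝ) + (√2 - 1) = √2 := by ring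
      rw [h6] at h5
      have h7 : (κ : ℝ) * (2 / 5) ≤ (κ : ℝ) * (√2 - 1) :=
        mul_le_mul_of_nonneg_left (by linarith) (by positivity)
      linarith
    have h4 : (32 : ℝ) ≤ Real.exp 31 := by
      have := Real.add_one_le_exp (31 : ℝ)
      linarith
    have h5 : (4 : ℝ) ^ κ ≤ Real.exp ((κ : ℝ) * 3) := by
      rw [Real.exp_nat_mul]
      apply pow_le_pow_left₀ (by norm_num)
      have := Real.add_one_le_exp (3 : ℝ)
      linarith
    have h6 : pM R ^ 10 ≤ Real.exp (10 * R ^ 3) := by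
      rw [show (10 : ℝ) * R ^ 3 = ((10 : ℕ) : ℝ) * R ^ 3 by norm_num, Real.exp_nat_mul]
      exact pow_le_pow_left₀ hM0.le hME 10
    have h7 : 32 * (4 ^ κ * pM R ^ 10) ≤ Real.exp (R ^ 4 * √2 ^ κ / 2) := by
      calc 32 * (4 ^ κ * pM R ^ 10)
          ≤ Real.exp 31 * (Real.exp ((κ : ℝ) * 3) * Real.exp (10 * R ^ 3)) := by
            apply mul_le_mul h4 _ (by positivity) (by positivity)
            exact mul_le_mul h5 h6 (by positivity) (by positivity)
        _ = Real.exp (31 + ((κ : ℝ) * 3 + 10 * R ^ 3)) := by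
            rw [Real.exp_add, Real.exp_add]
        _ ≤ Real.exp (R ^ 4 * √2 ^ κ / 2) := by
            apply Real.exp_le_exp.2
            have h8 : R ^ 4 * (1 + (κ : ℝ) * (2 / 5)) ≤ R ^ 4 * √2 ^ κ :=
              mul_le_mul_of_nonneg_left h3 (by positivity)
            have h9 : (10 : ℝ) ^ 9 * R ^ 3 ≤ R ^ 4 := by
              have : R ^ 4 = R * R ^ 3 := by ring
              rw [this]
              exact mul_le_mul_of_nonneg_right hR9 (by positivity)
            have h10 : (1 : ℝ) ≤ R ^ 3 := one_le_pow₀ hR1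
            have h11 : (15 : ℝ) ≤ R ^ 4 := by linarith
            have h12 : (κ : ℝ) * 15 ≤ (κ : ℝ) * R ^ 4 :=
              mul_le_mul_of_nonneg_left h11 (by positivity)
            linarith
    rw [Real.exp_neg]
    have h8 : 0 < Real.exp (R ^ 4 * √2 ^ κ / 2) := Real.exp_pos _
    rw [← mul_inv]
    have h9 : (Real.exp (R ^ 4 * √2 ^ κ / 2))⁻¹ ≤ (32 * (4 ^ κ * pM R ^ 10))⁻¹ :=
      inv_anti₀ (by positivity) h7
    rw [mul_inv] at h9
    linarith
  linarith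

end Pool.Agent.SVR
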