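import Pool.Agent.SVR.ParB
import Pool.Agent.SVR.ParC

set_option autoImplicit false

/-!
# [SVR-ParG] numeric fact for large `R`; the proof is in the header of `ParD.lean`
-/

namespace Pool.Agent.SVR

/-- the numeric core -/
theorem parG_core (R M N : ℝ) (hR : 2 ≤ R) (hM : R ^ 100 ≤ M) (hN : M ^ 6 ≤ N) :
    2 * (N ^ 3 * M ^ 10) ≤ Real.exp (N / (4 * R ^ 4 * M) - 2 * (N * (M ^ 7)⁻¹)) := by
  have hR0 : (0 : ℝ) < R := by linarith
  have hR4 : (0 : ℝ) < R ^ 4 := pow_pos hR0 4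
  have h16 : 16 * R ^ 4 ≤ M := by
    refine le_trans ?_ hM
    have h1 : (2 : ℝ) ^ 96 ≤ R ^ 96 := pow_le_pow_left₀ (by norm_num) hR 96
    have h2 : (16 : ℝ) ≤ R ^ 96 := le_trans (by norm_num) h1
    calc 16 * R ^ 4 ≤ R ^ 96 * R ^ 4 := mul_le_mul_of_nonneg_right h2 hR4.le
      _ = R ^ 100 := by rw [← pow_add]
  have hMbig : (2 : ℝ) ^ 100 ≤ M := le_trans (pow_le_pow_left₀ (by norm_num) hR 100) hM
  have hM479 : (479001600 : ℝ) ≤ M := le_trans (by norm_num) hMbig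
  have hM1 : (1 : ℝ) ≤ M := by linarith
  have hM2 : (2 : ℝ) ≤ M := by linarith
  have hM0 : (0 : ℝ) < M := by linarith
  have hM6 : (1 : ℝ) ≤ M ^ 6 := one_le_pow₀ hM1
  have hN1 : (1 : ℝ) ≤ N := hM6.trans hN
  have hN0 : (0 : ℝ) < N := by linarith
  -- the square root of `N`
  obtain ⟨x, hx⟩ : ∃ x : ℝ, x = Real.sqrt N := ⟨_, rfl⟩
  have hx0 : 0 ≤ x := by rw [hx]; exact Real.sqrt_nonneg N
  have hxx : x ^ 2 = N := by rw [hx]; exact Real.sq_sqrt hN0.le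
  have hxM3 : M ^ 3 ≤ x := by
    rw [hx]
    apply Real.le_sqrt_of_sq_le
    calc (M ^ 3) ^ 2 = M ^ 6 := by rw [← pow_mul]
      _ ≤ N := hN
  have hM3 : M ≤ M ^ 3 := le_self_pow₀ hM1 (by norm_num)
  have hx479 : (479001600 : ℝ) ≤ x := hM479.trans (hM3.trans hxM3)
  -- the exponent
  have hexp : x * M ≤ N / (4 * R ^ 4 * M) - 2 * (N * (M ^ 7)⁻¹) := by
    have e1 : 2 * (N * (M ^ 7)⁻¹) ≤ N / (8 * R ^ 4 * M) := by
      have : 2 * (N * (M ^ 7)⁻¹) = N / (M ^ 7 / 2) := by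
        field_simp
      rw [this]
      apply div_le_div_of_nonneg_left hN0.le (by positivity)
      have h3 : 16 * R ^ 4 * 1 ≤ M * M ^ 5 :=
        mul_le_mul h16 (one_le_pow₀ hM1) (by norm_num) hM0.le
      have h4 : 16 * R ^ 4 * 1 * M ≤ M * M ^ 5 * M := mul_le_mul_of_nonneg_right h3 hM0.le
      have h5 : M * M ^ 5 * M = M ^ 7 := by ring
      rw [h5] at h4
      linarith
    have e2 : N / (4 * R ^ 4 * M) - N / (8 * R ^ 4 * M) = N / (8 * R ^ 4 * M) := by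
      field_simp
      ring
    have e3 : x * M ≤ N / (8 * R ^ 4 * M) := by
      rw [le_div_iff₀ (by positivity)]
      have h6 : 8 * R ^ 4 ≤ M := by linarith
      calc x * M * (8 * R ^ 4 * M) = x * (M * M * (8 * R ^ 4)) := by ring
        _ ≤ x * (M * M * M) := by
            apply mul_le_mul_of_nonneg_left _ hx0
            exact mul_le_mul_of_nonneg_left h6 (by positivity)
        _ = x * M ^ 3 := by ring
        _ ≤ x * x := mul_le_mul_of_nonneg_left hxM3 hx0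
        _ = N := by rw [← hxx]; ring
    linarith
  refine le_trans ?_ (Real.exp_le_exp.mpr hexp)
  -- `2 N^3 M^10 ≤ N^6 = x^12 ≤ 12! exp x ≤ exp (2 x) ≤ exp (x M)`
  have a1 : 2 * (N ^ 3 * M ^ 10) ≤ N ^ 6 := by
    have h1 : M ^ 11 ≤ M ^ 12 := pow_le_pow_right₀ hM1 (by norm_num)
    have h2 : 2 * M ^ 10 ≤ M ^ 11 := by
      calc 2 * M ^ 10 ≤ M * M ^ 10 := mul_le_mul_of_nonneg_right hM2 (by positivity)
        _ = M ^ 11 := by ring
    have h3 : M ^ 12 ≤ N ^ 2 := by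
      calc M ^ 12 = (M ^ 6) ^ 2 := by rw [← pow_mul]
        _ ≤ N ^ 2 := pow_le_pow_left₀ (by positivity) hN 2
    have h4 : N ^ 2 ≤ N ^ 3 := pow_le_pow_right₀ hN1 (by norm_num)
    calc 2 * (N ^ 3 * M ^ 10) = N ^ 3 * (2 * M ^ 10) := by ring
      _ ≤ N ^ 3 * N ^ 3 := mul_le_mul_of_nonneg_left (by linarith) (by positivity)
      _ = N ^ 6 := by ring
  have a2 : N ^ 6 = x ^ 12 := by rw [← hxx, ← pow_mul]
  have a3 : x ^ 12 ≤ 479001600 * Real.exp x := by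
    have h1 := Real.pow_div_factorial_le_exp x hx0 12
    have h2 : ((Nat.factorial 12 : ℕ) : ℝ) = 479001600 := by norm_num [Nat.factorial]
    rw [h2, div_le_iff₀ (by norm_num)] at h1
    linarith
  have a4 : (479001600 : ℝ) ≤ Real.exp x := by
    have := Real.add_one_le_exp x
    linarith
  calc 2 * (N ^ 3 * M ^ 10) ≤ x ^ 12 := by rw [← a2]; exact a1
    _ ≤ 479001600 * Real.exp x := a3
    _ ≤ Real.exp x * Real.exp x := mul_le_mul_of_nonneg_right a4 (Real.exp_pos x).le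
    _ = Real.exp (x * 2) := by rw [← Real.exp_add]; ring_nf
    _ ≤ Real.exp (x * M) := Real.exp_le_exp.mpr (mul_le_mul_of_nonneg_left hM2 hx0)

theorem par_large : ∃ R0 : ℝ, 1 ≤ R0 ∧ ∀ R, R0 ≤ R → ∀ (κ : ℕ) (N : ℝ), pM R ^ 6 ≤ N →
    (4 : ℝ) ^ κ ≤ N ^ 3 →
    2 * Real.exp (-(N / (4 * R ^ 4 * pM R))) ≤
      (4 ^ κ)⁻¹ * (pM R ^ 10)⁻¹ * Real.exp (-(2 * (N * (pM R ^ 7)⁻¹))) := by
  obtain ⟨R0, hR0, hR0M⟩ := par_M
  refine ⟨R0, hR0, fun R hR κ N hN hκ => ?_⟩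
  obtain ⟨hM, -, hR2⟩ := hR0M R hR
  have hR1 : (1 : ℝ) ≤ R := by linarith
  have hM1 : (1 : ℝ) ≤ pM R := (one_le_pow₀ hR1).trans hM
  have hM0 : (0 : ℝ) < pM R := by linarith
  have hN1 : (1 : ℝ) ≤ N := (one_le_pow₀ hM1).trans hN
  have hN0 : (0 : ℝ) < N := by linarith
  have hcore := parG_core R (pM R) N hR2 hM hN
  have h4 : (0 : ℝ) < (4 : ℝ) ^ κ := by positivity
  have h10 : (0 : ℝ) < pM R ^ 10 := pow_pos hM0 10
  have hb : (N ^ 3)⁻¹ ≤ ((4 : ℝ) ^ κ)⁻¹ := inv_anti₀ h4 hκ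
  have e1 : 2 * Real.exp (-(N / (4 * R ^ 4 * pM R))) ≤
      (N ^ 3)⁻¹ * (pM R ^ 10)⁻¹ * Real.exp (-(2 * (N * (pM R ^ 7)⁻¹))) := by
    rw [← mul_inv, ← div_eq_inv_mul, le_div_iff₀ (by positivity)]
    have h5 : Real.exp (N / (4 * R ^ 4 * pM R) - 2 * (N * (pM R ^ 7)⁻¹)) *
        Real.exp (-(N / (4 * R ^ 4 * pM R))) = Real.exp (-(2 * (N * (pM R ^ 7)⁻¹))) := by
      rw [← Real.exp_add]
      congr 1
      ring
    rw [← h5]
    have h6 := mul_le_mul_of_nonneg_right hcore (Real.exp_pos (-(N / (4 * R ^ 4 * pM R)))).le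
    linarith
  refine e1.trans ?_
  apply mul_le_mul_of_nonneg_right _ (Real.exp_pos _).le
  exact mul_le_mul_of_nonneg_right hb (by positivity)

end Pool.Agent.SVR
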