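import Pool.Agent.SVR.Zl2

set_option autoImplicit false

/-!
# [SVR-Pc] probability of the bad event of a piece (tiny entries of one row, one dyadic scale)

Let `u j = V j (1-|x j|)` for `j ∈ b`, `0` otherwise; `m = ∑ j ∈ b, |V j|`; `∑ u j^2 ≤ s m`.
`piece_small`: `|∑ u zl| ≤ |∑ u zb| + ∑ j ∈ b |V j| |zb j - zl j|` with `zb = clip (z g ·)`,
`zl = zloc z (B ·) g ·`, and `|zb - zl| ≤ t + 2 * 1_{t < |zb - zl|}` (both are at most `1` in absolute
value), `t m ≤ θ m/2`.  So the event is contained in `{τ ≤ |∑ u zb|}` (`zbar_tail` with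
`A = s * R`, note `s m ≤ s R`) or `{θ m/4 < ∑ j ∈ b |V j| 1_{t < |zb j - zl j|}}`, by Markov
`≤ (4/(θ m)) ∑ |V j| P0 = 4 P0/θ`.  (The functions are measurable: `Sys.cont`, `zloc_meas`.)
`piece_large`: `zlin_tail` with `A = s m`, `t = θ m`: exponent `θ^2 m^2/(2 M s m)`.
-/

namespace Pool.Agent.SVR

open MeasureTheory Finset

open scoped Classical

variable {I J : Type} [Fintype I] [Fintype J]
variable {v : I → J → ℝ} {ρ R Y : ℝ} {p ψ q χ : ℝ → ℝ} {z : (J → ℝ) → (J → ℝ)}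

omit [Fintype J] in
theorem Pc_sq (b : Finset J) (V x : J → ℝ) (hx : ∀ j, |x j| ≤ 1) (s : ℝ)
    (hs : ∀ j ∈ b, |V j| ≤ s) :
    ∑ j ∈ b, (V j * (1 - |x j|)) ^ 2 ≤ s * ∑ j ∈ b, |V j| := by
  rw [Finset.mul_sum]
  refine Finset.sum_le_sum fun j hj => ?_
  have h1 := abs_nonneg (x j)
  have h2 := hx j
  have h3 : (1 - |x j|) ^ 2 ≤ 1 := by nlinarith
  have h4 := abs_nonneg (V j)
  calc (V j * (1 - |x j|)) ^ 2 = |V j| * |V j| * (1 - |x j|) ^ 2 := by
        rw [mul_pow, abs_mul_abs_self, sq (V j)]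
    _ ≤ |V j| * |V j| * 1 := mul_le_mul_of_nonneg_left h3 (mul_nonneg h4 h4)
    _ = |V j| * |V j| := mul_one _
    _ ≤ s * |V j| := mul_le_mul_of_nonneg_right (hs j hj) h4

theorem Pc_sum (b : Finset J) (u w : J → ℝ) :
    ∑ j, (if j ∈ b then u j else 0) * w j = ∑ j ∈ b, u j * w j := by
  rw [← Finset.sum_filter_add_sum_filter_not univ (fun j => j ∈ b)]
  have e1 : ∑ j ∈ univ.filter (fun j => ¬ j ∈ b), (if j ∈ b then u j else 0) * w j = 0 := by
    refine Finset.sum_eq_zero fun j hj => ?_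
    rw [if_neg (Finset.mem_filter.mp hj).2, zero_mul]
  have e2 : univ.filter (fun j => j ∈ b) = b := by
    ext j
    simp only [Finset.mem_filter, Finset.mem_univ, true_and]
  rw [e1, add_zero, e2]
  exact Finset.sum_congr rfl fun j hj => by rw [if_pos hj]

theorem Pc_sum2 (b : Finset J) (u : J → ℝ) :
    ∑ j, (if j ∈ b then u j else 0) ^ 2 = ∑ j ∈ b, u j ^ 2 := by
  have e := Pc_sum b u (fun j => if j ∈ b then u j else 0)
  calc ∑ j, (if j ∈ b then u j else 0) ^ 2
      = ∑ j, (if j ∈ b then u j else 0) * (if j ∈ b then u j else 0) :=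
        Finset.sum_congr rfl fun j _ => sq _
    _ = ∑ j ∈ b, u j * (if j ∈ b then u j else 0) := e
    _ = ∑ j ∈ b, u j ^ 2 := Finset.sum_congr rfl fun j hj => by rw [if_pos hj, sq]

theorem Pc_clip_cont : Continuous clip := by
  unfold clip
  fun_prop

theorem Pc_meas (h : Sys v ρ R Y p ψ q χ z) (B : Finset J) (t : ℝ) (j : J) :
    MeasurableSet {g : J → ℝ | t < |clip (z g j) - zloc z B g j|} := by
  have h1 : Measurable fun g : J → ℝ => clip (z g j) :=
    (Pc_clip_cont.comp ((continuous_apply j).comp h.cont)).measurable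
  have h2 := zloc_meas h B j
  exact measurableSet_lt measurable_const (h1.sub h2).abs

theorem Pc_markov (h : Sys v ρ R Y p ψ q χ z) (b : Finset J) (V : J → ℝ) (θ t P0 : ℝ)
    (hm0 : 0 < ∑ j ∈ b, |V j|) (hθ : 0 < θ) (B : J → Finset J)
    (hP : ∀ j, (gam J).real {g | t < |clip (z g j) - zloc z (B j) g j|} ≤ P0) :
    (gam J).real {g | θ * (∑ j ∈ b, |V j|) / 4 ≤ ∑ j ∈ b, |V j| *
      ({g : J → ℝ | t < |clip (z g j) - zloc z (B j) g j|}.indicator 1 g : ℝ)} ≤
      4 * P0 / θ := by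
  set m : ℝ := ∑ j ∈ b, |V j| with hm
  have hint : ∀ j ∈ b, Integrable (fun g : J → ℝ => |V j| *
      ({g : J → ℝ | t < |clip (z g j) - zloc z (B j) g j|}.indicator 1 g : ℝ)) (gam J) := by
    intro j _
    exact ((integrable_const (1:ℝ)).indicator (Pc_meas h (B j) t j)).const_mul _
  have h1 := mul_meas_ge_le_integral_of_nonneg (μ := gam J)
    (f := fun g : J → ℝ => ∑ j ∈ b, |V j| *
      ({g : J → ℝ | t < |clip (z g j) - zloc z (B j) g j|}.indicator 1 g : ℝ))
    (Filter.Eventually.of_forall fun g => Finset.sum_nonneg fun j _ =>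
      mul_nonneg (abs_nonneg _) (Set.indicator_nonneg (fun _ _ => zero_le_one) _))
    (integrable_finsetSum b hint) (θ * m / 4)
  rw [integral_finsetSum b hint] at h1
  have h2 : ∑ j ∈ b, ∫ g, |V j| *
      ({g : J → ℝ | t < |clip (z g j) - zloc z (B j) g j|}.indicator 1 g : ℝ) ∂gam J ≤ m * P0 := by
    rw [hm, Finset.sum_mul]
    refine Finset.sum_le_sum fun j _ => ?_
    rw [integral_const_mul, integral_indicator_one (Pc_meas h (B j) t j)]
    exact mul_le_mul_of_nonneg_left (hP j) (abs_nonneg _)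
  have h3 := h1.trans h2
  have h4 : 0 < θ * m / 4 := by positivity
  have h5 : 4 * P0 / θ = m * P0 / (θ * m / 4) := by
    field_simp
  rw [h5, le_div_iff₀ h4, mul_comm]
  exact h3

theorem piece_small (h : Sys v ρ R Y p ψ q χ z) (b : Finset J) (V x : J → ℝ)
    (hx : ∀ j, |x j| ≤ 1) (s τ θ t P0 : ℝ) (hs0 : 0 < s) (hs : ∀ j ∈ b, |V j| ≤ s)
    (hm0 : 0 < ∑ j ∈ b, |V j|) (hm : ∑ j ∈ b, |V j| ≤ R) (hτ : 0 ≤ τ) (hθ : 0 < θ)
    (ht : 0 < t) (htθ : t ≤ θ / 2) (B : J → Finset J)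
    (hP : ∀ j, (gam J).real {g | t < |clip (z g j) - zloc z (B j) g j|} ≤ P0) :
    (gam J).real {g | τ + θ * ∑ j ∈ b, |V j| <
        |∑ j ∈ b, V j * (1 - |x j|) * zloc z (B j) g j|} ≤
      2 * Real.exp (-(τ ^ 2 / (2 * (s * R)))) + 4 * P0 / θ := by
  set m : ℝ := ∑ j ∈ b, |V j| with hmd
  have hR : 0 < R := h.R_pos
  set S1 : Set (J → ℝ) := {g | τ ≤ |∑ j, (if j ∈ b then V j * (1 - |x j|) else 0) *
    clip (z g j)|} with hS1
  set S2 : Set (J → ℝ) := {g | θ * m / 4 ≤ ∑ j ∈ b, |V j| *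
      ({g : J → ℝ | t < |clip (z g j) - zloc z (B j) g j|}.indicator 1 g : ℝ)} with hS2
  have b1 : (gam J).real S1 ≤ 2 * Real.exp (-(τ ^ 2 / (2 * (s * R)))) := by
    refine zbar_tail h (fun j => if j ∈ b then V j * (1 - |x j|) else 0) (s * R) ?_
      (by positivity) τ hτ
    rw [Pc_sum2 b (fun j => V j * (1 - |x j|))]
    exact (Pc_sq b V x hx s hs).trans (mul_le_mul_of_nonneg_left hm hs0.le)
  have b2 : (gam J).real S2 ≤ 4 * P0 / θ := Pc_markov h b V θ t P0 hm0 hθ B hP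
  have hsub : {g | τ + θ * m < |∑ j ∈ b, V j * (1 - |x j|) * zloc z (B j) g j|} ⊆ S1 ∪ S2 := by
    intro g hg
    by_contra hcon
    simp only [Set.mem_union, not_or] at hcon
    obtain ⟨c1, c2⟩ := hcon
    have c1' : |∑ j, (if j ∈ b then V j * (1 - |x j|) else 0) * clip (z g j)| < τ := not_le.mp c1
    have c2' : ∑ j ∈ b, |V j| *
      ({g : J → ℝ | t < |clip (z g j) - zloc z (B j) g j|}.indicator 1 g : ℝ) < θ * m / 4 :=
      not_le.mp c2
    rw [Pc_sum b (fun j => V j * (1 - |x j|))] at c1'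
    have e1 : ∑ j ∈ b, V j * (1 - |x j|) * zloc z (B j) g j =
        ∑ j ∈ b, V j * (1 - |x j|) * clip (z g j) -
        ∑ j ∈ b, V j * (1 - |x j|) * (clip (z g j) - zloc z (B j) g j) := by
      rw [← Finset.sum_sub_distrib]
      exact Finset.sum_congr rfl fun j _ => by ring
    have e2 : |∑ j ∈ b, V j * (1 - |x j|) * (clip (z g j) - zloc z (B j) g j)| ≤
        t * m + 2 * ∑ j ∈ b, |V j| *
      ({g : J → ℝ | t < |clip (z g j) - zloc z (B j) g j|}.indicator 1 g : ℝ) := by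
      rw [hmd, Finset.mul_sum, Finset.mul_sum, ← Finset.sum_add_distrib]
      refine (Finset.abs_sum_le_sum_abs _ _).trans (Finset.sum_le_sum fun j _ => ?_)
      have k1 := abs_nonneg (x j)
      have k2 := hx j
      have k3 := abs_nonneg (V j)
      have k4 := abs_nonneg (clip (z g j) - zloc z (B j) g j)
      have k5 : abs (1 - |x j|) ≤ 1 := by
        rw [abs_of_nonneg (by linarith)]
        linarith
      have k6 : |clip (z g j) - zloc z (B j) g j| ≤ t + 2 *
          ({g : J → ℝ | t < |clip (z g j) - zloc z (B j) g j|}.indicator 1 g : ℝ) := by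
        by_cases hc : t < |clip (z g j) - zloc z (B j) g j|
        · have hc' : g ∈ {g : J → ℝ | t < |clip (z g j) - zloc z (B j) g j|} := hc
          rw [Set.indicator_of_mem hc', Pi.one_apply]
          have k7 := abs_sub (clip (z g j)) (zloc z (B j) g j)
          have k8 := clip_abs (z g j)
          have k9 := zloc_abs h (B j) g j
          linarith
        · have hc' : g ∉ {g : J → ℝ | t < |clip (z g j) - zloc z (B j) g j|} := hc
          rw [Set.indicator_of_notMem hc', mul_zero, add_zero]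
          exact not_lt.mp hc
      rw [abs_mul, abs_mul]
      calc |V j| * abs (1 - |x j|) * |clip (z g j) - zloc z (B j) g j|
          ≤ |V j| * 1 * (t + 2 *
            ({g : J → ℝ | t < |clip (z g j) - zloc z (B j) g j|}.indicator 1 g : ℝ)) := by
            refine mul_le_mul (mul_le_mul_of_nonneg_left k5 k3) k6 k4 (by linarith)
        _ = _ := by ring
    have e3 := abs_sub (∑ j ∈ b, V j * (1 - |x j|) * clip (z g j))
      (∑ j ∈ b, V j * (1 - |x j|) * (clip (z g j) - zloc z (B j) g j))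
    have hg' : τ + θ * m < |∑ j ∈ b, V j * (1 - |x j|) * zloc z (B j) g j| := hg
    rw [e1] at hg'
    have e4 : t * m ≤ θ / 2 * m := mul_le_mul_of_nonneg_right htθ hm0.le
    linarith
  refine (measureReal_mono hsub).trans ((measureReal_union_le S1 S2).trans ?_)
  linarith

theorem piece_large (h : Sys v ρ R Y p ψ q χ z) (b : Finset J) (V x : J → ℝ)
    (hx : ∀ j, |x j| ≤ 1) (s θ M : ℝ) (hs0 : 0 < s) (hs : ∀ j ∈ b, |V j| ≤ s)
    (hm0 : 0 < ∑ j ∈ b, |V j|) (hθ : 0 < θ) (B : J → Finset J) (hM0 : 0 < M)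
    (hM : ∀ l, ((univ.filter fun j => l ∈ B j).card : ℝ) ≤ M) :
    (gam J).real {g | θ * ∑ j ∈ b, |V j| <
        |∑ j ∈ b, V j * (1 - |x j|) * zloc z (B j) g j|} ≤
      2 * Real.exp (-(θ ^ 2 * (∑ j ∈ b, |V j|) / (2 * M * s))) := by
  set m : ℝ := ∑ j ∈ b, |V j| with hmd
  have h1 := zlin_tail h B M hM0 hM (fun j => if j ∈ b then V j * (1 - |x j|) else 0) (s * m)
    (by
      rw [Pc_sum2 b (fun j => V j * (1 - |x j|))]
      exact Pc_sq b V x hx s hs) (by positivity) (θ * m) (by positivity)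
  have e : (θ * m) ^ 2 / (2 * (M * (s * m))) = θ ^ 2 * m / (2 * M * s) := by
    field_simp
  rw [e] at h1
  refine (measureReal_mono ?_).trans h1
  intro g hg
  have hg' : θ * m < |∑ j ∈ b, V j * (1 - |x j|) * zloc z (B j) g j| := hg
  change θ * m ≤ |∑ j, (if j ∈ b then V j * (1 - |x j|) else 0) * zloc z (B j) g j|
  rw [Pc_sum b (fun j => V j * (1 - |x j|)) (fun j => zloc z (B j) g j)]
  exact hg'.le

end Pool.Agent.SVR
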