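import Pool.Agent.SVR.Defs

set_option autoImplicit false

/-!
# [SVR-Pot] existence of the potentials

Put `w0 = √√(R/ρ)`, `T = 4 √√(ρ R)`, `c = Y'/(1+Y')` with `Y' = Y/w0 + 1` (so `0 < c < 1`),
`κ(u) = min |u| c`, `a(u) = 1/(1 - κ u)^2` (continuous, even, positive), `f(u) = ∫_0^u a`
(odd, increasing, continuous, `f u = u/(1-u)` for `0 ≤ u ≤ c`, so `f c = Y'`),
`ψ(s) = w0 * f (s/T)`, `p(s) = ∫_0^s ψ^4 / R`.
* odd, continuous, monotone: clear (`ψ^4` is even).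
* A1: pointwise `ψ'(s)^2 = (w0/T)^2 a(s/T)^2 = a(s/T)^2/(16 ρ)` (because
  `(w0/T)^2 = √(R/ρ)/(16 √(ρR)) = 1/(16ρ)`), and `a(u)^2 ≤ 16 + 16 f(u)^4`:
  with `κ = κ u`, `a^2 = 1/(1-κ)^4`, `|f u| ≥ κ/(1-κ)` (equality for `|u| ≤ c`, monotone beyond), so
  it follows from `1 ≤ 16 (1-κ)^4 + 16 κ^4` on `[0,1]` (`κ ≤ 1/2`: first term `≥ 1`; otherwise second).
  Hence `ψ'^2 ≤ 1/ρ + f^4/ρ = 1/ρ + ψ^4/R` (as `w0^4 = R/ρ`).  Cauchy-Schwarz for integrals:
  `(∫_t^s ψ')^2 ≤ (s-t) ∫_t^s ψ'^2 ≤ (s-t)^2/ρ + (s-t)(p s - p t)`.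
  (An elementary way for fixed `t`: `(s-t) ∫_t^s ψ'^2 - (∫_t^s ψ')^2 = ½∬(ψ'(a)-ψ'(b))^2 ≥ 0`, or
  `∫_t^s (ψ' - m)^2 ≥ 0` with `m` the mean value.)
* A2': between `s` and `t` one has `|ψ| ≤ max |ψ s| |ψ t| ≤ y` (`|ψ|` is even and increasing in
  `|s|`), so the integrand `ψ^4/R ≤ y^4/R`.  A2 follows with `y = max (|ψ s|) (|ψ t|)`,
  `y^4 ≤ ψ s^4 + ψ t^4`.
* A3: `|ψ s| ≤ Y` and `|s| > T` would give `|f(s/T)| ≥ f 1 ≥ f c = Y/w0 + 1 > Y/w0`.
-/

namespace Pool.Agent.SVR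

open MeasureTheory Finset

/-- the primitive of an even function is odd -/
theorem Pot_odd (h : ℝ → ℝ) (he : ∀ x, h (-x) = h x) (s : ℝ) :
    ∫ x in (0:ℝ)..(-s), h x = -∫ x in (0:ℝ)..s, h x := by
  have h1 := intervalIntegral.integral_comp_neg (a := (0:ℝ)) (b := s) h
  rw [neg_zero] at h1
  rw [intervalIntegral.integral_symm, ← h1]
  simp only [he]

/-- the derivative of the wall function -/
noncomputable def Pot_a (c u : ℝ) : ℝ := 1 / (1 - min |u| c) ^ 2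

/-- the wall function -/
noncomputable def Pot_f (c u : ℝ) : ℝ := ∫ t in (0:ℝ)..u, Pot_a c t

theorem Pot_den {c : ℝ} (hc : c < 1) (u : ℝ) : 0 < 1 - min |u| c := by
  have := min_le_right |u| c
  linarith

theorem Pot_a_cont {c : ℝ} (hc : c < 1) : Continuous (Pot_a c) := by
  unfold Pot_a
  have h1 : Continuous fun u : ℝ => (1 - min |u| c) ^ 2 := by fun_prop
  refine continuous_const.div h1 fun u => ?_
  exact (pow_pos (Pot_den hc u) 2).ne'

theorem Pot_a_pos {c : ℝ} (hc : c < 1) (u : ℝ) : 0 < Pot_a c u := by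
  unfold Pot_a
  exact div_pos one_pos (pow_pos (Pot_den hc u) 2)

theorem Pot_f_deriv {c : ℝ} (hc : c < 1) (u : ℝ) : HasDerivAt (Pot_f c) (Pot_a c u) u :=
  ((Pot_a_cont hc).integral_hasStrictDerivAt 0 u).hasDerivAt

theorem Pot_f_odd (c u : ℝ) : Pot_f c (-u) = -Pot_f c u := by
  refine Pot_odd (Pot_a c) (fun x => ?_) u
  unfold Pot_a
  rw [abs_neg]

theorem Pot_mono {F F' : ℝ → ℝ} (h : ∀ x, HasDerivAt F (F' x) x) (h0 : ∀ x, 0 ≤ F' x) :
    Monotone F := by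
  refine monotone_of_deriv_nonneg (fun x => (h x).differentiableAt) fun x => ?_
  rw [(h x).deriv]
  exact h0 x

theorem Pot_f_mono {c : ℝ} (hc : c < 1) : Monotone (Pot_f c) :=
  Pot_mono (Pot_f_deriv hc) fun u => (Pot_a_pos hc u).le

theorem Pot_f_eq {c : ℝ} (hc : c < 1) {u : ℝ} (h0 : 0 ≤ u) (hu : u ≤ c) :
    Pot_f c u = u / (1 - u) := by
  unfold Pot_f
  have h1 : ∀ t ∈ Set.uIcc (0:ℝ) u, HasDerivAt (fun t : ℝ => (1 - t)⁻¹) (Pot_a c t) t := by
    intro t ht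
    rw [Set.uIcc_of_le h0] at ht
    have ht1 : 1 - t ≠ 0 := by
      have := ht.2
      intro h
      linarith
    have h2 : HasDerivAt (fun t : ℝ => 1 - t) (-1) t := by
      simpa using (hasDerivAt_id t).const_sub 1
    have h3 := h2.inv ht1
    refine h3.congr_deriv ?_
    unfold Pot_a
    rw [abs_of_nonneg ht.1, min_eq_left (ht.2.trans hu), neg_neg]
  have h4 := intervalIntegral.integral_eq_sub_of_hasDerivAt h1
    ((Pot_a_cont hc).intervalIntegrable 0 u)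
  rw [h4, sub_zero, inv_one]
  have hu1 : 1 - u ≠ 0 := by
    intro h
    linarith
  field_simp
  ring

theorem Pot_f_ge {c : ℝ} (hc : c < 1) (hc0 : 0 ≤ c) {u : ℝ} (h0 : 0 ≤ u) :
    min |u| c / (1 - min |u| c) ≤ Pot_f c u := by
  rw [abs_of_nonneg h0]
  rcases le_total u c with h | h
  · rw [min_eq_left h, Pot_f_eq hc h0 h]
  · rw [min_eq_right h, ← Pot_f_eq hc hc0 le_rfl]
    exact Pot_f_mono hc h

theorem Pot_f_ge_abs {c : ℝ} (hc : c < 1) (hc0 : 0 ≤ c) (u : ℝ) :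
    min |u| c / (1 - min |u| c) ≤ |Pot_f c u| := by
  rcases le_total 0 u with h | h
  · exact (Pot_f_ge hc hc0 h).trans (le_abs_self _)
  · have h1 := Pot_f_ge hc hc0 (neg_nonneg.2 h)
    rw [Pot_f_odd, abs_neg] at h1
    exact h1.trans (neg_le_abs _)

/-- the differential inequality of the wall function -/
theorem Pot_a_sq {c : ℝ} (hc : c < 1) (hc0 : 0 ≤ c) (u : ℝ) :
    Pot_a c u ^ 2 ≤ 16 * (1 + Pot_f c u ^ 4) := by
  have h1 := Pot_f_ge_abs hc hc0 u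
  have hk0 : 0 ≤ min |u| c := le_min (abs_nonneg u) hc0
  have hd := Pot_den hc u
  set κ := min |u| c with hκ
  have h2 : (κ / (1 - κ)) ^ 4 ≤ Pot_f c u ^ 4 := by
    have h3 : (κ / (1 - κ)) ^ 4 ≤ |Pot_f c u| ^ 4 :=
      pow_le_pow_left₀ (div_nonneg hk0 hd.le) h1 4
    have h4 : |Pot_f c u| ^ 4 = Pot_f c u ^ 4 := by
      rw [← abs_pow, abs_of_nonneg (by positivity)]
    rw [h4] at h3
    exact h3
  have h5 : Pot_a c u ^ 2 = 1 / (1 - κ) ^ 4 := by
    unfold Pot_a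
    rw [← hκ, div_pow, one_pow, ← pow_mul]
  have h6 : 1 / (1 - κ) ^ 4 ≤ 16 * (1 + (κ / (1 - κ)) ^ 4) := by
    have h7 : 16 * (1 + (κ / (1 - κ)) ^ 4) = (16 * (1 - κ) ^ 4 + 16 * κ ^ 4) / (1 - κ) ^ 4 := by
      have := hd.ne'
      rw [div_pow]
      field_simp
    rw [h7]
    refine div_le_div_of_nonneg_right ?_ (pow_pos hd 4).le
    have h8 : (2 * κ - 1) ^ 2 * 1 ≤ (2 * κ - 1) ^ 2 * 1 := le_rfl
    nlinarith [sq_nonneg (2 * κ - 1), sq_nonneg ((2 * κ - 1) ^ 2)]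
  rw [h5]
  calc 1 / (1 - κ) ^ 4 ≤ 16 * (1 + (κ / (1 - κ)) ^ 4) := h6
    _ ≤ 16 * (1 + Pot_f c u ^ 4) := by linarith

/-- the properties A1, A2 from the differential inequalities -/
theorem Pot_A1 {ρ R : ℝ} {p ψ ψ' : ℝ → ℝ} (hp : ∀ x, HasDerivAt p (ψ x ^ 4 / R) x)
    (hψ : ∀ x, HasDerivAt ψ (ψ' x) x) (h : ∀ x, ψ' x ^ 2 ≤ 1 / ρ + ψ x ^ 4 / R) (s t : ℝ) :
    (ψ s - ψ t) ^ 2 ≤ (s - t) ^ 2 / ρ + (s - t) * (p s - p t) := by
  have key : ∀ s t : ℝ, t < s →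
      (ψ s - ψ t) ^ 2 ≤ (s - t) ^ 2 / ρ + (s - t) * (p s - p t) := by
    intro s t hts
    set m : ℝ := (ψ s - ψ t) / (s - t) with hm
    have hst : 0 < s - t := sub_pos.2 hts
    have hK : Monotone fun x : ℝ => x * (1 / ρ) + p x - 2 * m * ψ x + x * m ^ 2 := by
      refine Pot_mono (F' := fun x => 1 / ρ + ψ x ^ 4 / R - 2 * m * ψ' x + m ^ 2)
        (fun x => ?_) fun x => ?_
      · have h1 : HasDerivAt (fun x : ℝ => x * (1 / ρ)) (1 / ρ) x := by
          simpa using (hasDerivAt_id x).mul_const (1 / ρ)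
        have h2 : HasDerivAt (fun x : ℝ => x * m ^ 2) (m ^ 2) x := by
          simpa using (hasDerivAt_id x).mul_const (m ^ 2)
        exact ((h1.add (hp x)).sub ((hψ x).const_mul (2 * m))).add h2
      · have h1 := h x
        nlinarith [sq_nonneg (ψ' x - m)]
    have h1 := hK hts.le
    simp only at h1
    have h2 : m * (s - t) = ψ s - ψ t := by
      rw [hm]
      field_simp
    have h3 : 0 ≤ (s - t) * (1 / ρ) + (p s - p t) - 2 * m * (ψ s - ψ t) + (s - t) * m ^ 2 := by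
      linarith
    have h4 : (ψ s - ψ t) ^ 2 = (s - t) * (2 * m * (ψ s - ψ t) - (s - t) * m ^ 2) := by
      rw [← h2]
      ring
    have h5 : (s - t) ^ 2 / ρ + (s - t) * (p s - p t) =
        (s - t) * ((s - t) * (1 / ρ) + (p s - p t)) := by ring
    rw [h4, h5]
    exact mul_le_mul_of_nonneg_left (by linarith) hst.le
  rcases lt_trichotomy t s with hts | hts | hts
  · exact key s t hts
  · subst hts
    simp
  · have h1 := key t s hts
    have h2 : (ψ s - ψ t) ^ 2 = (ψ t - ψ s) ^ 2 := by ring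
    have h3 : (s - t) ^ 2 / ρ + (s - t) * (p s - p t) =
        (t - s) ^ 2 / ρ + (t - s) * (p t - p s) := by ring
    rw [h2, h3]
    exact h1

theorem Pot_A2 {R : ℝ} (hR : 0 < R) {p ψ : ℝ → ℝ} (hp : ∀ x, HasDerivAt p (ψ x ^ 4 / R) x)
    (hψ : Monotone ψ) (y s t : ℝ) (hs : |ψ s| ≤ y) (ht : |ψ t| ≤ y) :
    |p s - p t| ≤ y ^ 4 / R * |s - t| := by
  have key : ∀ s t : ℝ, t < s → |ψ s| ≤ y → |ψ t| ≤ y → |p s - p t| ≤ y ^ 4 / R * |s - t| := by
    intro s t hts hs ht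
    obtain ⟨c, hc, hc2⟩ := exists_hasDerivAt_eq_slope p (fun x => ψ x ^ 4 / R) hts
      (fun x _ => (hp x).continuousAt.continuousWithinAt) (fun x _ => hp x)
    have hst : 0 < s - t := sub_pos.2 hts
    have h1 : p s - p t = ψ c ^ 4 / R * (s - t) := by
      rw [hc2]
      field_simp
    have h2 : |ψ c| ≤ y := by
      rw [abs_le] at hs ht ⊢
      exact ⟨ht.1.trans (hψ hc.1.le), (hψ hc.2.le).trans hs.2⟩
    have h3 : ψ c ^ 4 ≤ y ^ 4 := by
      have h4 : |ψ c| ^ 4 ≤ y ^ 4 := pow_le_pow_left₀ (abs_nonneg _) h2 4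
      have h5 : |ψ c| ^ 4 = ψ c ^ 4 := by
        rw [← abs_pow, abs_of_nonneg (by positivity)]
      rwa [h5] at h4
    have h6 : 0 ≤ ψ c ^ 4 / R := by positivity
    rw [h1, abs_mul, abs_of_nonneg h6]
    exact mul_le_mul_of_nonneg_right (div_le_div_of_nonneg_right h3 hR.le) (abs_nonneg _)
  rcases lt_trichotomy t s with hts | hts | hts
  · exact key s t hts hs ht
  · subst hts
    simp
  · have h1 := key t s hts ht hs
    rw [abs_sub_comm (p s), abs_sub_comm s]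
    exact h1

theorem exists_pot (ρ R Y : ℝ) (hρ : 0 < ρ) (hR : 0 < R) (hY : 0 ≤ Y) :
    ∃ p ψ : ℝ → ℝ, IsPot ρ R Y (4 * √√(ρ * R)) p ψ := by
  have hw : 0 < √√(R / ρ) := Real.sqrt_pos.2 (Real.sqrt_pos.2 (div_pos hR hρ))
  have hTT : 0 < √√(ρ * R) := Real.sqrt_pos.2 (Real.sqrt_pos.2 (mul_pos hρ hR))
  set w0 : ℝ := √√(R / ρ) with hw0
  set T : ℝ := 4 * √√(ρ * R) with hTdef
  have hT : 0 < T := by positivity
  set Y' : ℝ := Y / w0 + 1 with hY'
  have hY'0 : 0 < Y' := by positivity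
  set c : ℝ := Y' / (1 + Y') with hc
  have hc0 : 0 ≤ c := by positivity
  have hc1 : c < 1 := by
    rw [hc, div_lt_one (by positivity)]
    linarith
  have hfc : Pot_f c c = Y' := by
    rw [Pot_f_eq hc1 hc0 le_rfl, hc]
    field_simp
    ring
  -- the numbers
  have hw2 : w0 ^ 2 = √(R / ρ) := Real.sq_sqrt (Real.sqrt_nonneg _)
  have hw4 : w0 ^ 4 = R / ρ := by
    have h1 : w0 ^ 4 = (w0 ^ 2) ^ 2 := by ring
    rw [h1, hw2, Real.sq_sqrt (div_pos hR hρ).le]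
  have hT2 : T ^ 2 = 16 * √(ρ * R) := by
    rw [hTdef, mul_pow, Real.sq_sqrt (Real.sqrt_nonneg _)]
    norm_num
  have hsq : √(R / ρ) = √(ρ * R) / ρ := by
    have h1 : R / ρ = ρ * R / ρ ^ 2 := by
      field_simp
    rw [h1, Real.sqrt_div (mul_pos hρ hR).le, Real.sqrt_sq hρ.le]
  have hwT : (w0 / T) ^ 2 = 1 / (16 * ρ) := by
    have h1 : 0 < √(ρ * R) := Real.sqrt_pos.2 (mul_pos hρ hR)
    rw [div_pow, hw2, hT2, hsq]
    field_simp
  -- the functions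
  set ψ : ℝ → ℝ := fun s => w0 * Pot_f c (s / T) with hψdef
  set p : ℝ → ℝ := fun s => ∫ x in (0:ℝ)..s, ψ x ^ 4 / R with hpdef
  have hψd : ∀ x, HasDerivAt ψ (w0 * (Pot_a c (x / T) * (1 / T))) x := by
    intro x
    have h1 : HasDerivAt (fun s : ℝ => s / T) (1 / T) x := (hasDerivAt_id x).div_const T
    exact ((Pot_f_deriv hc1 (x / T)).comp x h1).const_mul w0
  have hψc : Continuous ψ := continuous_iff_continuousAt.2 fun x => (hψd x).continuousAt
  have hψm : Monotone ψ := Pot_mono hψd fun x => by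
    have := Pot_a_pos hc1 (x / T)
    positivity
  have hψo : ∀ s, ψ (-s) = -ψ s := by
    intro s
    show w0 * Pot_f c (-s / T) = -(w0 * Pot_f c (s / T))
    rw [neg_div, Pot_f_odd]
    ring
  have hint : Continuous fun x => ψ x ^ 4 / R := (hψc.pow 4).div_const R
  have hpd : ∀ x, HasDerivAt p (ψ x ^ 4 / R) x := fun x =>
    (hint.integral_hasStrictDerivAt 0 x).hasDerivAt
  have hA1 : ∀ x, (w0 * (Pot_a c (x / T) * (1 / T))) ^ 2 ≤ 1 / ρ + ψ x ^ 4 / R := by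
    intro x
    have h1 := Pot_a_sq hc1 hc0 (x / T)
    have h2 : (w0 * (Pot_a c (x / T) * (1 / T))) ^ 2 = (w0 / T) ^ 2 * Pot_a c (x / T) ^ 2 := by
      ring
    have h3 : ψ x ^ 4 / R = Pot_f c (x / T) ^ 4 / ρ := by
      show (w0 * Pot_f c (x / T)) ^ 4 / R = _
      rw [mul_pow, hw4]
      field_simp
    rw [h2, hwT, h3]
    have h4 : 1 / ρ + Pot_f c (x / T) ^ 4 / ρ =
        1 / (16 * ρ) * (16 * (1 + Pot_f c (x / T) ^ 4)) := by
      field_simp
    rw [h4]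
    exact mul_le_mul_of_nonneg_left h1 (by positivity)
  refine ⟨p, ψ, ?_⟩
  refine ⟨?_, hψc, ?_, hψo, ?_, ?_, ?_, ?_, ?_⟩
  · exact continuous_iff_continuousAt.2 fun x => (hpd x).continuousAt
  · intro s
    refine Pot_odd (fun x => ψ x ^ 4 / R) (fun x => ?_) s
    simp only [hψo]
    ring
  · exact Pot_mono hpd fun x => by positivity
  · exact Pot_A1 hpd hψd hA1
  · intro s t
    have h1 := Pot_A2 hR hpd hψm (max |ψ s| |ψ t|) s t (le_max_left _ _) (le_max_right _ _)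
    refine h1.trans (mul_le_mul_of_nonneg_right (div_le_div_of_nonneg_right ?_ hR.le)
      (abs_nonneg _))
    have e1 : ∀ a : ℝ, |a| ^ 4 = a ^ 4 := by
      intro a
      rw [← abs_pow, abs_of_nonneg (by positivity)]
    rcases max_choice |ψ s| |ψ t| with h | h
    · rw [h, e1]
      have : 0 ≤ ψ t ^ 4 := by positivity
      linarith
    · rw [h, e1]
      have : 0 ≤ ψ s ^ 4 := by positivity
      linarith
  · exact fun y s t hs ht => Pot_A2 hR hpd hψm y s t hs ht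
  · intro s hs
    by_contra hcon
    push Not at hcon
    have key : ∀ x : ℝ, T < x → Y < ψ x := by
      intro x hx
      have h1 : c ≤ x / T := by
        rw [le_div_iff₀ hT]
        nlinarith
      have h2 : Y' ≤ Pot_f c (x / T) := by
        rw [← hfc]
        exact Pot_f_mono hc1 h1
      have h3 : w0 * Y' ≤ ψ x := mul_le_mul_of_nonneg_left h2 hw.le
      have h4 : w0 * Y' = Y + w0 := by
        rw [hY']
        field_simp
      linarith
    rcases le_total 0 s with h0 | h0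
    · rw [abs_of_nonneg h0] at hcon
      have h1 := key s hcon
      have h2 := le_abs_self (ψ s)
      linarith
    · rw [abs_of_nonpos h0] at hcon
      have h1 := key (-s) hcon
      rw [hψo] at h1
      have h2 := neg_le_abs (ψ s)
      linarith

end Pool.Agent.SVR
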