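import Pool.Agent.SVR.PhD
import Pool.Agent.SVR.La3
import Pool.Agent.SVR.Pot
import Pool.Agent.SVR.Ex
import Pool.Agent.SVR.ParA
import Pool.Agent.SVR.ParE

set_option autoImplicit false

/-!
# [SVR-Ph] one phase (assembly)
-/

namespace Pool.Agent.SVR

open MeasureTheory Finset

open scoped Classical

theorem phase_gen : ∃ R0 : ℝ, 1 ≤ R0 ∧ ∀ (R : ℝ), R0 ≤ R → ∀ (ρ : ℝ),
    R / Real.log R ^ 2 ≤ ρ → ρ ≤ R →
    ∀ (I J : Type) [Fintype I] [Fintype J] (V Vb : I → J → ℝ)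
    (x : J → ℝ), (∀ i j, |V i j| ≤ 1) → (∀ i, ∑ j, |V i j| ≤ R) → (∀ j, ∑ i, |V i j| ≤ R) →
    (∀ j, |x j| ≤ 1) → (∀ i j, Vb i j = if (R ^ 10)⁻¹ < |V i j| then V i j else 0) →
    (∀ i, ∑ j, |Vb i j| * √(1 - |x j|) ≤ ρ) →
    ∃ x' : J → ℝ, (∀ j, |x' j| ≤ 1) ∧
      (∀ i, ∑ j, |Vb i j| * √(1 - |x' j|) ≤ (1 - 1 / 10 ^ 15) * ρ) ∧
      ∀ i, |∑ j, V i j * (x' j - x j)| ≤ 4 * √√(ρ * R) + 3 := by
  obtain ⟨R1, hR11, hA⟩ := par_eps
  obtain ⟨R3, hR31, hC⟩ := par_M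
  obtain ⟨R4, hR41, hr⟩ := par_row
  obtain ⟨R5, hR51, hs⟩ := par_small
  obtain ⟨R6, hR61, hl⟩ := par_large
  refine ⟨max R1 (max R3 (max R4 (max R5 (max R6 10)))), le_trans hR11 (le_max_left _ _), ?_⟩
  intro R hR ρ hρ1 hρ2 I J _ _ V Vb x hV hrow hcol hx hVb hE
  have h1 : R1 ≤ R := (le_max_left _ _).trans hR
  have hR' := (le_max_right _ _).trans hR
  have h3 : R3 ≤ R := (le_max_left _ _).trans hR'
  have hR'' := (le_max_right _ _).trans hR'
  have h4 : R4 ≤ R := (le_max_left _ _).trans hR''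
  have hR3' := (le_max_right _ _).trans hR''
  have h5 : R5 ≤ R := (le_max_left _ _).trans hR3'
  have hR4' := (le_max_right _ _).trans hR3'
  have h6 : R6 ≤ R := (le_max_left _ _).trans hR4'
  have h10 : 10 ≤ R := (le_max_right _ _).trans hR4'
  obtain ⟨hy2, hpe, hpk, ht16, hρ17, heps⟩ := hA R h1
  obtain ⟨hM100, hM5, -⟩ := hC R h3
  have hR0 : 0 < R := by linarith
  have hρ0 : 0 < ρ := lt_of_lt_of_le (by norm_num) (hρ17.trans hρ1)
  obtain ⟨p, ψ, hpot⟩ := exists_pot ρ R R hρ0 hR0 hR0.le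
  obtain ⟨q, χ, hunit⟩ := exists_pot 1 (1 / 256) R one_pos (by norm_num) hR0.le
  have hT : 4 * √√(1 * (1 / 256 : ℝ)) = 1 := by
    have e1 : (1 * (1 / 256 : ℝ)) = ((1 / 4) ^ 2) ^ 2 := by norm_num
    rw [e1, Real.sqrt_sq (by norm_num), Real.sqrt_sq (by norm_num)]
    norm_num
  rw [hT] at hunit
  set v : I → J → ℝ := fun i j => Vb i j * (1 - |x j|) with hv
  have hp0 : p 0 = 0 := by
    have := hpot.p_odd 0
    rw [neg_zero] at this
    linarith
  have hq0 : q 0 = 0 := by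
    have := hunit.p_odd 0
    rw [neg_zero] at this
    linarith
  obtain ⟨z, hz⟩ := exists_prox v p q hpot.p_cont hunit.p_cont hpot.p_mono hunit.p_mono hp0 hq0
  have h1x : ∀ j, 0 ≤ 1 - |x j| := fun j => by linarith [hx j]
  have h1x' : ∀ j, 1 - |x j| ≤ 1 := fun j => by linarith [abs_nonneg (x j)]
  have hVbV : ∀ i j, |Vb i j| ≤ |V i j| := by
    intro i j
    rw [hVb]
    split_ifs
    · exact le_rfl
    · rw [abs_zero]; exact abs_nonneg _
  have habsv : ∀ i j, |v i j| = |Vb i j| * (1 - |x j|) := by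
    intro i j
    rw [hv]
    simp only
    rw [abs_mul, abs_of_nonneg (h1x j)]
  have hvV : ∀ i j, |v i j| ≤ |V i j| := by
    intro i j
    rw [habsv]
    calc |Vb i j| * (1 - |x j|) ≤ |V i j| * 1 :=
          mul_le_mul (hVbV i j) (h1x' j) (h1x j) (abs_nonneg _)
      _ = |V i j| := mul_one _
  have hsq : ∀ j, 1 - |x j| ≤ √(1 - |x j|) := by
    intro j
    apply Real.le_sqrt_of_sq_le
    nlinarith [h1x j, h1x' j]
  have hSys : Sys v ρ R R p ψ q χ z :=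
    { ρ_pos := hρ0
      R_pos := hR0
      v_le := fun i j => (hvV i j).trans (hV i j)
      row := fun i => by
        refine le_trans (sum_le_sum fun j _ => ?_) (hE i)
        rw [habsv]
        exact mul_le_mul_of_nonneg_left (hsq j) (abs_nonneg _)
      col := fun j => (sum_le_sum fun i _ => hvV i j).trans (hcol j)
      pot := hpot
      unit := hunit
      prox := hz }
  have hD : (pD R : ℝ) ≤ R ^ 11 := Nat.floor_le (by positivity)
  have hvne : ∀ i j, v i j ≠ 0 → (R ^ 10)⁻¹ < |V i j| := by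
    intro i j hne
    by_contra hcon
    apply hne
    rw [hv]
    simp only
    rw [hVb, if_neg hcon, zero_mul]
  have hfl : ∀ {N : ℕ}, (N : ℝ) ≤ R / (R ^ 10)⁻¹ → N ≤ pD R := by
    intro N hN
    unfold pD
    apply Nat.le_floor
    calc (N : ℝ) ≤ R / (R ^ 10)⁻¹ := hN
      _ = R ^ 11 := by rw [div_inv_eq_mul]; ring
  have hD1 : ∀ i, (univ.filter fun j => v i j ≠ 0).card ≤ pD R := by
    intro i
    apply hfl
    refine le_trans ?_ (card_big (fun j => V i j) R _ (by positivity) (hrow i))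
    exact_mod_cast card_le_card fun j hj => by
      rw [mem_filter] at hj ⊢
      exact ⟨mem_univ _, hvne i j hj.2⟩
  have hD2 : ∀ j, (univ.filter fun i => v i j ≠ 0).card ≤ pD R := by
    intro j
    apply hfl
    refine le_trans ?_ (card_big (fun i => V i j) R _ (by positivity) (hcol j))
    exact_mod_cast card_le_card fun i hi => by
      rw [mem_filter] at hi ⊢
      exact ⟨mem_univ _, hvne i j hi.2⟩
  have hball : ∀ j, ((ball v j (8 * pk R)).card : ℝ) ≤ pM R := by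
    intro j
    have hb := ball_card v (pD R) hD1 hD2 j (8 * pk R)
    unfold pM
    exact_mod_cast hb
  have hball2 : ∀ l, ((univ.filter fun j => l ∈ ball v j (8 * pk R)).card : ℝ) ≤ pM R := by
    intro l
    have hb : (univ.filter fun j => l ∈ ball v j (8 * pk R)) = ball v l (8 * pk R) := by
      ext j
      rw [mem_filter]
      constructor
      · intro hj
        exact (ball_symm v j l _).1 hj.2
      · intro hj
        exact ⟨mem_univ _, (ball_symm v j l _).2 hj⟩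
    rw [hb]
    exact hball l
  have hM2 : 2 ≤ pM R := by
    refine le_trans ?_ hM5
    have : (1 : ℝ) ≤ R ^ 11 := one_le_pow₀ (by linarith)
    linarith
  have hP0 : 0 ≤ pP R := by
    unfold pP
    positivity
  have hP : ∀ j, (gam J).real {g | (R ^ 3)⁻¹ <
      |clip (z g j) - zloc z (ball v j (8 * pk R)) g j|} ≤ pP R := by
    intro j
    have hla := local_approx hSys (py R) (pe R) (by linarith) hpe.le
      (heps ρ hρ0.le hρ2) (pk R) j ((R ^ 3)⁻¹) (by positivity)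
    refine hla.trans ?_
    unfold pP
    have hgp := good_prob hSys (pD R) hD1 hD2 (py R) hy2 (pk R) j
    have : 0 ≤ 1 + 4 / (R ^ 3)⁻¹ := by positivity
    linarith [mul_le_mul_of_nonneg_left hgp this]
  exact phase_core R ρ V Vb v x p ψ q χ z hVb (fun i j => rfl) hSys h10 hV hrow hcol hx hE
    (hρ17.trans hρ1) hρ2 (fun j => ball v j (8 * pk R)) (pD R) (pM R) (pP R) hM2 hM5 hD hD1
    hball hball2 hP0 hP ht16 (hr R h4 ρ hρ1) (fun κ => hs R h5 κ) (fun κ N => hl R h6 κ N)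

theorem phase : ∃ R0 : ℝ, 1 ≤ R0 ∧ ∀ (R : ℝ), R0 ≤ R → ∀ (ρ : ℝ), R / Real.log R ^ 2 ≤ ρ → ρ ≤ R →
    ∀ (n m : ℕ) (V : Fin n → Fin m → ℝ)
    (x : Fin m → ℝ), (∀ i j, |V i j| ≤ 1) → (∀ i, ∑ j, |V i j| ≤ R) → (∀ j, ∑ i, |V i j| ≤ R) →
    (∀ j, |x j| ≤ 1) →
    (∀ i, ∑ j ∈ univ.filter (fun j => (R ^ 10)⁻¹ < |V i j|), |V i j| * √(1 - |x j|) ≤ ρ) →
    ∃ x' : Fin m → ℝ, (∀ j, |x' j| ≤ 1) ∧
      (∀ i, ∑ j ∈ univ.filter (fun j => (R ^ 10)⁻¹ < |V i j|), |V i j| * √(1 - |x' j|) ≤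
        (1 - 1 / 10 ^ 15) * ρ) ∧
      ∀ i, |∑ j, V i j * (x' j - x j)| ≤ 4 * √√(ρ * R) + 3 := by
  obtain ⟨R0, hR0, h⟩ := phase_gen
  refine ⟨R0, hR0, fun R hR ρ h1 h2 n m V x hV hrow hcol hx hE => ?_⟩
  have key : ∀ (x : Fin m → ℝ) (i : Fin n),
      ∑ j ∈ univ.filter (fun j => (R ^ 10)⁻¹ < |V i j|), |V i j| * √(1 - |x j|) =
      ∑ j, |if (R ^ 10)⁻¹ < |V i j| then V i j else 0| * √(1 - |x j|) := by
    intro x i
    rw [sum_filter]
    refine sum_congr rfl fun j _ => ?_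
    split_ifs
    · rfl
    · rw [abs_zero, zero_mul]
  obtain ⟨x', hx1, hx2, hx3⟩ := h R hR ρ h1 h2 (Fin n) (Fin m) V
    (fun i j => if (R ^ 10)⁻¹ < |V i j| then V i j else 0) x hV hrow hcol hx (fun i j => rfl)
    (fun i => by rw [← key]; exact hE i)
  exact ⟨x', hx1, fun i => by rw [key]; exact hx2 i, hx3⟩

end Pool.Agent.SVR
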