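import Pool.Agent.SVR.Defs

set_option autoImplicit false

/-!
# [SVR-PhA] dyadic decomposition of the tiny part of a row, weights at a column
-/

namespace Pool.Agent.SVR

open MeasureTheory Finset

open scoped Classical

noncomputable section

/-- scale of a piece -/
def sc (R : ℝ) (κ : ℕ) : ℝ := (R ^ 10)⁻¹ * (1 / 2) ^ κ

/-- columns of the piece of scale `κ` -/
def pcs {J : Type} [Fintype J] (R : ℝ) (V : J → ℝ) (κ : ℕ) : Finset J :=
  univ.filter fun j => sc R κ / 2 < |V j| ∧ |V j| ≤ sc R κ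

end

theorem sc_pos (R : ℝ) (hR : 0 < R) (κ : ℕ) : 0 < sc R κ := by
  unfold sc; positivity

theorem pcs_uniq {J : Type} [Fintype J] (R : ℝ) (hR : 0 < R) (V : J → ℝ) (κ κ' : ℕ) (j : J)
    (h : j ∈ pcs R V κ) (h' : j ∈ pcs R V κ') : κ = κ' := by
  unfold pcs at h h'
  rw [mem_filter] at h h'
  obtain ⟨-, h1, h2⟩ := h
  obtain ⟨-, h1', h2'⟩ := h'
  have hR10 : 0 < (R ^ 10)⁻¹ := by positivity
  have key : ∀ a b : ℕ, sc R a / 2 < sc R b → b < a + 1 := by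
    intro a b hab
    unfold sc at hab
    have h3 : (1 / 2 : ℝ) ^ (a + 1) < (1 / 2) ^ b := by
      have : (R ^ 10)⁻¹ * (1 / 2 : ℝ) ^ (a + 1) < (R ^ 10)⁻¹ * (1 / 2) ^ b := by
        rw [pow_succ]
        calc (R ^ 10)⁻¹ * ((1 / 2 : ℝ) ^ a * (1 / 2)) = (R ^ 10)⁻¹ * (1 / 2) ^ a / 2 := by ring
          _ < _ := hab
      exact lt_of_mul_lt_mul_left this hR10.le
    exact (pow_lt_pow_iff_right_of_lt_one₀ (by norm_num) (by norm_num)).1 h3
  have h3 := key κ κ' (lt_of_lt_of_le h1 h2')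
  have h4 := key κ' κ (lt_of_lt_of_le h1' h2)
  omega

theorem pcs_exists {J : Type} [Fintype J] (R : ℝ) (hR : 0 < R) (V : J → ℝ) (K : ℕ) (j : J)
    (hj : V j ≠ 0) (hj2 : |V j| ≤ (R ^ 10)⁻¹) (hK : sc R K < |V j|) :
    ∃ κ : ℕ, κ < K ∧ j ∈ pcs R V κ := by
  have hR10 : 0 < (R ^ 10)⁻¹ := by positivity
  have hV : 0 < |V j| := abs_pos.2 hj
  obtain ⟨κ, hκ1, hκ2⟩ := exists_nat_pow_near_of_lt_one (x := |V j| / (R ^ 10)⁻¹) (y := (1 / 2 : ℝ))
    (by positivity) (by rw [div_le_one hR10]; exact hj2) (by norm_num) (by norm_num)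
  rw [lt_div_iff₀ hR10] at hκ1
  rw [div_le_iff₀ hR10] at hκ2
  refine ⟨κ, ?_, ?_⟩
  · by_contra hcon
    push Not at hcon
    have h1 : (1 / 2 : ℝ) ^ κ ≤ (1 / 2) ^ K :=
      pow_le_pow_of_le_one (by norm_num) (by norm_num) hcon
    have h2 : |V j| ≤ sc R K := by
      unfold sc
      calc |V j| ≤ (1 / 2) ^ κ * (R ^ 10)⁻¹ := hκ2
        _ ≤ (1 / 2) ^ K * (R ^ 10)⁻¹ := mul_le_mul_of_nonneg_right h1 hR10.le
        _ = _ := mul_comm _ _
    linarith
  · unfold pcs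
    rw [mem_filter]
    refine ⟨mem_univ _, ?_, ?_⟩
    · unfold sc
      calc (R ^ 10)⁻¹ * (1 / 2) ^ κ / 2 = (1 / 2) ^ (κ + 1) * (R ^ 10)⁻¹ := by
            rw [pow_succ]; ring
        _ < |V j| := hκ1
    · unfold sc
      rw [mul_comm]
      exact hκ2

theorem pcs_sum {J : Type} [Fintype J] (R : ℝ) (hR : 0 < R) (V w : J → ℝ) (K : ℕ)
    (hK : ∀ j, V j ≠ 0 → sc R K < |V j|) (hw : ∀ j, V j = 0 → w j = 0) :
    ∑ j ∈ univ.filter (fun j => ¬ (R ^ 10)⁻¹ < |V j|), w j =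
      ∑ κ : Fin K, ∑ j ∈ pcs R V κ, w j := by
  have h1 : ∀ κ : Fin K, ∑ j ∈ pcs R V κ, w j = ∑ j, if j ∈ pcs R V κ then w j else 0 := by
    intro κ
    rw [← sum_filter]
    congr 1
    ext j
    simp
  rw [sum_congr rfl fun κ _ => h1 κ, sum_comm, sum_filter]
  refine sum_congr rfl fun j _ => ?_
  by_cases hV : V j = 0
  · rw [hw j hV]
    simp
  · by_cases hb : (R ^ 10)⁻¹ < |V j|
    · rw [if_neg (not_not.2 hb)]
      symm
      refine sum_eq_zero fun κ _ => ?_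
      rw [if_neg]
      intro hj
      unfold pcs at hj
      rw [mem_filter] at hj
      have h2 : sc R κ ≤ (R ^ 10)⁻¹ := by
        unfold sc
        have h3 : (1 / 2 : ℝ) ^ (κ : ℕ) ≤ 1 := pow_le_one₀ (by norm_num) (by norm_num)
        have h4 : 0 < (R ^ 10)⁻¹ := by positivity
        nlinarith
      linarith [hj.2.2]
    · rw [if_pos hb]
      obtain ⟨κ, hκ, hj⟩ := pcs_exists R hR V K j hV (not_lt.1 hb) (hK j hV)
      rw [sum_eq_single_of_mem (⟨κ, hκ⟩ : Fin K) (mem_univ _)]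
      · rw [if_pos hj]
      · intro κ' _ hne
        rw [if_neg]
        intro hj'
        exact hne (Fin.ext (pcs_uniq R hR V κ' κ j hj' hj))

/-- number of large entries of a vector with bounded `l1` norm -/
theorem card_big {J : Type} [Fintype J] (V : J → ℝ) (A s : ℝ) (hs : 0 < s)
    (hV : ∑ j, |V j| ≤ A) : ((univ.filter fun j => s < |V j|).card : ℝ) ≤ A / s := by
  rw [le_div_iff₀ hs]
  calc ((univ.filter fun j => s < |V j|).card : ℝ) * s
      = ∑ j ∈ univ.filter (fun j => s < |V j|), s := by rw [sum_const, nsmul_eq_mul]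
    _ ≤ ∑ j ∈ univ.filter (fun j => s < |V j|), |V j| :=
        sum_le_sum fun j hj => (mem_filter.1 hj).2.le
    _ ≤ ∑ j, |V j| := sum_le_sum_of_subset_of_nonneg (filter_subset _ _) fun _ _ _ => abs_nonneg _
    _ ≤ A := hV

theorem pcs_mass_le {J : Type} [Fintype J] (R : ℝ) (V : J → ℝ) (κ : ℕ) :
    ∑ j ∈ pcs R V κ, |V j| ≤ (pcs R V κ).card * sc R κ := by
  calc ∑ j ∈ pcs R V κ, |V j| ≤ ∑ j ∈ pcs R V κ, sc R κ := by
        refine sum_le_sum fun j hj => ?_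
        unfold pcs at hj
        exact (mem_filter.1 hj).2.2
    _ = _ := by rw [sum_const, nsmul_eq_mul]

theorem pcs_mass_ge {J : Type} [Fintype J] (R : ℝ) (V : J → ℝ) (κ : ℕ) :
    (pcs R V κ).card * (sc R κ / 2) ≤ ∑ j ∈ pcs R V κ, |V j| := by
  calc (pcs R V κ).card * (sc R κ / 2) = ∑ j ∈ pcs R V κ, sc R κ / 2 := by
        rw [sum_const, nsmul_eq_mul]
    _ ≤ ∑ j ∈ pcs R V κ, |V j| := by
        refine sum_le_sum fun j hj => ?_
        unfold pcs at hj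
        exact (mem_filter.1 hj).2.1.le

/-- the thresholds are summable -/
theorem tau_sum (R : ℝ) (hR : 3 ≤ R) (K : ℕ) : ∑ κ : Fin K, √√(sc R κ) ≤ 1 := by
  have hR0 : 0 < R := by linarith
  have h1 : √√((R ^ 10)⁻¹) ≤ 1 / 7 := by
    rw [Real.sqrt_le_left (by norm_num), Real.sqrt_le_left (by norm_num)]
    rw [inv_le_comm₀ (by positivity) (by norm_num)]
    calc (((1 / 7 : ℝ) ^ 2) ^ 2)⁻¹ ≤ 3 ^ 10 := by norm_num
      _ ≤ R ^ 10 := pow_le_pow_left₀ (by norm_num) hR 10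
  have h2 : √√(1 / 2 : ℝ) ≤ 17 / 20 := by
    rw [Real.sqrt_le_left (by norm_num), Real.sqrt_le_left (by norm_num)]
    norm_num
  have h2' : 0 ≤ √√(1 / 2 : ℝ) := Real.sqrt_nonneg _
  have h3 : ∀ κ : ℕ, √√(sc R κ) ≤ 1 / 7 * (17 / 20) ^ κ := by
    intro κ
    have h4 : √√(sc R κ) = √√((R ^ 10)⁻¹) * √√(1 / 2) ^ κ := by
      unfold sc
      rw [Real.sqrt_mul (by positivity), Real.sqrt_mul (Real.sqrt_nonneg _)]
      congr 1
      have h5 : √((1 / 2 : ℝ) ^ κ) = √(1 / 2) ^ κ := by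
        rw [Real.sqrt_eq_iff_mul_self_eq (by positivity) (by positivity), ← mul_pow,
          Real.mul_self_sqrt (by norm_num)]
      rw [h5]
      rw [Real.sqrt_eq_iff_mul_self_eq (by positivity) (by positivity), ← mul_pow,
        Real.mul_self_sqrt (Real.sqrt_nonneg _)]
    rw [h4]
    exact mul_le_mul h1 (pow_le_pow_left₀ h2' h2 κ) (by positivity) (by norm_num)
  calc ∑ κ : Fin K, √√(sc R κ) ≤ ∑ κ : Fin K, 1 / 7 * (17 / 20 : ℝ) ^ (κ : ℕ) :=
        sum_le_sum fun κ _ => h3 κ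
    _ = 1 / 7 * ∑ κ ∈ range K, (17 / 20 : ℝ) ^ κ := by
        rw [← mul_sum, Fin.sum_univ_eq_sum_range (fun κ => (17 / 20 : ℝ) ^ κ) K]
    _ ≤ 1 / 7 * (20 / 3) := by
        refine mul_le_mul_of_nonneg_left ?_ (by norm_num)
        have h6 := geom_sum_eq (x := (17 / 20 : ℝ)) (by norm_num) K
        rw [h6]
        have h7 : 0 ≤ (17 / 20 : ℝ) ^ K := by positivity
        rw [div_le_iff_of_neg (by norm_num)]
        linarith
    _ ≤ 1 := by norm_num

end Pool.Agent.SVR
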