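import Pool.Agent.SVR.PhA

set_option autoImplicit false

/-!
# [SVR-PhB] index set of events and their weights
-/

namespace Pool.Agent.SVR

open MeasureTheory Finset

open scoped Classical

noncomputable section

/-- columns of an event: row or piece -/
def evc {I J : Type} [Fintype I] [Fintype J] (R : ℝ) (V v : I → J → ℝ) (K : ℕ) :
    I ⊕ (I × Fin K) → Finset J
  | Sum.inl i => univ.filter fun j => v i j ≠ 0
  | Sum.inr (i, κ) => if √√(sc R κ) < ∑ j ∈ pcs R (V i) κ, |V i j| then pcs R (V i) κ else ∅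

/-- weights -/
def evx {I : Type} (M : ℝ) (K : ℕ) : I ⊕ (I × Fin K) → ℝ
  | Sum.inl _ => (M ^ 10)⁻¹
  | Sum.inr (_, κ) => (4 ^ (κ : ℕ))⁻¹ * (M ^ 10)⁻¹

end

theorem evx_nonneg {I : Type} (M : ℝ) (_hM : 0 ≤ M) (K : ℕ) (e : I ⊕ (I × Fin K)) :
    0 ≤ evx M K e := by
  rcases e with i | ⟨i, κ⟩
  · unfold evx; positivity
  · unfold evx; positivity

theorem evx_half {I : Type} (M : ℝ) (hM : 2 ≤ M) (K : ℕ) (e : I ⊕ (I × Fin K)) :
    evx M K e ≤ 1 / 2 := by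
  have h1 : (M ^ 10)⁻¹ ≤ 1 / 2 := by
    rw [inv_le_comm₀ (by positivity) (by norm_num)]
    calc ((1 / 2 : ℝ))⁻¹ = 2 := by norm_num
      _ ≤ M := hM
      _ ≤ M ^ 10 := le_self_pow₀ (by linarith) (by norm_num)
  rcases e with i | ⟨i, κ⟩
  · exact h1
  · unfold evx
    have h2 : ((4 : ℝ) ^ (κ : ℕ))⁻¹ ≤ 1 := inv_le_one_of_one_le₀ (one_le_pow₀ (by norm_num))
    have h3 : 0 ≤ (M ^ 10)⁻¹ := by positivity
    calc ((4 : ℝ) ^ (κ : ℕ))⁻¹ * (M ^ 10)⁻¹ ≤ 1 * (M ^ 10)⁻¹ := mul_le_mul_of_nonneg_right h2 h3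
      _ ≤ 1 / 2 := by rw [one_mul]; exact h1

/-- total weight of the events at a column -/
theorem evx_sum {I J : Type} [Fintype I] [Fintype J] (R M : ℝ) (hR : 1 ≤ R) (hM0 : 1 ≤ M) (hM : 5 * R ^ 11 ≤ M)
    (V v : I → J → ℝ) (hcol : ∀ j, ∑ i, |V i j| ≤ R)
    (hv : ∀ i j, v i j ≠ 0 → (R ^ 10)⁻¹ < |V i j|) (K : ℕ) (j : J) :
    ∑ e ∈ univ.filter (fun e => j ∈ evc R V v K e), evx M K e ≤ (M ^ 9)⁻¹ := by
  have hR0 : 0 < R := by linarith
  have hM00 : 0 < M := by linarith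
  have hMi : 0 < (M ^ 10)⁻¹ := by positivity
  have hsplit : ∑ e ∈ univ.filter (fun e => j ∈ evc R V v K e), evx M K e =
      (∑ i : I, if j ∈ evc R V v K (Sum.inl i) then (M ^ 10)⁻¹ else 0) +
      ∑ κ : Fin K, ∑ i : I, if j ∈ evc R V v K (Sum.inr (i, κ)) then
        (4 ^ (κ : ℕ))⁻¹ * (M ^ 10)⁻¹ else 0 := by
    rw [sum_filter, Fintype.sum_sum_type, Fintype.sum_prod_type, sum_comm]
    rfl
  have hrow : (∑ i : I, if j ∈ evc R V v K (Sum.inl i) then (M ^ 10)⁻¹ else 0) ≤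
      R ^ 11 * (M ^ 10)⁻¹ := by
    rw [← sum_filter, sum_const, nsmul_eq_mul]
    refine mul_le_mul_of_nonneg_right ?_ hMi.le
    have h1 : (univ.filter fun i : I => j ∈ evc R V v K (Sum.inl i)) ⊆
        univ.filter fun i => (R ^ 10)⁻¹ < |V i j| := by
      intro i hi
      rw [mem_filter] at hi ⊢
      refine ⟨mem_univ _, hv i j ?_⟩
      have := hi.2
      unfold evc at this
      exact (mem_filter.1 this).2
    calc ((univ.filter fun i : I => j ∈ evc R V v K (Sum.inl i)).card : ℝ)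
        ≤ ((univ.filter fun i => (R ^ 10)⁻¹ < |V i j|).card : ℝ) := by
          exact_mod_cast card_le_card h1
      _ ≤ R / (R ^ 10)⁻¹ := card_big (fun i => V i j) R _ (by positivity) (hcol j)
      _ = R ^ 11 := by rw [div_inv_eq_mul]; ring
  have hpc : ∀ κ : Fin K, (∑ i : I, if j ∈ evc R V v K (Sum.inr (i, κ)) then
      (4 ^ (κ : ℕ))⁻¹ * (M ^ 10)⁻¹ else 0) ≤ 2 * R ^ 11 * (M ^ 10)⁻¹ * (1 / 2) ^ (κ : ℕ) := by
    intro κ
    rw [← sum_filter, sum_const, nsmul_eq_mul]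
    have h1 : (univ.filter fun i : I => j ∈ evc R V v K (Sum.inr (i, κ))) ⊆
        univ.filter fun i => sc R κ / 2 < |V i j| := by
      intro i hi
      rw [mem_filter] at hi ⊢
      refine ⟨mem_univ _, ?_⟩
      have h2 := hi.2
      unfold evc at h2
      simp only at h2
      split_ifs at h2 with h3
      · unfold pcs at h2
        exact (mem_filter.1 h2).2.1
      · simp at h2
    have h2 : ((univ.filter fun i : I => j ∈ evc R V v K (Sum.inr (i, κ))).card : ℝ) ≤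
        2 * R ^ 11 * 2 ^ (κ : ℕ) := by
      calc ((univ.filter fun i : I => j ∈ evc R V v K (Sum.inr (i, κ))).card : ℝ)
          ≤ ((univ.filter fun i => sc R κ / 2 < |V i j|).card : ℝ) := by
            exact_mod_cast card_le_card h1
        _ ≤ R / (sc R κ / 2) := card_big (fun i => V i j) R _ (by
            have := sc_pos R hR0 κ
            positivity) (hcol j)
        _ = 2 * R ^ 11 * 2 ^ (κ : ℕ) := by
            unfold sc
            have h9 : (1 / 2 : ℝ) ^ (κ : ℕ) * 2 ^ (κ : ℕ) = 1 := by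
              rw [← mul_pow]; norm_num
            have h10 : (1 / 2 : ℝ) ^ (κ : ℕ) ≠ 0 := by positivity
            rw [div_eq_iff (by positivity)]
            calc R = R * ((1 / 2 : ℝ) ^ (κ : ℕ) * 2 ^ (κ : ℕ)) := by rw [h9, mul_one]
              _ = _ := by field_simp
    calc ((univ.filter fun i : I => j ∈ evc R V v K (Sum.inr (i, κ))).card : ℝ) *
        ((4 ^ (κ : ℕ))⁻¹ * (M ^ 10)⁻¹)
        ≤ (2 * R ^ 11 * 2 ^ (κ : ℕ)) * ((4 ^ (κ : ℕ))⁻¹ * (M ^ 10)⁻¹) :=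
          mul_le_mul_of_nonneg_right h2 (by positivity)
      _ = 2 * R ^ 11 * (M ^ 10)⁻¹ * (1 / 2) ^ (κ : ℕ) := by
          have h4 : (4 : ℝ) ^ (κ : ℕ) = 2 ^ (κ : ℕ) * 2 ^ (κ : ℕ) := by
            rw [← mul_pow]; norm_num
          rw [h4, one_div, inv_pow]
          field_simp
  have hgeo : ∑ κ : Fin K, 2 * R ^ 11 * (M ^ 10)⁻¹ * (1 / 2 : ℝ) ^ (κ : ℕ) ≤
      4 * R ^ 11 * (M ^ 10)⁻¹ := by
    rw [← mul_sum, Fin.sum_univ_eq_sum_range (fun κ => (1 / 2 : ℝ) ^ κ) K]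
    have h6 : ∑ κ ∈ range K, (1 / 2 : ℝ) ^ κ ≤ 2 := by
      rw [geom_sum_eq (by norm_num)]
      have h7 : 0 ≤ (1 / 2 : ℝ) ^ K := by positivity
      rw [div_le_iff_of_neg (by norm_num)]
      linarith
    have h8 : 0 ≤ 2 * R ^ 11 * (M ^ 10)⁻¹ := by positivity
    calc 2 * R ^ 11 * (M ^ 10)⁻¹ * ∑ κ ∈ range K, (1 / 2 : ℝ) ^ κ
        ≤ 2 * R ^ 11 * (M ^ 10)⁻¹ * 2 := mul_le_mul_of_nonneg_left h6 h8
      _ = _ := by ring
  rw [hsplit]
  calc _ ≤ R ^ 11 * (M ^ 10)⁻¹ + 4 * R ^ 11 * (M ^ 10)⁻¹ :=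
        add_le_add hrow ((sum_le_sum fun κ _ => hpc κ).trans hgeo)
    _ = 5 * R ^ 11 * (M ^ 10)⁻¹ := by ring
    _ ≤ M * (M ^ 10)⁻¹ := mul_le_mul_of_nonneg_right hM hMi.le
    _ = (M ^ 9)⁻¹ := by
        field_simp

end Pool.Agent.SVR
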