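import Pool.Agent.SVR.PhB
import Pool.Agent.SVR.Pc
import Pool.Agent.SVR.ParF
import Pool.Agent.SVR.ParG

set_option autoImplicit false

/-!
# [SVR-PhC] probability of the event of a piece, in the form needed by the local lemma
-/

namespace Pool.Agent.SVR

open MeasureTheory Finset

open scoped Classical

theorem sc_sqrt (R : ℝ) (hR : 1 ≤ R) (κ : ℕ) : √(sc R κ) * (R ^ 5 * √2 ^ κ) = 1 := by
  have hR0 : 0 < R := by linarith
  have h1 : (R ^ 5 * √2 ^ κ) = √((R ^ 10) * 2 ^ κ) := by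
    symm
    rw [Real.sqrt_eq_iff_mul_self_eq (by positivity) (by positivity)]
    have h2 : √2 ^ κ * √2 ^ κ = (2 : ℝ) ^ κ := by
      rw [← mul_pow, Real.mul_self_sqrt (by norm_num)]
    rw [← h2]
    ring
  rw [h1, ← Real.sqrt_mul (sc_pos R hR0 κ).le]
  have h3 : sc R κ * (R ^ 10 * 2 ^ κ) = 1 := by
    unfold sc
    have h9 : (1 / 2 : ℝ) ^ κ * 2 ^ κ = 1 := by
      rw [← mul_pow]; norm_num
    calc (R ^ 10)⁻¹ * (1 / 2) ^ κ * (R ^ 10 * 2 ^ κ)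
        = ((R ^ 10)⁻¹ * R ^ 10) * ((1 / 2) ^ κ * 2 ^ κ) := by ring
      _ = 1 := by rw [h9, inv_mul_cancel₀ (by positivity), one_mul]
  rw [h3, Real.sqrt_one]

theorem sc_le (R : ℝ) (hR : 1 ≤ R) (κ : ℕ) : sc R κ * 2 ^ κ ≤ 1 := by
  have hR0 : 0 < R := by linarith
  unfold sc
  have h9 : (1 / 2 : ℝ) ^ κ * 2 ^ κ = 1 := by
    rw [← mul_pow]; norm_num
  rw [mul_assoc, h9, mul_one]
  exact inv_le_one_of_one_le₀ (one_le_pow₀ hR)

/-- a nontrivial piece has many columns -/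
theorem pcs_card {J : Type} [Fintype J] (R : ℝ) (hR : 1 ≤ R) (V : J → ℝ) (κ : ℕ)
    (hm : √√(sc R κ) < ∑ j ∈ pcs R V κ, |V j|) :
    1 ≤ ((pcs R V κ).card : ℝ) ∧ ((4 : ℝ) ^ κ) ^ 3 ≤ ((pcs R V κ).card : ℝ) ^ 8 := by
  have hR0 : 0 < R := by linarith
  have hs := sc_pos R hR0 κ
  set N : ℝ := ((pcs R V κ).card : ℝ) with hN
  have h1 : √√(sc R κ) < N * sc R κ := lt_of_lt_of_le hm (pcs_mass_le R V κ)
  have hN0 : 0 ≤ N := by positivity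
  have hNpos : 0 < N := by
    rcases hN0.lt_or_eq with h | h
    · exact h
    · rw [← h, zero_mul] at h1
      exact absurd h1 (not_lt.2 (Real.sqrt_nonneg _))
  have hN1 : 1 ≤ N := by
    rw [hN] at hNpos ⊢
    have : 0 < (pcs R V κ).card := by exact_mod_cast hNpos
    exact_mod_cast this
  refine ⟨hN1, ?_⟩
  have h2 : sc R κ < (N * sc R κ) ^ 4 := by
    have h3 : √√(sc R κ) ^ 4 = sc R κ := by
      have : √√(sc R κ) ^ 4 = (√√(sc R κ) ^ 2) ^ 2 := by ring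
      rw [this, Real.sq_sqrt (Real.sqrt_nonneg _), Real.sq_sqrt hs.le]
    have h3' : √√(sc R κ) ^ 4 < (N * sc R κ) ^ 4 :=
      pow_lt_pow_left₀ h1 (Real.sqrt_nonneg _) (by norm_num)
    rwa [h3] at h3'
  have h4 : 1 < N ^ 4 * sc R κ ^ 3 := by
    have h5 : sc R κ * 1 < sc R κ * (N ^ 4 * sc R κ ^ 3) := by
      calc sc R κ * 1 = sc R κ := mul_one _
        _ < (N * sc R κ) ^ 4 := h2
        _ = _ := by ring
    exact lt_of_mul_lt_mul_left h5 hs.le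
  have h6 : sc R κ ≤ ((2 : ℝ) ^ κ)⁻¹ := by
    rw [le_inv_comm₀ hs (by positivity), ← one_div, le_div_iff₀ hs, mul_comm]
    exact sc_le R hR κ
  have h7 : (2 : ℝ) ^ κ ^ 1 = 2 ^ κ := by rw [pow_one]
  have h8 : ((2 : ℝ) ^ κ) ^ 3 ≤ N ^ 4 := by
    have h9 : sc R κ ^ 3 ≤ (((2 : ℝ) ^ κ)⁻¹) ^ 3 := pow_le_pow_left₀ hs.le h6 3
    have h10 : 1 < N ^ 4 * (((2 : ℝ) ^ κ)⁻¹) ^ 3 :=
      lt_of_lt_of_le h4 (mul_le_mul_of_nonneg_left h9 (by positivity))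
    rw [inv_pow, ← div_eq_mul_inv, lt_div_iff₀ (by positivity), one_mul] at h10
    exact h10.le
  calc ((4 : ℝ) ^ κ) ^ 3 = (((2 : ℝ) ^ κ) ^ 3) ^ 2 := by
        have : (4 : ℝ) ^ κ = 2 ^ κ * 2 ^ κ := by rw [← mul_pow]; norm_num
        rw [this]; ring
    _ ≤ (N ^ 4) ^ 2 := pow_le_pow_left₀ (by positivity) h8 2
    _ = N ^ 8 := by ring

variable {I J : Type} [Fintype I] [Fintype J]
variable {v : I → J → ℝ} {ρ R Y : ℝ} {p ψ q χ : ℝ → ℝ} {z : (J → ℝ) → (J → ℝ)}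

theorem piece_prob (h : Sys v ρ R Y p ψ q χ z) (hR : 2 ≤ R) (V x : J → ℝ)
    (hx : ∀ j, |x j| ≤ 1) (hV : ∑ j, |V j| ≤ R) (κ : ℕ)
    (hm : √√(sc R κ) < ∑ j ∈ pcs R V κ, |V j|) (B : J → Finset J) (M P0 : ℝ) (hM1 : 2 ≤ M)
    (hM : ∀ l, ((univ.filter fun j => l ∈ B j).card : ℝ) ≤ M)
    (hP : ∀ j, (gam J).real {g | (R ^ 3)⁻¹ < |clip (z g j) - zloc z (B j) g j|} ≤ P0)
    (hsmall : (4 : ℝ) ^ κ ≤ M ^ 16 → 2 * Real.exp (-(R ^ 4 * √2 ^ κ / 2)) + 4 * P0 / (R ^ 2)⁻¹ ≤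
      (4 ^ κ)⁻¹ * (M ^ 10)⁻¹ / 8)
    (hlarge : ∀ N : ℝ, M ^ 6 ≤ N → (4 : ℝ) ^ κ ≤ N ^ 3 → 2 * Real.exp (-(N / (4 * R ^ 4 * M))) ≤
      (4 ^ κ)⁻¹ * (M ^ 10)⁻¹ * Real.exp (-(2 * (N * (M ^ 7)⁻¹)))) :
    (gam J).real {g | √√(sc R κ) + (R ^ 2)⁻¹ * ∑ j ∈ pcs R V κ, |V j| <
        |∑ j ∈ pcs R V κ, V j * (1 - |x j|) * zloc z (B j) g j|} ≤
      (4 ^ κ)⁻¹ * (M ^ 10)⁻¹ * Real.exp (-(2 * ((pcs R V κ).card * (M ^ 7)⁻¹))) := by
  have hR1 : 1 ≤ R := by linarith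
  have hR0 : 0 < R := by linarith
  have hM0 : 0 < M := by linarith
  have hs := sc_pos R hR0 κ
  obtain ⟨hN1, hN8⟩ := pcs_card R hR1 V κ hm
  have hmpos : 0 < ∑ j ∈ pcs R V κ, |V j| := lt_of_le_of_lt (Real.sqrt_nonneg _) hm
  have hmR : ∑ j ∈ pcs R V κ, |V j| ≤ R :=
    (sum_le_sum_of_subset_of_nonneg (subset_univ _) fun _ _ _ => abs_nonneg _).trans hV
  have hsb : ∀ j ∈ pcs R V κ, |V j| ≤ sc R κ := by
    intro j hj
    unfold pcs at hj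
    exact (mem_filter.1 hj).2.2
  set N : ℝ := ((pcs R V κ).card : ℝ) with hN
  rcases le_or_gt N (M ^ 6) with hcase | hcase
  · have h4 : (4 : ℝ) ^ κ ≤ M ^ 16 := by
      have h5 : ((4 : ℝ) ^ κ) ^ 3 ≤ (M ^ 16) ^ 3 := by
        calc ((4 : ℝ) ^ κ) ^ 3 ≤ N ^ 8 := hN8
          _ ≤ (M ^ 6) ^ 8 := pow_le_pow_left₀ (by linarith) hcase 8
          _ = (M ^ 16) ^ 3 := by ring
      exact le_of_pow_le_pow_left₀ (by norm_num) (by positivity) h5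
    have h6 := piece_small h (pcs R V κ) V x hx (sc R κ) (√√(sc R κ)) ((R ^ 2)⁻¹) ((R ^ 3)⁻¹) P0
      hs hsb hmpos hmR (Real.sqrt_nonneg _) (by positivity) (by positivity) (by
        rw [inv_eq_one_div, inv_eq_one_div, div_div, div_le_div_iff₀ (by positivity) (by positivity)]
        have : R ^ 2 * 2 ≤ R ^ 3 := by
          have h7 : R ^ 3 = R ^ 2 * R := by ring
          rw [h7]
          exact mul_le_mul_of_nonneg_left hR (by positivity)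
        linarith) B hP
    refine h6.trans ?_
    have h7 : √√(sc R κ) ^ 2 / (2 * (sc R κ * R)) = R ^ 4 * √2 ^ κ / 2 := by
      rw [Real.sq_sqrt (Real.sqrt_nonneg _)]
      have h8 := sc_sqrt R hR1 κ
      have h9 : 0 < √(sc R κ) := Real.sqrt_pos.2 hs
      have h10 : sc R κ = √(sc R κ) * √(sc R κ) := (Real.mul_self_sqrt hs.le).symm
      rw [div_eq_div_iff (by positivity) (by norm_num)]
      calc √(sc R κ) * 2 = √(sc R κ) * (√(sc R κ) * (R ^ 5 * √2 ^ κ)) * 2 := by rw [h8, mul_one]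
        _ = R ^ 4 * √2 ^ κ * (2 * ((√(sc R κ) * √(sc R κ)) * R)) := by ring
        _ = _ := by rw [← h10]
    rw [h7]
    refine (hsmall h4).trans ?_
    have h11 : (1 : ℝ) / 8 ≤ Real.exp (-(2 * (N * (M ^ 7)⁻¹))) := by
      have h12 : N * (M ^ 7)⁻¹ ≤ 1 / 2 := by
        calc N * (M ^ 7)⁻¹ ≤ M ^ 6 * (M ^ 7)⁻¹ := mul_le_mul_of_nonneg_right hcase (by positivity)
          _ = M⁻¹ := by field_simp
          _ ≤ 1 / 2 := by
            rw [inv_le_comm₀ hM0 (by norm_num)]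
            linarith
      have h13 : Real.exp (-1) ≤ Real.exp (-(2 * (N * (M ^ 7)⁻¹))) :=
        Real.exp_le_exp.2 (by linarith)
      have h14 : (1 : ℝ) / 8 ≤ Real.exp (-1) := by
        rw [Real.exp_neg, one_div]
        exact inv_anti₀ (Real.exp_pos _) (by linarith [Real.exp_one_lt_d9])
      linarith
    have h15 : 0 ≤ ((4 : ℝ) ^ κ)⁻¹ * (M ^ 10)⁻¹ := by positivity
    calc ((4 : ℝ) ^ κ)⁻¹ * (M ^ 10)⁻¹ / 8 = ((4 : ℝ) ^ κ)⁻¹ * (M ^ 10)⁻¹ * (1 / 8) := by ring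
      _ ≤ _ := mul_le_mul_of_nonneg_left h11 h15
  · have h4 : (4 : ℝ) ^ κ ≤ N ^ 3 := by
      have h5 : ((4 : ℝ) ^ κ) ^ 3 ≤ (N ^ 3) ^ 3 := by
        calc ((4 : ℝ) ^ κ) ^ 3 ≤ N ^ 8 := hN8
          _ ≤ N ^ 9 := pow_le_pow_right₀ hN1 (by norm_num)
          _ = (N ^ 3) ^ 3 := by ring
      exact le_of_pow_le_pow_left₀ (by norm_num) (by positivity) h5
    have h6 := piece_large h (pcs R V κ) V x hx (sc R κ) ((R ^ 2)⁻¹) M
      hs hsb hmpos (by positivity) B hM0 hM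
    refine le_trans (measureReal_mono ?_ (measure_ne_top _ _)) (h6.trans ?_)
    · intro g hg
      rw [Set.mem_ofPred_eq] at hg ⊢
      have := Real.sqrt_nonneg (√(sc R κ))
      linarith
    · refine le_trans ?_ (hlarge N hcase.le h4)
      refine mul_le_mul_of_nonneg_left (Real.exp_le_exp.2 (neg_le_neg ?_)) (by norm_num)
      have h7 := pcs_mass_ge R V κ
      rw [← hN] at h7
      rw [div_le_div_iff₀ (by positivity) (by positivity)]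
      have h8 : ((R ^ 2)⁻¹) ^ 2 = (R ^ 4)⁻¹ := by
        rw [← inv_pow]; ring
      rw [h8]
      calc N * (2 * M * sc R κ) = (N * (sc R κ / 2)) * (4 * M) := by ring
        _ ≤ (∑ j ∈ pcs R V κ, |V j|) * (4 * M) := mul_le_mul_of_nonneg_right h7 (by positivity)
        _ = (R ^ 4)⁻¹ * (∑ j ∈ pcs R V κ, |V j|) * (4 * R ^ 4 * M) := by
            field_simp

end Pool.Agent.SVR
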