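import Pool.Agent.SVR.Two

set_option autoImplicit false

/-!
# [SVR-Psi] joint Lipschitz property of the row coordinates

`psi_lip`: put `δ = z g - z g'`, `s_t = lin v (c t) (z g)`, `s'_t` similarly.  By A1
`(ψ s - ψ s')^2 ≤ (s-s')^2/ρ + (s-s')(p s - p s')`.
`(s_t - s'_t)^2 = (∑ j, v (c t) j * δ j)^2 ≤ (∑ j, v (c t) j ^2) * ∑ j with v (c t) j ≠ 0, δ j ^2
 ≤ ρ * ∑ j with v (c t) j ≠ 0, δ j^2` (`v^2 ≤ |v|`, row sum `≤ ρ`).  The supports of the rows `c t` are
pairwise disjoint (`¬ Adj`), so `∑ t (s_t-s'_t)^2/ρ ≤ nsq δ`.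
`∑ t, (s_t-s'_t)(p s_t - p s'_t) ≤ ∑ i, (lin v i (z g) - lin v i (z g'))(p .. - p ..)`: rows `c t` that are
nonzero are distinct for distinct `t` (a repeated row would be adjacent to itself), zero rows
contribute `0`, and all terms on the right are `≥ 0`.  Conclude with `two_le`.
`chi_lip`: `(χ a - χ b)^2 ≤ (a-b)^2/1 + (a-b)(q a - q b)` and `two_le` (single terms of
nonnegative sums).
-/

namespace Pool.Agent.SVR

open MeasureTheory Finset

/-- a sum over a family with repetitions only where `F` vanishes -/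
theorem Psi_sum_le {I K : Type} [Fintype I] [Fintype K] (F : I → ℝ) (hF : ∀ i, 0 ≤ F i)
    (c : K → I) (hc : ∀ t t', t ≠ t' → c t = c t' → F (c t) = 0) :
    ∑ t, F (c t) ≤ ∑ i, F i := by
  classical
  have h1 : ∑ t, F (c t) = ∑ t ∈ univ.filter (fun t => F (c t) ≠ 0), F (c t) :=
    (Finset.sum_filter_ne_zero _).symm
  have h2 : ∑ t ∈ univ.filter (fun t => F (c t) ≠ 0), F (c t) =
      ∑ i ∈ (univ.filter (fun t => F (c t) ≠ 0)).image c, F i := by
    rw [Finset.sum_image]
    intro t ht t' _ htt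
    by_contra hne
    exact (Finset.mem_filter.mp ht).2 (hc t t' hne htt)
  rw [h1, h2]
  exact Finset.sum_le_sum_of_subset_of_nonneg (Finset.subset_univ _) fun i _ _ => hF i

/-- difference of the linear forms -/
theorem Psi_lin_sub {I J : Type} [Fintype J] (v : I → J → ℝ) (i : I) (x x' : J → ℝ) :
    lin v i x - lin v i x' = ∑ j, v i j * (x j - x' j) := by
  unfold lin
  rw [← Finset.sum_sub_distrib]
  exact Finset.sum_congr rfl fun j _ => by ring

/-- Cauchy-Schwarz on the support of a row -/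
theorem Psi_row_sq {I J : Type} [Fintype J] (v : I → J → ℝ) (ρ : ℝ) (i : I)
    (hv : ∀ j, |v i j| ≤ 1) (hrow : ∑ j, |v i j| ≤ ρ) (δ : J → ℝ) :
    (∑ j, v i j * δ j) ^ 2 ≤ ρ * ∑ j, (if v i j = 0 then 0 else δ j ^ 2) := by
  classical
  have e1 : ∑ j, v i j * δ j = ∑ j, v i j * (if v i j = 0 then 0 else δ j) := by
    refine Finset.sum_congr rfl fun j _ => ?_
    by_cases h : v i j = 0
    · rw [h]; simp
    · rw [if_neg h]
  have e2 : ∀ j, (if v i j = 0 then (0 : ℝ) else δ j) ^ 2 = (if v i j = 0 then 0 else δ j ^ 2) := by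
    intro j
    by_cases h : v i j = 0
    · rw [if_pos h, if_pos h]; norm_num
    · rw [if_neg h, if_neg h]
  have h1 := Finset.sum_mul_sq_le_sq_mul_sq Finset.univ (fun j => v i j)
    (fun j => if v i j = 0 then (0 : ℝ) else δ j)
  simp only [e2] at h1
  rw [e1]
  refine h1.trans ?_
  have h2 : ∑ j, v i j ^ 2 ≤ ρ := by
    refine le_trans (Finset.sum_le_sum fun j _ => ?_) hrow
    have h3 := abs_nonneg (v i j)
    have h4 := hv j
    calc v i j ^ 2 = |v i j| * |v i j| := by rw [← sq_abs]; ring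
      _ ≤ |v i j| * 1 := mul_le_mul_of_nonneg_left h4 h3
      _ = |v i j| := mul_one _
  exact mul_le_mul_of_nonneg_right h2 (Finset.sum_nonneg fun j _ => by
    split_ifs
    · exact le_rfl
    · exact sq_nonneg _)

/-- disjoint supports -/
theorem Psi_disj {I J K : Type} [Fintype J] [Fintype K] (v : I → J → ℝ) (c : K → I)
    (hd : ∀ t t', t ≠ t' → ¬ Adj v (c t) (c t')) (δ : J → ℝ) :
    ∑ t, ∑ j, (if v (c t) j = 0 then 0 else δ j ^ 2) ≤ ∑ j, δ j ^ 2 := by
  classical
  rw [Finset.sum_comm]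
  refine Finset.sum_le_sum fun j _ => ?_
  by_cases h : ∃ t0, v (c t0) j ≠ 0
  · obtain ⟨t0, ht0⟩ := h
    rw [Finset.sum_eq_single t0]
    · rw [if_neg ht0]
    · intro t _ htt
      by_contra hne
      apply hd t t0 htt
      refine ⟨j, ?_, ht0⟩
      intro h0
      rw [if_pos h0] at hne
      exact hne rfl
    · intro h0
      exact absurd (Finset.mem_univ t0) h0
  · push Not at h
    rw [Finset.sum_eq_zero fun t _ => if_pos (h t)]
    exact sq_nonneg _

variable {I J : Type} [Fintype I] [Fintype J]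
variable {v : I → J → ℝ} {ρ R Y : ℝ} {p ψ q χ : ℝ → ℝ} {z : (J → ℝ) → (J → ℝ)}

/-- the product of the increments of a monotone function -/
theorem Psi_mono_mul {f : ℝ → ℝ} (hf : Monotone f) (a b : ℝ) : 0 ≤ (a - b) * (f a - f b) := by
  rcases le_total a b with h | h
  · have := hf h
    nlinarith
  · have := hf h
    nlinarith

theorem psi_lip (h : Sys v ρ R Y p ψ q χ z) {K : Type} [Fintype K] (c : K → I)
    (hd : ∀ t t', t ≠ t' → ¬ Adj v (c t) (c t')) (g g' : J → ℝ) :
    ∑ t, (ψ (lin v (c t) (z g)) - ψ (lin v (c t) (z g'))) ^ 2 ≤ nsq (g - g') := by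
  have hρ := h.ρ_pos
  have hkey := two_le v p q h.pot.p_mono h.q_mono g g' (z g) (z g') (h.prox g) (h.prox g')
  have hq : 0 ≤ ∑ j, (z g j - z g' j) * (q (z g j) - q (z g' j)) :=
    Finset.sum_nonneg fun j _ => Psi_mono_mul h.q_mono _ _
  -- the linear parts
  have h1 : ∑ t, (lin v (c t) (z g) - lin v (c t) (z g')) ^ 2 / ρ ≤ nsq (z g - z g') := by
    calc ∑ t, (lin v (c t) (z g) - lin v (c t) (z g')) ^ 2 / ρ
        ≤ ∑ t, ∑ j, (if v (c t) j = 0 then 0 else (z g j - z g' j) ^ 2) := by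
          refine Finset.sum_le_sum fun t _ => ?_
          rw [div_le_iff₀ hρ, Psi_lin_sub, mul_comm _ ρ]
          exact Psi_row_sq v ρ (c t) (h.v_le (c t)) (h.row (c t)) (fun j => z g j - z g' j)
      _ ≤ ∑ j, (z g j - z g' j) ^ 2 := Psi_disj v c hd (fun j => z g j - z g' j)
      _ = nsq (z g - z g') := by
          unfold nsq
          exact Finset.sum_congr rfl fun j _ => by rw [Pi.sub_apply]
  have h2 : ∑ t, (lin v (c t) (z g) - lin v (c t) (z g')) *
        (p (lin v (c t) (z g)) - p (lin v (c t) (z g'))) ≤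
      ∑ i, (lin v i (z g) - lin v i (z g')) * (p (lin v i (z g)) - p (lin v i (z g'))) := by
    refine Psi_sum_le (fun i => (lin v i (z g) - lin v i (z g')) *
      (p (lin v i (z g)) - p (lin v i (z g')))) (fun i => Psi_mono_mul h.pot.p_mono _ _) c ?_
    intro t t' htt hc
    have h3 : ∀ l, v (c t) l = 0 := by
      intro l
      by_contra hl
      exact hd t t' htt ⟨l, hl, by rw [← hc]; exact hl⟩
    have h4 : ∀ x : J → ℝ, lin v (c t) x = 0 := by
      intro x
      unfold lin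
      exact Finset.sum_eq_zero fun j _ => by rw [h3 j, zero_mul]
    simp only [h4, sub_self, mul_zero]
  calc ∑ t, (ψ (lin v (c t) (z g)) - ψ (lin v (c t) (z g'))) ^ 2
      ≤ ∑ t, ((lin v (c t) (z g) - lin v (c t) (z g')) ^ 2 / ρ +
        (lin v (c t) (z g) - lin v (c t) (z g')) *
        (p (lin v (c t) (z g)) - p (lin v (c t) (z g')))) :=
        Finset.sum_le_sum fun t _ => h.pot.A1 _ _
    _ = ∑ t, (lin v (c t) (z g) - lin v (c t) (z g')) ^ 2 / ρ +
        ∑ t, (lin v (c t) (z g) - lin v (c t) (z g')) *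
        (p (lin v (c t) (z g)) - p (lin v (c t) (z g'))) := Finset.sum_add_distrib
    _ ≤ nsq (g - g') := by linarith

theorem chi_lip (h : Sys v ρ R Y p ψ q χ z) (j : J) (g g' : J → ℝ) :
    (χ (z g j) - χ (z g' j)) ^ 2 ≤ nsq (g - g') := by
  have hkey := two_le v p q h.pot.p_mono h.q_mono g g' (z g) (z g') (h.prox g) (h.prox g')
  have hp : 0 ≤ ∑ i, (lin v i (z g) - lin v i (z g')) * (p (lin v i (z g)) - p (lin v i (z g'))) :=
    Finset.sum_nonneg fun i _ => Psi_mono_mul h.pot.p_mono _ _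
  have h1 : (z g j - z g' j) ^ 2 ≤ nsq (z g - z g') := by
    unfold nsq
    exact Finset.single_le_sum (f := fun l => (z g - z g') l ^ 2) (fun l _ => sq_nonneg _)
      (Finset.mem_univ j)
  have h2 : (z g j - z g' j) * (q (z g j) - q (z g' j)) ≤
      ∑ l, (z g l - z g' l) * (q (z g l) - q (z g' l)) :=
    Finset.single_le_sum (f := fun l => (z g l - z g' l) * (q (z g l) - q (z g' l)))
      (fun l _ => Psi_mono_mul h.q_mono _ _) (Finset.mem_univ j)
  have h3 := h.unit.A1 (z g j) (z g' j)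
  rw [div_one] at h3
  linarith

end Pool.Agent.SVR
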