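import Pool.Agent.SVR.G2
import Pool.Agent.SVR.G4
import Pool.Agent.SVR.Psi

set_option autoImplicit false

/-!
# [SVR-Prb] tails of the row coordinates

`psi_tail`, `chi_tail`: `g ↦ ψ (lin v i (z g))` is odd (`Sys.odd`, `lin` linear, `ψ` odd) and
1-Lipschitz (`psi_lip` with `K = Unit`), so `odd_tail` with `L = 1`.
`psi_joint`: `vec_mgf` with `K = {t // t ∈ S}` (card `S.card`) and `w g t = ψ (lin v (c t) (z g))`
(`psi_lip` with the restriction of `c`); on the event `nsq (w g) / 4 ≥ S.card * y0^2/4`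
(`y0 < |w t|` gives `y0^2 ≤ w t^2`), Markov: `P ≤ exp (-(S.card * y0^2/4)) * √2 ^ S.card`.
`psi_fourth`, `chi_fourth`: `w^4 ≤ 32 exp (w^2/4)` (from `exp x ≥ x^2/2` for `x = w^2/4 ≥ 0`) and
`vec_mgf` with `K = Unit`: `∫ w^4 ≤ 32 √2 ≤ 46`; integrability from the finite bound
(`w` continuous, dominated by the integrable `32 exp (w^2/4)`).
-/

namespace Pool.Agent.SVR

open MeasureTheory Finset

variable {I J : Type} [Fintype I] [Fintype J]
variable {v : I → J → ℝ} {ρ R Y : ℝ} {p ψ q χ : ℝ → ℝ} {z : (J → ℝ) → (J → ℝ)}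

theorem prb_tail (J : Type) [Fintype J] (f : (J → ℝ) → ℝ)
    (hf : ∀ x y, (f x - f y) ^ 2 ≤ nsq (x - y)) (hodd : ∀ x, f (-x) = -f x) (y : ℝ) (hy : 0 ≤ y) :
    (gam J).real {g | y ≤ |f g|} ≤ 2 * Real.exp (-(y ^ 2 / 2)) := by
  have h := odd_tail J f 1 one_pos (fun x y => by
    rw [one_mul]
    exact Real.abs_le_sqrt (hf x y)) hodd y hy
  rw [one_pow, mul_one] at h
  exact h

theorem prb_fourth (J : Type) [Fintype J] (f : (J → ℝ) → ℝ) (hc : Continuous f)
    (hf : ∀ x y, (f x - f y) ^ 2 ≤ nsq (x - y)) (hodd : ∀ x, f (-x) = -f x) :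
    Integrable (fun g => f g ^ 4) (gam J) ∧ ∫ g, f g ^ 4 ∂gam J ≤ 46 := by
  have hv := vec_mgf J Unit (fun x _ => f x) (fun x y => by
    have h1 : nsq ((fun _ : Unit => f x) - (fun _ : Unit => f y)) = (f x - f y) ^ 2 := by
      simp [nsq]
    rw [h1]
    exact hf x y) (fun x => by
    funext u
    simp [hodd x])
  have hn : ∀ x, nsq (fun _ : Unit => f x) = f x ^ 2 := fun x => by simp [nsq]
  simp only [hn, Fintype.card_unit, pow_one] at hv
  have hcE : Continuous (fun g => Real.exp (f g ^ 2 / 4)) := by fun_prop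
  have hEint : Integrable (fun g => Real.exp (f g ^ 2 / 4)) (gam J) := by
    rw [← lintegral_ofReal_ne_top_iff_integrable hcE.aestronglyMeasurable
      (Filter.Eventually.of_forall fun g => (Real.exp_pos _).le)]
    exact ne_top_of_le_ne_top ENNReal.ofReal_ne_top hv
  have hEle : ∫ g, Real.exp (f g ^ 2 / 4) ∂gam J ≤ √2 := by
    rw [integral_eq_lintegral_of_nonneg_ae
      (Filter.Eventually.of_forall fun g => (Real.exp_pos _).le) hcE.aestronglyMeasurable]
    exact ENNReal.toReal_le_of_le_ofReal (Real.sqrt_nonneg 2) hv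
  have hpt : ∀ g, f g ^ 4 ≤ 32 * Real.exp (f g ^ 2 / 4) := by
    intro g
    have h1 := Real.quadratic_le_exp_of_nonneg (x := f g ^ 2 / 4) (by positivity)
    nlinarith [sq_nonneg (f g), sq_nonneg (f g ^ 2)]
  have hI4 : Integrable (fun g => f g ^ 4) (gam J) := by
    refine Integrable.mono' (hEint.const_mul 32) (by
      have : Continuous (fun g => f g ^ 4) := by fun_prop
      exact this.aestronglyMeasurable) (Filter.Eventually.of_forall fun g => ?_)
    rw [Real.norm_eq_abs, abs_of_nonneg (by positivity)]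
    exact hpt g
  refine ⟨hI4, ?_⟩
  calc ∫ g, f g ^ 4 ∂gam J ≤ ∫ g, 32 * Real.exp (f g ^ 2 / 4) ∂gam J :=
        integral_mono hI4 (hEint.const_mul 32) hpt
    _ = 32 * ∫ g, Real.exp (f g ^ 2 / 4) ∂gam J := integral_const_mul _ _
    _ ≤ 32 * √2 := by linarith
    _ ≤ 46 := by
        have h1 : √2 ≤ 1.4375 := by
          rw [Real.sqrt_le_left (by norm_num)]
          norm_num
        linarith

omit [Fintype I] in
theorem prb_lin_neg (i : I) (x : J → ℝ) : lin v i (-x) = -lin v i x := by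
  unfold lin
  rw [← Finset.sum_neg_distrib]
  exact Finset.sum_congr rfl fun j _ => by simp

omit [Fintype I] in
theorem prb_lin_cont (i : I) : Continuous (fun x : J → ℝ => lin v i x) := by
  unfold lin
  fun_prop

theorem prb_psi_odd (h : Sys v ρ R Y p ψ q χ z) (i : I) (g : J → ℝ) :
    ψ (lin v i (z (-g))) = -ψ (lin v i (z g)) := by
  rw [h.odd, prb_lin_neg, h.pot.ψ_odd]

theorem prb_psi_cont (h : Sys v ρ R Y p ψ q χ z) (i : I) :
    Continuous (fun g => ψ (lin v i (z g))) :=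
  h.pot.ψ_cont.comp ((prb_lin_cont i).comp h.cont)

theorem prb_psi_lip (h : Sys v ρ R Y p ψ q χ z) (i : I) (x y : J → ℝ) :
    (ψ (lin v i (z x)) - ψ (lin v i (z y))) ^ 2 ≤ nsq (x - y) := by
  have h1 := psi_lip h (K := Unit) (fun _ => i) (fun t t' htt => (htt rfl).elim) x y
  simpa using h1

theorem prb_chi_odd (h : Sys v ρ R Y p ψ q χ z) (j : J) (g : J → ℝ) :
    χ (z (-g) j) = -χ (z g j) := by
  rw [h.odd, Pi.neg_apply, h.unit.ψ_odd]

theorem prb_chi_cont (h : Sys v ρ R Y p ψ q χ z) (j : J) :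
    Continuous (fun g => χ (z g j)) :=
  h.unit.ψ_cont.comp ((continuous_apply j).comp h.cont)

theorem psi_tail (h : Sys v ρ R Y p ψ q χ z) (i : I) (y : ℝ) (hy : 0 ≤ y) :
    (gam J).real {g | y ≤ |ψ (lin v i (z g))|} ≤ 2 * Real.exp (-(y ^ 2 / 2)) :=
  prb_tail J (fun g => ψ (lin v i (z g))) (prb_psi_lip h i) (prb_psi_odd h i) y hy

theorem chi_tail (h : Sys v ρ R Y p ψ q χ z) (j : J) (y : ℝ) (hy : 0 ≤ y) :
    (gam J).real {g | y ≤ |χ (z g j)|} ≤ 2 * Real.exp (-(y ^ 2 / 2)) :=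
  prb_tail J (fun g => χ (z g j)) (chi_lip h j) (prb_chi_odd h j) y hy

theorem psi_joint (h : Sys v ρ R Y p ψ q χ z) (k : ℕ) (c : Fin k → I)
    (hd : ∀ t t', t ≠ t' → ¬ Adj v (c t) (c t')) (S : Finset (Fin k)) (y0 : ℝ) (hy : 0 ≤ y0) :
    (gam J).real {g | ∀ t ∈ S, y0 < |ψ (lin v (c t) (z g))|} ≤
      (√2 * Real.exp (-(y0 ^ 2 / 4))) ^ S.card := by
  have hv := vec_mgf J {t // t ∈ S} (fun x t => ψ (lin v (c t) (z x))) (fun x y => by
    have h1 := psi_lip h (K := {t // t ∈ S}) (fun t => c t)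
      (fun t t' htt => hd t t' (fun he => htt (Subtype.ext he))) x y
    unfold nsq at h1 ⊢
    simpa using h1) (fun x => by
    funext t
    simp only [Pi.neg_apply]
    exact prb_psi_odd h (c t) x)
  rw [Fintype.card_coe] at hv
  have hcE : Continuous (fun g => Real.exp (nsq (fun t : {t // t ∈ S} =>
      ψ (lin v (c t) (z g))) / 4)) := by
    unfold nsq
    refine Real.continuous_exp.comp (Continuous.div_const ?_ 4)
    exact continuous_finsetSum _ fun t _ => (prb_psi_cont h (c t)).pow 2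
  have hsub : {g | ∀ t ∈ S, y0 < |ψ (lin v (c t) (z g))|} ⊆
      {g | ENNReal.ofReal (Real.exp (S.card * y0 ^ 2 / 4)) ≤
        ENNReal.ofReal (Real.exp (nsq (fun t : {t // t ∈ S} => ψ (lin v (c t) (z g))) / 4))} := by
    intro g hg
    apply ENNReal.ofReal_le_ofReal
    apply Real.exp_le_exp.mpr
    have h1 : (S.card : ℝ) * y0 ^ 2 ≤ nsq (fun t : {t // t ∈ S} => ψ (lin v (c t) (z g))) := by
      unfold nsq
      have h2 : ∑ _t : {t // t ∈ S}, y0 ^ 2 = (S.card : ℝ) * y0 ^ 2 := by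
        rw [Finset.sum_const, Finset.card_univ, Fintype.card_coe, nsmul_eq_mul]
      rw [← h2]
      refine Finset.sum_le_sum fun t _ => ?_
      rw [← sq_abs (ψ (lin v (c t) (z g)))]
      exact pow_le_pow_left₀ hy (hg t t.2).le 2
    linarith
  have hmk := mul_meas_ge_le_lintegral₀ (μ := gam J)
    (f := fun g => ENNReal.ofReal (Real.exp (nsq (fun t : {t // t ∈ S} =>
      ψ (lin v (c t) (z g))) / 4)))
    (ENNReal.continuous_ofReal.comp hcE).measurable.aemeasurable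
    (ENNReal.ofReal (Real.exp (S.card * y0 ^ 2 / 4)))
  have hle : ENNReal.ofReal (Real.exp (S.card * y0 ^ 2 / 4)) *
      (gam J) {g | ∀ t ∈ S, y0 < |ψ (lin v (c t) (z g))|} ≤ ENNReal.ofReal (√2 ^ S.card) :=
    (mul_le_mul_right (measure_mono hsub) _).trans (hmk.trans hv)
  have hreal : Real.exp (S.card * y0 ^ 2 / 4) *
      (gam J).real {g | ∀ t ∈ S, y0 < |ψ (lin v (c t) (z g))|} ≤ √2 ^ S.card := by
    have h1 := ENNReal.toReal_mono ENNReal.ofReal_ne_top hle
    rw [ENNReal.toReal_mul, ENNReal.toReal_ofReal (Real.exp_pos _).le,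
      ENNReal.toReal_ofReal (by positivity)] at h1
    exact h1
  have hE := Real.exp_pos (S.card * y0 ^ 2 / 4)
  have h3 : (√2 * Real.exp (-(y0 ^ 2 / 4))) ^ S.card =
      √2 ^ S.card / Real.exp (S.card * y0 ^ 2 / 4) := by
    rw [mul_pow, ← Real.exp_nat_mul, eq_div_iff hE.ne', mul_assoc, ← Real.exp_add]
    have h4 : (S.card : ℝ) * -(y0 ^ 2 / 4) + S.card * y0 ^ 2 / 4 = 0 := by ring
    rw [h4, Real.exp_zero, mul_one]
  rw [h3, le_div_iff₀ hE]
  linarith

theorem psi_fourth (h : Sys v ρ R Y p ψ q χ z) (i : I) :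
    Integrable (fun g => ψ (lin v i (z g)) ^ 4) (gam J) ∧
      ∫ g, ψ (lin v i (z g)) ^ 4 ∂gam J ≤ 46 :=
  prb_fourth J (fun g => ψ (lin v i (z g))) (prb_psi_cont h i) (prb_psi_lip h i) (prb_psi_odd h i)

theorem chi_fourth (h : Sys v ρ R Y p ψ q χ z) (j : J) :
    Integrable (fun g => χ (z g j) ^ 4) (gam J) ∧ ∫ g, χ (z g j) ^ 4 ∂gam J ≤ 46 :=
  prb_fourth J (fun g => χ (z g j)) (prb_chi_cont h j) (chi_lip h j) (prb_chi_odd h j)

end Pool.Agent.SVR
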