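import Pool.Agent.SVR.Glu
import Pool.Agent.SVR.G2

set_option autoImplicit false

/-!
# [SVR-Zl2] linear forms of the (local) coordinates

`zbar_tail`: `F g = ∑ j, u j * clip (z g j)` is odd and, by Cauchy-Schwarz and `clip_lip`, `Sys.lip`,
`|F g - F g'| ≤ √(∑ u j^2) * √(nsq (z g - z g')) ≤ √A * √(nsq (g-g'))`: `odd_tail` with `L = √A`.
`zlin_tail`: `F g = ∑ j, u j * zloc z (B j) g j` is odd and
`|F g - F g'| ≤ ∑ |u j| √(∑ l ∈ B j, (g l - g' l)^2) ≤ √(∑ u j^2) √(∑ j ∑ l ∈ B j, (g l - g' l)^2)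
 ≤ √A √(M nsq (g - g'))` (every `l` lies in at most `M` sets `B j`): `odd_tail` with `L = √(M A)`.
-/

namespace Pool.Agent.SVR

open MeasureTheory Finset

open scoped Classical

variable {I J : Type} [Fintype I] [Fintype J]
variable {v : I → J → ℝ} {ρ R Y : ℝ} {p ψ q χ : ℝ → ℝ} {z : (J → ℝ) → (J → ℝ)}

theorem zl2_cs (u w : J → ℝ) (A W : ℝ) (hA0 : 0 ≤ A) (hA : ∑ j, u j ^ 2 ≤ A) (hW0 : 0 ≤ W)
    (hW : ∑ j, w j ^ 2 ≤ W) :
    |∑ j, u j * w j| ≤ √A * √W := by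
  refine abs_le_of_sq_le_sq ?_ (by positivity)
  rw [mul_pow, Real.sq_sqrt hA0, Real.sq_sqrt hW0]
  refine (Finset.sum_mul_sq_le_sq_mul_sq univ u w).trans ?_
  exact mul_le_mul hA hW (Finset.sum_nonneg fun _ _ => sq_nonneg _) hA0

theorem zbar_tail (h : Sys v ρ R Y p ψ q χ z) (u : J → ℝ) (A : ℝ) (hA : ∑ j, u j ^ 2 ≤ A)
    (hA0 : 0 < A) (t : ℝ) (ht : 0 ≤ t) :
    (gam J).real {g | t ≤ |∑ j, u j * clip (z g j)|} ≤ 2 * Real.exp (-(t ^ 2 / (2 * A))) := by
  have hodd : ∀ x : J → ℝ, ∑ j, u j * clip (z (-x) j) = -∑ j, u j * clip (z x j) := by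
    intro x
    rw [← Finset.sum_neg_distrib]
    refine Finset.sum_congr rfl fun j _ => ?_
    rw [h.odd, Pi.neg_apply, clip_odd]; ring
  have hlip : ∀ x y : J → ℝ, |∑ j, u j * clip (z x j) - ∑ j, u j * clip (z y j)| ≤
      √A * √(nsq (x - y)) := by
    intro x y
    rw [← Finset.sum_sub_distrib]
    have e1 : ∀ j, u j * clip (z x j) - u j * clip (z y j) = u j * (clip (z x j) - clip (z y j)) :=
      fun j => by ring
    simp only [e1]
    refine zl2_cs u _ A _ hA0.le hA (Finset.sum_nonneg fun _ _ => sq_nonneg _) ?_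
    refine le_trans ?_ (h.lip x y)
    unfold nsq
    refine Finset.sum_le_sum fun j _ => ?_
    rw [Pi.sub_apply]
    exact sq_le_sq.mpr (clip_lip _ _)
  have := odd_tail J (fun g => ∑ j, u j * clip (z g j)) (√A) (Real.sqrt_pos.mpr hA0) hlip hodd t ht
  rwa [Real.sq_sqrt hA0.le] at this

theorem zlin_tail (h : Sys v ρ R Y p ψ q χ z) (B : J → Finset J) (M : ℝ) (hM0 : 0 < M)
    (hM : ∀ l, ((univ.filter fun j => l ∈ B j).card : ℝ) ≤ M) (u : J → ℝ) (A : ℝ)
    (hA : ∑ j, u j ^ 2 ≤ A) (hA0 : 0 < A) (t : ℝ) (ht : 0 ≤ t) :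
    (gam J).real {g | t ≤ |∑ j, u j * zloc z (B j) g j|} ≤
      2 * Real.exp (-(t ^ 2 / (2 * (M * A)))) := by
  have hMA : 0 < M * A := by positivity
  have hodd : ∀ x : J → ℝ, ∑ j, u j * zloc z (B j) (-x) j = -∑ j, u j * zloc z (B j) x j := by
    intro x
    rw [← Finset.sum_neg_distrib]
    refine Finset.sum_congr rfl fun j _ => ?_
    rw [zloc_odd h]; ring
  have hlip : ∀ x y : J → ℝ, |∑ j, u j * zloc z (B j) x j - ∑ j, u j * zloc z (B j) y j| ≤
      √(M * A) * √(nsq (x - y)) := by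
    intro x y
    rw [← Finset.sum_sub_distrib]
    have e1 : ∀ j, u j * zloc z (B j) x j - u j * zloc z (B j) y j =
        u j * (zloc z (B j) x j - zloc z (B j) y j) := fun j => by ring
    simp only [e1]
    have hn : 0 ≤ nsq (x - y) := Finset.sum_nonneg fun _ _ => sq_nonneg _
    have e2 : √(M * A) * √(nsq (x - y)) = √A * √(M * nsq (x - y)) := by
      rw [Real.sqrt_mul hM0.le, Real.sqrt_mul hM0.le]; ring
    rw [e2]
    refine zl2_cs u _ A _ hA0.le hA (by positivity) ?_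
    have e3 : ∑ j, (zloc z (B j) x j - zloc z (B j) y j) ^ 2 ≤
        ∑ j, ∑ l ∈ B j, (x l - y l) ^ 2 := by
      refine Finset.sum_le_sum fun j _ => ?_
      have e4 : 0 ≤ ∑ l ∈ B j, (x l - y l) ^ 2 := Finset.sum_nonneg fun _ _ => sq_nonneg _
      calc (zloc z (B j) x j - zloc z (B j) y j) ^ 2
          = |zloc z (B j) x j - zloc z (B j) y j| ^ 2 := (sq_abs _).symm
        _ ≤ (√(∑ l ∈ B j, (x l - y l) ^ 2)) ^ 2 :=
            pow_le_pow_left₀ (abs_nonneg _) (zloc_lip h (B j) x y j) 2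
        _ = _ := Real.sq_sqrt e4
    refine e3.trans ?_
    have e5 : ∑ j, ∑ l ∈ B j, (x l - y l) ^ 2 =
        ∑ l, ((univ.filter fun j => l ∈ B j).card : ℝ) * (x l - y l) ^ 2 := by
      have e6 : ∀ j, ∑ l ∈ B j, (x l - y l) ^ 2 = ∑ l, if l ∈ B j then (x l - y l) ^ 2 else 0 := by
        intro j
        rw [← Finset.sum_filter]
        congr 1
        ext l; simp
      simp only [e6]
      rw [Finset.sum_comm]
      refine Finset.sum_congr rfl fun l _ => ?_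
      rw [← Finset.sum_filter, Finset.sum_const, nsmul_eq_mul]
    rw [e5]
    unfold nsq
    rw [Finset.mul_sum]
    refine Finset.sum_le_sum fun l _ => ?_
    rw [Pi.sub_apply]
    exact mul_le_mul_of_nonneg_right (hM l) (sq_nonneg _)
  have := odd_tail J (fun g => ∑ j, u j * zloc z (B j) g j) (√(M * A)) (Real.sqrt_pos.mpr hMA)
    hlip hodd t ht
  rwa [Real.sq_sqrt hMA.le] at this

end Pool.Agent.SVR
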