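import Pool.Agent.SVR.En
import Pool.Agent.SVR.Det
import Pool.Agent.SVR.Zl2
import Pool.Agent.SVR.Prb

set_option autoImplicit false

/-!
# [SVR-Row] probability of the bad event of a row

Let `α j = |V j| √(1-|x j|) ∈ [0,1]`, `E = ∑ α ≤ ρ`, `zb j = clip (z g j)`, `zl j = zloc z (B j) g j`.
The event is contained in the union of
(a) `ρ/(384*10^12) < |∑ α σ zb|`: `zbar_tail` with `u = α σ`, `A = ρ` (`∑ α^2 ≤ ∑ α ≤ ρ`): probability
   `≤ 2 exp (-(ρ/(2*(384*10^12)^2))) ≤ 2 exp (-(ρ/10^31))`;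
(b) if `ρ/2 ≤ E` (then `E ≥ 10^16`): `∑ α zb^2 < E/(8*10^12)`: `energy_low`,
   `≤ 2 exp (-(E/(128*10^12))) ≤ 2 exp (-(ρ/10^31))`; (nothing if `E < ρ/2`);
(c) `Y ≤ |ψ (lin v i (z g))|` (`psi_tail`), and `Y ≤ |χ (z g j)|` for the `≤ D` columns with
   `v i j ≠ 0` (`chi_tail`): `≤ (D+1) * 2 exp (-(Y^2/2))`;
(d) `t < |clip (z g j) - zloc z (B j) g j|` for a column with `v i j ≠ 0`: `≤ D P0`.
(`α j ≠ 0` iff `v i j ≠ 0`: both mean `V j ≠ 0` and `|x j| < 1`.)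
Outside these events: `|lin v i (z g)| ≤ 4√√(ρR)` (A3), `|z g j| ≤ 1` on the support (A3 of the unit
potential), so `zb j = z g j` there and
`|∑ v i j zl j| ≤ |lin v i (z g)| + t ∑ |v i j| ≤ 4√√(ρR) + ρ t ≤ .. + 1`; and `row_det` excludes the second
alternative.
-/

namespace Pool.Agent.SVR

open MeasureTheory Finset

open scoped Classical

variable {I J : Type} [Fintype I] [Fintype J]
variable {v : I → J → ℝ} {ρ R Y : ℝ} {p ψ q χ : ℝ → ℝ} {z : (J → ℝ) → (J → ℝ)}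

omit [Fintype J] in
theorem Row_alpha (V x : J → ℝ) (hV : ∀ j, |V j| ≤ 1) (j : J) :
    0 ≤ |V j| * √(1 - |x j|) ∧ |V j| * √(1 - |x j|) ≤ 1 := by
  have h1 : 0 ≤ √(1 - |x j|) := Real.sqrt_nonneg _
  have h2 : √(1 - |x j|) ≤ 1 := by
    rw [Real.sqrt_le_one]
    have := abs_nonneg (x j)
    linarith
  have h3 := abs_nonneg (V j)
  exact ⟨mul_nonneg h3 h1, mul_le_one₀ (hV j) h1 h2⟩

theorem Row_sg (a : ℝ) : sg a ^ 2 = 1 := by
  unfold sg
  split_ifs <;> norm_num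

theorem Row_A (h : Sys v ρ R Y p ψ q χ z) (V x : J → ℝ)
    (hV : ∀ j, |V j| ≤ 1)
    (hE : ∑ j, |V j| * √(1 - |x j|) ≤ ρ) (hρ : 10 ^ 17 ≤ ρ) :
    (gam J).real {g | ρ / (384 * 10 ^ 12) ≤
        |∑ j, |V j| * √(1 - |x j|) * sg (x j) * clip (z g j)|} ≤
      2 * Real.exp (-(ρ / 10 ^ 31)) := by
  have hρ0 : 0 < ρ := h.ρ_pos
  have h1 := zbar_tail h (fun j => |V j| * √(1 - |x j|) * sg (x j)) ρ ?_ hρ0
    (ρ / (384 * 10 ^ 12)) (by positivity)
  · refine h1.trans ?_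
    have h2 : ρ / 10 ^ 31 ≤ (ρ / (384 * 10 ^ 12)) ^ 2 / (2 * ρ) := by
      have e : (ρ / (384 * 10 ^ 12)) ^ 2 / (2 * ρ) = ρ / (2 * (384 * 10 ^ 12) ^ 2) := by
        field_simp
      rw [e]
      exact div_le_div_of_nonneg_left hρ0.le (by positivity) (by norm_num)
    have h3 := Real.exp_le_exp.mpr (neg_le_neg h2)
    linarith
  · refine le_trans (Finset.sum_le_sum fun j _ => ?_) hE
    obtain ⟨h2, h3⟩ := Row_alpha V x hV j
    rw [mul_pow, Row_sg, mul_one, sq]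
    exact mul_le_of_le_one_left h2 h3

theorem Row_B (h : Sys v ρ R Y p ψ q χ z) (hY : 10 ≤ Y) (V x : J → ℝ)
    (hV : ∀ j, |V j| ≤ 1) (hρ : 10 ^ 17 ≤ ρ) :
    (gam J).real {g | ρ / 2 ≤ ∑ j, |V j| * √(1 - |x j|) ∧
        ∑ j, |V j| * √(1 - |x j|) * clip (z g j) ^ 2 <
          (∑ j, |V j| * √(1 - |x j|)) / (8 * 10 ^ 12)} ≤
      2 * Real.exp (-(ρ / 10 ^ 31)) := by
  by_cases hh : ρ / 2 ≤ ∑ j, |V j| * √(1 - |x j|)
  · have h1 := energy_low h hY (fun j => |V j| * √(1 - |x j|))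
      (fun j => (Row_alpha V x hV j).1) (fun j => (Row_alpha V x hV j).2)
      (by linarith)
    refine le_trans (measureReal_mono ?_) (h1.trans ?_)
    · intro g hg
      exact hg.2
    · have h2 : ρ / 10 ^ 31 ≤ (∑ j, |V j| * √(1 - |x j|)) / (128 * 10 ^ 12) := by
        have hρ0 : 0 < ρ := h.ρ_pos
        calc ρ / 10 ^ 31 ≤ ρ / 2 / (128 * 10 ^ 12) := by
              rw [div_div]
              exact div_le_div_of_nonneg_left hρ0.le (by positivity) (by norm_num)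
          _ ≤ _ := by gcongr
      have h3 := Real.exp_le_exp.mpr (neg_le_neg h2)
      linarith
  · have e : {g : J → ℝ | ρ / 2 ≤ ∑ j, |V j| * √(1 - |x j|) ∧
        ∑ j, |V j| * √(1 - |x j|) * clip (z g j) ^ 2 <
          (∑ j, |V j| * √(1 - |x j|)) / (8 * 10 ^ 12)} = ∅ := by
      ext g
      constructor
      · intro hg
        exact absurd hg.1 hh
      · intro hg
        exact absurd hg (Set.notMem_empty g)
    rw [e, measureReal_empty]
    positivity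

/-- the deterministic inclusion -/
theorem Row_incl (h : Sys v ρ R Y p ψ q χ z) (i : I) (V x : J → ℝ)
    (hx : ∀ j, |x j| ≤ 1) (hv : ∀ j, v i j = V j * (1 - |x j|))
    (hE : ∑ j, |V j| * √(1 - |x j|) ≤ ρ) (B : J → Finset J) (t : ℝ)
    (ht : 0 < t) (ht1 : t ≤ 1 / 10 ^ 16) (htρ : ρ * t ≤ 1) (g : J → ℝ)
    (h1 : |∑ j, |V j| * √(1 - |x j|) * sg (x j) * clip (z g j)| < ρ / (384 * 10 ^ 12))
    (h2 : ρ / 2 ≤ ∑ j, |V j| * √(1 - |x j|) →
      (∑ j, |V j| * √(1 - |x j|)) / (8 * 10 ^ 12) ≤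
        ∑ j, |V j| * √(1 - |x j|) * clip (z g j) ^ 2)
    (h3 : |ψ (lin v i (z g))| < Y) (h4 : ∀ j, v i j ≠ 0 → |χ (z g j)| < Y)
    (h5 : ∀ j, v i j ≠ 0 → |clip (z g j) - zloc z (B j) g j| ≤ t) :
    |∑ j, v i j * zloc z (B j) g j| ≤ 4 * √√(ρ * R) + 1 ∧
        ∑ j, |V j| * √(1 - |x j + (1 - |x j|) * zloc z (B j) g j|) ≤ (1 - 1 / 10 ^ 15) * ρ := by
  constructor
  · have e1 : |lin v i (z g)| ≤ 4 * √√(ρ * R) := h.pot.A3 _ h3.le
    have e2 : ∑ j, v i j * zloc z (B j) g j =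
        lin v i (z g) - ∑ j, v i j * (z g j - zloc z (B j) g j) := by
      unfold lin
      rw [← Finset.sum_sub_distrib]
      exact Finset.sum_congr rfl fun j _ => by ring
    have e3 : |∑ j, v i j * (z g j - zloc z (B j) g j)| ≤ ρ * t := by
      calc |∑ j, v i j * (z g j - zloc z (B j) g j)|
          ≤ ∑ j, |v i j * (z g j - zloc z (B j) g j)| := Finset.abs_sum_le_sum_abs _ _
        _ ≤ ∑ j, |v i j| * t := by
            refine Finset.sum_le_sum fun j _ => ?_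
            rw [abs_mul]
            by_cases hj : v i j = 0
            · rw [hj, abs_zero, zero_mul, zero_mul]
            · have k1 : |z g j| ≤ 1 := h.unit.A3 _ (h4 j hj).le
              have k2 := h5 j hj
              rw [clip_eq _ k1] at k2
              exact mul_le_mul_of_nonneg_left k2 (abs_nonneg _)
        _ = (∑ j, |v i j|) * t := by rw [Finset.sum_mul]
        _ ≤ ρ * t := mul_le_mul_of_nonneg_right (h.row i) ht.le
    rw [e2]
    have := abs_sub (lin v i (z g)) (∑ j, v i j * (z g j - zloc z (B j) g j))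
    linarith
  · refine row_det V x (fun j => zloc z (B j) g j) (fun j => clip (z g j)) ρ t h.ρ_pos.le ht.le ht1
      hx (fun j => zloc_abs h _ _ _) (fun j => clip_abs _) hE ?_ h1.le h2
    intro j hj
    refine h5 j ?_
    rw [hv j]
    have k1 : |V j| ≠ 0 := left_ne_zero_of_mul hj
    have k2 : √(1 - |x j|) ≠ 0 := right_ne_zero_of_mul hj
    refine mul_ne_zero (abs_ne_zero.mp k1) fun k3 => k2 ?_
    rw [k3, Real.sqrt_zero]

theorem row_prob (h : Sys v ρ R Y p ψ q χ z) (hY : 10 ≤ Y) (i : I) (V x : J → ℝ)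
    (hV : ∀ j, |V j| ≤ 1) (hx : ∀ j, |x j| ≤ 1) (hv : ∀ j, v i j = V j * (1 - |x j|))
    (hE : ∑ j, |V j| * √(1 - |x j|) ≤ ρ) (hρ : 10 ^ 17 ≤ ρ) (B : J → Finset J) (t P0 : ℝ)
    (ht : 0 < t) (ht1 : t ≤ 1 / 10 ^ 16) (htρ : ρ * t ≤ 1) (hP0 : 0 ≤ P0)
    (hP : ∀ j, (gam J).real {g | t < |clip (z g j) - zloc z (B j) g j|} ≤ P0) (D : ℕ)
    (hD : (univ.filter fun j => v i j ≠ 0).card ≤ D) :
    (gam J).real {g | 4 * √√(ρ * R) + 1 < |∑ j, v i j * zloc z (B j) g j| ∨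
        (1 - 1 / 10 ^ 15) * ρ < ∑ j, |V j| * √(1 - |x j + (1 - |x j|) * zloc z (B j) g j|)} ≤
      4 * Real.exp (-(ρ / 10 ^ 31)) + 2 * (D + 1) * Real.exp (-(Y ^ 2 / 2)) + D * P0 := by
  set N : Finset J := univ.filter fun j => v i j ≠ 0 with hN
  set S1 : Set (J → ℝ) := {g | ρ / (384 * 10 ^ 12) ≤
        |∑ j, |V j| * √(1 - |x j|) * sg (x j) * clip (z g j)|} with hS1
  set S2 : Set (J → ℝ) := {g | ρ / 2 ≤ ∑ j, |V j| * √(1 - |x j|) ∧
        ∑ j, |V j| * √(1 - |x j|) * clip (z g j) ^ 2 <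
          (∑ j, |V j| * √(1 - |x j|)) / (8 * 10 ^ 12)} with hS2
  set S3 : Set (J → ℝ) := {g | Y ≤ |ψ (lin v i (z g))|} with hS3
  set S4 : Set (J → ℝ) := ⋃ j ∈ N, {g | Y ≤ |χ (z g j)|} with hS4
  set S5 : Set (J → ℝ) := ⋃ j ∈ N, {g | t < |clip (z g j) - zloc z (B j) g j|} with hS5
  have hY0 : 0 ≤ Y := by linarith
  have b1 : (gam J).real S1 ≤ 2 * Real.exp (-(ρ / 10 ^ 31)) := Row_A h V x hV hE hρ
  have b2 : (gam J).real S2 ≤ 2 * Real.exp (-(ρ / 10 ^ 31)) := Row_B h hY V x hV hρ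
  have b3 : (gam J).real S3 ≤ 2 * Real.exp (-(Y ^ 2 / 2)) := psi_tail h i Y hY0
  have cD : (N.card : ℝ) ≤ D := by exact_mod_cast hD
  have b4 : (gam J).real S4 ≤ D * (2 * Real.exp (-(Y ^ 2 / 2))) := by
    calc (gam J).real S4 ≤ ∑ j ∈ N, (gam J).real {g | Y ≤ |χ (z g j)|} :=
          measureReal_biUnion_finset_le _ _
      _ ≤ ∑ j ∈ N, 2 * Real.exp (-(Y ^ 2 / 2)) :=
          Finset.sum_le_sum fun j _ => chi_tail h j Y hY0
      _ = N.card * (2 * Real.exp (-(Y ^ 2 / 2))) := by rw [Finset.sum_const, nsmul_eq_mul]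
      _ ≤ _ := mul_le_mul_of_nonneg_right cD (by positivity)
  have b5 : (gam J).real S5 ≤ D * P0 := by
    calc (gam J).real S5 ≤ ∑ j ∈ N, (gam J).real {g | t < |clip (z g j) - zloc z (B j) g j|} :=
          measureReal_biUnion_finset_le _ _
      _ ≤ ∑ j ∈ N, P0 := Finset.sum_le_sum fun j _ => hP j
      _ = N.card * P0 := by rw [Finset.sum_const, nsmul_eq_mul]
      _ ≤ _ := mul_le_mul_of_nonneg_right cD hP0
  have hsub : {g | 4 * √√(ρ * R) + 1 < |∑ j, v i j * zloc z (B j) g j| ∨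
        (1 - 1 / 10 ^ 15) * ρ < ∑ j, |V j| * √(1 - |x j + (1 - |x j|) * zloc z (B j) g j|)} ⊆
      S1 ∪ (S2 ∪ (S3 ∪ (S4 ∪ S5))) := by
    intro g hg
    by_contra hcon
    simp only [Set.mem_union, not_or] at hcon
    obtain ⟨c1, c2, c3, c4, c5⟩ := hcon
    have c1' : |∑ j, |V j| * √(1 - |x j|) * sg (x j) * clip (z g j)| < ρ / (384 * 10 ^ 12) :=
      not_le.mp c1
    have c2' : ρ / 2 ≤ ∑ j, |V j| * √(1 - |x j|) →
      (∑ j, |V j| * √(1 - |x j|)) / (8 * 10 ^ 12) ≤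
        ∑ j, |V j| * √(1 - |x j|) * clip (z g j) ^ 2 := by
      intro hh
      by_contra hcc
      exact c2 ⟨hh, not_le.mp hcc⟩
    have c3' : |ψ (lin v i (z g))| < Y := not_le.mp c3
    have c4' : ∀ j, v i j ≠ 0 → |χ (z g j)| < Y := by
      intro j hj
      by_contra hcc
      refine c4 ?_
      rw [hS4]
      exact Set.mem_biUnion (show j ∈ N from Finset.mem_filter.mpr ⟨Finset.mem_univ j, hj⟩)
        (not_lt.mp hcc)
    have c5' : ∀ j, v i j ≠ 0 → |clip (z g j) - zloc z (B j) g j| ≤ t := by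
      intro j hj
      by_contra hcc
      refine c5 ?_
      rw [hS5]
      exact Set.mem_biUnion (show j ∈ N from Finset.mem_filter.mpr ⟨Finset.mem_univ j, hj⟩)
        (not_le.mp hcc)
    obtain ⟨r1, r2⟩ := Row_incl h i V x hx hv hE B t ht ht1 htρ g c1' c2' c3' c4' c5'
    rcases hg with hg | hg
    · exact absurd hg (not_lt.mpr r1)
    · exact absurd hg (not_lt.mpr r2)
  refine (measureReal_mono hsub).trans ?_
  have u1 := measureReal_union_le (μ := gam J) S1 (S2 ∪ (S3 ∪ (S4 ∪ S5)))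
  have u2 := measureReal_union_le (μ := gam J) S2 (S3 ∪ (S4 ∪ S5))
  have u3 := measureReal_union_le (μ := gam J) S3 (S4 ∪ S5)
  have u4 := measureReal_union_le (μ := gam J) S4 S5
  have e : 2 * ((D : ℝ) + 1) * Real.exp (-(Y ^ 2 / 2)) =
      2 * Real.exp (-(Y ^ 2 / 2)) + D * (2 * Real.exp (-(Y ^ 2 / 2))) := by ring
  rw [e]
  linarith

end Pool.Agent.SVR
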