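import Pool.Agent.SVR.PhC
import Pool.Agent.SVR.Row
import Pool.Agent.SVR.Lll
import Pool.Agent.SVR.Glu

set_option autoImplicit false

/-!
# [SVR-PhD] one phase from the local lemma
-/

namespace Pool.Agent.SVR

open MeasureTheory Finset

open scoped Classical

variable {I J : Type} [Fintype I] [Fintype J]

/-- the bad set of an event -/
def evA (R ρ : ℝ) (V Vb v : I → J → ℝ) (x : J → ℝ)
    (zl : (J → ℝ) → J → ℝ) (K : ℕ) : I ⊕ (I × Fin K) → Set (J → ℝ)
  | Sum.inl i => {g | 4 * √√(ρ * R) + 1 < |∑ j, v i j * zl g j| ∨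
        (1 - 1 / 10 ^ 15) * ρ < ∑ j, |Vb i j| * √(1 - |x j + (1 - |x j|) * zl g j|)}
  | Sum.inr (i, κ) => {g | √√(sc R κ) < ∑ j ∈ pcs R (V i) κ, |V i j| ∧
        √√(sc R κ) + (R ^ 2)⁻¹ * ∑ j ∈ pcs R (V i) κ, |V i j| <
        |∑ j ∈ pcs R (V i) κ, V i j * (1 - |x j|) * zl g j|}

/-- local lemma with the neighbour sum -/
theorem lll_nb (J E : Type) [Fintype J] [Fintype E] (A : E → Set (J → ℝ))
    (hA : ∀ e, MeasurableSet (A e)) (cols : E → Finset J) (B : J → Finset J)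
    (hS : ∀ e g g', (∀ j ∈ (cols e).biUnion B, g j = g' j) → g ∈ A e → g' ∈ A e) (x : E → ℝ)
    (hx0 : ∀ e, 0 ≤ x e) (hx1 : ∀ e, x e ≤ 1 / 2) (M X : ℝ) (hM1 : ∀ j, ((B j).card : ℝ) ≤ M)
    (hM2 : ∀ l, ((univ.filter (fun j => l ∈ B j)).card : ℝ) ≤ M)
    (hX : ∀ j, ∑ e ∈ univ.filter (fun e => j ∈ cols e), x e ≤ X)
    (hp : ∀ e, (gam J).real (A e) ≤ x e * Real.exp (-(2 * (((cols e).card : ℝ) * M ^ 2 * X)))) :
    ∃ g, ∀ e, g ∉ A e := by
  refine lll_gam J E A hA (fun e => (cols e).biUnion B) hS x hx0 hx1 fun e => ?_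
  refine (hp e).trans (mul_le_mul_of_nonneg_left (Real.exp_le_exp.2 (neg_le_neg
    (mul_le_mul_of_nonneg_left ?_ (by norm_num)))) (hx0 e))
  exact nb_sum J E cols B M hM1 hM2 x hx0 X hX e

theorem phase_core (R ρ : ℝ) (V Vb v : I → J → ℝ) (x : J → ℝ)
    (p ψ q χ : ℝ → ℝ) (z : (J → ℝ) → (J → ℝ))
    (hVb : ∀ i j, Vb i j = if (R ^ 10)⁻¹ < |V i j| then V i j else 0)
    (hv : ∀ i j, v i j = Vb i j * (1 - |x j|))
    (h : Sys v ρ R R p ψ q χ z) (hR : 10 ≤ R)
    (hV1 : ∀ i j, |V i j| ≤ 1) (hrow : ∀ i, ∑ j, |V i j| ≤ R) (hcol : ∀ j, ∑ i, |V i j| ≤ R)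
    (hx : ∀ j, |x j| ≤ 1) (hE : ∀ i, ∑ j, |Vb i j| * √(1 - |x j|) ≤ ρ)
    (hρ : 10 ^ 17 ≤ ρ) (hρR : ρ ≤ R)
    (B : J → Finset J) (D : ℕ) (M P0 : ℝ)
    (hM2 : 2 ≤ M) (hM5 : 5 * R ^ 11 ≤ M) (hD : (D : ℝ) ≤ R ^ 11)
    (hD1 : ∀ i, (univ.filter fun j => v i j ≠ 0).card ≤ D)
    (hMa : ∀ j, ((B j).card : ℝ) ≤ M)
    (hMb : ∀ l, ((univ.filter fun j => l ∈ B j).card : ℝ) ≤ M)
    (hP0 : 0 ≤ P0)
    (hP : ∀ j, (gam J).real {g | (R ^ 3)⁻¹ < |clip (z g j) - zloc z (B j) g j|} ≤ P0)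
    (ht16 : (R ^ 3)⁻¹ ≤ 1 / 10 ^ 16)
    (hnr : 4 * Real.exp (-(ρ / 10 ^ 31)) + 2 * (D + 1) * Real.exp (-(R ^ 2 / 2)) + D * P0 ≤
      (M ^ 10)⁻¹ / 2)
    (hsmall : ∀ κ : ℕ, (4 : ℝ) ^ κ ≤ M ^ 16 → 2 * Real.exp (-(R ^ 4 * √2 ^ κ / 2)) +
      4 * P0 / (R ^ 2)⁻¹ ≤ (4 ^ κ)⁻¹ * (M ^ 10)⁻¹ / 8)
    (hlarge : ∀ (κ : ℕ) (N : ℝ), M ^ 6 ≤ N → (4 : ℝ) ^ κ ≤ N ^ 3 →
      2 * Real.exp (-(N / (4 * R ^ 4 * M))) ≤
      (4 ^ κ)⁻¹ * (M ^ 10)⁻¹ * Real.exp (-(2 * (N * (M ^ 7)⁻¹)))) :
    ∃ x' : J → ℝ, (∀ j, |x' j| ≤ 1) ∧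
      (∀ i, ∑ j, |Vb i j| * √(1 - |x' j|) ≤ (1 - 1 / 10 ^ 15) * ρ) ∧
      ∀ i, |∑ j, V i j * (x' j - x j)| ≤ 4 * √√(ρ * R) + 3 := by
  have hR0 : 0 < R := by linarith
  have hR1 : 1 ≤ R := by linarith
  have hM0 : 0 < M := by linarith
  -- a lower bound for the nonzero entries
  obtain ⟨K, hK⟩ : ∃ K : ℕ, ∀ i j, V i j ≠ 0 → sc R K < |V i j| := by
    have h1 : ∀ i j, ∃ K : ℕ, V i j ≠ 0 → ∀ K', K ≤ K' → sc R K' < |V i j| := by
      intro i j
      by_cases hij : V i j = 0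
      · exact ⟨0, fun hne => absurd hij hne⟩
      · obtain ⟨K, hK⟩ := exists_pow_lt_of_lt_one (abs_pos.2 hij) (by norm_num : (1 / 2 : ℝ) < 1)
        refine ⟨K, fun _ K' hK' => ?_⟩
        have h2 : (1 / 2 : ℝ) ^ K' ≤ (1 / 2) ^ K :=
          pow_le_pow_of_le_one (by norm_num) (by norm_num) hK'
        have h3 : (R ^ 10)⁻¹ ≤ 1 := inv_le_one_of_one_le₀ (one_le_pow₀ hR1)
        unfold sc
        calc (R ^ 10)⁻¹ * (1 / 2 : ℝ) ^ K' ≤ 1 * (1 / 2) ^ K' :=
              mul_le_mul_of_nonneg_right h3 (by positivity)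
          _ ≤ (1 / 2) ^ K := by rw [one_mul]; exact h2
          _ < |V i j| := hK
    choose f hf using h1
    refine ⟨∑ i, ∑ j, f i j, fun i j hij => hf i j hij _ ?_⟩
    calc f i j ≤ ∑ j', f i j' := single_le_sum (f := fun j' => f i j') (fun _ _ => Nat.zero_le _)
          (mem_univ j)
      _ ≤ ∑ i', ∑ j', f i' j' :=
          single_le_sum (f := fun i' => ∑ j', f i' j') (fun _ _ => Nat.zero_le _) (mem_univ i)
  set zl : (J → ℝ) → J → ℝ := fun g j => zloc z (B j) g j with hzl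
  have hvne : ∀ i j, v i j ≠ 0 → (R ^ 10)⁻¹ < |V i j| := by
    intro i j hne
    by_contra hcon
    apply hne
    rw [hv, hVb, if_neg hcon, zero_mul]
  have hVb1 : ∀ i j, |Vb i j| ≤ 1 := by
    intro i j
    rw [hVb]
    split_ifs
    · exact hV1 i j
    · simp
  have hzlm : ∀ j, Measurable fun g => zl g j := fun j => zloc_meas h (B j) j
  -- the local lemma
  have hmeas : ∀ e, MeasurableSet (evA R ρ V Vb v x zl K e) := by
    intro e
    rcases e with i | ⟨i, κ⟩
    · unfold evA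
      refine MeasurableSet.union ?_ ?_
      · have h1 : Measurable fun g : J → ℝ => |∑ j, v i j * zl g j| := by fun_prop
        exact measurableSet_lt measurable_const h1
      · have h3 : ∀ j, Measurable fun g : J → ℝ =>
            |Vb i j| * √(1 - |x j + (1 - |x j|) * zl g j|) := by
          intro j
          have h1 := hzlm j
          have h2 : Measurable fun g => 1 - |x j + (1 - |x j|) * zl g j| := by fun_prop
          exact (Real.continuous_sqrt.measurable.comp h2).const_mul _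
        have h4 : Measurable fun g : J → ℝ =>
            ∑ j, |Vb i j| * √(1 - |x j + (1 - |x j|) * zl g j|) := by fun_prop
        exact measurableSet_lt measurable_const h4
    · unfold evA
      refine MeasurableSet.inter ?_ ?_
      · exact MeasurableSet.const _
      · have h1 : Measurable fun g : J → ℝ =>
            |∑ j ∈ pcs R (V i) κ, V i j * (1 - |x j|) * zl g j| := by fun_prop
        exact measurableSet_lt measurable_const h1
  have hdep : ∀ e (g g' : J → ℝ), (∀ j ∈ (evc R V v K e).biUnion B, g j = g' j) →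
      g ∈ evA R ρ V Vb v x zl K e → g' ∈ evA R ρ V Vb v x zl K e := by
    intro e g g' hgg hg
    have hzz : ∀ j ∈ evc R V v K e, zl g j = zl g' j := by
      intro j hj
      refine zloc_dep (B j) g g' (fun l hl => hgg l ?_) j
      rw [mem_biUnion]
      exact ⟨j, hj, hl⟩
    rcases e with i | ⟨i, κ⟩
    · unfold evA at hg ⊢
      rw [Set.mem_ofPred_eq] at hg ⊢
      have e1 : ∀ j, v i j * zl g j = v i j * zl g' j := by
        intro j
        by_cases hj : v i j = 0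
        · rw [hj, zero_mul, zero_mul]
        · rw [hzz j (by unfold evc; exact mem_filter.2 ⟨mem_univ _, hj⟩)]
      have e2 : ∀ j, |Vb i j| * √(1 - |x j + (1 - |x j|) * zl g j|) =
          |Vb i j| * √(1 - |x j + (1 - |x j|) * zl g' j|) := by
        intro j
        by_cases hj : v i j = 0
        · rw [hv] at hj
          rcases mul_eq_zero.1 hj with hj | hj
          · rw [hj, abs_zero, zero_mul, zero_mul]
          · rw [hj, zero_mul, zero_mul]
        · rw [hzz j (by unfold evc; exact mem_filter.2 ⟨mem_univ _, hj⟩)]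
      rw [sum_congr rfl fun j _ => e1 j, sum_congr rfl fun j _ => e2 j] at hg
      exact hg
    · unfold evA at hg ⊢
      rw [Set.mem_ofPred_eq] at hg ⊢
      refine ⟨hg.1, ?_⟩
      have e1 : ∀ j ∈ pcs R (V i) κ, V i j * (1 - |x j|) * zl g j =
          V i j * (1 - |x j|) * zl g' j := by
        intro j hj
        rw [hzz j (by
          unfold evc
          simp only
          rw [if_pos hg.1]
          exact hj)]
      have h2 := hg.2
      rw [sum_congr rfl e1] at h2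
      exact h2
  have hprob : ∀ e, (gam J).real (evA R ρ V Vb v x zl K e) ≤
      evx M K e * Real.exp (-(2 * (((evc R V v K e).card : ℝ) * (M ^ 7)⁻¹))) := by
    intro e
    rcases e with i | ⟨i, κ⟩
    · have h1 := row_prob h (by linarith) i (Vb i) x (hVb1 i) hx (hv i) (hE i) hρ B ((R ^ 3)⁻¹) P0
        (by positivity) ht16 (by
          rw [← div_eq_mul_inv, div_le_one (by positivity)]
          calc ρ ≤ R := hρR
            _ ≤ R ^ 3 := le_self_pow₀ hR1 (by norm_num)) hP0 hP D (hD1 i)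
      refine (h1.trans hnr).trans ?_
      have h2 : ((evc R V v K (Sum.inl i)).card : ℝ) * (M ^ 7)⁻¹ ≤ 1 / 4 := by
        have h3 : ((evc R V v K (Sum.inl i)).card : ℝ) ≤ M := by
          calc ((evc R V v K (Sum.inl i)).card : ℝ) ≤ (D : ℝ) := by
                exact_mod_cast (hD1 i)
            _ ≤ R ^ 11 := hD
            _ ≤ 5 * R ^ 11 := by
                have : 0 ≤ R ^ 11 := by positivity
                linarith
            _ ≤ M := hM5
        calc ((evc R V v K (Sum.inl i)).card : ℝ) * (M ^ 7)⁻¹ ≤ M * (M ^ 7)⁻¹ :=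
              mul_le_mul_of_nonneg_right h3 (by positivity)
          _ = (M ^ 6)⁻¹ := by field_simp
          _ ≤ (2 ^ 6)⁻¹ := inv_anti₀ (by norm_num) (pow_le_pow_left₀ (by norm_num) hM2 6)
          _ ≤ 1 / 4 := by norm_num
      have h4 : (1 : ℝ) / 2 ≤
          Real.exp (-(2 * (((evc R V v K (Sum.inl i)).card : ℝ) * (M ^ 7)⁻¹))) := by
        have h5 := Real.add_one_le_exp
          (-(2 * (((evc R V v K (Sum.inl i)).card : ℝ) * (M ^ 7)⁻¹)))
        linarith
      have h6 : 0 ≤ (M ^ 10)⁻¹ := by positivity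
      unfold evx
      calc (M ^ 10)⁻¹ / 2 = (M ^ 10)⁻¹ * (1 / 2) := by ring
        _ ≤ _ := mul_le_mul_of_nonneg_left h4 h6
    · by_cases hm : √√(sc R κ) < ∑ j ∈ pcs R (V i) κ, |V i j|
      · have h1 := piece_prob h (by linarith) (V i) x hx (hrow i) κ hm B M P0 hM2 hMb hP
          (hsmall κ) (hlarge κ)
        have h2 : evA R ρ V Vb v x zl K (Sum.inr (i, κ)) ⊆
            {g | √√(sc R κ) + (R ^ 2)⁻¹ * ∑ j ∈ pcs R (V i) κ, |V i j| <
              |∑ j ∈ pcs R (V i) κ, V i j * (1 - |x j|) * zloc z (B j) g j|} := by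
          intro g hg
          unfold evA at hg
          exact hg.2
        have h3 : evc R V v K (Sum.inr (i, κ)) = pcs R (V i) κ := by
          unfold evc
          simp only
          rw [if_pos hm]
        rw [h3]
        exact (measureReal_mono h2 (measure_ne_top _ _)).trans h1
      · have h2 : evA R ρ V Vb v x zl K (Sum.inr (i, κ)) = ∅ := by
          unfold evA
          ext g
          rw [Set.mem_ofPred_eq]
          constructor
          · intro hg
            exact absurd hg.1 hm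
          · intro hg
            exact absurd hg (Set.notMem_empty g)
        rw [h2, measureReal_empty]
        exact mul_nonneg (evx_nonneg M hM0.le K _) (Real.exp_pos _).le
  have hexp : M ^ 2 * (M ^ 9)⁻¹ = (M ^ 7)⁻¹ := by field_simp
  obtain ⟨g, hg⟩ := lll_nb J (I ⊕ (I × Fin K)) (evA R ρ V Vb v x zl K) hmeas
    (evc R V v K) B hdep (evx M K) (evx_nonneg M hM0.le K)
    (evx_half M hM2 K) M ((M ^ 9)⁻¹) hMa hMb
    (fun j => evx_sum R M hR1 (by linarith) hM5 V v hcol hvne K j)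
    (fun e => by rw [mul_assoc, hexp]; exact hprob e)
  -- the new point
  refine ⟨fun j => x j + (1 - |x j|) * zl g j, fun j => move_abs _ _ (hx j) (zloc_abs h _ _ _),
    fun i => ?_, fun i => ?_⟩
  · have h1 := hg (Sum.inl i)
    unfold evA at h1
    rw [Set.mem_ofPred_eq, not_or] at h1
    exact not_lt.1 h1.2
  · have h1 := hg (Sum.inl i)
    unfold evA at h1
    rw [Set.mem_ofPred_eq, not_or] at h1
    have hbig := not_lt.1 h1.1
    have hsum : ∑ j, V i j * (x j + (1 - |x j|) * zl g j - x j) =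
        ∑ j, v i j * zl g j +
          ∑ j ∈ univ.filter (fun j => ¬ (R ^ 10)⁻¹ < |V i j|), V i j * (1 - |x j|) * zl g j := by
      rw [sum_filter, ← sum_add_distrib]
      refine sum_congr rfl fun j _ => ?_
      rw [hv, hVb]
      by_cases hb : (R ^ 10)⁻¹ < |V i j|
      · rw [if_pos hb, if_neg (not_not.2 hb)]
        ring
      · rw [if_neg hb, if_pos hb]
        ring
    have hdy := pcs_sum R hR0 (V i) (fun j => V i j * (1 - |x j|) * zl g j) K (hK i)
      (fun j hj => by simp only [hj, zero_mul])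
    have hdm := pcs_sum R hR0 (V i) (fun j => |V i j|) K (hK i) (fun j hj => by simp [hj])
    have hpiece : ∀ κ : Fin K, |∑ j ∈ pcs R (V i) κ, V i j * (1 - |x j|) * zl g j| ≤
        √√(sc R κ) + (R ^ 2)⁻¹ * ∑ j ∈ pcs R (V i) κ, |V i j| := by
      intro κ
      by_cases hm : √√(sc R κ) < ∑ j ∈ pcs R (V i) κ, |V i j|
      · have h2 := hg (Sum.inr (i, κ))
        unfold evA at h2
        rw [Set.mem_ofPred_eq, not_and] at h2
        exact not_lt.1 (h2 hm)
      · have h3 : |∑ j ∈ pcs R (V i) κ, V i j * (1 - |x j|) * zl g j| ≤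
            ∑ j ∈ pcs R (V i) κ, |V i j| := by
          refine (abs_sum_le_sum_abs _ _).trans (sum_le_sum fun j _ => ?_)
          rw [abs_mul, abs_mul]
          have h4 : abs (1 - |x j|) ≤ 1 := by
            rw [abs_of_nonneg (by linarith [hx j])]
            linarith [abs_nonneg (x j)]
          have h5 : |zl g j| ≤ 1 := zloc_abs h _ _ _
          calc |V i j| * abs (1 - |x j|) * |zl g j| ≤ |V i j| * 1 * 1 :=
                mul_le_mul (mul_le_mul_of_nonneg_left h4 (abs_nonneg _)) h5 (abs_nonneg _)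
                  (by positivity)
            _ = |V i j| := by ring
        have h6 : 0 ≤ (R ^ 2)⁻¹ * ∑ j ∈ pcs R (V i) κ, |V i j| :=
          mul_nonneg (by positivity) (sum_nonneg fun _ _ => abs_nonneg _)
        linarith [not_lt.1 hm]
    have htiny : |∑ j ∈ univ.filter (fun j => ¬ (R ^ 10)⁻¹ < |V i j|),
        V i j * (1 - |x j|) * zl g j| ≤ 2 := by
      rw [hdy]
      calc |∑ κ : Fin K, ∑ j ∈ pcs R (V i) κ, V i j * (1 - |x j|) * zl g j|
          ≤ ∑ κ : Fin K, |∑ j ∈ pcs R (V i) κ, V i j * (1 - |x j|) * zl g j| :=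
            abs_sum_le_sum_abs _ _
        _ ≤ ∑ κ : Fin K, (√√(sc R κ) + (R ^ 2)⁻¹ * ∑ j ∈ pcs R (V i) κ, |V i j|) :=
            sum_le_sum fun κ _ => hpiece κ
        _ = ∑ κ : Fin K, √√(sc R κ) +
            (R ^ 2)⁻¹ * ∑ j ∈ univ.filter (fun j => ¬ (R ^ 10)⁻¹ < |V i j|), |V i j| := by
            rw [sum_add_distrib, ← mul_sum, hdm]
        _ ≤ 1 + (R ^ 2)⁻¹ * R := by
            refine add_le_add (tau_sum R (by linarith) K)
              (mul_le_mul_of_nonneg_left ?_ (by positivity))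
            exact (sum_le_sum_of_subset_of_nonneg (subset_univ _)
              fun _ _ _ => abs_nonneg _).trans (hrow i)
        _ ≤ 2 := by
            have : (R ^ 2)⁻¹ * R ≤ 1 := by
              rw [← div_eq_inv_mul, div_le_one (by positivity)]
              exact le_self_pow₀ hR1 (by norm_num)
            linarith
    rw [hsum]
    calc |∑ j, v i j * zl g j +
          ∑ j ∈ univ.filter (fun j => ¬ (R ^ 10)⁻¹ < |V i j|), V i j * (1 - |x j|) * zl g j|
        ≤ |∑ j, v i j * zl g j| +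
          |∑ j ∈ univ.filter (fun j => ¬ (R ^ 10)⁻¹ < |V i j|), V i j * (1 - |x j|) * zl g j| :=
          abs_add_le _ _
      _ ≤ (4 * √√(ρ * R) + 1) + 2 := add_le_add hbig htiny
      _ = _ := by ring

end Pool.Agent.SVR
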