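import Pool.Agent.SVR.Lll
import Pool.Agent.MP_2237f3_co.LLL

set_option autoImplicit false

/-!
# [SVR-Rnd] part A: tail bounds for independent signs, finite local lemma in exponential form
-/

namespace Pool.Agent.SVR

namespace Rnd

open Finset

open scoped Classical

/-- probability weights of the signs -/
noncomputable def pw {m : ℕ} (x : Fin m → ℝ) (j : Fin m) (b : Bool) : ℝ :=
  if b then (1 + x j) / 2 else (1 - x j) / 2

/-- the sign -/
noncomputable def yy (b : Bool) : ℝ := if b then 1 else -1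

theorem pw_nonneg {m : ℕ} {x : Fin m → ℝ} (hx : ∀ j, |x j| ≤ 1) (j : Fin m) (b : Bool) :
    0 ≤ pw x j b := by
  have := abs_le.1 (hx j)
  unfold pw
  split_ifs <;> linarith

theorem pw_sum {m : ℕ} (x : Fin m → ℝ) (j : Fin m) : ∑ b, pw x j b = 1 := by
  simp [pw]
  ring

theorem exp_le_quad {u : ℝ} (h : |u| ≤ 1) : Real.exp u ≤ 1 + u + u ^ 2 := by
  have := Real.abs_exp_sub_one_sub_id_le h
  linarith [(abs_le.1 this).2]

theorem mgf_one {x u : ℝ} (hx : |x| ≤ 1) (hu : |u| ≤ 1 / 2) :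
    (1 + x) / 2 * Real.exp (u * (1 - x)) + (1 - x) / 2 * Real.exp (u * (-1 - x)) ≤
      Real.exp (u ^ 2 * (1 - x ^ 2)) := by
  have hx' := abs_le.1 hx
  have b1 : |u * (1 - x)| ≤ 1 := by
    rw [abs_mul]
    have : |1 - x| ≤ 2 := abs_le.2 ⟨by linarith, by linarith⟩
    nlinarith [abs_nonneg u, abs_nonneg (1 - x)]
  have b2 : |u * (-1 - x)| ≤ 1 := by
    rw [abs_mul]
    have : |-1 - x| ≤ 2 := abs_le.2 ⟨by linarith, by linarith⟩
    nlinarith [abs_nonneg u, abs_nonneg (-1 - x)]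
  have e1 := exp_le_quad b1
  have e2 := exp_le_quad b2
  have h1 := mul_le_mul_of_nonneg_left e1 (show 0 ≤ (1 + x) / 2 by linarith)
  have h2 := mul_le_mul_of_nonneg_left e2 (show 0 ≤ (1 - x) / 2 by linarith)
  have h3 := Real.add_one_le_exp (u ^ 2 * (1 - x ^ 2))
  nlinarith

theorem tail {m : ℕ} {x : Fin m → ℝ} (hx : ∀ j, |x j| ≤ 1) (c : Fin m → ℝ) (S : Finset (Fin m))
    (θ : ℝ) (hθ : 0 ≤ θ) (hc : ∀ j ∈ S, θ * |c j| ≤ 1 / 2) (t : ℝ) :
    ∑ ω ∈ univ.filter (fun ω : Fin m → Bool => t < ∑ j ∈ S, c j * (yy (ω j) - x j)),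
      ∏ j, pw x j (ω j) ≤ Real.exp (-(θ * t) + θ ^ 2 * ∑ j ∈ S, c j ^ 2 * (1 - x j ^ 2)) := by
  have hW : ∀ ω : Fin m → Bool, 0 ≤ ∏ j, pw x j (ω j) :=
    fun ω => prod_nonneg fun i _ => pw_nonneg hx i _
  have h1 : ∑ ω ∈ univ.filter (fun ω : Fin m → Bool => t < ∑ j ∈ S, c j * (yy (ω j) - x j)),
      ∏ j, pw x j (ω j) ≤ ∑ ω : Fin m → Bool, (∏ j, pw x j (ω j)) *
        Real.exp (θ * (∑ j ∈ S, c j * (yy (ω j) - x j) - t)) := by
    rw [sum_filter]
    refine sum_le_sum fun ω _ => ?_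
    split_ifs with h
    · have : 1 ≤ Real.exp (θ * (∑ j ∈ S, c j * (yy (ω j) - x j) - t)) := by
        refine Real.one_le_exp (mul_nonneg hθ ?_)
        linarith
      nlinarith [hW ω]
    · exact mul_nonneg (hW ω) (Real.exp_nonneg _)
  have h2 : ∑ ω : Fin m → Bool, (∏ j, pw x j (ω j)) *
        Real.exp (θ * (∑ j ∈ S, c j * (yy (ω j) - x j) - t)) =
      Real.exp (-(θ * t)) * ∏ j, ∑ b, pw x j b *
        (if j ∈ S then Real.exp (θ * (c j * (yy b - x j))) else 1) := by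
    rw [Finset.prod_univ_sum, mul_sum, Fintype.piFinset_univ]
    refine sum_congr rfl fun ω _ => ?_
    rw [prod_mul_distrib, prod_ite_mem, univ_inter, ← Real.exp_sum, ← mul_sum]
    rw [mul_left_comm, ← Real.exp_add]
    congr 2
    ring
  have h3 : ∀ j, ∑ b, pw x j b * (if j ∈ S then Real.exp (θ * (c j * (yy b - x j))) else 1) ≤
      if j ∈ S then Real.exp (θ ^ 2 * (c j ^ 2 * (1 - x j ^ 2))) else 1 := by
    intro j
    split_ifs with hj
    · have hu : |θ * c j| ≤ 1 / 2 := by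
        rw [abs_mul, abs_of_nonneg hθ]
        exact hc j hj
      have := mgf_one (hx j) hu
      rw [Fintype.sum_bool]
      simp only [pw, yy, if_true, Bool.false_eq_true, if_false]
      calc _ = (1 + x j) / 2 * Real.exp (θ * c j * (1 - x j)) +
            (1 - x j) / 2 * Real.exp (θ * c j * (-1 - x j)) := by ring_nf
        _ ≤ _ := this
        _ = _ := by ring_nf
    · simp only [mul_one]
      rw [pw_sum]
  have h3' : ∀ j, 0 ≤ ∑ b, pw x j b *
      (if j ∈ S then Real.exp (θ * (c j * (yy b - x j))) else 1) := by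
    intro j
    refine sum_nonneg fun b _ => mul_nonneg (pw_nonneg hx j b) ?_
    split_ifs
    · exact Real.exp_nonneg _
    · exact zero_le_one
  calc _ ≤ _ := h1
    _ = _ := h2
    _ ≤ Real.exp (-(θ * t)) * ∏ j, (if j ∈ S then Real.exp (θ ^ 2 * (c j ^ 2 * (1 - x j ^ 2)))
          else 1) :=
        mul_le_mul_of_nonneg_left (prod_le_prod (fun i _ => h3' i) fun i _ => h3 i)
          (Real.exp_nonneg _)
    _ = _ := by
        rw [prod_ite_mem, univ_inter, ← Real.exp_sum, ← Real.exp_add, mul_sum]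

theorem tail2 {m : ℕ} {x : Fin m → ℝ} (hx : ∀ j, |x j| ≤ 1) (c : Fin m → ℝ) (S : Finset (Fin m))
    (θ : ℝ) (hθ : 0 ≤ θ) (hc : ∀ j ∈ S, θ * |c j| ≤ 1 / 2) (t : ℝ) :
    ∑ ω ∈ univ.filter (fun ω : Fin m → Bool => t < |∑ j ∈ S, c j * (yy (ω j) - x j)|),
      ∏ j, pw x j (ω j) ≤ 2 * Real.exp (-(θ * t) + θ ^ 2 * ∑ j ∈ S, c j ^ 2 * (1 - x j ^ 2)) := by
  have hW : ∀ ω : Fin m → Bool, 0 ≤ ∏ j, pw x j (ω j) :=
    fun ω => prod_nonneg fun i _ => pw_nonneg hx i _
  have a1 := tail hx c S θ hθ hc t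
  have a2 := tail hx (fun j => -c j) S θ hθ (fun j hj => by rw [abs_neg]; exact hc j hj) t
  have e : ∀ j, (-c j) ^ 2 = c j ^ 2 := fun j => by ring
  simp only [e] at a2
  have h : univ.filter (fun ω : Fin m → Bool => t < |∑ j ∈ S, c j * (yy (ω j) - x j)|) ⊆
      univ.filter (fun ω : Fin m → Bool => t < ∑ j ∈ S, c j * (yy (ω j) - x j)) ∪
      univ.filter (fun ω : Fin m → Bool => t < ∑ j ∈ S, -c j * (yy (ω j) - x j)) := by
    intro ω hω
    simp only [mem_filter, mem_univ, true_and, mem_union] at hω ⊢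
    rcases lt_abs.1 hω with h | h
    · exact Or.inl h
    · right
      simp only [neg_mul, sum_neg_distrib]
      exact h
  calc _ ≤ ∑ ω ∈ univ.filter (fun ω : Fin m → Bool => t < ∑ j ∈ S, c j * (yy (ω j) - x j)) ∪
      univ.filter (fun ω : Fin m → Bool => t < ∑ j ∈ S, -c j * (yy (ω j) - x j)),
        ∏ j, pw x j (ω j) := sum_le_sum_of_subset_of_nonneg h fun ω _ _ => hW ω
    _ ≤ _ := by
      have := sum_union_inter (s₁ := univ.filter (fun ω : Fin m → Bool =>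
        t < ∑ j ∈ S, c j * (yy (ω j) - x j))) (s₂ := univ.filter (fun ω : Fin m → Bool =>
        t < ∑ j ∈ S, -c j * (yy (ω j) - x j))) (f := fun ω => ∏ j, pw x j (ω j))
      have h0 : 0 ≤ ∑ ω ∈ univ.filter (fun ω : Fin m → Bool =>
        t < ∑ j ∈ S, c j * (yy (ω j) - x j)) ∩ univ.filter (fun ω : Fin m → Bool =>
        t < ∑ j ∈ S, -c j * (yy (ω j) - x j)), ∏ j, pw x j (ω j) :=
        sum_nonneg fun ω _ => hW ω
      linarith

/-- finite local lemma, cost form -/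
theorem lll_fin {ι Ω β : Type*} [Fintype ι] [DecidableEq ι] [Fintype Ω] [Fintype β]
    (p : ι → Ω → ℝ) (hp0 : ∀ i x, 0 ≤ p i x) (hp1 : ∀ i, ∑ x, p i x = 1)
    (I : β → Finset ι) (E : β → (ι → Ω) → Prop)
    (hdep : ∀ a ω ω', (∀ i ∈ I a, ω i = ω' i) → E a ω → E a ω')
    (x : β → ℝ) (hx0 : ∀ a, 0 ≤ x a) (hx1 : ∀ a, x a ≤ 1 / 2) (X : ℝ)
    (hX : ∀ j, ∀ T : Finset β, (∀ e ∈ T, j ∈ I e) → ∑ e ∈ T, x e ≤ X)
    (hE : ∀ a, ∑ ω ∈ univ.filter (E a), ∏ i, p i (ω i) ≤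
      x a * Real.exp (-(2 * ((I a).card * X)))) :
    ∃ ω : ι → Ω, ∀ a, ¬ E a ω := by
  obtain ⟨ω, -, h⟩ := Pool.Agent.MP2237.lll p hp0 hp1 I (fun a => univ.filter (E a))
    (fun a ω ω' h hω => by
      rw [mem_filter] at hω ⊢
      exact ⟨mem_univ _, hdep a ω ω' h hω.2⟩) x hx0 (fun a => by linarith [hx1 a]) (fun a => by
    refine (hE a).trans (mul_le_mul_of_nonneg_left ?_ (hx0 a))
    set N := univ.filter (fun a' => a' ≠ a ∧ ¬ Disjoint (I a) (I a')) with hN
    have h1 : ∀ b ∈ N, Real.exp (-(2 * x b)) ≤ 1 - x b := by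
      intro b _
      have h0 := hx0 b
      have h2 := hx1 b
      have h3 : Real.exp (-(2 * x b)) ≤ 1 / (1 + 2 * x b) := by
        rw [Real.exp_neg, ← one_div]
        exact one_div_le_one_div_of_le (by linarith) (by linarith [Real.add_one_le_exp (2 * x b)])
      refine h3.trans ?_
      rw [div_le_iff₀ (by linarith)]
      nlinarith
    have h2 : ∏ b ∈ N, Real.exp (-(2 * x b)) ≤ ∏ b ∈ N, (1 - x b) :=
      Finset.prod_le_prod (fun b _ => (Real.exp_pos _).le) h1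
    refine le_trans ?_ h2
    rw [← Real.exp_sum, Finset.sum_neg_distrib, ← Finset.mul_sum]
    refine Real.exp_le_exp.2 (neg_le_neg ?_)
    refine mul_le_mul_of_nonneg_left ?_ (by norm_num)
    have hne : ∀ b ∈ N, ∃ j, j ∈ I a ∧ j ∈ I b := by
      intro b hb
      exact Finset.not_disjoint_iff.1 (Finset.mem_filter.1 hb).2.2
    by_cases hN0 : N = ∅
    · rw [hN0, Finset.sum_empty]
      by_cases hI : (I a) = ∅
      · rw [hI]
        simp
      · obtain ⟨j, hj⟩ := Finset.nonempty_iff_ne_empty.2 hI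
        have hX0 : 0 ≤ X := by simpa using hX j ∅ (by simp)
        positivity
    obtain ⟨b0, hb0⟩ := Finset.nonempty_iff_ne_empty.2 hN0
    obtain ⟨j0, hj0⟩ := hne b0 hb0
    set f : β → ι := fun b => if h : ∃ j, j ∈ I a ∧ j ∈ I b then h.choose else j0 with hf
    have hf1 : ∀ b ∈ N, f b ∈ I a ∧ f b ∈ I b := by
      intro b hb
      have h := hne b hb
      simp only [hf, dif_pos h]
      exact h.choose_spec
    rw [← Finset.sum_fiberwise_of_maps_to (fun b hb => (hf1 b hb).1)]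
    calc ∑ j ∈ I a, ∑ b ∈ N.filter (fun b => f b = j), x b ≤ ∑ _j ∈ I a, X := by
          refine Finset.sum_le_sum fun j _ => hX j _ fun b hb => ?_
          rw [Finset.mem_filter] at hb
          rw [← hb.2]
          exact (hf1 b hb.1).2
      _ = (I a).card * X := by rw [Finset.sum_const, nsmul_eq_mul])
  exact ⟨ω, fun a ha => h a (mem_filter.2 ⟨mem_univ _, ha⟩)⟩

end Rnd

end Pool.Agent.SVR
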