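import Pool.Agent.SVR.RndA

set_option autoImplicit false

/-!
# [SVR-Rnd] part B: scales
-/

namespace Pool.Agent.SVR

namespace Rnd

open Finset

open scoped Classical

variable {n m : ℕ}

/-- the scale -/
noncomputable def sc (R : ℝ) (κ : ℕ) : ℝ := (R ^ 10)⁻¹ * (1 / 2) ^ κ

/-- big columns of a row -/
noncomputable def big (V : Fin n → Fin m → ℝ) (R : ℝ) (i : Fin n) : Finset (Fin m) :=
  univ.filter fun j => (R ^ 10)⁻¹ < |V i j|

/-- columns of scale `κ` of a row -/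
noncomputable def Sc (V : Fin n → Fin m → ℝ) (R : ℝ) (i : Fin n) (κ : ℕ) : Finset (Fin m) :=
  univ.filter fun j => sc R κ / 2 < |V i j| ∧ |V i j| ≤ sc R κ

theorem sc_pos {R : ℝ} (hR : 0 < R) (κ : ℕ) : 0 < sc R κ := by
  unfold sc; positivity

theorem exists_class {R v : ℝ} (hR : 0 < R) (hv : v ≠ 0) (hv1 : |v| ≤ (R ^ 10)⁻¹) :
    ∃ κ : ℕ, sc R κ / 2 < |v| ∧ |v| ≤ sc R κ := by
  have hR10 : 0 < R ^ 10 := by positivity
  have h0 : 0 < |v| * R ^ 10 := mul_pos (abs_pos.2 hv) hR10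
  have h1 : |v| * R ^ 10 ≤ 1 := by
    rw [← inv_mul_cancel₀ hR10.ne']
    exact mul_le_mul_of_nonneg_right hv1 hR10.le
  obtain ⟨κ, h2, h3⟩ := exists_nat_pow_near_of_lt_one h0 h1 (show (0 : ℝ) < 1 / 2 by norm_num)
    (by norm_num)
  refine ⟨κ, ?_, ?_⟩
  · unfold sc
    rw [pow_succ] at h2
    rw [show (R ^ 10)⁻¹ * (1 / 2) ^ κ / 2 = (R ^ 10)⁻¹ * ((1 / 2) ^ κ * (1 / 2)) by ring,
      inv_mul_lt_iff₀ hR10]
    linarith
  · unfold sc
    rw [le_inv_mul_iff₀ hR10]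
    linarith

theorem exists_K (V : Fin n → Fin m → ℝ) {R : ℝ} (hR : 0 < R) :
    ∃ K : ℕ, ∀ i j, V i j ≠ 0 → |V i j| ≤ (R ^ 10)⁻¹ → ∃ κ : Fin K, j ∈ Sc V R i κ := by
  have h : ∀ p : Fin n × Fin m, ∃ κ : ℕ, V p.1 p.2 ≠ 0 → |V p.1 p.2| ≤ (R ^ 10)⁻¹ →
      p.2 ∈ Sc V R p.1 κ := by
    intro p
    by_cases h1 : V p.1 p.2 ≠ 0 ∧ |V p.1 p.2| ≤ (R ^ 10)⁻¹
    · obtain ⟨κ, h2⟩ := exists_class hR h1.1 h1.2
      exact ⟨κ, fun _ _ => mem_filter.2 ⟨mem_univ _, h2⟩⟩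
    · exact ⟨0, fun h2 h3 => absurd ⟨h2, h3⟩ h1⟩
  choose f hf using h
  refine ⟨univ.sup f + 1, fun i j h1 h2 => ?_⟩
  exact ⟨⟨f (i, j), Nat.lt_succ_of_le (le_sup (f := f) (mem_univ (i, j)))⟩, hf (i, j) h1 h2⟩

theorem sc_anti {R : ℝ} (hR : 0 < R) {κ κ' : ℕ} (h : κ < κ') : sc R κ' ≤ sc R κ / 2 := by
  unfold sc
  rw [mul_div_assoc]
  refine mul_le_mul_of_nonneg_left ?_ (by positivity)
  have : ((1 : ℝ) / 2) ^ κ' ≤ (1 / 2) ^ (κ + 1) :=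
    pow_le_pow_of_le_one (by norm_num) (by norm_num) h
  rw [pow_succ] at this
  linarith

theorem Sc_disj (V : Fin n → Fin m → ℝ) {R : ℝ} (hR : 0 < R) (i : Fin n) {κ κ' : ℕ}
    (h : κ ≠ κ') : Disjoint (Sc V R i κ) (Sc V R i κ') := by
  rw [Finset.disjoint_left]
  intro j h1 h2
  rw [Sc, mem_filter] at h1 h2
  rcases lt_or_gt_of_ne h with h3 | h3
  · have := sc_anti hR h3
    linarith [h1.2.1, h2.2.2]
  · have := sc_anti hR h3
    linarith [h1.2.2, h2.2.1]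

theorem big_disj (V : Fin n → Fin m → ℝ) {R : ℝ} (hR : 0 < R) (i : Fin n) (κ : ℕ) :
    Disjoint (big V R i) (Sc V R i κ) := by
  rw [Finset.disjoint_left]
  intro j h1 h2
  rw [big, mem_filter] at h1
  rw [Sc, mem_filter] at h2
  have h3 : sc R κ ≤ (R ^ 10)⁻¹ := by
    unfold sc
    have : ((1 : ℝ) / 2) ^ κ ≤ 1 := pow_le_one₀ (by norm_num) (by norm_num)
    have h4 : 0 ≤ (R ^ 10)⁻¹ := by positivity
    nlinarith
  linarith [h1.2, h2.2.2]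

theorem decomp (V : Fin n → Fin m → ℝ) {R : ℝ} (hR : 0 < R) {K : ℕ}
    (hK : ∀ i j, V i j ≠ 0 → |V i j| ≤ (R ^ 10)⁻¹ → ∃ κ : Fin K, j ∈ Sc V R i κ) (i : Fin n)
    (f : Fin m → ℝ) (hf : ∀ j, V i j = 0 → f j = 0) :
    ∑ j, f j = ∑ j ∈ big V R i, f j + ∑ κ : Fin K, ∑ j ∈ Sc V R i κ, f j := by
  have hpd : Set.PairwiseDisjoint (↑(univ : Finset (Fin K))) fun κ : Fin K => Sc V R i κ := by
    intro κ _ κ' _ h
    exact Sc_disj V hR i (fun h' => h (Fin.ext h'))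
  rw [← Finset.sum_biUnion hpd]
  have hd : Disjoint (big V R i) ((univ : Finset (Fin K)).biUnion fun κ => Sc V R i κ) := by
    rw [Finset.disjoint_biUnion_right]
    exact fun κ _ => big_disj V hR i κ
  rw [← Finset.sum_union hd]
  symm
  refine Finset.sum_subset (Finset.subset_univ _) fun j _ hj => hf j ?_
  by_contra h
  apply hj
  rw [mem_union]
  by_cases hb : (R ^ 10)⁻¹ < |V i j|
  · exact Or.inl (mem_filter.2 ⟨mem_univ _, hb⟩)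
  · obtain ⟨κ, hκ⟩ := hK i j h (not_lt.1 hb)
    exact Or.inr (mem_biUnion.2 ⟨κ, mem_univ _, hκ⟩)

theorem mass_le (V : Fin n → Fin m → ℝ) {R : ℝ} (hR : 0 < R) {K : ℕ}
    (hK : ∀ i j, V i j ≠ 0 → |V i j| ≤ (R ^ 10)⁻¹ → ∃ κ : Fin K, j ∈ Sc V R i κ)
    (hrow : ∀ i, ∑ j, |V i j| ≤ R) (i : Fin n) :
    ∑ κ : Fin K, ∑ j ∈ Sc V R i κ, |V i j| ≤ R := by
  have h := decomp V hR hK i (fun j => |V i j|) (fun j hj => by rw [hj, abs_zero])
  have h2 : 0 ≤ ∑ j ∈ big V R i, |V i j| := sum_nonneg fun _ _ => abs_nonneg _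
  have h3 := hrow i
  linarith

theorem card_big (V : Fin n → Fin m → ℝ) {R : ℝ} (hR : 0 < R) (hrow : ∀ i, ∑ j, |V i j| ≤ R)
    (i : Fin n) : ((big V R i).card : ℝ) ≤ R ^ 11 := by
  have h1 : ((big V R i).card : ℝ) * (R ^ 10)⁻¹ ≤ R := by
    calc ((big V R i).card : ℝ) * (R ^ 10)⁻¹ = ∑ _j ∈ big V R i, (R ^ 10)⁻¹ := by
          rw [sum_const, nsmul_eq_mul]
      _ ≤ ∑ j ∈ big V R i, |V i j| := sum_le_sum fun j hj => (mem_filter.1 hj).2.le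
      _ ≤ ∑ j, |V i j| := sum_le_sum_of_subset_of_nonneg (subset_univ _) fun _ _ _ => abs_nonneg _
      _ ≤ R := hrow i
  have h2 : 0 < R ^ 10 := by positivity
  rw [← div_eq_mul_inv, div_le_iff₀ h2] at h1
  calc _ ≤ R * R ^ 10 := h1
    _ = R ^ 11 := by ring

/-- number of columns against mass -/
theorem card_Sc (V : Fin n → Fin m → ℝ) (R : ℝ) (i : Fin n) (κ : ℕ) :
    ((Sc V R i κ).card : ℝ) * (sc R κ / 2) ≤ ∑ j ∈ Sc V R i κ, |V i j| := by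
  calc ((Sc V R i κ).card : ℝ) * (sc R κ / 2) = ∑ _j ∈ Sc V R i κ, (sc R κ / 2) := by
        rw [sum_const, nsmul_eq_mul]
    _ ≤ _ := sum_le_sum fun j hj => (mem_filter.1 hj).2.1.le

/-- weights of the scales seen by one entry -/
theorem sum_scales (V : Fin n → Fin m → ℝ) {R : ℝ} (hR : 0 < R) (K : ℕ) (i : Fin n) (j : Fin m) :
    (if j ∈ big V R i then (1 : ℝ) else 0) +
      ∑ κ : Fin K, (if j ∈ Sc V R i κ then (1 / 4 : ℝ) ^ (κ : ℕ) else 0) ≤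
      5 * R ^ 10 * |V i j| := by
  have hR10 : 0 < R ^ 10 := by positivity
  have h1 : (if j ∈ big V R i then (1 : ℝ) else 0) ≤ R ^ 10 * |V i j| := by
    split_ifs with h
    · have := (mem_filter.1 h).2
      rw [inv_lt_iff_one_lt_mul₀ hR10] at this
      linarith
    · positivity
  have h2 : ∀ κ : Fin K, (if j ∈ Sc V R i κ then (1 / 4 : ℝ) ^ (κ : ℕ) else 0) ≤
      (1 / 2) ^ (κ : ℕ) * (2 * R ^ 10 * |V i j|) := by
    intro κ
    split_ifs with h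
    · have h3 := (mem_filter.1 h).2.1
      unfold sc at h3
      have h4 : (1 / 2 : ℝ) ^ (κ : ℕ) ≤ 2 * R ^ 10 * |V i j| := by
        have : (R ^ 10)⁻¹ * (1 / 2) ^ (κ : ℕ) < 2 * |V i j| := by linarith
        rw [inv_mul_lt_iff₀ hR10] at this
        linarith
      calc (1 / 4 : ℝ) ^ (κ : ℕ) = (1 / 2) ^ (κ : ℕ) * (1 / 2) ^ (κ : ℕ) := by
            rw [← mul_pow]; norm_num
        _ ≤ _ := mul_le_mul_of_nonneg_left h4 (by positivity)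
    · positivity
  have h3 : ∑ κ : Fin K, (1 / 2 : ℝ) ^ (κ : ℕ) ≤ 2 := by
    rw [Fin.sum_univ_eq_sum_range (fun k => (1 / 2 : ℝ) ^ k) K, geom_sum_eq (by norm_num)]
    have : (0 : ℝ) ≤ (1 / 2) ^ K := by positivity
    rw [div_le_iff_of_neg (by norm_num)]
    linarith
  have h4 : ∑ κ : Fin K, (if j ∈ Sc V R i κ then (1 / 4 : ℝ) ^ (κ : ℕ) else 0) ≤
      2 * (2 * R ^ 10 * |V i j|) := by
    calc _ ≤ ∑ κ : Fin K, (1 / 2) ^ (κ : ℕ) * (2 * R ^ 10 * |V i j|) := sum_le_sum fun κ _ => h2 κ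
      _ = (∑ κ : Fin K, (1 / 2 : ℝ) ^ (κ : ℕ)) * (2 * R ^ 10 * |V i j|) := by rw [sum_mul]
      _ ≤ _ := mul_le_mul_of_nonneg_right h3 (by positivity)
  linarith

/-- numeric facts -/
theorem nums {R : ℝ} (hR : Real.exp 100 ≤ R) :
    100 ≤ Real.log R ∧ 1 ≤ R ∧ Real.log R ^ 2 / √R ≤ 1 / 2 ∧ Real.log R ≤ R ∧ 10 ^ 6 ≤ R := by
  have hR0 : 0 < R := lt_of_lt_of_le (Real.exp_pos _) hR
  have hL : 100 ≤ Real.log R := (Real.le_log_iff_exp_le hR0).2 hR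
  set L := Real.log R with hLd
  have hRe : R = Real.exp L := (Real.exp_log hR0).symm
  have h1 : 1 ≤ R := by rw [hRe]; exact Real.one_le_exp (by linarith)
  have hs : √R = Real.exp (L / 2) := by
    rw [hRe, Real.sqrt_eq_iff_mul_self_eq (Real.exp_pos _).le (Real.exp_pos _).le, ← Real.exp_add]
    ring_nf
  have h4 : (L / 2) ^ 4 / 24 ≤ Real.exp (L / 2) := by
    have := Real.pow_div_factorial_le_exp (L / 2) (by linarith) 4
    simpa [Nat.factorial] using this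
  refine ⟨hL, h1, ?_, ?_, ?_⟩
  · rw [hs, div_le_iff₀ (Real.exp_pos _)]
    nlinarith [sq_nonneg L, sq_nonneg (L - 100)]
  · rw [hRe]
    linarith [Real.add_one_le_exp L]
  · have h5 := Real.pow_div_factorial_le_exp L (by linarith) 4
    rw [← hRe] at h5
    have h6 : (100 : ℝ) ^ 4 ≤ L ^ 4 := pow_le_pow_left₀ (by norm_num) hL 4
    simp [Nat.factorial] at h5
    have h7 : L ^ 4 / 24 ≤ R := h5
    nlinarith

end Rnd

end Pool.Agent.SVR
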