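import Pool.Agent.SVR.Prb
import Pool.Agent.SVR.Crv

set_option autoImplicit false

/-!
# [SVR-SM] second moment of a (clipped) coordinate

Resample one coordinate `j` of the noise: `μ = (gam J).prod (gaussianReal 0 1)`,
`g' = Function.update g j s` has law `gam J`.  With probability at least `0.16` one has
`|g j - s| ≥ 1`, `Hc ≤ 10^5` for both and both `χ` are at most `Y`, and then `curv` gives
`|clip (z g j) - clip (z g' j)| ≥ 1/200001`.
-/

namespace Pool.Agent.SVR

open MeasureTheory Finset ProbabilityTheory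

variable {I J : Type} [Fintype I] [Fintype J]
variable {v : I → J → ℝ} {ρ R Y : ℝ} {p ψ q χ : ℝ → ℝ} {z : (J → ℝ) → (J → ℝ)}

open scoped Classical in
theorem upd_mp (j : J) : MeasurePreserving (fun a : (J → ℝ) × ℝ => Function.update a.1 j a.2)
    ((gam J).prod (gaussianReal 0 1)) (gam J) := by
  have hm : Measurable (fun a : (J → ℝ) × ℝ => Function.update a.1 j a.2) := by
    refine measurable_pi_iff.2 fun l => ?_
    by_cases hl : l = j
    · subst hl
      simpa using measurable_snd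
    · have : (fun a : (J → ℝ) × ℝ => Function.update a.1 j a.2 l) = fun a => a.1 l := by
        funext a
        rw [Function.update_of_ne hl]
      rw [this]
      exact (measurable_pi_apply l).comp measurable_fst
  refine ⟨hm, ?_⟩
  symm
  rw [gam]
  refine Measure.pi_eq fun s hs => ?_
  rw [Measure.map_apply hm (MeasurableSet.univ_pi hs)]
  have e1 : (fun a : (J → ℝ) × ℝ => Function.update a.1 j a.2) ⁻¹' (Set.univ.pi s) =
      (Set.univ.pi (Function.update s j Set.univ)) ×ˢ (s j) := by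
    ext a
    simp only [Set.mem_preimage, Set.mem_univ_pi, Set.mem_prod]
    constructor
    · intro h
      refine ⟨fun l => ?_, by simpa using h j⟩
      by_cases hl : l = j
      · subst hl
        simp
      · have := h l
        rw [Function.update_of_ne hl] at this
        rw [Function.update_of_ne hl]
        exact this
    · rintro ⟨h1, h2⟩ l
      by_cases hl : l = j
      · subst hl
        simpa using h2
      · have := h1 l
        rw [Function.update_of_ne hl] at this
        rw [Function.update_of_ne hl]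
        exact this
  rw [e1, Measure.prod_prod, Measure.pi_pi]
  rw [← Finset.mul_prod_erase _ _ (Finset.mem_univ j), ← Finset.mul_prod_erase _
    (fun i => (gaussianReal 0 1) (s i)) (Finset.mem_univ j)]
  rw [Function.update_self, measure_univ, one_mul, mul_comm]
  congr 1
  refine Finset.prod_congr rfl fun l hl => ?_
  rw [Function.update_of_ne (Finset.ne_of_mem_erase hl)]

/-- `|g j - s| < 1` has probability at most `0.58` -/
theorem diff_prob (j : J) : ((gam J).prod (gaussianReal 0 1)).real {a | |a.1 j - a.2| < 1} ≤ 0.58 := by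
  have h1 : MeasurePreserving (fun a : (J → ℝ) × ℝ => (a.1 j, -a.2))
      ((gam J).prod (gaussianReal 0 1)) ((gaussianReal 0 1).prod (gaussianReal 0 1)) := by
    have ha : MeasurePreserving (fun g : J → ℝ => g j) (gam J) (gaussianReal 0 1) :=
      measurePreserving_eval (fun _ : J => gaussianReal 0 1) j
    have hb : MeasurePreserving (fun x : ℝ => -x) (gaussianReal 0 1) (gaussianReal 0 1) :=
      ⟨measurable_neg, by rw [gaussianReal_map_neg, neg_zero]⟩
    exact ha.prod hb
  have h2 : MeasurePreserving (fun a : ℝ × ℝ => a.1 + a.2)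
      ((gaussianReal 0 1).prod (gaussianReal 0 1)) (gaussianReal 0 2) := by
    refine ⟨by fun_prop, ?_⟩
    have h3 := gaussianReal_conv_gaussianReal (m₁ := 0) (m₂ := 0) (v₁ := 1) (v₂ := 1)
    rw [Measure.conv] at h3
    rw [h3]
    norm_num
  have h3 := (h2.comp h1)
  have h4 : {a : (J → ℝ) × ℝ | |a.1 j - a.2| < 1} =
      ((fun a : ℝ × ℝ => a.1 + a.2) ∘ (fun a : (J → ℝ) × ℝ => (a.1 j, -a.2))) ⁻¹' (Set.Ioo (-1) 1) := by
    ext a
    rw [Set.mem_preimage]
    change |a.1 j - a.2| < 1 ↔ a.1 j + -a.2 ∈ Set.Ioo (-1 : ℝ) 1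
    rw [abs_lt, Set.mem_Ioo, sub_eq_add_neg]
  rw [h4, measureReal_def, h3.measure_preimage measurableSet_Ioo.nullMeasurableSet,
    gaussianReal_apply_eq_integral _ (by norm_num)]
  have h5 : ∫ x in Set.Ioo (-1 : ℝ) 1, gaussianPDFReal 0 2 x ≤ 0.58 := by
    have h6 : ∀ x, gaussianPDFReal 0 2 x ≤ (√(4 * Real.pi))⁻¹ := by
      intro x
      rw [gaussianPDFReal]
      have e : (2 : ℝ) * Real.pi * ((2 : NNReal) : ℝ) = 4 * Real.pi := by
        push_cast
        ring
      rw [e]
      have : Real.exp (-(x - 0) ^ 2 / (2 * ((2 : NNReal) : ℝ))) ≤ 1 := by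
        rw [Real.exp_le_one_iff]
        have : (0 : ℝ) ≤ (x - 0) ^ 2 / (2 * ((2 : NNReal) : ℝ)) := by positivity
        rw [neg_div]
        linarith
      calc (√(4 * Real.pi))⁻¹ * Real.exp (-(x - 0) ^ 2 / (2 * ((2 : NNReal) : ℝ))) ≤
            (√(4 * Real.pi))⁻¹ * 1 := mul_le_mul_of_nonneg_left this (by positivity)
        _ = _ := mul_one _
    calc ∫ x in Set.Ioo (-1 : ℝ) 1, gaussianPDFReal 0 2 x ≤
          ∫ x in Set.Ioo (-1 : ℝ) 1, (√(4 * Real.pi))⁻¹ := by
          refine setIntegral_mono (integrable_gaussianPDFReal _ _).integrableOn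
            (integrableOn_const (by simp)) h6
      _ = 2 * (√(4 * Real.pi))⁻¹ := by
          rw [setIntegral_const]
          simp
          norm_num
      _ ≤ 0.58 := by
          have h7 : (2 / 0.58 : ℝ) ≤ √(4 * Real.pi) := by
            refine Real.le_sqrt_of_sq_le ?_
            have := Real.pi_gt_three
            norm_num
            linarith
          have h8 : 0 < √(4 * Real.pi) := by positivity
          rw [← div_eq_mul_inv, div_le_iff₀ h8]
          rw [div_le_iff₀ (by norm_num)] at h7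
          linarith
  calc (ENNReal.ofReal (∫ x in Set.Ioo (-1 : ℝ) 1, gaussianPDFReal 0 2 x)).toReal
      = ∫ x in Set.Ioo (-1 : ℝ) 1, gaussianPDFReal 0 2 x := ENNReal.toReal_ofReal
        (integral_nonneg fun x => gaussianPDFReal_nonneg _ _ _)
    _ ≤ 0.58 := h5

theorem Hc_prob (h : Sys v ρ R Y p ψ q χ z) (j : J) :
    (gam J).real {g | 10 ^ 5 < Hc v R ψ χ z g j} ≤ 0.11823 := by
  have hR := h.R_pos
  have i1 : Integrable (fun g => ∑ i, |v i j| * ψ (lin v i (z g)) ^ 4) (gam J) :=
    integrable_finsetSum _ fun i _ => (psi_fourth h i).1.const_mul _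
  have i2 : Integrable (fun g => 256 * χ (z g j) ^ 4) (gam J) := (chi_fourth h j).1.const_mul _
  have i3 : Integrable (fun g => Hc v R ψ χ z g j) (gam J) := (i1.div_const R).add i2
  have n1 : ∀ g, 0 ≤ Hc v R ψ χ z g j := by
    intro g
    unfold Hc
    have : 0 ≤ ∑ i, |v i j| * ψ (lin v i (z g)) ^ 4 :=
      Finset.sum_nonneg fun i _ => mul_nonneg (abs_nonneg _) (by positivity)
    positivity
  have b1 : ∫ g, Hc v R ψ χ z g j ∂gam J ≤ 11822 := by
    have e1 : ∫ g, Hc v R ψ χ z g j ∂gam J = (∫ g, ∑ i, |v i j| * ψ (lin v i (z g)) ^ 4 ∂gam J) / R +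
        256 * ∫ g, χ (z g j) ^ 4 ∂gam J := by
      rw [← integral_div, ← integral_const_mul, ← integral_add (i1.div_const R) i2]
      rfl
    rw [e1, integral_finsetSum _ fun i _ => (psi_fourth h i).1.const_mul _]
    have e2 : ∑ i, ∫ g, |v i j| * ψ (lin v i (z g)) ^ 4 ∂gam J ≤ 46 * R := by
      calc ∑ i, ∫ g, |v i j| * ψ (lin v i (z g)) ^ 4 ∂gam J ≤ ∑ i, |v i j| * 46 := by
            refine Finset.sum_le_sum fun i _ => ?_
            rw [integral_const_mul]
            exact mul_le_mul_of_nonneg_left (psi_fourth h i).2 (abs_nonneg _)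
        _ = (∑ i, |v i j|) * 46 := by rw [Finset.sum_mul]
        _ ≤ R * 46 := mul_le_mul_of_nonneg_right (h.col j) (by norm_num)
        _ = 46 * R := mul_comm _ _
    have e3 := (chi_fourth h j).2
    have e4 : (∑ i, ∫ g, |v i j| * ψ (lin v i (z g)) ^ 4 ∂gam J) / R ≤ 46 := by
      rw [div_le_iff₀ hR]
      exact e2
    linarith
  have m1 := mul_meas_ge_le_integral_of_nonneg (μ := gam J)
    (Filter.Eventually.of_forall n1) i3 (10 ^ 5)
  have m2 : (gam J).real {g | 10 ^ 5 < Hc v R ψ χ z g j} ≤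
      (gam J).real {g | 10 ^ 5 ≤ Hc v R ψ χ z g j} :=
    measureReal_mono (fun g (hg : 10 ^ 5 < Hc v R ψ χ z g j) =>
      (show 10 ^ 5 ≤ Hc v R ψ χ z g j from hg.le))
  have m3 : (10 : ℝ) ^ 5 * (gam J).real {g | 10 ^ 5 ≤ Hc v R ψ χ z g j} ≤ 11822 := m1.trans b1
  have : (gam J).real {g | 10 ^ 5 ≤ Hc v R ψ χ z g j} ≤ 11822 / 10 ^ 5 := by
    rw [le_div_iff₀ (by positivity)]
    linarith
  refine (m2.trans this).trans ?_
  norm_num

theorem clip_facts (a : ℝ) : |clip a| ≤ 1 ∧ (|a| ≤ 1 → clip a = a) := by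
  unfold clip
  constructor
  · rw [abs_le]
    exact ⟨le_max_left _ _, max_le (by norm_num) (min_le_left _ _)⟩
  · intro ha
    rw [abs_le] at ha
    rw [min_eq_right ha.2, max_eq_right ha.1]

open scoped Classical in
theorem second_moment (h : Sys v ρ R Y p ψ q χ z) (hY : 10 ≤ Y) (j : J) :
    1 / 10 ^ 12 ≤ ∫ g, clip (z g j) ^ 2 ∂gam J := by
  set μ : Measure ((J → ℝ) × ℝ) := (gam J).prod (gaussianReal 0 1) with hμ
  set up : (J → ℝ) × ℝ → (J → ℝ) := fun a => Function.update a.1 j a.2 with hup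
  have hmp : MeasurePreserving up μ (gam J) := upd_mp j
  have hfst : MeasurePreserving (fun a : (J → ℝ) × ℝ => a.1) μ (gam J) := measurePreserving_fst
  set f : (J → ℝ) → ℝ := fun g => clip (z g j) with hf
  have hfm : Measurable f := by
    have h1 : Continuous (fun g => z g j) := (continuous_apply j).comp h.cont
    have h2 : Continuous clip := by
      unfold clip
      fun_prop
    exact (h2.comp h1).measurable
  have hf1 : ∀ g, f g ^ 2 ≤ 1 := by
    intro g
    have := (clip_facts (z g j)).1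
    rw [← sq_abs]
    exact pow_le_one₀ (abs_nonneg _) this
  have hfi : Integrable (fun g => f g ^ 2) (gam J) := by
    refine Integrable.of_bound (hfm.pow_const 2).aestronglyMeasurable 1
      (Filter.Eventually.of_forall fun g => ?_)
    rw [Real.norm_eq_abs, abs_of_nonneg (sq_nonneg _)]
    exact hf1 g
  have I1 : Integrable (fun a => f a.1 ^ 2) μ := hfst.integrable_comp_of_integrable hfi
  have I2 : Integrable (fun a => f (up a) ^ 2) μ := hmp.integrable_comp_of_integrable hfi
  have E1 : ∫ a, f a.1 ^ 2 ∂μ = ∫ g, f g ^ 2 ∂gam J := by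
    rw [← hfst.map_eq, integral_map measurable_fst.aemeasurable
      (hfm.pow_const 2).aestronglyMeasurable]
  have E2 : ∫ a, f (up a) ^ 2 ∂μ = ∫ g, f g ^ 2 ∂gam J := by
    rw [← hmp.map_eq, integral_map hmp.measurable.aemeasurable
      (hfm.pow_const 2).aestronglyMeasurable]
  set F : (J → ℝ) × ℝ → ℝ := fun a => (f a.1 - f (up a)) ^ 2 with hF
  have hFm : Measurable F := ((hfm.comp measurable_fst).sub (hfm.comp hmp.measurable)).pow_const 2
  have hFle : ∀ a, F a ≤ 2 * f a.1 ^ 2 + 2 * f (up a) ^ 2 := by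
    intro a
    simp only [hF]
    nlinarith [sq_nonneg (f a.1 + f (up a))]
  have hFi : Integrable F μ := by
    refine Integrable.mono' ((I1.const_mul 2).add (I2.const_mul 2)) hFm.aestronglyMeasurable
      (Filter.Eventually.of_forall fun a => ?_)
    rw [Real.norm_eq_abs, abs_of_nonneg (sq_nonneg _)]
    exact hFle a
  have E3 : ∫ a, F a ∂μ ≤ 4 * ∫ g, f g ^ 2 ∂gam J := by
    calc ∫ a, F a ∂μ ≤ ∫ a, (2 * f a.1 ^ 2 + 2 * f (up a) ^ 2) ∂μ :=
          integral_mono hFi ((I1.const_mul 2).add (I2.const_mul 2)) hFle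
      _ = 4 * ∫ g, f g ^ 2 ∂gam J := by
          rw [integral_add (I1.const_mul 2) (I2.const_mul 2), integral_const_mul,
            integral_const_mul, E1, E2]
          ring
  have M1 := mul_meas_ge_le_integral_of_nonneg (μ := μ)
    (Filter.Eventually.of_forall fun a => sq_nonneg (f a.1 - f (up a))) hFi (1 / 200001 ^ 2)
  -- bad events
  set B1 : Set ((J → ℝ) × ℝ) := {a | |a.1 j - a.2| < 1} with hB1
  set C : Set (J → ℝ) := {g | 10 ^ 5 < Hc v R ψ χ z g j} with hC
  set D : Set (J → ℝ) := {g | Y ≤ |χ (z g j)|} with hD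
  have P1 : μ.real B1 ≤ 0.58 := diff_prob j
  have PC : (gam J).real C ≤ 0.11823 := Hc_prob h j
  have PD : (gam J).real D ≤ 0.001 := by
    refine (chi_tail h j Y (by linarith)).trans ?_
    have h1 : Real.exp (-(Y ^ 2 / 2)) ≤ Real.exp (-50) := by
      refine Real.exp_le_exp.2 ?_
      nlinarith
    have h2 : Real.exp (-50) ≤ 0.0005 := by
      have h3 : (1 + 50 : ℝ) ≤ Real.exp 50 := by
        have := Real.add_one_le_exp (50 : ℝ)
        linarith
      have h4 : (51 : ℝ) ^ 2 ≤ Real.exp 50 := by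
        have h5 : (51 : ℝ) ≤ Real.exp 25 := by
          have h6 : (26 : ℝ) ≤ Real.exp 25 := by
            have := Real.add_one_le_exp (25 : ℝ)
            linarith
          have h7 : Real.exp 25 = Real.exp 12.5 ^ 2 := by
            rw [← Real.exp_nat_mul]
            congr 1
            norm_num
          have h8 : (13.5 : ℝ) ≤ Real.exp 12.5 := by
            have := Real.add_one_le_exp (12.5 : ℝ)
            linarith
          rw [h7]
          nlinarith
        have h9 : Real.exp 50 = Real.exp 25 ^ 2 := by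
          rw [← Real.exp_nat_mul]
          congr 1
          norm_num
        rw [h9]
        exact pow_le_pow_left₀ (by norm_num) h5 2
      rw [Real.exp_neg]
      have h10 : (2601 : ℝ) ≤ Real.exp 50 := by linarith
      calc (Real.exp 50)⁻¹ ≤ (2601 : ℝ)⁻¹ := inv_anti₀ (by norm_num) h10
        _ ≤ 0.0005 := by norm_num
    linarith
  have pre : ∀ (T : (J → ℝ) × ℝ → (J → ℝ)) (_ : MeasurePreserving T μ (gam J)) (s : Set (J → ℝ)),
      μ.real (T ⁻¹' s) ≤ (gam J).real s := by
    intro T hT s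
    rw [measureReal_def, measureReal_def]
    exact ENNReal.toReal_mono (measure_ne_top _ _) (hT.measure_preimage_le s)
  have cover : (Set.univ : Set ((J → ℝ) × ℝ)) ⊆ {a | 1 / 200001 ^ 2 ≤ F a} ∪
      (B1 ∪ ((fun a : (J → ℝ) × ℝ => a.1) ⁻¹' C ∪ (up ⁻¹' C ∪
        ((fun a : (J → ℝ) × ℝ => a.1) ⁻¹' D ∪ up ⁻¹' D)))) := by
    intro a _
    by_cases c1 : a ∈ B1
    · exact Or.inr (Or.inl c1)
    by_cases c2 : a.1 ∈ C
    · exact Or.inr (Or.inr (Or.inl c2))
    by_cases c3 : up a ∈ C
    · exact Or.inr (Or.inr (Or.inr (Or.inl c3)))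
    by_cases c4 : a.1 ∈ D
    · exact Or.inr (Or.inr (Or.inr (Or.inr (Or.inl c4))))
    by_cases c5 : up a ∈ D
    · exact Or.inr (Or.inr (Or.inr (Or.inr (Or.inr c5))))
    left
    have d1 : 1 ≤ |a.1 j - a.2| := not_lt.1 c1
    have d2 : Hc v R ψ χ z a.1 j ≤ 10 ^ 5 := not_lt.1 c2
    have d3 : Hc v R ψ χ z (up a) j ≤ 10 ^ 5 := not_lt.1 c3
    have d4 : |χ (z a.1 j)| ≤ Y := (not_le.1 c4).le
    have d5 : |χ (z (up a) j)| ≤ Y := (not_le.1 c5).le
    have e4 : |z a.1 j| ≤ 1 := h.unit.A3 _ d4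
    have e5 : |z (up a) j| ≤ 1 := h.unit.A3 _ d5
    have e6 : f a.1 = z a.1 j := (clip_facts _).2 e4
    have e7 : f (up a) = z (up a) j := (clip_facts _).2 e5
    have e8 := curv h a.1 (up a) j (fun l hl => by
      simp only [hup]
      rw [Function.update_of_ne hl])
    have e9 : up a j = a.2 := by simp [hup]
    rw [e9] at e8
    have e10 : 1 / 200001 ≤ |z a.1 j - z (up a) j| := by
      have e11 : (1 + Hc v R ψ χ z a.1 j + Hc v R ψ χ z (up a) j) * |z a.1 j - z (up a) j| ≤
          200001 * |z a.1 j - z (up a) j| :=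
        mul_le_mul_of_nonneg_right (by linarith) (abs_nonneg _)
      rw [div_le_iff₀ (by norm_num)]
      linarith
    change 1 / 200001 ^ 2 ≤ (f a.1 - f (up a)) ^ 2
    rw [e6, e7, ← sq_abs (z a.1 j - z (up a) j)]
    calc (1 / 200001 ^ 2 : ℝ) = (1 / 200001) ^ 2 := by norm_num
      _ ≤ _ := pow_le_pow_left₀ (by norm_num) e10 2
  have tot : 1 ≤ μ.real {a | 1 / 200001 ^ 2 ≤ F a} + (0.58 + (0.11823 + (0.11823 + (0.001 + 0.001)))) := by
    have u1 : μ.real (Set.univ : Set ((J → ℝ) × ℝ)) = 1 := by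
      rw [hμ]
      exact probReal_univ
    calc (1 : ℝ) = μ.real (Set.univ : Set ((J → ℝ) × ℝ)) := u1.symm
      _ ≤ _ := measureReal_mono cover
      _ ≤ μ.real {a | 1 / 200001 ^ 2 ≤ F a} + _ := measureReal_union_le _ _
      _ ≤ _ := by
          refine add_le_add le_rfl ((measureReal_union_le _ _).trans (add_le_add P1 ?_))
          refine (measureReal_union_le _ _).trans (add_le_add ((pre _ hfst C).trans PC) ?_)
          refine (measureReal_union_le _ _).trans (add_le_add ((pre _ hmp C).trans PC) ?_)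
          exact (measureReal_union_le _ _).trans (add_le_add ((pre _ hfst D).trans PD)
            ((pre _ hmp D).trans PD))
  have M2 : (1 / 200001 ^ 2 : ℝ) * μ.real {a | 1 / 200001 ^ 2 ≤ F a} ≤ 4 * ∫ g, f g ^ 2 ∂gam J :=
    M1.trans E3
  have M3 : (0.18 : ℝ) ≤ μ.real {a | 1 / 200001 ^ 2 ≤ F a} := by
    norm_num at tot ⊢
    linarith
  have M4 : (1 / 200001 ^ 2 : ℝ) * 0.18 ≤ 4 * ∫ g, f g ^ 2 ∂gam J :=
    (mul_le_mul_of_nonneg_left M3 (by norm_num)).trans M2
  have M5 : (1 / 200001 ^ 2 * 0.18 : ℝ) / 4 ≤ ∫ g, f g ^ 2 ∂gam J := by linarith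
  refine le_trans ?_ M5
  norm_num

end Pool.Agent.SVR
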