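import Pool.Agent.SVR.Defs

set_option autoImplicit false

/-!
# [SVR-Two] the two-point identity, nonexpansiveness, oddness, continuity

`two_point`: subtract the equations of `x` and `x'`, multiply by `x j - x' j` and sum over `j`;
`∑ j, (x j - x' j) * ∑ i, v i j * (p (lin v i x) - p (lin v i x'))
  = ∑ i, (lin v i x - lin v i x') * (p .. - p ..)` (`Finset.sum_comm`).
`sol_lip`: the two sums with `p`, `q` are nonnegative (monotone), so
`nsq (x - x') ≤ ∑ (g-g')(x-x') ≤ √(nsq (g-g')) √(nsq (x-x'))`.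
`two_le`: the same computation, keeping the nonnegative sums:
`∑ (g-g')(x-x') ≤ √(nsq (g-g')) √(nsq (x-x')) ≤ nsq (g-g')`.
`sol_unique`: from `sol_lip` with `g = g'`.
`z_odd`: `-z g` solves the equation with noise `-g` (`p`, `q` odd, `lin` linear); uniqueness.
`z_cont`: every coordinate satisfies `|z g j - z g' j| ≤ √(nsq (g - g'))`.
-/

namespace Pool.Agent.SVR

open MeasureTheory Finset

variable {I J : Type} [Fintype I] [Fintype J]

theorem two_point (v : I → J → ℝ) (p q : ℝ → ℝ) (g g' x x' : J → ℝ)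
    (h : Sol v p q g x) (h' : Sol v p q g' x') :
    nsq (x - x') + ∑ i, (lin v i x - lin v i x') * (p (lin v i x) - p (lin v i x')) +
      ∑ j, (x j - x' j) * (q (x j) - q (x' j)) = ∑ j, (g j - g' j) * (x j - x' j) := by
  have e1 : ∑ i, (lin v i x - lin v i x') * (p (lin v i x) - p (lin v i x')) =
      ∑ j, (x j - x' j) * ∑ i, v i j * (p (lin v i x) - p (lin v i x')) := by
    simp only [lin, Finset.mul_sum, ← Finset.sum_sub_distrib, Finset.sum_mul]
    rw [Finset.sum_comm]
    refine Finset.sum_congr rfl fun j _ => Finset.sum_congr rfl fun i _ => ?_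
    ring
  rw [e1, nsq, ← Finset.sum_add_distrib, ← Finset.sum_add_distrib]
  refine Finset.sum_congr rfl fun j _ => ?_
  have h1 := h j
  have h2 := h' j
  have h3 : ∑ i, v i j * (p (lin v i x) - p (lin v i x')) =
      ∑ i, v i j * p (lin v i x) - ∑ i, v i j * p (lin v i x') := by
    rw [← Finset.sum_sub_distrib]
    refine Finset.sum_congr rfl fun i _ => ?_
    ring
  rw [h3, Pi.sub_apply, ← h1, ← h2]
  ring

theorem two_le (v : I → J → ℝ) (p q : ℝ → ℝ) (hp : Monotone p) (hq : Monotone q)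
    (g g' x x' : J → ℝ) (h : Sol v p q g x) (h' : Sol v p q g' x') :
    nsq (x - x') + ∑ i, (lin v i x - lin v i x') * (p (lin v i x) - p (lin v i x')) +
      ∑ j, (x j - x' j) * (q (x j) - q (x' j)) ≤ nsq (g - g') := by
  have hm : ∀ r : ℝ → ℝ, Monotone r → ∀ s t : ℝ, 0 ≤ (s - t) * (r s - r t) := by
    intro r hr s t
    rcases le_total s t with hst | hst
    · exact mul_nonneg_of_nonpos_of_nonpos (by linarith) (by linarith [hr hst])
    · exact mul_nonneg (by linarith) (by linarith [hr hst])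
  have hA : 0 ≤ ∑ i, (lin v i x - lin v i x') * (p (lin v i x) - p (lin v i x')) :=
    Finset.sum_nonneg fun i _ => hm p hp _ _
  have hB : 0 ≤ ∑ j, (x j - x' j) * (q (x j) - q (x' j)) :=
    Finset.sum_nonneg fun j _ => hm q hq _ _
  have hN : 0 ≤ nsq (x - x') := Finset.sum_nonneg fun j _ => sq_nonneg _
  have hG : 0 ≤ nsq (g - g') := Finset.sum_nonneg fun j _ => sq_nonneg _
  have hS := two_point v p q g g' x x' h h'
  have hC : (∑ j, (g j - g' j) * (x j - x' j)) ^ 2 ≤ nsq (g - g') * nsq (x - x') := by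
    have := Finset.sum_mul_sq_le_sq_mul_sq Finset.univ (fun j => g j - g' j)
      (fun j => x j - x' j)
    simpa [nsq] using this
  rw [hS]
  set S := ∑ j, (g j - g' j) * (x j - x' j) with hSdef
  have hSN : nsq (x - x') ≤ S := by linarith
  rcases eq_or_lt_of_le (hN.trans hSN) with h0 | h0
  · rw [← h0]; exact hG
  · have h1 : S ^ 2 ≤ nsq (g - g') * S := hC.trans (mul_le_mul_of_nonneg_left hSN hG)
    have h2 : S * S ≤ nsq (g - g') * S := by rw [← sq]; exact h1
    exact le_of_mul_le_mul_right h2 h0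

theorem sol_lip (v : I → J → ℝ) (p q : ℝ → ℝ) (hp : Monotone p) (hq : Monotone q)
    (g g' x x' : J → ℝ) (h : Sol v p q g x) (h' : Sol v p q g' x') :
    nsq (x - x') ≤ nsq (g - g') := by
  have hm : ∀ r : ℝ → ℝ, Monotone r → ∀ s t : ℝ, 0 ≤ (s - t) * (r s - r t) := by
    intro r hr s t
    rcases le_total s t with hst | hst
    · exact mul_nonneg_of_nonpos_of_nonpos (by linarith) (by linarith [hr hst])
    · exact mul_nonneg (by linarith) (by linarith [hr hst])
  have hA : 0 ≤ ∑ i, (lin v i x - lin v i x') * (p (lin v i x) - p (lin v i x')) :=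
    Finset.sum_nonneg fun i _ => hm p hp _ _
  have hB : 0 ≤ ∑ j, (x j - x' j) * (q (x j) - q (x' j)) :=
    Finset.sum_nonneg fun j _ => hm q hq _ _
  have := two_le v p q hp hq g g' x x' h h'
  linarith

theorem two_unique (v : I → J → ℝ) (p q : ℝ → ℝ) (hp : Monotone p) (hq : Monotone q)
    (g x x' : J → ℝ) (h : Sol v p q g x) (h' : Sol v p q g x') : x = x' := by
  have h1 := sol_lip v p q hp hq g g x x' h h'
  have h2 : nsq (g - g) = 0 := by simp [nsq]
  rw [h2] at h1
  have h3 : nsq (x - x') = 0 := le_antisymm h1 (Finset.sum_nonneg fun j _ => sq_nonneg _)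
  funext j
  have h4 := (Finset.sum_eq_zero_iff_of_nonneg (fun j _ => sq_nonneg ((x - x') j))).mp h3 j
    (Finset.mem_univ j)
  have h5 : (x - x') j = 0 := pow_eq_zero_iff (two_ne_zero) |>.mp h4
  rw [Pi.sub_apply] at h5
  linarith

variable {v : I → J → ℝ} {ρ R Y : ℝ} {p ψ q χ : ℝ → ℝ} {z : (J → ℝ) → (J → ℝ)}

theorem Sys.q_mono (h : Sys v ρ R Y p ψ q χ z) : Monotone q := h.unit.p_mono

theorem Sys.lip (h : Sys v ρ R Y p ψ q χ z) (g g' : J → ℝ) : nsq (z g - z g') ≤ nsq (g - g') :=
  sol_lip v p q h.pot.p_mono h.q_mono g g' (z g) (z g') (h.prox g) (h.prox g')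

theorem Sys.odd (h : Sys v ρ R Y p ψ q χ z) (g : J → ℝ) : z (-g) = -z g := by
  apply two_unique v p q h.pot.p_mono h.q_mono (-g) (z (-g)) (-z g) (h.prox (-g))
  intro j
  have hl : ∀ i, lin v i (-z g) = -lin v i (z g) := by
    intro i
    simp [lin]
  have h1 := h.prox g j
  have h2 : ∑ i, v i j * p (lin v i (-z g)) = -∑ i, v i j * p (lin v i (z g)) := by
    rw [← Finset.sum_neg_distrib]
    refine Finset.sum_congr rfl fun i _ => ?_
    rw [hl, h.pot.p_odd]
    ring
  rw [h2, Pi.neg_apply, Pi.neg_apply, h.unit.p_odd]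
  linarith

theorem Sys.cont (h : Sys v ρ R Y p ψ q χ z) : Continuous z := by
  rw [continuous_pi_iff]
  intro j
  rw [continuous_iff_continuousAt]
  intro g0
  have h1 : ∀ g, |z g j - z g0 j| ≤ √(nsq (g - g0)) := by
    intro g
    have h2 := h.lip g g0
    have h3 : (z g j - z g0 j) ^ 2 ≤ nsq (z g - z g0) :=
      Finset.single_le_sum (f := fun j => (z g - z g0) j ^ 2) (fun j _ => sq_nonneg _)
        (Finset.mem_univ j)
    exact Real.abs_le_sqrt (h3.trans h2)
  have h4 : Filter.Tendsto (fun g : J → ℝ => √(nsq (g - g0))) (nhds g0) (nhds 0) := by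
    have hc : Continuous fun g : J → ℝ => √(nsq (g - g0)) := by
      unfold nsq
      fun_prop
    have h5 := hc.tendsto g0
    simpa [nsq] using h5
  rw [ContinuousAt, tendsto_iff_dist_tendsto_zero]
  refine squeeze_zero (fun _ => dist_nonneg) (fun g => ?_) h4
  rw [Real.dist_eq]
  exact h1 g

end Pool.Agent.SVR
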